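import Pool.Agent.NodHyp.Defs
import Pool.Agent.QuadAll.PNotSq

set_option autoImplicit false

/-! # IND2: the relations of the charts of the second kind are independent modulo `P ^ 2`

`γ G + ∑ β_i (y'_i - p^s z_i) ∈ P ^ 2`, `G = Q(z) + u p^(k-2s)`, `q_c = ((B + Bᵀ) z)_c = ∂G/∂z_c`.
* `∂/∂z_c`: `- β_c p^s + γ q_c ∈ P`;  `∂/∂y_c`: `∑ β_i H_ci + γ ∂G/∂y_c ∈ P`.
Case some `z_c ∉ P`: then `k ≥ 2` (if `k = 1`, `s = 0`: `z_c ≡ y'_c ∈ P`), `s ≥ 1`, some `q_c ∉ P`: `γ ∈ P`, `β ∈ P`.
Case all `z_c ∈ P`: `Q(z) ∈ P ^ 2`, `u p^(k-2s) ∈ P`, so `k = 2 s + 1`. If `s = 0` then `β_c ∈ P` from `∂/∂z_c`; if `s ≥ 1`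
then `p^s z_i ∈ P ^ 2` and `∑ β_i y'_i + γ u p ∈ P ^ 2`, `∂/∂y_c` gives `β ∈ P`. Then `γ u p ∈ P ^ 2`, `γ ∈ P`. -/

namespace Pool.Agent.NH

open MvPolynomial

namespace Ind2Aux

/-- A derivation maps `P ^ 2` to `P`. -/
theorem der_sq {R A : Type*} [CommRing R] [CommRing A] [Algebra R A] (D : Derivation R A A)
    (P : Ideal A) {x : A}
    (hx : x ∈ P ^ 2) : D x ∈ P := by
  rw [pow_two] at hx
  refine Submodule.mul_induction_on hx ?_ ?_
  · intro a ha b hb
    rw [Derivation.leibniz, smul_eq_mul, smul_eq_mul]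
    exact P.add_mem (P.mul_mem_right _ ha) (P.mul_mem_right _ hb)
  · intro a b ha hb
    rw [map_add]
    exact P.add_mem ha hb

theorem der_rel {R A ι κ : Type*} [CommRing R] [CommRing A] [Algebra R A] [Fintype ι]
    [CommRing κ] (D : Derivation R A A) (P : Ideal A) (φ : A →+* κ) (hφ : ∀ x ∈ P, φ x = 0) (r a : ι → A) (hr : ∀ i, r i ∈ P)
    (ha : ∑ i, a i * r i ∈ P ^ 2) : ∑ i, φ (a i) * φ (D (r i)) = 0 := by
  have h := hφ _ (der_sq D P ha)
  rw [map_sum, map_sum] at h
  rw [← h]
  refine Finset.sum_congr rfl fun i _ => ?_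
  rw [Derivation.leibniz, smul_eq_mul, smul_eq_mul, map_add, map_mul, map_mul, hφ _ (hr i)]
  ring

theorem pderiv_inr_rename {σ τ : Type} (h : MvPolynomial σ ℤ) (c : τ) :
    pderiv (Sum.inr c) (rename (Sum.inl : σ → σ ⊕ τ) h) = 0 := by
  classical
  apply pderiv_eq_zero_of_notMem_vars
  intro hc
  have := vars_rename _ _ hc
  simp at this

theorem pderiv_inl_rename {σ τ : Type} (h : MvPolynomial σ ℤ) (c : σ) :
    pderiv (Sum.inl c) (rename (Sum.inl : σ → σ ⊕ τ) h) = rename Sum.inl (pderiv c h) :=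
  pderiv_rename Sum.inl_injective c h

theorem pderiv_inr_X {σ τ : Type} [DecidableEq τ] (i c : τ) :
    pderiv (Sum.inr c) (X (Sum.inr i) : MvPolynomial (σ ⊕ τ) ℤ) = if i = c then 1 else 0 := by
  classical
  rw [pderiv_X]
  by_cases hic : i = c
  · subst hic
    simp
  · rw [if_neg hic, Pi.single_eq_of_ne (by simpa using hic)]

/-- an injective matrix over a field -/
theorem vec_zero {σ κ : Type} [Fintype σ] [DecidableEq σ] [Field κ] (M : Matrix σ σ κ)
    (hM : M.det ≠ 0) (v : σ → κ) (h : ∀ c, ∑ j, M c j * v j = 0) : ∀ j, v j = 0 := by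
  have h1 : M.mulVec v = 0 := by
    ext c
    exact h c
  have h2 := Matrix.eq_zero_of_mulVec_eq_zero hM h1
  intro j
  rw [h2]
  rfl

end Ind2Aux

open Ind2Aux

theorem ind2 {σ : Type} [Fintype σ] [DecidableEq σ] (f : MvPolynomial σ ℤ) {p : ℕ}
    (hp : p.Prime) {k s : ℕ} (hk : 1 ≤ k) (hks : k = 2 * s ∨ k = 2 * s + 1)
    (B : Matrix σ σ (MvPolynomial σ ℤ)) (u : MvPolynomial σ ℤ)
    (P : Ideal (MvPolynomial (V2 σ) ℤ)) [P.IsPrime] (hpP : C (p : ℤ) ∈ P)
    (hrel : ∀ i, rel2 f p k s B u i ∈ P) (hd : ∀ i, rename Sum.inl (pderiv i f) ∈ P)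
    (hH : rename Sum.inl (hess f).det ∉ P) (hu : rename Sum.inl u ∉ P)
    (hB : 2 ≤ k → rename Sum.inl (B + B.transpose).det ∉ P)
    (a : Option σ → MvPolynomial (V2 σ) ℤ)
    (ha : ∑ i, a i * rel2 f p k s B u i ∈ P ^ 2) : ∀ i, a i ∈ P := by
  let κ := FractionRing (MvPolynomial (V2 σ) ℤ ⧸ P)
  let φ : MvPolynomial (V2 σ) ℤ →+* κ :=
    (algebraMap (MvPolynomial (V2 σ) ℤ ⧸ P) κ).comp (Ideal.Quotient.mk P)
  have hφ : ∀ x, φ x = 0 ↔ x ∈ P := by
    intro x
    change algebraMap (MvPolynomial (V2 σ) ℤ ⧸ P) κ (Ideal.Quotient.mk P x) = 0 ↔ _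
    rw [FaithfulSMul.algebraMap_eq_zero_iff, Ideal.Quotient.eq_zero_iff_mem]
  have hφp : φ (C (p : ℤ)) = 0 := (hφ _).2 hpP
  have hsome : ∀ i, φ (rel2 f p k s B u (some i)) = 0 := fun i => (hφ _).2 (hrel _)
  have hps : ∀ i, φ (C (p : ℤ)) ^ s * φ (X (Sum.inr i)) = 0 := by
    intro i
    have h1 := hsome i
    have h2 : rel2 f p k s B u (some i) =
      rename Sum.inl (pderiv i f) - C (p : ℤ) ^ s * X (Sum.inr i) := rfl
    rw [h2, map_sub, (hφ _).2 (hd i), map_mul, map_pow] at h1
    rw [zero_sub, neg_eq_zero] at h1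
    exact h1
  -- the two families of derivatives
  have hz : ∀ c : σ, φ (a none) * ∑ j, φ (rename Sum.inl ((B + B.transpose) c j)) *
      φ (X (Sum.inr j)) = φ (a (some c)) * φ (C (p : ℤ)) ^ s := by
    intro c
    have h1 := der_rel (pderiv (Sum.inr c)) P φ (fun x hx => (hφ x).2 hx) _ a hrel ha
    rw [Fintype.sum_option] at h1
    have h2 : ∀ i : σ, pderiv (Sum.inr c) (rel2 f p k s B u (some i)) =
        - (if i = c then C (p : ℤ) ^ s else 0) := by
      intro i
      have h3 : rel2 f p k s B u (some i) =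
        rename Sum.inl (pderiv i f) - C (p : ℤ) ^ s * X (Sum.inr i) := rfl
      rw [h3, map_sub, pderiv_inr_rename, ← map_pow C, pderiv_C_mul, pderiv_X]
      by_cases hic : i = c
      · subst hic
        simp
      · rw [if_neg hic, Pi.single_eq_of_ne (by simpa using hic)]
        simp
    have h4 : pderiv (Sum.inr c) (rel2 f p k s B u none) =
        ∑ j, rename Sum.inl ((B + B.transpose) c j) * X (Sum.inr j) := by
      have h3 : rel2 f p k s B u none =
        ∑ i, ∑ j, rename Sum.inl (B i j) * X (Sum.inr i) * X (Sum.inr j) +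
          rename Sum.inl u * C (p : ℤ) ^ (k - 2 * s) := rfl
      rw [h3, map_add, ← map_pow C, mul_comm (rename Sum.inl u), pderiv_C_mul,
        pderiv_inr_rename, mul_zero, add_zero, map_sum]
      have h5 : ∀ i, pderiv (Sum.inr c)
          (∑ j, rename Sum.inl (B i j) * X (Sum.inr i) * X (Sum.inr j) : MvPolynomial (V2 σ) ℤ) =
          (if i = c then ∑ j, rename Sum.inl (B i j) * X (Sum.inr j) else 0) +
            rename Sum.inl (B i c) * X (Sum.inr i) := by
        intro i
        rw [map_sum]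
        have h6 : ∀ j, pderiv (Sum.inr c)
            (rename Sum.inl (B i j) * X (Sum.inr i) * X (Sum.inr j) : MvPolynomial (V2 σ) ℤ) =
            (if i = c then rename Sum.inl (B i j) * X (Sum.inr j) else 0) +
              (if j = c then rename Sum.inl (B i j) * X (Sum.inr i) else 0) := by
          intro j
          rw [pderiv_mul, pderiv_mul, pderiv_inr_rename, pderiv_inr_X, pderiv_inr_X]
          by_cases hic : i = c <;> by_cases hjc : j = c <;> simp [hic, hjc]
        rw [Finset.sum_congr rfl fun j _ => h6 j, Finset.sum_add_distrib]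
        congr 1
        · by_cases hic : i = c
          · simp [hic]
          · simp [hic]
        · simp
      rw [Finset.sum_congr rfl fun i _ => h5 i, Finset.sum_add_distrib]
      rw [Finset.sum_ite_eq' Finset.univ c, if_pos (Finset.mem_univ _), ← Finset.sum_add_distrib]
      refine Finset.sum_congr rfl fun j _ => ?_
      rw [Matrix.add_apply, Matrix.transpose_apply, map_add]
      ring
    have h7 : ∀ i, φ (a (some i)) * φ (-(if i = c then C (p : ℤ) ^ s else 0)) =
        if i = c then - (φ (a (some c)) * φ (C (p : ℤ)) ^ s) else 0 := by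
      intro i
      by_cases hic : i = c
      · subst hic
        rw [if_pos rfl, if_pos rfl, map_neg, map_pow, mul_neg]
      · rw [if_neg hic, if_neg hic, neg_zero, map_zero, mul_zero]
    have h8 : ∑ i, φ (a (some i)) * φ (pderiv (Sum.inr c) (rel2 f p k s B u (some i))) =
        - (φ (a (some c)) * φ (C (p : ℤ)) ^ s) := by
      have h9 : ∀ i ∈ Finset.univ, φ (a (some i)) *
          φ (pderiv (Sum.inr c) (rel2 f p k s B u (some i))) =
          if i = c then - (φ (a (some c)) * φ (C (p : ℤ)) ^ s) else 0 := by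
        intro i _
        rw [h2 i, h7 i]
      rw [Finset.sum_congr rfl h9, Finset.sum_ite_eq' Finset.univ c, if_pos (Finset.mem_univ _)]
    rw [h8, h4, map_sum] at h1
    simp only [map_mul] at h1
    linear_combination h1
  have hy : ∀ c : σ, φ (a none) * φ (pderiv (Sum.inl c) (rel2 f p k s B u none)) +
      ∑ i, φ (rename Sum.inl (hess f c i)) * φ (a (some i)) = 0 := by
    intro c
    have h1 := der_rel (pderiv (Sum.inl c)) P φ (fun x hx => (hφ x).2 hx) _ a hrel ha
    rw [Fintype.sum_option] at h1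
    have h2 : ∀ i : σ, pderiv (Sum.inl c) (rel2 f p k s B u (some i)) =
        rename Sum.inl (hess f c i) := by
      intro i
      have h3 : rel2 f p k s B u (some i) =
        rename Sum.inl (pderiv i f) - C (p : ℤ) ^ s * X (Sum.inr i) := rfl
      rw [h3, map_sub, pderiv_inl_rename, ← map_pow C, pderiv_C_mul, pderiv_X,
        Pi.single_eq_of_ne (by simp)]
      simp [hess]
    rw [Finset.sum_congr rfl fun i _ => by rw [h2 i]] at h1
    rw [← h1]
    congr 1
    refine Finset.sum_congr rfl fun i _ => ?_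
    ring
  -- conclusion from `γ ∂_c G = 0`
  have hHdet : ((hess f).map fun x => φ (rename Sum.inl x)).det ≠ 0 := by
    have h1 : ((hess f).map fun x => φ (rename Sum.inl x)).det =
        φ (rename Sum.inl (hess f).det) := by
      have h2 : (φ.comp (rename (Sum.inl : σ → V2 σ)).toRingHom) (hess f).det =
          ((hess f).map (φ.comp (rename (Sum.inl : σ → V2 σ)).toRingHom)).det :=
        RingHom.map_det _ _
      exact h2.symm
    rw [h1]
    exact fun h => hH ((hφ _).1 h)
  have hβ : (∀ c : σ, φ (a none) * φ (pderiv (Sum.inl c) (rel2 f p k s B u none)) = 0) →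
      ∀ i, φ (a (some i)) = 0 := by
    intro h0
    apply vec_zero _ hHdet
    intro c
    have h1 := hy c
    rw [h0 c, zero_add] at h1
    exact h1
  by_cases hall : ∀ c : σ, φ (X (Sum.inr c)) = 0
  · -- all `z_c` are in `P`
    have hG : rel2 f p k s B u none =
        ∑ i, ∑ j, rename Sum.inl (B i j) * X (Sum.inr i) * X (Sum.inr j) +
          rename Sum.inl u * C (p : ℤ) ^ (k - 2 * s) := rfl
    have hQ : (∑ i, ∑ j, rename Sum.inl (B i j) * X (Sum.inr i) * X (Sum.inr j) :
        MvPolynomial (V2 σ) ℤ) ∈ P ^ 2 := by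
      refine Ideal.sum_mem _ fun i _ => Ideal.sum_mem _ fun j _ => ?_
      rw [mul_assoc, pow_two]
      exact (P * P).mul_mem_left _ (Ideal.mul_mem_mul ((hφ _).1 (hall i)) ((hφ _).1 (hall j)))
    have hQP : (∑ i, ∑ j, rename Sum.inl (B i j) * X (Sum.inr i) * X (Sum.inr j) :
        MvPolynomial (V2 σ) ℤ) ∈ P := Ideal.pow_le_self (by norm_num) hQ
    have hup : rename Sum.inl u * C (p : ℤ) ^ (k - 2 * s) ∈ P := by
      have h1 := hrel none
      rw [hG] at h1
      exact (Ideal.add_mem_iff_right P hQP).1 h1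
    have hk1 : k - 2 * s = 1 := by
      rcases hks with h | h
      · exfalso
        rw [h, Nat.sub_self, pow_zero, mul_one] at hup
        exact hu hup
      · omega
    have hβ' : ∀ i, φ (a (some i)) = 0 := by
      apply hβ
      intro c
      have h1 : φ (pderiv (Sum.inl c) (rel2 f p k s B u none)) = 0 := by
        rw [hG, map_add, map_add]
        have h2 : φ (pderiv (Sum.inl c) (∑ i, ∑ j, rename Sum.inl (B i j) * X (Sum.inr i) *
            X (Sum.inr j) : MvPolynomial (V2 σ) ℤ)) = 0 :=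
          (hφ _).2 (der_sq (pderiv (Sum.inl c)) P hQ)
        rw [h2, hk1, pow_one, mul_comm, pderiv_C_mul, zero_add]
        rw [map_mul, hφp, zero_mul]
      rw [h1, mul_zero]
    have h1 : a none * (rename Sum.inl u * C (p : ℤ)) ∈ P ^ 2 := by
      have h2 : a none * (rename Sum.inl u * C (p : ℤ)) =
          (∑ i, a i * rel2 f p k s B u i) - (∑ i, a (some i) * rel2 f p k s B u (some i)) -
            a none * (∑ i, ∑ j, rename Sum.inl (B i j) * X (Sum.inr i) * X (Sum.inr j)) := by
        rw [Fintype.sum_option, hG, hk1, pow_one]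
        ring
      rw [h2]
      refine Ideal.sub_mem _ (Ideal.sub_mem _ ha (Ideal.sum_mem _ fun i _ => ?_))
        (Ideal.mul_mem_left _ _ hQ)
      rw [pow_two]
      exact Ideal.mul_mem_mul ((hφ _).1 (hβ' i)) (hrel _)
    have h2 : a none * rename Sum.inl u ∈ P := by
      apply QuadAll.mem_of_prime_mul_mem_sq p hp P hpP
      have h3 : C (p : ℤ) * (a none * rename Sum.inl u) =
          a none * (rename Sum.inl u * C (p : ℤ)) := by ring
      rw [h3]
      exact h1
    have h3 : a none ∈ P := (Ideal.IsPrime.mem_or_mem inferInstance h2).resolve_right hu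
    intro i
    rcases i with _ | i
    · exact h3
    · exact (hφ _).1 (hβ' i)
  · -- some `z_c` is not in `P`
    push_neg at hall
    obtain ⟨c₀, hc₀⟩ := hall
    have hs : s ≠ 0 := by
      intro hs
      have h1 := hps c₀
      rw [hs, pow_zero, one_mul] at h1
      exact hc₀ h1
    have hk2 : 2 ≤ k := by omega
    have hps0 : φ (C (p : ℤ)) ^ s = 0 := by
      rw [hφp]
      exact zero_pow hs
    have hBdet : ((B + B.transpose).map fun x => φ (rename Sum.inl x)).det ≠ 0 := by
      have h1 : ((B + B.transpose).map fun x => φ (rename Sum.inl x)).det =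
          φ (rename Sum.inl (B + B.transpose).det) := by
        have h2 : (φ.comp (rename (Sum.inl : σ → V2 σ)).toRingHom) (B + B.transpose).det =
            ((B + B.transpose).map (φ.comp (rename (Sum.inl : σ → V2 σ)).toRingHom)).det :=
          RingHom.map_det _ _
        exact h2.symm
      rw [h1]
      exact fun h => hB hk2 ((hφ _).1 h)
    have hγ : φ (a none) = 0 := by
      by_contra hγ
      have h1 : ∀ c, ∑ j, φ (rename Sum.inl ((B + B.transpose) c j)) * φ (X (Sum.inr j)) = 0 := by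
        intro c
        have h2 := hz c
        rw [hps0, mul_zero] at h2
        exact (mul_eq_zero.1 h2).resolve_left hγ
      exact hc₀ (vec_zero _ hBdet (fun j => φ (X (Sum.inr j))) h1 c₀)
    have hβ' := hβ (fun c => by rw [hγ, zero_mul])
    intro i
    rcases i with _ | i
    · exact (hφ _).1 hγ
    · exact (hφ _).1 (hβ' i)

end Pool.Agent.NH
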