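import Pool.Agent.NodHyp.Defs
import Pool.Agent.QuadAll.PresReg

set_option autoImplicit false

/-! # LOC: local rings in a field presented by a polynomial ring -/

namespace Pool.Agent.NH

open MvPolynomial

/-- units of a subring of a field -/
theorem LOC_isUnit_iff {K : Type} [Field K] (O : Subring K) (x : O) :
    IsUnit x ↔ (x : K) ≠ 0 ∧ (x : K)⁻¹ ∈ O := by
  constructor
  · intro h
    obtain ⟨y, hy⟩ := h.exists_right_inv
    have h1 : (x : K) * (y : K) = 1 := by
      have := congrArg (Subtype.val) hy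
      simpa using this
    have h2 : (x : K) ≠ 0 := left_ne_zero_of_mul_eq_one h1
    refine ⟨h2, ?_⟩
    have h3 : (x : K)⁻¹ = (y : K) := inv_eq_of_mul_eq_one_right h1
    rw [h3]
    exact y.2
  · rintro ⟨h1, h2⟩
    refine IsUnit.of_mul_eq_one (⟨(x : K)⁻¹, h2⟩ : O) ?_
    apply Subtype.ext
    simp [h1]

/-- A local subring `O` of a field whose elements are fractions of elements of the subring `A`
(with denominators invertible in `O`) is the localisation of `A` at a prime.
Proof: `Q` = preimage of the maximal ideal; `IsLocalization.AtPrime O Q`, hence `O ≃ Localization.AtPrime Q`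
(compare `LocalSubring.ofPrimeEquiv`). -/
theorem regular_of_sub {K : Type} [Field K] (O : Subring K) [IsLocalRing O] (A : Subring K)
    (hA : A ≤ O) (hfrac : ∀ x ∈ O, ∃ u ∈ A, ∃ v ∈ A, v ≠ 0 ∧ v⁻¹ ∈ O ∧ x * v = u)
    (hreg : ∀ (Q : Ideal A) [Q.IsPrime], (∀ x : A, x ∈ Q ↔ ((x : K) = 0 ∨ ((x : K))⁻¹ ∉ O)) →
      IsRegularLocalRing (Localization.AtPrime Q)) : IsRegularLocalRing O := by
  classical
  let φ : A →+* O := Subring.inclusion hA
  have hφ : ∀ x : A, ((φ x : O) : K) = (x : K) := fun x => rfl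
  let Q : Ideal A := (IsLocalRing.maximalIdeal O).comap φ
  have hQp : Q.IsPrime := Ideal.IsPrime.comap φ
  have hQ : ∀ x : A, x ∈ Q ↔ ((x : K) = 0 ∨ ((x : K))⁻¹ ∉ O) := by
    intro x
    rw [Ideal.mem_comap, IsLocalRing.mem_maximalIdeal, mem_nonunits_iff, LOC_isUnit_iff, hφ]
    tauto
  have hr := hreg Q hQ
  let _ : Algebra A O := φ.toAlgebra
  have hloc : IsLocalization.AtPrime O Q := by
    constructor
    constructor
    · intro y
      have hy : ¬ (((y : A) : K) = 0 ∨ (((y : A) : K))⁻¹ ∉ O) := fun h => y.2 ((hQ _).2 h)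
      show IsUnit (φ y)
      rw [LOC_isUnit_iff, hφ]
      push Not at hy
      exact hy
    · intro x
      obtain ⟨u, hu, v, hv, hv0, hvi, hx⟩ := hfrac x.1 x.2
      have hvQ : (⟨v, hv⟩ : A) ∉ Q := by
        rw [hQ]
        push Not
        exact ⟨hv0, hvi⟩
      refine ⟨(⟨u, hu⟩, ⟨⟨v, hv⟩, hvQ⟩), ?_⟩
      apply Subtype.ext
      exact hx
    · intro x y h
      refine ⟨1, ?_⟩
      have h1 : (x : K) = (y : K) := congrArg (fun z : O => (z : K)) h
      rw [Subtype.ext h1]
  exact IsRegularLocalRing.of_ringEquiv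
    (IsLocalization.algEquiv Q.primeCompl (Localization.AtPrime Q) O).toRingEquiv

/-- The localisation of a subring of a field at a prime, as a local subring (Mathlib:
`LocalSubring.ofPrime A.toSubring`, `LocalSubring.ofPrimeEquiv`). -/
theorem regular_of_localSub {K : Type} [Field K] (A : Subalgebra ℤ K) (Q : Ideal A) [Q.IsPrime]
    (h : ∀ (O : Subring K) [IsLocalRing O], (∀ z ∈ A, z ∈ O) →
      (∀ x ∈ O, ∃ u ∈ A, ∃ v ∈ A, v ≠ 0 ∧ v⁻¹ ∈ O ∧ x * v = u) →
      (∀ z : A, z ∈ Q ↔ ((z : K) = 0 ∨ ((z : K))⁻¹ ∉ O)) → IsRegularLocalRing O) :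
    IsRegularLocalRing (Localization.AtPrime Q) := by
  classical
  have hne : ∀ v : Q.primeCompl, ((v : A) : K) ≠ 0 := by
    intro v hv
    apply v.2
    have h1 : (v : A) = 0 := Subtype.ext hv
    rw [h1]
    exact Q.zero_mem
  let ψ : A →+* K := algebraMap A K
  have hψ : ∀ x : A, ψ x = (x : K) := fun x => rfl
  have hunit : ∀ v : Q.primeCompl, IsUnit (ψ v) := fun v => (isUnit_iff_ne_zero).2 (hne v)
  let φ : Localization.AtPrime Q →+* K := IsLocalization.lift hunit
  have hφ : ∀ x : A, φ (algebraMap A (Localization.AtPrime Q) x) = (x : K) := fun x =>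
    IsLocalization.lift_eq hunit x
  have hmk : ∀ (u : A) (v : Q.primeCompl),
      φ (IsLocalization.mk' (Localization.AtPrime Q) u v) * ((v : A) : K) = (u : K) := by
    intro u v
    rw [← hφ v, ← map_mul, IsLocalization.mk'_spec, hφ]
  have hinj : Function.Injective φ := by
    rw [injective_iff_map_eq_zero]
    intro x hx
    obtain ⟨u, v, rfl⟩ := IsLocalization.exists_mk'_eq Q.primeCompl x
    have h1 := hmk u v
    rw [hx, zero_mul] at h1
    have h2 : u = 0 := Subtype.ext h1.symm
    rw [h2, IsLocalization.mk'_zero]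
  let e : Localization.AtPrime Q ≃+* φ.range :=
    RingEquiv.ofBijective φ.rangeRestrict
      ⟨fun x y hxy => hinj (congrArg Subtype.val hxy), φ.rangeRestrict_surjective⟩
  have hlocal : IsLocalRing φ.range := e.isLocalRing
  have hinvmem : ∀ v : Q.primeCompl, (((v : A) : K))⁻¹ ∈ φ.range := by
    intro v
    refine ⟨IsLocalization.mk' _ 1 v, ?_⟩
    have h1 := hmk 1 v
    exact eq_inv_of_mul_eq_one_left (by simpa using h1)
  have hreg : IsRegularLocalRing φ.range := by
    refine h φ.range ?_ ?_ ?_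
    · intro z hz
      exact ⟨algebraMap A _ ⟨z, hz⟩, hφ ⟨z, hz⟩⟩
    · rintro x ⟨y, rfl⟩
      obtain ⟨u, v, rfl⟩ := IsLocalization.exists_mk'_eq Q.primeCompl y
      exact ⟨u, u.2, v, v.1.2, hne v, hinvmem v, hmk u v⟩
    · intro z
      constructor
      · intro hz
        by_cases h0 : (z : K) = 0
        · exact Or.inl h0
        · refine Or.inr ?_
          rintro ⟨y, hy⟩
          obtain ⟨u, v, rfl⟩ := IsLocalization.exists_mk'_eq Q.primeCompl y
          have h1 := hmk u v
          rw [hy] at h1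
          have h2 : ((v : A) : K) = (z : K) * (u : K) := by
            rw [← h1]
            field_simp
          have h3 : (v : A) = z * u := Subtype.ext h2
          exact v.2 (h3 ▸ Q.mul_mem_right u hz)
      · intro hz
        by_contra hzQ
        rcases hz with hz | hz
        · exact hne ⟨z, hzQ⟩ hz
        · exact hz (hinvmem ⟨z, hzQ⟩)
  exact IsRegularLocalRing.of_ringEquiv e.symm

/-- Regularity from a presentation: `QuadAll.isRegularLocalRing_of_presentation` (reindex `ι` by
`Fin r`, `C := π.range`) and `regular_of_sub`. -/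
theorem regular_of_pres {K T ι : Type} [Field K] [CommRing T] [IsRegularRing T] [Fintype ι]
    (O : Subring K) [IsLocalRing O] (π : T →+* K) (hπ : ∀ t, π t ∈ O)
    (hfrac : ∀ x ∈ O, ∃ u v : T, π v ≠ 0 ∧ (π v)⁻¹ ∈ O ∧ x * π v = π u)
    (g : ι → T) (hg : ∀ i, π (g i) = 0) (e : T) (he : π e ≠ 0)
    (htor : ∀ t, π t = 0 → ∃ n : ℕ, e ^ n * t ∈ Ideal.span (Set.range g))
    (hind : ∀ (P : Ideal T) [P.IsPrime], (∀ t, t ∈ P ↔ (π t = 0 ∨ (π t)⁻¹ ∉ O)) →
      ∀ a : ι → T, ∑ i, a i * g i ∈ P ^ 2 → ∀ i, a i ∈ P) : IsRegularLocalRing O := by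
  classical
  refine regular_of_sub O π.range ?_ ?_ ?_
  · rintro _ ⟨t, rfl⟩
    exact hπ t
  · intro x hx
    obtain ⟨u, v, h1, h2, h3⟩ := hfrac x hx
    exact ⟨π u, ⟨u, rfl⟩, π v, ⟨v, rfl⟩, h1, h2, h3⟩
  · intro Q _ hQ
    let E : ι ≃ Fin (Fintype.card ι) := Fintype.equivFin ι
    have hval : ∀ t, ((π.rangeRestrict t : π.range) : K) = π t := fun t => rfl
    have hzero : ∀ t, π.rangeRestrict t = 0 ↔ π t = 0 := by
      intro t
      constructor
      · intro h
        rw [← hval, h]
        rfl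
      · intro h
        exact Subtype.ext h
    have hrange : Set.range (g ∘ E.symm) = Set.range g := E.symm.surjective.range_comp g
    refine QuadAll.isRegularLocalRing_of_presentation π.rangeRestrict π.rangeRestrict_surjective
      (g ∘ E.symm) (fun i => (hzero _).2 (hg _)) e (fun h => he ((hzero _).1 h)) ?_ Q ?_
    · intro t ht
      rw [hrange]
      exact htor t ((hzero _).1 ht)
    · intro a ha i
      have hP : ∀ t, t ∈ Q.comap π.rangeRestrict ↔ (π t = 0 ∨ (π t)⁻¹ ∉ O) := by
        intro t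
        rw [Ideal.mem_comap, hQ]
        exact Iff.rfl
      have h1 : ∑ j, (a ∘ E) j * g j ∈ (Q.comap π.rangeRestrict) ^ 2 := by
        have h2 : ∑ j, (a ∘ E) j * g j = ∑ j, a j * (g ∘ E.symm) j := by
          rw [← Equiv.sum_comp E]
          refine Finset.sum_congr rfl fun j _ => ?_
          simp
        rw [h2]
        exact ha
      have h3 := hind (Q.comap π.rangeRestrict) hP (a ∘ E) h1 (E.symm i)
      simpa using h3

end Pool.Agent.NH
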