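import Pool.Agent.NodHyp.Defs

set_option autoImplicit false

/-! # DEH: dehomogenisation -/

namespace Pool.Agent.NH

open MvPolynomial

variable {n : ℕ}

/-- Put `x_m = 1`. -/
noncomputable def deh (m : Fin (n + 1)) :
    MvPolynomial (Fin (n + 1)) ℤ →ₐ[ℤ] MvPolynomial {i : Fin (n + 1) // i ≠ m} ℤ :=
  aeval fun i => if h : i ≠ m then X ⟨i, h⟩ else 1

theorem deh_X_self (m : Fin (n + 1)) : deh m (X m) = 1 := by
  rw [deh, aeval_X, dif_neg (by simp)]

theorem deh_X {m : Fin (n + 1)} (i : {i : Fin (n + 1) // i ≠ m}) : deh m (X i.1) = X i := by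
  rw [deh, aeval_X, dif_pos i.2]

theorem pderiv_deh {m : Fin (n + 1)} (i : {i : Fin (n + 1) // i ≠ m})
    (F : MvPolynomial (Fin (n + 1)) ℤ) : pderiv i (deh m F) = deh m (pderiv i.1 F) := by
  induction F using MvPolynomial.induction_on with
  | C a =>
    have h1 : deh m (C a) = C a := by
      rw [← algebraMap_eq, AlgHom.commutes, algebraMap_eq]
    rw [h1, pderiv_C, pderiv_C, map_zero]
  | add p q hp hq => rw [map_add, map_add, hp, hq, map_add, map_add]
  | mul_X p j hp =>
    rw [map_mul, Derivation.leibniz, Derivation.leibniz, hp, map_add, smul_eq_mul, smul_eq_mul,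
      smul_eq_mul, smul_eq_mul, map_mul, map_mul]
    by_cases hj : j = m
    · subst hj
      rw [deh_X_self, pderiv_one, pderiv_X_of_ne i.2.symm, map_zero]
    · have h1 : deh m (X j) = X ⟨j, hj⟩ := deh_X ⟨j, hj⟩
      rw [h1]
      by_cases hij : j = i.1
      · subst hij
        rw [pderiv_X_self, pderiv_X_self, map_one]
      · rw [pderiv_X_of_ne hij, pderiv_X_of_ne (fun h => hij (congrArg Subtype.val h)), map_zero]

theorem hess_deh (m : Fin (n + 1)) (F : MvPolynomial (Fin (n + 1)) ℤ) :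
    hess (deh m F) = Matrix.of fun a b => deh m (pderiv a.1 (pderiv b.1 F)) := by
  unfold hess
  ext a b : 2
  rw [Matrix.of_apply, Matrix.of_apply, pderiv_deh, pderiv_deh]

/-- evaluation at a point with `x_m = 1` -/
theorem aeval_deh {A : Type} [CommRing A] {m : Fin (n + 1)} (x : Fin (n + 1) → A) (hx : x m = 1)
    (F : MvPolynomial (Fin (n + 1)) ℤ) : aeval (fun i => x i.1) (deh m F) = aeval x F := by
  rw [deh, comp_aeval_apply]
  congr 1
  apply MvPolynomial.algHom_ext
  intro i
  rw [aeval_X, aeval_X]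
  by_cases hi : i ≠ m
  · rw [dif_pos hi, aeval_X]
  · rw [dif_neg hi, map_one]
    rw [not_not] at hi
    rw [hi, hx]

/-- scaling of a homogeneous polynomial -/
theorem Deh_aeval_smul {A : Type} [CommRing A] {d : ℕ} (c : A) (x : Fin (n + 1) → A)
    {F : MvPolynomial (Fin (n + 1)) ℤ} (hF : F.IsHomogeneous d) :
    aeval (fun i => c * x i) F = c ^ d * aeval x F := by
  rw [aeval_def, aeval_def, eval₂_eq, eval₂_eq, Finset.mul_sum]
  apply Finset.sum_congr rfl
  intro α hα
  have h1 : ∑ i ∈ α.support, α i = d := by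
    have := hF (mem_support_iff.mp hα)
    simpa [Finsupp.weight_apply, Finsupp.sum] using this
  have h2 : ∏ i ∈ α.support, (c * x i) ^ α i = c ^ d * ∏ i ∈ α.support, x i ^ α i := by
    rw [← h1, ← Finset.prod_pow_eq_pow_sum, ← Finset.prod_mul_distrib]
    apply Finset.prod_congr rfl
    intro i _
    rw [mul_pow]
  rw [h2]
  ring

/-- a homogeneous polynomial at a point with `x_m ≠ 0` -/
theorem aeval_deh_div {K : Type} [Field K] {m : Fin (n + 1)} {d : ℕ} (x : Fin (n + 1) → K)
    (hx : x m ≠ 0) {F : MvPolynomial (Fin (n + 1)) ℤ} (hF : F.IsHomogeneous d) :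
    x m ^ d * aeval (fun i => x i.1 / x m) (deh m F) = aeval x F := by
  have h1 := aeval_deh (m := m) (fun i => x i / x m) (div_self hx) F
  rw [h1, ← Deh_aeval_smul (x m) (fun i => x i / x m) hF]
  congr 2
  ext i
  field_simp

/-- Euler's relation for the derivative with respect to the variable `x_m` (Mathlib:
`MvPolynomial.IsHomogeneous.sum_X_mul_pderiv`) -/
theorem euler_deh {m : Fin (n + 1)} {d : ℕ} {F : MvPolynomial (Fin (n + 1)) ℤ}
    (hF : F.IsHomogeneous d) :
    deh m (pderiv m F) = (d : MvPolynomial {i : Fin (n + 1) // i ≠ m} ℤ) * deh m F -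
      ∑ i : {i : Fin (n + 1) // i ≠ m}, X i * pderiv i (deh m F) := by
  have h1 := hF.sum_X_mul_pderiv
  have h2 := congrArg (deh m) h1
  rw [map_sum, ← Finset.add_sum_erase _ _ (Finset.mem_univ m), map_mul, deh_X_self, one_mul] at h2
  have h3 : ∑ i ∈ Finset.univ.erase m, deh m (X i * pderiv i F) =
      ∑ i : {i : Fin (n + 1) // i ≠ m}, X i * pderiv i (deh m F) := by
    rw [Finset.sum_subtype (Finset.univ.erase m) (p := fun i => i ≠ m) (by
      intro i
      simp)]
    apply Finset.sum_congr rfl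
    intro i _
    rw [map_mul, deh_X, pderiv_deh]
  rw [h3] at h2
  rw [eq_sub_iff_add_eq, h2]
  simp

/-- homogenisation -/
theorem Deh_exists_hom {m : Fin (n + 1)} (h : MvPolynomial {i : Fin (n + 1) // i ≠ m} ℤ) :
    ∃ (N : ℕ) (H : MvPolynomial (Fin (n + 1)) ℤ), H.IsHomogeneous N ∧ deh m H = h := by
  induction h using MvPolynomial.induction_on with
  | C a =>
    refine ⟨0, C a, isHomogeneous_C _ _, ?_⟩
    rw [← algebraMap_eq, AlgHom.commutes, algebraMap_eq]
  | add p q hp hq =>
    obtain ⟨N1, H1, h1, h1'⟩ := hp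
    obtain ⟨N2, H2, h2, h2'⟩ := hq
    refine ⟨N1 + N2, X m ^ N2 * H1 + X m ^ N1 * H2, ?_, ?_⟩
    · apply IsHomogeneous.add
      · have := ((isHomogeneous_X ℤ m).pow N2).mul h1
        rwa [one_mul, Nat.add_comm N2 N1] at this
      · have := ((isHomogeneous_X ℤ m).pow N1).mul h2
        rwa [one_mul] at this
    · rw [map_add, map_mul, map_mul, map_pow, map_pow, deh_X_self, one_pow, one_pow, one_mul,
        one_mul, h1', h2']
  | mul_X p i hp =>
    obtain ⟨N, H, h1, h1'⟩ := hp
    refine ⟨N + 1, H * X i.1, h1.mul (isHomogeneous_X ℤ _), ?_⟩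
    rw [map_mul, deh_X, h1']

/-- The affine coordinate ring: kernel of the evaluation at `x_i / x_m`. If `h` vanishes there, homogenise: some
`x_m ^ N h^*` ... more precisely there are `N` and `H` homogeneous of degree `N` with `deh m H = h`; then `H` vanishes at
`x`, so `F ∣ H` and `deh m F ∣ h`. -/
theorem ker_deh {K : Type} [Field K] {m : Fin (n + 1)} {d : ℕ} (x : Fin (n + 1) → K)
    (hx : x m ≠ 0) {F : MvPolynomial (Fin (n + 1)) ℤ} (hF : F.IsHomogeneous d)
    (hker : ∀ h : MvPolynomial (Fin (n + 1)) ℤ, aeval x h = 0 ↔ F ∣ h) :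
    RingHom.ker (aeval (fun i : {i : Fin (n + 1) // i ≠ m} => x i.1 / x m) :
      MvPolynomial {i : Fin (n + 1) // i ≠ m} ℤ →ₐ[ℤ] K) = Ideal.span {deh m F} := by
  ext h
  rw [RingHom.mem_ker, Ideal.mem_span_singleton]
  constructor
  · intro hh
    obtain ⟨N, H, hH, rfl⟩ := Deh_exists_hom h
    have h1 := aeval_deh_div x hx hH
    rw [hh, mul_zero] at h1
    exact map_dvd (deh m) ((hker H).mp h1.symm)
  · rintro ⟨g, rfl⟩
    have h1 := aeval_deh_div x hx hF
    rw [(hker F).mpr dvd_rfl] at h1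
    have h2 := (mul_eq_zero.mp h1).resolve_left (pow_ne_zero _ hx)
    rw [map_mul, h2, zero_mul]

end Pool.Agent.NH
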