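import Pool.Agent.NodHyp.Defs
import Pool.Agent.QuadAll.PNotSq
import Pool.Agent.QuadModel.Local

set_option autoImplicit false

/-! # NODE: the structure of a polynomial at a node of its reduction modulo `p`

Proof. Write `y_i = ∂_i f`, `A = ℤ[x]_P`, `n` the number of variables.
(1) `p, y_1, ..., y_n` are linearly independent in `P / P ^ 2`: if `c p + ∑ c_i y_i ∈ P ^ 2` apply the
derivations `∂_l`: `∑ c_i ∂_l y_i ∈ P`, the Hessian is invertible modulo `P`, so all `c_i ∈ P`, so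
`c p ∈ P ^ 2` and `c ∈ P` (`QuadAll.mem_of_prime_mul_mem_sq`).
(2) `A` is regular of dimension `≤ n + 1` (Krull dimension of `ℤ[x_1..x_n]`), so the cotangent space has
dimension `≤ n + 1`, so `p, y_i` are a basis and generate the maximal ideal (Nakayama); `dim A = n + 1`.
(3) Let `𝔞 = (y_1, ..., y_n) A`. No power of `p` is in `𝔞` (else the maximal ideal is minimal over `𝔞`, Krull's
height theorem gives `dim A ≤ n`). Let `k` be maximal with `f ∈ (p ^ k) + 𝔞`: `k ≥ 1` as `f ∈ P`, and `k ≤ v`: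
if `f ∈ (p ^ (v + 1)) + 𝔞` then `p ^ v a ∈ (f) + 𝔞 ⊆ (p ^ (v + 1)) + 𝔞`, so `p ^ v (a - p c) ∈ 𝔞`, `a - p c` a unit,
contradiction. So `f = c p ^ k + ∑ b_i y_i`, and `c` is a unit (else `c ∈ (p) + 𝔞`). Clear denominators:
`D f = c p ^ k + ∑ b_i y_i` with `D, c ∉ P`.
(4) Apply `∂_l` and multiply by `D` (to replace `D f`): `D ∑_i b_i ∂_l y_i ∈ (p ^ k) + (y)`; multiply by the
adjugate of the Hessian: `D det(H) b_i ∈ (p ^ k) + (y)`, say `= p ^ k b'_i + ∑_j b_ij y_j`. Then
`(D det H) D f = ∑ b_ij y_i y_j + p ^ k u` with `u = D det(H) c + ∑ b'_i y_i ∉ P`.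
(5) For `k ≥ 2`: `D₂ f ∈ P ^ 2`; apply `∂_l`, multiply by `D₂`: modulo `P ^ 2` one gets
`D₂ ^ 2 y_l ≡ D₂ ∑_i (∑_j H_lj (b_ij + b_ji)) y_i`, so by (1) `H (B + Bᵀ) ≡ D₂ · 1` modulo `P`; determinants. -/

namespace Pool.Agent.NH

open MvPolynomial

/-- step (1) -/
theorem node_indep {σ : Type} [Fintype σ] [DecidableEq σ] (f : MvPolynomial σ ℤ) {p : ℕ}
    (hp : p.Prime) (P : Ideal (MvPolynomial σ ℤ)) [P.IsPrime]
    (hpP : (C (p : ℤ) : MvPolynomial σ ℤ) ∈ P) (hd : ∀ i, pderiv i f ∈ P)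
    (hH : (hess f).det ∉ P) (c : MvPolynomial σ ℤ) (e : σ → MvPolynomial σ ℤ)
    (h : c * C (p : ℤ) + ∑ i, e i * pderiv i f ∈ P ^ 2) : c ∈ P ∧ ∀ i, e i ∈ P := by
  classical
  have hdet : ∀ x ∈ P, (hess f).det * x ∈ P := fun x hx => P.mul_mem_left _ hx
  -- the rows of the Hessian
  have h1 : ∀ l, ∑ i, hess f l i * e i ∈ P := by
    intro l
    have h2 := Pool.Agent.QuadModel.derivation_mem (pderiv l) P h
    have h3 : pderiv l (c * C (p : ℤ) + ∑ i, e i * pderiv i f) =
        C (p : ℤ) * pderiv l c + (∑ i, pderiv i f * pderiv l (e i)) +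
          ∑ i, hess f l i * e i := by
      rw [map_add, map_sum, add_assoc, ← Finset.sum_add_distrib, Derivation.leibniz, pderiv_C]
      congr 1
      · simp
      · refine Finset.sum_congr rfl fun i _ => ?_
        rw [Derivation.leibniz]
        simp only [smul_eq_mul, hess, Matrix.of_apply]
        ring
    rw [h3] at h2
    have h4 : C (p : ℤ) * pderiv l c + (∑ i, pderiv i f * pderiv l (e i)) ∈ P :=
      P.add_mem (P.mul_mem_right _ hpP) (P.sum_mem fun i _ => P.mul_mem_right _ (hd i))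
    exact (P.add_mem_iff_right h4).1 h2
  have he : ∀ i, e i ∈ P := by
    intro i
    have h2 : (hess f).adjugate.mulVec ((hess f).mulVec e) i = (hess f).det * e i := by
      rw [Matrix.mulVec_mulVec, Matrix.adjugate_mul, Matrix.smul_mulVec, Matrix.one_mulVec]
      rfl
    have h3 : (hess f).adjugate.mulVec ((hess f).mulVec e) i ∈ P := by
      simp only [Matrix.mulVec, dotProduct]
      exact P.sum_mem fun j _ => P.mul_mem_left _ (h1 j)
    rw [h2] at h3
    exact (Ideal.IsPrime.mem_or_mem inferInstance h3).resolve_left hH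
  refine ⟨?_, he⟩
  have h5 : ∑ i, e i * pderiv i f ∈ P ^ 2 := by
    rw [pow_two]
    exact Ideal.sum_mem _ fun i _ => Ideal.mul_mem_mul (he i) (hd i)
  have h6 : c * C (p : ℤ) ∈ P ^ 2 := ((P ^ 2).add_mem_iff_left h5).1 h
  rw [mul_comm] at h6
  exact Pool.Agent.QuadAll.mem_of_prime_mul_mem_sq p hp P hpP c h6

/-- step (2) -/
theorem node_gen {σ : Type} [Fintype σ] [DecidableEq σ] (f : MvPolynomial σ ℤ) {p : ℕ}
    (hp : p.Prime) (P : Ideal (MvPolynomial σ ℤ)) [P.IsPrime]
    (hpP : (C (p : ℤ) : MvPolynomial σ ℤ) ∈ P) (hd : ∀ i, pderiv i f ∈ P)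
    (hH : (hess f).det ∉ P) :
    IsLocalRing.maximalIdeal (Localization.AtPrime P) =
      Ideal.map (algebraMap (MvPolynomial σ ℤ) (Localization.AtPrime P))
        (Ideal.span {C (p : ℤ)} ⊔ Ideal.span (Set.range fun i => pderiv i f)) ∧
    ringKrullDim (Localization.AtPrime P) = Fintype.card σ + 1 := by
  classical
  set A := Localization.AtPrime P with hA
  let 𝔪 := IsLocalRing.maximalIdeal A
  let v : Option σ → MvPolynomial σ ℤ := fun o => o.elim (C (p : ℤ)) fun i => pderiv i f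
  have hv : ∀ o, v o ∈ P := by
    rintro (_ | i)
    · exact hpP
    · exact hd i
  have hmem : ∀ x ∈ P, algebraMap (MvPolynomial σ ℤ) A x ∈ 𝔪 := fun x hx =>
    (IsLocalization.AtPrime.to_map_mem_maximal_iff A P x).2 hx
  let w : Option σ → 𝔪 := fun o => ⟨algebraMap _ A (v o), hmem _ (hv o)⟩
  have hsq : ∀ x : MvPolynomial σ ℤ, algebraMap _ A x ∈ 𝔪 ^ 2 → ∃ s ∉ P, s * x ∈ P ^ 2 := by
    intro x hx
    have h1 : 𝔪 ^ 2 = Ideal.map (algebraMap _ A) (P ^ 2) := by
      rw [Ideal.map_pow, IsLocalization.AtPrime.map_eq_maximalIdeal P A]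
    rw [h1, IsLocalization.mem_map_algebraMap_iff P.primeCompl A] at hx
    obtain ⟨⟨a, s⟩, ha⟩ := hx
    rw [← map_mul] at ha
    have hinj := IsLocalization.injective A P.primeCompl_le_nonZeroDivisors
    refine ⟨s, s.2, ?_⟩
    have h2 := hinj ha
    rw [mul_comm, h2]
    exact a.2
  -- linear independence in the cotangent space
  have hli : LinearIndependent (IsLocalRing.ResidueField A) fun o => 𝔪.toCotangent (w o) := by
    rw [Fintype.linearIndependent_iff]
    intro g hg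
    choose a ha using fun o => IsLocalRing.residue_surjective (R := A) (g o)
    have h1 : 𝔪.toCotangent (∑ o, a o • w o) = 0 := by
      rw [map_sum, ← hg]
      refine Finset.sum_congr rfl fun o _ => ?_
      rw [LinearMap.map_smul, ← ha o]
      rfl
    rw [Ideal.toCotangent_eq_zero] at h1
    obtain ⟨b, hb⟩ := IsLocalization.exist_integer_multiples_of_finite P.primeCompl a
    choose c hc using hb
    have h2 : algebraMap (MvPolynomial σ ℤ) A (∑ o, c o * v o) ∈ 𝔪 ^ 2 := by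
      have h3 : algebraMap (MvPolynomial σ ℤ) A (∑ o, c o * v o) =
          algebraMap _ A (b : MvPolynomial σ ℤ) * ((∑ o, a o • w o : 𝔪) : A) := by
        rw [map_sum, AddSubmonoidClass.coe_finsetSum, Finset.mul_sum]
        refine Finset.sum_congr rfl fun o _ => ?_
        rw [map_mul, hc, Algebra.smul_def]
        simp only [w, SetLike.mk_smul_mk, smul_eq_mul]
        ring
      rw [h3]
      exact Ideal.mul_mem_left _ _ h1
    obtain ⟨s, hs, h4⟩ := hsq _ h2
    have h5 : (s * c none) * C (p : ℤ) + ∑ i, (s * c (some i)) * pderiv i f ∈ P ^ 2 := by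
      convert h4 using 1
      rw [Fintype.sum_option, mul_add, Finset.mul_sum]
      congr 1
      · simp only [v, Option.elim_none]
        ring
      · refine Finset.sum_congr rfl fun i _ => ?_
        simp only [v, Option.elim_some]
        ring
    obtain ⟨h6, h7⟩ := node_indep f hp P hpP hd hH _ _ h5
    have h8 : ∀ o, c o ∈ P := by
      rintro (_ | i)
      · exact (Ideal.IsPrime.mem_or_mem inferInstance h6).resolve_left hs
      · exact (Ideal.IsPrime.mem_or_mem inferInstance (h7 i)).resolve_left hs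
    intro o
    rw [← ha o, IsLocalRing.residue_eq_zero_iff]
    have h9 := hmem _ (h8 o)
    rw [hc, Algebra.smul_def] at h9
    refine (Ideal.IsPrime.mem_or_mem inferInstance h9).resolve_left fun h10 => ?_
    exact b.2 ((IsLocalization.AtPrime.to_map_mem_maximal_iff A P _).1 h10)
  have hreg : IsRegularLocalRing A := inferInstance
  have hfin := (IsRegularLocalRing.iff_finrank_cotangentSpace A).1 hreg
  have hdim : ringKrullDim A ≤ Fintype.card σ + 1 := by
    rw [IsLocalization.AtPrime.ringKrullDim_eq_height P A]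
    refine Ideal.height_le_ringKrullDim_of_isPrime.trans ?_
    rw [MvPolynomial.ringKrullDim_of_isNoetherianRing,
      IsPrincipalIdealRing.ringKrullDim_eq_one ℤ Int.not_isField, Nat.card_eq_fintype_card,
      add_comm]
  have hcard : Fintype.card (Option σ) ≤
      Module.finrank (IsLocalRing.ResidueField A) (IsLocalRing.CotangentSpace A) :=
    hli.fintype_card_le_finrank
  have hle : Module.finrank (IsLocalRing.ResidueField A) (IsLocalRing.CotangentSpace A) ≤
      Fintype.card (Option σ) := by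
    rw [← hfin] at hdim
    rw [Fintype.card_option]
    exact_mod_cast hdim
  have heq := le_antisymm hcard hle
  refine ⟨?_, ?_⟩
  · have hspan := hli.span_eq_top_of_card_eq_finrank heq
    have h1 : Submodule.span A (Set.range w) = ⊤ := by
      rw [← IsLocalRing.CotangentSpace.span_image_eq_top_iff, ← Set.range_comp]
      exact hspan
    refine le_antisymm ?_ ?_
    · intro x hx
      have h2 : (⟨x, hx⟩ : 𝔪) ∈ Submodule.span A (Set.range w) := by
        rw [h1]
        trivial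
      have h3 : x ∈ Submodule.map 𝔪.subtype (Submodule.span A (Set.range w)) :=
        ⟨⟨x, hx⟩, h2, rfl⟩
      rw [Submodule.map_span, ← Set.range_comp] at h3
      refine Submodule.span_le.2 ?_ h3
      rintro _ ⟨o, rfl⟩
      refine Ideal.mem_map_of_mem _ ?_
      rcases o with _ | i
      · exact Ideal.mem_sup_left (Ideal.subset_span rfl)
      · exact Ideal.mem_sup_right (Ideal.subset_span ⟨i, rfl⟩)
    · rw [Ideal.map_le_iff_le_comap, sup_le_iff, Ideal.span_le, Ideal.span_le]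
      refine ⟨?_, ?_⟩
      · rintro _ rfl
        exact hmem _ hpP
      · rintro _ ⟨i, rfl⟩
        exact hmem _ (hd i)
  · rw [← hfin, ← heq, Fintype.card_option]
    push_cast
    rfl

/-- (G): an element of `P` is locally in `(p) + 𝔞` -/
theorem node_memG {σ : Type} [Fintype σ] [DecidableEq σ] (f : MvPolynomial σ ℤ) {p : ℕ}
    (hp : p.Prime) (P : Ideal (MvPolynomial σ ℤ)) [P.IsPrime]
    (hpP : (C (p : ℤ) : MvPolynomial σ ℤ) ∈ P) (hd : ∀ i, pderiv i f ∈ P)
    (hH : (hess f).det ∉ P) (x : MvPolynomial σ ℤ) (hx : x ∈ P) :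
    ∃ D ∉ P, D * x ∈ Ideal.span {C (p : ℤ)} ⊔ Ideal.span (Set.range fun i => pderiv i f) := by
  have h1 : algebraMap _ (Localization.AtPrime P) x ∈
      IsLocalRing.maximalIdeal (Localization.AtPrime P) :=
    (IsLocalization.AtPrime.to_map_mem_maximal_iff _ P x).2 hx
  rw [(node_gen f hp P hpP hd hH).1, IsLocalization.mem_map_algebraMap_iff P.primeCompl] at h1
  obtain ⟨⟨a, s⟩, ha⟩ := h1
  rw [← map_mul] at ha
  have hinj := IsLocalization.injective (Localization.AtPrime P) P.primeCompl_le_nonZeroDivisors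
  refine ⟨s, s.2, ?_⟩
  rw [mul_comm, hinj ha]
  exact a.2

/-- (H): no power of `p` is locally in `𝔞` -/
theorem node_memH {σ : Type} [Fintype σ] [DecidableEq σ] (f : MvPolynomial σ ℤ) {p : ℕ}
    (hp : p.Prime) (P : Ideal (MvPolynomial σ ℤ)) [P.IsPrime]
    (hpP : (C (p : ℤ) : MvPolynomial σ ℤ) ∈ P) (hd : ∀ i, pderiv i f ∈ P)
    (hH : (hess f).det ∉ P) (k : ℕ) (D : MvPolynomial σ ℤ) (hD : D ∉ P) :
    D * C (p : ℤ) ^ k ∉ Ideal.span (Set.range fun i => pderiv i f) := by
  classical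
  intro hmem
  set A := Localization.AtPrime P with hA
  obtain ⟨hgen, hdim⟩ := node_gen f hp P hpP hd hH
  let 𝔞 : Ideal A := Ideal.span (Set.range fun i => algebraMap (MvPolynomial σ ℤ) A (pderiv i f))
  have h𝔞 : Ideal.map (algebraMap (MvPolynomial σ ℤ) A)
      (Ideal.span (Set.range fun i => pderiv i f)) = 𝔞 := by
    rw [Ideal.map_span, ← Set.range_comp]
    rfl
  have hle : 𝔞 ≤ IsLocalRing.maximalIdeal A := by
    rw [Ideal.span_le]
    rintro _ ⟨i, rfl⟩
    exact (IsLocalization.AtPrime.to_map_mem_maximal_iff A P _).2 (hd i)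
  have hDu : IsUnit (algebraMap (MvPolynomial σ ℤ) A D) :=
    IsLocalization.map_units A (⟨D, hD⟩ : P.primeCompl)
  have hpk : algebraMap (MvPolynomial σ ℤ) A (C (p : ℤ)) ^ k ∈ 𝔞 := by
    have h1 := Ideal.mem_map_of_mem (algebraMap (MvPolynomial σ ℤ) A) hmem
    rw [h𝔞, map_mul, map_pow] at h1
    exact (Ideal.unit_mul_mem_iff_mem 𝔞 hDu).1 h1
  have hmin : IsLocalRing.maximalIdeal A ∈ 𝔞.minimalPrimes := by
    refine ⟨⟨inferInstance, hle⟩, ?_⟩
    rintro q ⟨hq, hq𝔞⟩ _
    rw [hgen, Ideal.map_le_iff_le_comap, sup_le_iff, Ideal.span_le, Ideal.span_le]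
    refine ⟨?_, ?_⟩
    · rintro _ rfl
      exact hq.mem_of_pow_mem _ (hq𝔞 hpk)
    · rintro _ ⟨i, rfl⟩
      exact hq𝔞 (Ideal.subset_span ⟨i, rfl⟩)
  have h1 := Ideal.height_le_card_of_mem_minimalPrimes_span (Set.finite_range _) hmin
  have h2 : (Set.range fun i => algebraMap (MvPolynomial σ ℤ) A (pderiv i f)).ncard ≤
      Fintype.card σ := by
    rw [← Nat.card_coe_set_eq]
    exact (Finite.card_range_le _).trans_eq Nat.card_eq_fintype_card
  have h3 : ((IsLocalRing.maximalIdeal A).height : WithBot ℕ∞) = Fintype.card σ + 1 := by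
    rw [IsLocalRing.maximalIdeal_height_eq_ringKrullDim, hdim]
  have h4 : ((Fintype.card σ : ℕ∞) + 1 : ℕ∞) ≤ (Fintype.card σ : ℕ∞) := by
    have h5 : (IsLocalRing.maximalIdeal A).height = (Fintype.card σ : ℕ∞) + 1 := by
      exact_mod_cast h3
    rw [← h5]
    exact h1.trans (by exact_mod_cast h2)
  have h6 : Fintype.card σ + 1 ≤ Fintype.card σ := by exact_mod_cast h4
  omega

/-- step (3), with cleared denominators -/
theorem node_val {σ : Type} [Fintype σ] [DecidableEq σ] (f : MvPolynomial σ ℤ) {p : ℕ}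
    (hp : p.Prime) (P : Ideal (MvPolynomial σ ℤ)) [P.IsPrime]
    (hpP : (C (p : ℤ) : MvPolynomial σ ℤ) ∈ P) (hf : f ∈ P) (hd : ∀ i, pderiv i f ∈ P)
    (hH : (hess f).det ∉ P) {v : ℕ} {a : ℤ} (ha : (C a : MvPolynomial σ ℤ) ∉ P)
    (hN : (C ((p : ℤ) ^ v * a) : MvPolynomial σ ℤ) ∈
      Ideal.span {f} ⊔ Ideal.span (Set.range fun i => pderiv i f)) :
    ∃ (k : ℕ) (D c : MvPolynomial σ ℤ) (e : σ → MvPolynomial σ ℤ), 1 ≤ k ∧ k ≤ v ∧ D ∉ P ∧
      c ∉ P ∧ D * f = c * C (p : ℤ) ^ k + ∑ i, e i * pderiv i f := by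
  classical
  set 𝔞 : Ideal (MvPolynomial σ ℤ) := Ideal.span (Set.range fun i => pderiv i f) with h𝔞
  let S : ℕ → Prop := fun k => ∃ D ∉ P, D * f ∈ Ideal.span {C (p : ℤ) ^ k} ⊔ 𝔞
  have hmemS : ∀ k x, x ∈ Ideal.span {(C (p : ℤ) : MvPolynomial σ ℤ) ^ k} ⊔ 𝔞 ↔
      ∃ c, ∃ z ∈ 𝔞, x = c * C (p : ℤ) ^ k + z := by
    intro k x
    rw [Submodule.mem_sup]
    constructor
    · rintro ⟨y, hy, z, hz, rfl⟩
      obtain ⟨c, rfl⟩ := Ideal.mem_span_singleton'.1 hy
      exact ⟨c, z, hz, rfl⟩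
    · rintro ⟨c, z, hz, rfl⟩
      exact ⟨_, Ideal.mem_span_singleton'.2 ⟨c, rfl⟩, z, hz, rfl⟩
  have hS1 : S 1 := by
    obtain ⟨D, hD, h⟩ := node_memG f hp P hpP hd hH f hf
    exact ⟨D, hD, by rw [pow_one]; exact h⟩
  have hSv : ∀ k, S k → k ≤ v := by
    rintro k ⟨D, hD, h⟩
    by_contra hk
    push Not at hk
    obtain ⟨c, z, hz, h1⟩ := (hmemS k _).1 h
    obtain ⟨r, h2, z', hz', h3⟩ := Submodule.mem_sup.1 hN
    obtain ⟨b, rfl⟩ := Ideal.mem_span_singleton'.1 h2
    -- `D p^v a = b (D f) + D z'`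
    have h4 : (D * C a - b * c * C (p : ℤ) ^ (k - v)) * C (p : ℤ) ^ v = b * z + D * z' := by
      have h5 : D * C ((p : ℤ) ^ v * a) = b * (D * f) + D * z' := by
        rw [← h3]
        ring
      rw [h1, C_mul, C_pow] at h5
      have h6 : (C (p : ℤ) : MvPolynomial σ ℤ) ^ k = C (p : ℤ) ^ (k - v) * C (p : ℤ) ^ v := by
        rw [← pow_add]
        congr 1
        omega
      rw [h6] at h5
      linear_combination h5
    refine node_memH f hp P hpP hd hH v (D * C a - b * c * C (p : ℤ) ^ (k - v)) ?_ ?_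
    · intro h5
      have h6 : b * c * C (p : ℤ) ^ (k - v) ∈ P :=
        P.mul_mem_left _ (Ideal.pow_mem_of_mem P hpP _ (by omega))
      have h7 : D * C a ∈ P := by
        have := P.add_mem h5 h6
        rwa [sub_add_cancel] at this
      rcases Ideal.IsPrime.mem_or_mem inferInstance h7 with h8 | h8
      · exact hD h8
      · exact ha h8
    · rw [h4]
      exact 𝔞.add_mem (𝔞.mul_mem_left _ hz) (𝔞.mul_mem_left _ hz')
  have hk : S (Nat.findGreatest S v) := Nat.findGreatest_spec (hSv 1 hS1) hS1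
  have hk1 : 1 ≤ Nat.findGreatest S v := Nat.le_findGreatest (hSv 1 hS1) hS1
  have hkmax : ¬ S (Nat.findGreatest S v + 1) := by
    intro h
    have h1 := Nat.le_findGreatest (hSv _ h) h
    omega
  obtain ⟨D, hD, h⟩ := hk
  obtain ⟨c, z, hz, h1⟩ := (hmemS _ _).1 h
  obtain ⟨e, he⟩ := (Ideal.mem_span_range_iff_exists_fun).1 hz
  refine ⟨Nat.findGreatest S v, D, c, e, hk1, hSv _ ⟨D, hD, h⟩, hD, ?_, by rw [h1, he]⟩
  intro hc
  obtain ⟨D', hD', h2⟩ := node_memG f hp P hpP hd hH c hc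
  have h2' : D' * c ∈ Ideal.span {(C (p : ℤ) : MvPolynomial σ ℤ) ^ 1} ⊔ 𝔞 := by
    rw [pow_one]
    exact h2
  obtain ⟨c', z', hz', h3⟩ := (hmemS 1 _).1 h2'
  refine hkmax ⟨D' * D, ?_, ?_⟩
  · intro h4
    rcases Ideal.IsPrime.mem_or_mem inferInstance h4 with h5 | h5
    · exact hD' h5
    · exact hD h5
  · rw [hmemS]
    refine ⟨c', z' * C (p : ℤ) ^ (Nat.findGreatest S v) + D' * z,
      𝔞.add_mem (𝔞.mul_mem_right _ hz') (𝔞.mul_mem_left _ hz), ?_⟩
    rw [mul_assoc, h1, mul_add, ← mul_assoc, h3, pow_succ]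
    ring

theorem node_alg {R σ : Type} [CommRing R] [Fintype σ] [DecidableEq σ] (H B : Matrix σ σ R)
    (D : R) (y : σ → R) (l : σ) :
    ∑ j, D * ((if l = j then D else 0) - (H * (B + B.transpose)) l j) * y j =
      D * (D * y l) - D * ∑ i, ∑ j, (B i j * y i * H l j + B i j * H l i * y j) := by
  have h4 : ∑ j, D * ((if l = j then D else 0) - (H * (B + B.transpose)) l j) * y j =
      ∑ j, (D * ((if l = j then D else 0) * y j) - D * ((H * (B + B.transpose)) l j * y j)) :=
    Finset.sum_congr rfl fun j _ => by ring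
  rw [h4, Finset.sum_sub_distrib, ← Finset.mul_sum, ← Finset.mul_sum]
  congr 1
  · congr 1
    simp [Finset.sum_ite_eq]
  · congr 1
    have h5 : ∀ j, (H * (B + B.transpose)) l j * y j =
        ∑ i, (H l i * B i j * y j + H l i * B j i * y j) := by
      intro j
      rw [Matrix.mul_apply, Finset.sum_mul]
      refine Finset.sum_congr rfl fun i _ => ?_
      rw [Matrix.add_apply, Matrix.transpose_apply]
      ring
    rw [Finset.sum_congr rfl fun j _ => h5 j]
    simp only [Finset.sum_add_distrib]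
    rw [add_comm, Finset.sum_comm (f := fun x x_1 => H l x_1 * B x_1 x * y x)]
    congr 1
    · refine Finset.sum_congr rfl fun i _ => Finset.sum_congr rfl fun j _ => ?_
      ring
    · refine Finset.sum_congr rfl fun i _ => Finset.sum_congr rfl fun j _ => ?_
      ring

theorem node_der {A R σ : Type} [CommRing A] [CommRing R] [Algebra A R] [Fintype σ]
    (δ : Derivation A R R) (f t u D : R)
    (y : σ → R) (B : Matrix σ σ R) (ht : δ t = 0)
    (h : D * f = ∑ i, ∑ j, B i j * y i * y j + t * u) :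
    D * (D * δ f) - D * ∑ i, ∑ j, (B i j * y i * δ (y j) + B i j * δ (y i) * y j) =
      D * (∑ i, ∑ j, y i * y j * δ (B i j)) + D * (t * δ u) - (D * f) * δ D := by
  have h1 := congrArg δ h
  rw [map_add, map_sum, δ.leibniz, δ.leibniz, ht, smul_zero, add_zero] at h1
  simp only [smul_eq_mul] at h1
  have h7 : ∑ i, δ (∑ j, B i j * y i * y j) =
      ∑ i, ∑ j, (B i j * y i * δ (y j) + B i j * δ (y i) * y j) +
      ∑ i, ∑ j, y i * y j * δ (B i j) := by
    rw [← Finset.sum_add_distrib]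
    refine Finset.sum_congr rfl fun i _ => ?_
    rw [map_sum, ← Finset.sum_add_distrib]
    refine Finset.sum_congr rfl fun j _ => ?_
    rw [δ.leibniz, δ.leibniz]
    simp only [smul_eq_mul]
    ring
  rw [h7] at h1
  linear_combination D * h1

theorem node_row {A R σ : Type} [CommRing A] [CommRing R] [Algebra A R] [Fintype σ]
    [DecidableEq σ] (δ : σ → Derivation A R R)
    (f t c D : R) (e : σ → R) (H : Matrix σ σ R) (hH : ∀ l i, H l i = δ l (δ i f))
    (ht : ∀ l, δ l t = 0) (h : D * f = c * t + ∑ i, e i * δ i f) (l : σ) :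
    D * (H.mulVec e) l = t * (δ l D * c - D * δ l c) +
      ((Matrix.of fun l i => δ l D * e i - D * δ l (e i) + if l = i then D ^ 2 else 0).mulVec
        fun i => δ i f) l := by
  have h1 := congrArg (δ l) h
  rw [map_add, map_sum, (δ l).leibniz, (δ l).leibniz, ht] at h1
  simp only [(δ l).leibniz, smul_eq_mul, mul_zero, zero_add] at h1
  rw [Finset.sum_add_distrib] at h1
  have h2 : ∑ i, e i * δ l (δ i f) = (H.mulVec e) l := by
    simp only [Matrix.mulVec, dotProduct, hH]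
    exact Finset.sum_congr rfl fun i _ => mul_comm _ _
  rw [h2] at h1
  have h3 : ((Matrix.of fun l i => δ l D * e i - D * δ l (e i) +
      if l = i then D ^ 2 else 0).mulVec fun i => δ i f) l = δ l D * (∑ i, e i * δ i f) -
      D * (∑ i, δ i f * δ l (e i)) + D ^ 2 * δ l f := by
    simp only [Matrix.mulVec, dotProduct, Matrix.of_apply]
    rw [Finset.mul_sum, Finset.mul_sum, ← Finset.sum_sub_distrib]
    have h4 : D ^ 2 * δ l f = ∑ i, (if l = i then D ^ 2 else 0) * δ i f := by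
      simp [Finset.sum_ite_eq]
    rw [h4, ← Finset.sum_add_distrib]
    refine Finset.sum_congr rfl fun i _ => ?_
    ring
  rw [h3]
  have h5 : (∑ i, e i * δ i f) = D * f - c * t := by
    rw [h]
    ring
  rw [h5]
  linear_combination (-D) * h1

theorem node_vec {R σ : Type} [CommRing R] [Fintype σ] [DecidableEq σ] (t D : R)
    (e α y : σ → R) (H M : Matrix σ σ R)
    (h : ∀ l, D * (H.mulVec e) l = t * α l + (M.mulVec y) l) (i : σ) :
    D * H.det * e i = t * (H.adjugate.mulVec α) i + ((H.adjugate * M).mulVec y) i := by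
  have hvec : D • H.mulVec e = t • α + M.mulVec y := by
    funext l
    exact h l
  have h1 := congrArg (fun z => H.adjugate.mulVec z i) hvec
  simp only [Matrix.mulVec_smul, Matrix.mulVec_add, Matrix.mulVec_mulVec, Matrix.adjugate_mul,
    Matrix.smul_mulVec, Matrix.one_mulVec, Pi.smul_apply, Pi.add_apply, smul_eq_mul] at h1
  rw [mul_assoc]
  exact h1

theorem node_sum {R σ : Type} [CommRing R] [Fintype σ] (f t c D d : R)
    (e β y : σ → R) (B : Matrix σ σ R) (h : D * f = c * t + ∑ i, e i * y i)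
    (h2 : ∀ i, D * d * e i = t * β i + (B.mulVec y) i) :
    D * d * D * f = ∑ i, ∑ j, B i j * y i * y j + t * (D * d * c + ∑ i, β i * y i) := by
  rw [mul_assoc _ D f, h, mul_add, Finset.mul_sum]
  have h1 : ∀ i, D * d * (e i * y i) = t * (β i * y i) + ∑ j, B i j * y i * y j := by
    intro i
    rw [← mul_assoc, h2, add_mul, Matrix.mulVec, dotProduct, Finset.sum_mul]
    congr 1
    · ring
    · refine Finset.sum_congr rfl fun j _ => ?_
      ring
  rw [Finset.sum_congr rfl fun i _ => h1 i, Finset.sum_add_distrib, ← Finset.mul_sum]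
  ring

/-- step (5) -/
theorem node_det {σ : Type} [Fintype σ] [DecidableEq σ] (f : MvPolynomial σ ℤ) {p : ℕ}
    (hp : p.Prime) (P : Ideal (MvPolynomial σ ℤ)) [P.IsPrime]
    (hpP : (C (p : ℤ) : MvPolynomial σ ℤ) ∈ P) (hd : ∀ i, pderiv i f ∈ P)
    (hH : (hess f).det ∉ P) {k : ℕ} (hk2 : 2 ≤ k) (D₂ u : MvPolynomial σ ℤ)
    (B : Matrix σ σ (MvPolynomial σ ℤ)) (hD2 : D₂ ∉ P)
    (hmain : D₂ * f = ∑ i, ∑ j, B i j * pderiv i f * pderiv j f + C (p : ℤ) ^ k * u) :
    (B + B.transpose).det ∉ P := by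
  intro hBdet
  have hCp : ∀ l, pderiv l ((C (p : ℤ) : MvPolynomial σ ℤ) ^ k) = 0 := by
    intro l
    rw [← C_pow, pderiv_C]
  have hpk2 : (C (p : ℤ) : MvPolynomial σ ℤ) ^ k ∈ P ^ 2 :=
    Ideal.pow_le_pow_right hk2 (Ideal.pow_mem_pow hpP k)
  have hyy : ∀ i j, pderiv i f * pderiv j f ∈ P ^ 2 := by
    intro i j
    rw [pow_two]
    exact Ideal.mul_mem_mul (hd i) (hd j)
  have hDf2 : D₂ * f ∈ P ^ 2 := by
    rw [hmain]
    refine (P ^ 2).add_mem (Ideal.sum_mem _ fun i _ => Ideal.sum_mem _ fun j _ => ?_)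
      ((P ^ 2).mul_mem_right _ hpk2)
    rw [mul_assoc]
    exact (P ^ 2).mul_mem_left _ (hyy i j)
  have hent : ∀ l j, D₂ * ((if l = j then D₂ else 0) -
      (hess f * (B + B.transpose)) l j) ∈ P := by
    intro l
    have h1 := node_der (pderiv (R := ℤ) (σ := σ) l) f
      (C (p : ℤ) ^ k) u D₂ (fun i => pderiv i f) B (hCp l) hmain
    have h2 := node_alg (hess f) B D₂ (fun i => pderiv i f) l
    have h3 : ∑ i, ∑ j, (B i j * pderiv i f * hess f l j + B i j * hess f l i * pderiv j f) =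
        ∑ i, ∑ j, (B i j * pderiv i f * pderiv l (pderiv j f) +
          B i j * pderiv l (pderiv i f) * pderiv j f) := rfl
    have h4 : (0 : MvPolynomial σ ℤ) * C (p : ℤ) +
        ∑ j, D₂ * ((if l = j then D₂ else 0) - (hess f * (B + B.transpose)) l j) *
          pderiv j f ∈ P ^ 2 := by
      rw [zero_mul, zero_add, h2, h3, h1]
      refine (P ^ 2).sub_mem ((P ^ 2).add_mem ?_ ?_) ?_
      · exact (P ^ 2).mul_mem_left _ (Ideal.sum_mem _ fun i _ => Ideal.sum_mem _ fun j _ =>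
          (P ^ 2).mul_mem_right _ (hyy i j))
      · exact (P ^ 2).mul_mem_left _ ((P ^ 2).mul_mem_right _ hpk2)
      · exact (P ^ 2).mul_mem_right _ hDf2
    exact (node_indep f hp P hpP hd hH _ _ h4).2
  have hent2 : ∀ l j, (if l = j then D₂ else 0) - (hess f * (B + B.transpose)) l j ∈ P :=
    fun l j => (Ideal.IsPrime.mem_or_mem inferInstance (hent l j)).resolve_left hD2
  have hmat : (hess f * (B + B.transpose)).map (Ideal.Quotient.mk P) =
      (Ideal.Quotient.mk P D₂) • (1 : Matrix σ σ (MvPolynomial σ ℤ ⧸ P)) := by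
    ext l j
    have h1 := Ideal.Quotient.eq_zero_iff_mem.2 (hent2 l j)
    rw [map_sub, sub_eq_zero] at h1
    rw [Matrix.map_apply, Matrix.smul_apply, Matrix.one_apply, ← h1]
    split_ifs with h
    · rw [smul_eq_mul, mul_one]
    · rw [smul_zero, map_zero]
  have hdet2 := congrArg Matrix.det hmat
  rw [Matrix.det_smul, Matrix.det_one, mul_one] at hdet2
  have h1 : ((hess f * (B + B.transpose)).map (Ideal.Quotient.mk P)).det =
      Ideal.Quotient.mk P ((hess f * (B + B.transpose)).det) := by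
    rw [RingHom.map_det]
    rfl
  rw [h1, Matrix.det_mul, map_mul, Ideal.Quotient.eq_zero_iff_mem.2 hBdet, mul_zero,
    ← map_pow] at hdet2
  have h2 : D₂ ^ Fintype.card σ ∈ P := Ideal.Quotient.eq_zero_iff_mem.1 hdet2.symm
  exact hD2 (Ideal.IsPrime.mem_of_pow_mem inferInstance _ h2)

theorem node_structure {σ : Type} [Fintype σ] [DecidableEq σ] (f : MvPolynomial σ ℤ) {p : ℕ}
    (hp : p.Prime) (P : Ideal (MvPolynomial σ ℤ)) [P.IsPrime]
    (hpP : (C (p : ℤ) : MvPolynomial σ ℤ) ∈ P) (hf : f ∈ P) (hd : ∀ i, pderiv i f ∈ P)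
    (hH : (hess f).det ∉ P) {v : ℕ} {a : ℤ} (ha : (C a : MvPolynomial σ ℤ) ∉ P)
    (hN : (C ((p : ℤ) ^ v * a) : MvPolynomial σ ℤ) ∈
      Ideal.span {f} ⊔ Ideal.span (Set.range fun i => pderiv i f)) :
    ∃ (k : ℕ) (D u : MvPolynomial σ ℤ) (B : Matrix σ σ (MvPolynomial σ ℤ)), 1 ≤ k ∧ k ≤ v ∧
      D ∉ P ∧ u ∉ P ∧
      D * f = ∑ i, ∑ j, B i j * pderiv i f * pderiv j f + C (p : ℤ) ^ k * u ∧
      (2 ≤ k → (B + B.transpose).det ∉ P) := by
  obtain ⟨k, D, c, e, hk1, hkv, hD, hc, hDf⟩ := node_val f hp P hpP hf hd hH ha hN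
  have hCp : ∀ l, pderiv l ((C (p : ℤ) : MvPolynomial σ ℤ) ^ k) = 0 := by
    intro l
    rw [← C_pow, pderiv_C]
  have hrow := node_row (fun l => pderiv (R := ℤ) (σ := σ) l) f (C (p : ℤ) ^ k) c D e (hess f)
    (fun _ _ => rfl) hCp hDf
  have hvec := node_vec _ _ _ _ _ _ _ hrow
  have hsum := node_sum f _ c D (hess f).det e _ (fun i => pderiv i f) _ hDf hvec
  have hDdet : D * (hess f).det ∉ P := by
    intro h
    rcases Ideal.IsPrime.mem_or_mem inferInstance h with h | h
    · exact hD h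
    · exact hH h
  have hD2 : D * (hess f).det * D ∉ P := by
    intro h
    rcases Ideal.IsPrime.mem_or_mem inferInstance h with h | h
    · exact hDdet h
    · exact hD h
  refine ⟨k, D * (hess f).det * D, _, _, hk1, hkv, hD2, ?_, hsum, fun hk2 =>
    node_det f hp P hpP hd hH hk2 _ _ _ hD2 hsum⟩
  intro h
  have h1 := (P.add_mem_iff_left (P.sum_mem fun i _ => P.mul_mem_left _ (hd i))).1 h
  rcases Ideal.IsPrime.mem_or_mem inferInstance h1 with h | h
  · exact hDdet h
  · exact hc h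

end Pool.Agent.NH
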