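import Pool.Agent.HermVar.LGModel
import Pool.Agent.QuadAll.Family

set_option autoImplicit false

/-! # VER: the model attached to a good lattice in degree `E`

Let `C` be the `E`-th Veronese ring of `B`, e.g. `C = MvPolynomial κ ℚ ⧸ ker (aeval z)` with `z` a finite family
spanning `ℬ E` and the quotient grading (`IdealModel.igrad`, `iGraded`; the kernel is homogeneous, compare
`ParamModel.ker_isHomogeneous`), with the injection `ψ : C → B`, `ψ '' 𝒞 k = ℬ (E k)` (`B` is generated in degree one).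
Let `Λ'` be the preimage of `Λ`. `Good Λ' 1` follows from `Good Λ 1` (the field `FractionRing C` is embedded in `FractionRing B`
and maps `chartSub Λ' f` isomorphically onto `chartSub Λ (ψ f)`). By `LG.hasModel_of_good`, `Proj 𝒞` has a model.
Finally `Proj 𝒞 ≅ Proj ℬ`: apply `QuadAll.generic_fibre_mul` twice to the ring `𝒜 = ℤ[Λ]` (graded), with
`d = 1` and `𝒞`, and with `d = E` and `ℬ`; both give the generic fibre of `Proj 𝒜`. (Or repeat the proof of
`LG.hasModel_of_good` with `generic_fibre_mul` instead of the comparison with `Proj 𝒞`.)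

The proof below uses `QuadAll.exists_model_of_family` with the family consisting of generators of `Λ`
and of finitely many of the elements giving the charts. -/

open AlgebraicGeometry CategoryTheory

namespace Pool.Agent.NH

open MvPolynomial Pool.MP_602153_ag

namespace VerAux

section pow

variable {B : Type} [CommRing B] [Algebra ℚ B] (ℬ : ℕ → Submodule ℚ B) [GradedAlgebra ℬ]

/-- A graded algebra generated in degree one: the part of degree `n` is the `n`-th power. -/
theorem le_pow (hgen : Algebra.adjoin ℚ (ℬ 1 : Set B) = ⊤) (n : ℕ) : ℬ n ≤ (ℬ 1) ^ n := by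
  classical
  have key : ∀ z ∈ Algebra.adjoin ℚ (ℬ 1 : Set B), ∀ i,
      (DirectSum.decompose ℬ z i : B) ∈ (ℬ 1) ^ i := by
    intro z hz
    induction hz using Algebra.adjoin_induction with
    | mem x hx =>
      intro i
      by_cases hi : i = 1
      · subst hi
        rw [DirectSum.decompose_of_mem_same ℬ hx, pow_one]
        exact hx
      · rw [DirectSum.decompose_of_mem_ne ℬ hx (Ne.symm hi)]
        exact zero_mem _
    | algebraMap r =>
      intro i
      have h0 : algebraMap ℚ B r ∈ ℬ 0 := SetLike.algebraMap_mem_graded ℬ r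
      by_cases hi : i = 0
      · subst hi
        rw [DirectSum.decompose_of_mem_same ℬ h0, pow_zero]
        exact Submodule.algebraMap_mem r
      · rw [DirectSum.decompose_of_mem_ne ℬ h0 (Ne.symm hi)]
        exact zero_mem _
    | add x y _ _ hx hy =>
      intro i
      rw [DirectSum.decompose_add, DirectSum.add_apply, Submodule.coe_add]
      exact add_mem (hx i) (hy i)
    | mul x y _ _ hx hy =>
      intro i
      rw [DirectSum.decompose_mul, DirectSum.coe_mul_apply]
      refine sum_mem fun ij hij => ?_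
      rw [Finset.mem_filter] at hij
      have h1 := Submodule.mul_mem_mul (hx ij.1) (hy ij.2)
      rwa [← pow_add, hij.2] at h1
  intro z hz
  have h1 := key z (by rw [hgen]; trivial) n
  rwa [DirectSum.decompose_of_mem_same ℬ hz] at h1

end pow

section clear

variable {B : Type} [CommRing B] [Algebra ℚ B] {ι : Type} (v : ι → B)

/-- The elements which become forms of degree `k` with integral coefficients. -/
def Mk (k : ℕ) : Submodule ℚ B where
  carrier := {z | ∃ (N : ℤ) (q : MvPolynomial ι ℤ), N ≠ 0 ∧ q.IsHomogeneous k ∧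
    aeval v q = (N : B) * z}
  add_mem' := by
    rintro x y ⟨N, q, hN, hq, h⟩ ⟨N', q', hN', hq', h'⟩
    refine ⟨N * N', C N' * q + C N * q', mul_ne_zero hN hN', ?_, ?_⟩
    · have h1 := (isHomogeneous_C ι N').mul hq
      have h2 := (isHomogeneous_C ι N).mul hq'
      rw [zero_add] at h1 h2
      exact h1.add h2
    · rw [map_add, map_mul, map_mul, h, h']
      simp only [eq_intCast, map_intCast, Int.cast_mul]
      ring
  zero_mem' := ⟨1, 0, one_ne_zero, isHomogeneous_zero _ _ _, by simp⟩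
  smul_mem' := by
    rintro c x ⟨N, q, hN, hq, h⟩
    refine ⟨N * c.den, C c.num * q, mul_ne_zero hN (by exact_mod_cast c.den_nz), ?_, ?_⟩
    · have h1 := (isHomogeneous_C ι c.num).mul hq
      rwa [zero_add] at h1
    · have hc : ((c.den : ℕ) : B) * algebraMap ℚ B c = ((c.num : ℤ) : B) := by
        have h2 : (c.den : ℚ) * c = c.num := by rw [mul_comm]; exact Rat.mul_den_eq_num c
        have h3 := congrArg (algebraMap ℚ B) h2
        rw [map_mul, map_natCast, map_intCast] at h3
        exact h3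
      rw [map_mul, h, Algebra.smul_def]
      simp only [eq_intCast, map_intCast, Int.cast_mul, Int.cast_natCast]
      rw [← hc]
      ring

theorem mem_Mk {k : ℕ} {z : B} : z ∈ Mk v k ↔ ∃ (N : ℤ) (q : MvPolynomial ι ℤ), N ≠ 0 ∧
    q.IsHomogeneous k ∧ aeval v q = (N : B) * z := Iff.rfl

theorem Mk_mul (k l : ℕ) : Mk v k * Mk v l ≤ Mk v (k + l) := by
  rw [Submodule.mul_le]
  rintro x ⟨N, q, hN, hq, h⟩ y ⟨N', q', hN', hq', h'⟩
  refine ⟨N * N', q * q', mul_ne_zero hN hN', hq.mul hq', ?_⟩
  rw [map_mul, h, h', Int.cast_mul]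
  ring

theorem Mk_pow (k : ℕ) : (Mk v 1) ^ k ≤ Mk v k := by
  induction k with
  | zero =>
    rw [pow_zero, Submodule.one_le]
    exact ⟨1, 1, one_ne_zero, isHomogeneous_one _ _, by simp⟩
  | succ k ih =>
    rw [pow_succ]
    exact (mul_le_mul' ih le_rfl).trans (Mk_mul v k 1)

theorem Mk_one (i : ι) : v i ∈ Mk v 1 :=
  ⟨1, X i, one_ne_zero, isHomogeneous_X _ _, by simp⟩

theorem span_le_Mk : Submodule.span ℚ (Set.range v) ≤ Mk v 1 := by
  rw [Submodule.span_le]
  rintro _ ⟨i, rfl⟩
  exact Mk_one v i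

end clear

section gen

variable {B : Type} [CommRing B] [Algebra ℚ B] {ℬ : ℕ → Submodule ℚ B} [GradedAlgebra ℬ]
  {ι : Type} {v : ι → B}

theorem mem_Mk_of_mem (hgen : Algebra.adjoin ℚ (ℬ 1 : Set B) = ⊤) {E : ℕ}
    (hv : ℬ E ≤ Submodule.span ℚ (Set.range v)) {k : ℕ} {z : B} (hz : z ∈ ℬ (E * k)) :
    z ∈ Mk v k := by
  have h1 : (ℬ 1) ^ E ≤ ℬ E := by
    have h2 : ∀ n, (ℬ 1) ^ n ≤ ℬ n := by
      intro n
      induction n with
      | zero =>
        rw [pow_zero, Submodule.one_le]
        exact SetLike.GradedOne.one_mem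
      | succ n ih =>
        rw [pow_succ]
        refine (mul_le_mul' ih le_rfl).trans ?_
        rw [Submodule.mul_le]
        intro x hx y hy
        exact SetLike.GradedMul.mul_mem hx hy
    exact h2 E
  have h3 : ℬ (E * k) ≤ Mk v k := by
    refine (le_pow ℬ hgen _).trans ?_
    rw [pow_mul]
    refine (pow_le_pow_left' ?_ k).trans (Mk_pow v k)
    exact h1.trans (hv.trans (span_le_Mk v))
  exact h3 hz

end gen

end VerAux

open VerAux in
theorem hasModel_of_good_ver {B : Type} [CommRing B] [IsDomain B] [Algebra ℚ B]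
    (ℬ : ℕ → Submodule ℚ B) [GradedAlgebra ℬ] (hgen : Algebra.adjoin ℚ (ℬ 1 : Set B) = ⊤)
    {E : ℕ} (hE : 0 < E) (hne : ℬ E ≠ ⊥) {Λ : Submodule ℤ B} (hΛ : LG.IsLat (ℬ E) Λ)
    (hgood : LG.Good Λ 1) (Z : Scheme) (e : Nonempty (Z ≅ Proj ℬ)) : HasModel Z := by
  classical
  have hchar : CharZero B := algebraRat.charZero B
  obtain ⟨r, x, hx⟩ := Submodule.fg_iff_exists_fin_generating_family.1 hΛ.fg
  obtain ⟨κ, f, hf, hcov⟩ := hgood
  have hxΛ : ∀ s, x s ∈ Λ := fun s => by
    rw [← hx]; exact Submodule.subset_span ⟨s, rfl⟩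
  have hspanQ : ℬ E = Submodule.span ℚ (Set.range x) := LG.LGModel.span_eq x hΛ hx
  have hΛE : ∀ y ∈ Λ, y ∈ ℬ E := fun y hy => by
    rw [← hΛ.span]; exact Submodule.subset_span hy
  -- the grading over the integers
  let 𝒮 : ℕ → Submodule ℤ B := fun k => (ℬ k).restrictScalars ℤ
  have hint : DirectSum.IsInternal 𝒮 := DirectSum.Decomposition.isInternal ℬ
  let _ : GradedAlgebra 𝒮 :=
    { one_mem := (SetLike.GradedOne.one_mem : (1 : B) ∈ ℬ 0)
      mul_mem := fun {i j x y} (hx : x ∈ ℬ i) (hy : y ∈ ℬ j) =>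
        (SetLike.GradedMul.mul_mem hx hy : x * y ∈ ℬ (i + j))
      toDecomposition := hint.chooseDecomposition }
  -- powers of the generators
  have hpow : ∀ s, ∃ (k : ℕ) (c : κ →₀ Algebra.adjoin ℤ (Λ : Set B)), 0 < k ∧
      (c.sum fun i a => a • f i) = x s ^ k := by
    intro s
    obtain ⟨k, hk⟩ := hcov (x s) (hxΛ s)
    rw [Int.cast_one, one_mul] at hk
    have h1 : x s ^ (k + 1) ∈ Submodule.span (Algebra.adjoin ℤ (Λ : Set B)) (Set.range f) := by
      have h2 := Submodule.smul_mem _ (⟨x s, Algebra.subset_adjoin (hxΛ s)⟩ :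
        Algebra.adjoin ℤ (Λ : Set B)) hk
      rw [pow_succ']
      exact h2
    obtain ⟨c, hc⟩ := (Finsupp.mem_span_range_iff_exists_finsupp).1 h1
    exact ⟨k + 1, c, Nat.succ_pos k, hc⟩
  choose kk cc hkk hcc using hpow
  let T : Finset κ := Finset.univ.biUnion fun s => (cc s).support
  have hsum : ∀ s, ∑ j : {i // i ∈ T}, ((cc s j.1 : Algebra.adjoin ℤ (Λ : Set B)) : B) * f j.1 =
      x s ^ kk s := by
    intro s
    rw [← hcc s, Finsupp.sum,
      Finset.sum_coe_sort T (fun i => ((cc s i : Algebra.adjoin ℤ (Λ : Set B)) : B) * f i)]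
    symm
    refine Finset.sum_subset (fun i hi => Finset.mem_biUnion.2 ⟨s, Finset.mem_univ s, hi⟩) ?_
    intro i _ hi
    rw [Finsupp.notMem_support_iff] at hi
    rw [hi, zero_smul]
  let J : Type := {i // i ∈ T}
  have hJ : Nonempty J := by
    by_contra hcon
    rw [not_nonempty_iff] at hcon
    apply hne
    rw [hspanQ, Submodule.span_eq_bot]
    rintro _ ⟨s, rfl⟩
    have h1 := hsum s
    have h2 : ∑ j : {i // i ∈ T}, ((cc s j.1 : Algebra.adjoin ℤ (Λ : Set B)) : B) * f j.1 = 0 :=
      Finset.sum_eq_zero fun j _ => (hcon.false j).elim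
    rw [h2] at h1
    exact pow_eq_zero_iff (hkk s).ne' |>.1 h1.symm
  let v : Fin r ⊕ J → B := Sum.elim x (fun j => f j.1)
  have hvΛ : ∀ s, v s ∈ Λ := by
    rintro (s | j)
    · exact hxΛ s
    · exact (hf j.1).1
  have hvspan : Submodule.span ℤ (Set.range v) = Λ := by
    apply le_antisymm
    · rw [Submodule.span_le]
      rintro _ ⟨s, rfl⟩
      exact hvΛ s
    · rw [← hx]
      apply Submodule.span_mono
      rintro _ ⟨s, rfl⟩
      exact ⟨Sum.inl s, rfl⟩
  have hvQ : ℬ E ≤ Submodule.span ℚ (Set.range v) := by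
    rw [hspanQ]
    apply Submodule.span_mono
    rintro _ ⟨s, rfl⟩
    exact ⟨Sum.inl s, rfl⟩
  have hex : ∀ a : Algebra.adjoin ℤ (Λ : Set B),
      ∃ g : MvPolynomial (Fin r ⊕ J) ℤ, aeval v g = (a : B) := by
    intro a
    obtain ⟨g, hg⟩ := LG.LGModel.exists_of_adjoin x hx a.2
    refine ⟨rename Sum.inl g, ?_⟩
    rw [aeval_rename, ← hg]
    rfl
  choose gg hgg using hex
  have hcov' : ∀ s, ∃ (k : ℕ) (a : J → MvPolynomial (Fin r ⊕ J) ℤ), 0 < k ∧
      v s ^ k = ∑ j, aeval v (a j) * v (Sum.inr j) := by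
    rintro (s | j)
    · refine ⟨kk s, fun j => gg (cc s j.1), hkk s, ?_⟩
      change x s ^ kk s = _
      rw [← hsum s]
      refine Finset.sum_congr rfl fun j _ => ?_
      rw [hgg]
      rfl
    · refine ⟨1, fun j' => if j' = j then 1 else 0, one_pos, ?_⟩
      rw [Finset.sum_eq_single j]
      · simp only [if_true]
        rw [map_one, one_mul, pow_one]
      · intro j' _ hj'
        simp only [if_neg hj']
        rw [map_zero, zero_mul]
      · intro h
        exact absurd (Finset.mem_univ j) h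
  have hreg' : ∀ j : J, IsRegularRing (Algebra.adjoin ℤ (Set.range fun s =>
      algebraMap B (FractionRing B) (v s) / algebraMap B (FractionRing B) (v (Sum.inr j)))) := by
    intro j
    have h1 : Algebra.adjoin ℤ (Set.range fun s =>
        algebraMap B (FractionRing B) (v s) / algebraMap B (FractionRing B) (v (Sum.inr j))) =
        LG.chartSub Λ (f j.1) := by
      rw [← hvspan, ← LG.lgcx_theta_range v (f j.1), LG.lgcx_theta,
        ← Algebra.adjoin_range_eq_range_aeval]
      rfl
    rw [h1]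
    exact (hf j.1).2.2
  obtain ⟨e⟩ := e
  obtain ⟨Y, h1, h2, h3, h4, h5, ⟨e'⟩⟩ := Pool.Agent.QuadAll.exists_model_of_family 𝒮 v hE
    (fun s => hΛE _ (hvΛ s)) (Sum.inr : J → Fin r ⊕ J) (fun j => (hf j.1).2.1) hcov' hreg' ℬ
    (RingHom.id B) Function.injective_id (fun k a ha => ha)
    (fun k z hz => mem_Mk_of_mem hgen hvQ hz)
  exact ⟨Y, h1, h2, h3, h4, h5, ⟨e' ≪≫ e.symm⟩⟩

end Pool.Agent.NH
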