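import Pool.Agent.NodHyp.Deh

set_option autoImplicit false

/-! # DOMA: the homogeneous coordinate ring of a smooth hypersurface -/

namespace Pool.Agent.NH

open MvPolynomial

variable {n : ℕ}

/-! auxiliary lemmas (prefix `DOMA_`) -/

/-- the substitution `X i ↦ X i * t` -/
noncomputable def DOMA_phi (n : ℕ) :
    MvPolynomial (Fin (n + 1)) ℚ →ₐ[ℚ] Polynomial (MvPolynomial (Fin (n + 1)) ℚ) :=
  aeval fun i => Polynomial.C (X i) * Polynomial.X

theorem DOMA_phi_hom {d : ℕ} {F : MvPolynomial (Fin (n + 1)) ℚ} (hF : F.IsHomogeneous d) :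
    DOMA_phi n F = Polynomial.C F * Polynomial.X ^ d := by
  have h1 : ∀ α ∈ F.support, DOMA_phi n (monomial α (coeff α F)) =
      Polynomial.C (monomial α (coeff α F)) * Polynomial.X ^ d := by
    intro α hα
    have h2 : α.degree = d := by
      have := hF (mem_support_iff.mp hα)
      rw [Finsupp.degree_eq_weight_one]
      exact this
    rw [DOMA_phi, aeval_monomial]
    simp only [mul_pow]
    rw [Finsupp.prod_mul]
    have h3 : (α.prod fun _ e => (Polynomial.X : Polynomial (MvPolynomial (Fin (n + 1)) ℚ)) ^ e) =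
        Polynomial.X ^ d := by
      rw [Finsupp.prod, Finset.prod_pow_eq_pow_sum, ← h2]
      rfl
    have h4 : (α.prod fun i e => (Polynomial.C (X i) :
        Polynomial (MvPolynomial (Fin (n + 1)) ℚ)) ^ e) =
        Polynomial.C (α.prod fun i e => (X i : MvPolynomial (Fin (n + 1)) ℚ) ^ e) := by
      rw [Finsupp.prod, Finsupp.prod, map_prod]
      simp only [map_pow]
    rw [h3, h4, monomial_eq, map_mul]
    have h5 : (algebraMap ℚ (Polynomial (MvPolynomial (Fin (n + 1)) ℚ))) (coeff α F) =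
        Polynomial.C (C (coeff α F)) := rfl
    rw [h5, mul_assoc]
  calc DOMA_phi n F = DOMA_phi n (∑ α ∈ F.support, monomial α (coeff α F)) := by
        rw [support_sum_monomial_coeff]
    _ = ∑ α ∈ F.support, Polynomial.C (monomial α (coeff α F)) * Polynomial.X ^ d := by
        rw [map_sum]
        exact Finset.sum_congr rfl h1
    _ = Polynomial.C F * Polynomial.X ^ d := by
        rw [← Finset.sum_mul, ← map_sum, support_sum_monomial_coeff]

theorem DOMA_phi_one (G : MvPolynomial (Fin (n + 1)) ℚ) :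
    Polynomial.eval 1 (DOMA_phi n G) = G := by
  have h : ((Polynomial.evalRingHom (1 : MvPolynomial (Fin (n + 1)) ℚ)).comp
      (DOMA_phi n).toRingHom) = RingHom.id _ := by
    apply MvPolynomial.ringHom_ext
    · intro r
      have h5 : (DOMA_phi n) (C r) = Polynomial.C (C r) := (DOMA_phi n).commutes r
      change Polynomial.eval 1 (DOMA_phi n (C r)) = _
      rw [h5]
      simp
    · intro i
      change Polynomial.eval 1 (DOMA_phi n (X i)) = _
      rw [DOMA_phi, aeval_X]
      simp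
  exact congrArg (fun f => f G) (congrArg DFunLike.coe h)

theorem DOMA_phi_zero (G : MvPolynomial (Fin (n + 1)) ℚ) :
    Polynomial.eval 0 (DOMA_phi n G) = C (constantCoeff G) := by
  have h : ((Polynomial.evalRingHom (0 : MvPolynomial (Fin (n + 1)) ℚ)).comp
      (DOMA_phi n).toRingHom) = C.comp constantCoeff := by
    apply MvPolynomial.ringHom_ext
    · intro r
      have h5 : (DOMA_phi n) (C r) = Polynomial.C (C r) := (DOMA_phi n).commutes r
      change Polynomial.eval 0 (DOMA_phi n (C r)) = _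
      rw [h5]
      simp
    · intro i
      change Polynomial.eval 0 (DOMA_phi n (X i)) = _
      rw [DOMA_phi, aeval_X]
      simp
  exact congrArg (fun f => f G) (congrArg DFunLike.coe h)

/-- a factor of `a t ^ d` is a monomial in `t` -/
theorem DOMA_monomial {R : Type} [CommRing R] [IsDomain R] {P Q : Polynomial R} {a : R} {d : ℕ}
    (ha : a ≠ 0) (h : P * Q = Polynomial.C a * Polynomial.X ^ d) :
    P = Polynomial.C (P.coeff P.natDegree) * Polynomial.X ^ P.natDegree := by
  have h0 : P * Q ≠ 0 := by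
    rw [h, Polynomial.C_mul_X_pow_eq_monomial]
    exact fun h1 => ha ((Polynomial.monomial_eq_zero_iff a d).mp h1)
  have hP : P ≠ 0 := left_ne_zero_of_mul h0
  have hQ : Q ≠ 0 := right_ne_zero_of_mul h0
  have h1 : P.natDegree + Q.natDegree = d := by
    rw [← Polynomial.natDegree_mul hP hQ, h, Polynomial.natDegree_C_mul_X_pow d a ha]
  have h2 : P.natTrailingDegree + Q.natTrailingDegree = d := by
    rw [← Polynomial.natTrailingDegree_mul hP hQ, h, Polynomial.C_mul_X_pow_eq_monomial,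
      Polynomial.natTrailingDegree_monomial ha]
  have h3 := Polynomial.natTrailingDegree_le_natDegree P
  have h4 := Polynomial.natTrailingDegree_le_natDegree Q
  have h5 : P.natTrailingDegree = P.natDegree := by omega
  rw [Polynomial.C_mul_X_pow_eq_monomial]
  ext j
  rw [Polynomial.coeff_monomial]
  split_ifs with hj
  · rw [hj]
  · rcases lt_or_gt_of_ne hj with h6 | h6
    · exact Polynomial.coeff_eq_zero_of_natDegree_lt h6
    · exact Polynomial.coeff_eq_zero_of_lt_natTrailingDegree (by rw [h5]; exact h6)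

theorem DOMA_factor {d : ℕ} {F G H : MvPolynomial (Fin (n + 1)) ℚ} (hF : F.IsHomogeneous d)
    (hF0 : F ≠ 0) (h : F = G * H) (hG : ¬ IsUnit G) : constantCoeff G = 0 := by
  have h1 : DOMA_phi n G * DOMA_phi n H = Polynomial.C F * Polynomial.X ^ d := by
    rw [← map_mul, ← h, DOMA_phi_hom hF]
  have h2 := DOMA_monomial hF0 h1
  have h3 := DOMA_phi_zero G
  rcases Nat.eq_zero_or_pos (DOMA_phi n G).natDegree with h4 | h4
  · exfalso
    rw [h4, pow_zero, mul_one] at h2
    have h5 := DOMA_phi_one G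
    rw [h2, Polynomial.eval_C] at h5
    rw [h2, Polynomial.eval_C, h5] at h3
    apply hG
    rw [h3]
    apply IsUnit.map
    rw [isUnit_iff_ne_zero]
    intro h6
    rw [h6, map_zero] at h3
    apply hF0
    rw [h, h3, zero_mul]
  · rw [h2] at h3
    rw [Polynomial.eval_mul, Polynomial.eval_pow, Polynomial.eval_X, zero_pow h4.ne',
      mul_zero] at h3
    have h5 : (C (constantCoeff G) : MvPolynomial (Fin (n + 1)) ℚ) = C 0 := by
      rw [← h3, map_zero]
    exact C_injective _ _ h5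

/-- put `X i = 0` for `i < j` -/
noncomputable def DOMA_ev (n j : ℕ) :
    MvPolynomial (Fin (n + 1)) ℚ →ₐ[ℚ] MvPolynomial (Fin (n + 1)) ℚ :=
  aeval fun i => if (i : ℕ) < j then 0 else X i

/-- its kernel -/
noncomputable def DOMA_q (n j : ℕ) : Ideal (MvPolynomial (Fin (n + 1)) ℚ) :=
  RingHom.ker (DOMA_ev n j)

instance DOMA_q_prime (n j : ℕ) : (DOMA_q n j).IsPrime := RingHom.ker_isPrime _

theorem DOMA_q_le_span (n j : ℕ) : DOMA_q n j ≤ Ideal.span (Set.range X) := by
  intro f hf
  have h : ((Ideal.Quotient.mkₐ ℚ (Ideal.span (Set.range (X : Fin (n + 1) →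
      MvPolynomial (Fin (n + 1)) ℚ)))).comp (DOMA_ev n j)) =
      Ideal.Quotient.mkₐ ℚ (Ideal.span (Set.range X)) := by
    apply MvPolynomial.algHom_ext
    intro i
    rw [AlgHom.comp_apply, DOMA_ev, aeval_X]
    split_ifs with hi
    · rw [map_zero]
      symm
      rw [Ideal.Quotient.mkₐ_eq_mk, Ideal.Quotient.eq_zero_iff_mem]
      exact Ideal.subset_span ⟨i, rfl⟩
    · rfl
  have h1 := congrArg (fun g => g f) (congrArg DFunLike.coe h)
  have h2 : DOMA_ev n j f = 0 := hf
  simp only [AlgHom.comp_apply] at h1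
  rw [h2, map_zero] at h1
  rw [← Ideal.Quotient.eq_zero_iff_mem, ← Ideal.Quotient.mkₐ_eq_mk (R₁ := ℚ)]
  exact h1.symm

theorem DOMA_q_lt (n j : ℕ) (hj : j < n + 1) : DOMA_q n j < DOMA_q n (j + 1) := by
  apply lt_of_le_of_ne
  · intro f hf
    have h : (DOMA_ev n (j + 1)).comp (DOMA_ev n j) = DOMA_ev n (j + 1) := by
      apply MvPolynomial.algHom_ext
      intro i
      rw [AlgHom.comp_apply, DOMA_ev, DOMA_ev, aeval_X, aeval_X]
      split_ifs with h1 h2 h3
      · rw [map_zero]
      · omega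
      · rw [aeval_X, if_pos h3]
      · rw [aeval_X, if_neg h3]
    have h1 : DOMA_ev n (j + 1) f = DOMA_ev n (j + 1) (DOMA_ev n j f) := by
      rw [← AlgHom.comp_apply, h]
    have h2 : DOMA_ev n j f = 0 := hf
    rw [h2, map_zero] at h1
    exact h1
  · intro h
    have h1 : (X ⟨j, hj⟩ : MvPolynomial (Fin (n + 1)) ℚ) ∈ DOMA_q n (j + 1) := by
      change DOMA_ev n (j + 1) (X ⟨j, hj⟩) = 0
      rw [DOMA_ev, aeval_X, if_pos (by simp)]
    rw [← h] at h1
    have h2 : DOMA_ev n j (X ⟨j, hj⟩) = 0 := h1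
    rw [DOMA_ev, aeval_X, if_neg (by simp)] at h2
    exact X_ne_zero _ h2

theorem DOMA_q_height (n : ℕ) (hn : 2 ≤ n) : 3 ≤ (DOMA_q n 3).height := by
  have h1 := Ideal.height_add_one_le_of_lt_of_isPrime (DOMA_q_lt n 0 (by omega))
  have h2 := Ideal.height_add_one_le_of_lt_of_isPrime (DOMA_q_lt n 1 (by omega))
  have h3 := Ideal.height_add_one_le_of_lt_of_isPrime (DOMA_q_lt n 2 (by omega))
  calc (3 : ℕ∞) = 0 + 1 + 1 + 1 := by norm_num
    _ ≤ (DOMA_q n 0).height + 1 + 1 + 1 := by gcongr; exact zero_le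
    _ ≤ (DOMA_q n 1).height + 1 + 1 := by gcongr
    _ ≤ (DOMA_q n 2).height + 1 := by gcongr
    _ ≤ (DOMA_q n 3).height := h3

/-- two polynomials without constant term in at least three variables have a common zero which is
not the origin -/
theorem DOMA_point (hn : 2 ≤ n) {G H : MvPolynomial (Fin (n + 1)) ℚ}
    (hG : constantCoeff G = 0) (hH : constantCoeff H = 0) :
    ∃ 𝔭 : Ideal (MvPolynomial (Fin (n + 1)) ℚ), 𝔭.IsPrime ∧ G ∈ 𝔭 ∧ H ∈ 𝔭 ∧ ∃ i, X i ∉ 𝔭 := by
  classical
  have hne : Ideal.span (({G, H} : Finset (MvPolynomial (Fin (n + 1)) ℚ)) :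
      Set (MvPolynomial (Fin (n + 1)) ℚ)) ≠ ⊤ := by
    intro h
    have h1 : Ideal.span (({G, H} : Finset (MvPolynomial (Fin (n + 1)) ℚ)) :
        Set (MvPolynomial (Fin (n + 1)) ℚ)) ≤ RingHom.ker constantCoeff := by
      rw [Ideal.span_le, Finset.coe_pair]
      rintro _ (rfl | rfl)
      · exact hG
      · exact hH
    rw [h, top_le_iff] at h1
    have h2 : (1 : MvPolynomial (Fin (n + 1)) ℚ) ∈
        RingHom.ker (constantCoeff : MvPolynomial (Fin (n + 1)) ℚ →+* ℚ) := by
      rw [h1]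
      trivial
    rw [RingHom.mem_ker, map_one] at h2
    exact one_ne_zero h2
  obtain ⟨𝔭, h𝔭⟩ := Ideal.nonempty_minimalPrimes hne
  have hprime : 𝔭.IsPrime := h𝔭.1.1
  have hle := h𝔭.1.2
  rw [Ideal.span_le, Finset.coe_pair] at hle
  refine ⟨𝔭, hprime, hle (Or.inl rfl), hle (Or.inr rfl), ?_⟩
  by_contra hcon
  push Not at hcon
  have h1 : DOMA_q n 3 ≤ 𝔭 := by
    refine (DOMA_q_le_span n 3).trans ?_
    rw [Ideal.span_le]
    rintro _ ⟨i, rfl⟩
    exact hcon i
  have h2 := Ideal.height_le_card_of_mem_minimalPrimes_span_finset h𝔭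
  have h3 : (3 : ℕ∞) ≤ 𝔭.height := (DOMA_q_height n hn).trans (Ideal.height_mono h1)
  have h4 : (({G, H} : Finset (MvPolynomial (Fin (n + 1)) ℚ)).card : ℕ∞) ≤ 2 := by
    exact_mod_cast Finset.card_le_two
  have h5 : (3 : ℕ∞) ≤ 2 := h3.trans (h2.trans h4)
  exact absurd h5 (by decide)

theorem DOMA_aeval {L : Type} [Field L] (θ : MvPolynomial (Fin (n + 1)) ℚ →+* L)
    (F : MvPolynomial (Fin (n + 1)) ℤ) :
    aeval (fun i => θ (X i)) F = θ (map (algebraMap ℤ ℚ) F) := by
  have h : ((aeval (fun i => θ (X i)) : MvPolynomial (Fin (n + 1)) ℤ →ₐ[ℤ] L) :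
      MvPolynomial (Fin (n + 1)) ℤ →+* L) = θ.comp (map (algebraMap ℤ ℚ)) := by
    apply MvPolynomial.ringHom_ext
    · intro r
      simp
    · intro i
      simp
  exact congrArg (fun f => f F) (congrArg DFunLike.coe h)

/-- A smooth hypersurface of dimension at least one is irreducible. Proof: `F ≠ 0` (else every point is singular), `F` is not a
unit. If `F = G H` with non-units `G`, `H`, these are homogeneous of positive degree; by Krull's height theorem
there is a prime `𝔭` containing `G`, `H`, contained in the ideal `𝔪` of the origin, of height `≤ 2 < n + 1 ≤ height 𝔪`; so some `X i ∉ 𝔭`,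
and the residue field `Frac (ℚ[x] / 𝔭)` gives a nonzero point at which `F` and all `∂_i F = G ∂_i H + H ∂_i G` vanish. -/
theorem prime_of_smooth (hn : 2 ≤ n) {d : ℕ} (hd : 1 ≤ d) {F : MvPolynomial (Fin (n + 1)) ℤ}
    (hF : F.IsHomogeneous d) (hsm : SmoothQ F) : Prime (map (algebraMap ℤ ℚ) F) := by
  have hF' : (map (algebraMap ℤ ℚ) F).IsHomogeneous d := hF.map _
  have hF0 : map (algebraMap ℤ ℚ) F ≠ 0 := by
    intro h0
    have h1 : F = 0 := by
      apply map_injective _ (RingHom.injective_int (algebraMap ℤ ℚ))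
      rw [h0, map_zero]
    have h2 := hsm ℚ (fun _ => 1) (by rw [h1, map_zero]) (fun i => by rw [h1, map_zero, map_zero])
    exact one_ne_zero (congrFun h2 0)
  rw [← UniqueFactorizationMonoid.irreducible_iff_prime]
  refine ⟨?_, ?_⟩
  · intro hu
    have h1 := MvPolynomial.isUnit_iff_totalDegree_of_isReduced.mp hu
    have h2 := hF'.totalDegree hF0
    omega
  · intro G H hGH
    by_contra hcon
    push Not at hcon
    have hG := DOMA_factor hF' hF0 hGH hcon.1
    have hH := DOMA_factor hF' hF0 (hGH.trans (mul_comm G H)) hcon.2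
    obtain ⟨𝔭, hprime, hG𝔭, hH𝔭, i, hi⟩ := DOMA_point hn hG hH
    let L := FractionRing (MvPolynomial (Fin (n + 1)) ℚ ⧸ 𝔭)
    let θ : MvPolynomial (Fin (n + 1)) ℚ →+* L :=
      (algebraMap (MvPolynomial (Fin (n + 1)) ℚ ⧸ 𝔭) L).comp (Ideal.Quotient.mk 𝔭)
    have hθ : ∀ f, θ f = 0 ↔ f ∈ 𝔭 := by
      intro f
      change (algebraMap (MvPolynomial (Fin (n + 1)) ℚ ⧸ 𝔭) L) (Ideal.Quotient.mk 𝔭 f) = 0 ↔ _
      rw [map_eq_zero_iff _ (IsFractionRing.injective (MvPolynomial (Fin (n + 1)) ℚ ⧸ 𝔭) L),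
        Ideal.Quotient.eq_zero_iff_mem]
    have hchar : CharZero L :=
      charZero_of_injective_ringHom (θ.comp C).injective
    have h1 := hsm L (fun i => θ (X i)) ?_ ?_
    · exact hi ((hθ _).mp (congrFun h1 i))
    · rw [DOMA_aeval, hθ, hGH]
      exact 𝔭.mul_mem_right _ hG𝔭
    · intro j
      rw [DOMA_aeval, hθ, ← pderiv_map, hGH, Derivation.leibniz]
      refine 𝔭.add_mem ?_ ?_
      · exact 𝔭.mul_mem_right _ hG𝔭
      · exact 𝔭.mul_mem_right _ hH𝔭

end Pool.Agent.NH
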