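import Pool.Agent.NodHyp.Deh

set_option autoImplicit false

/-! # DOMB: the homogeneous coordinate ring of a smooth hypersurface -/

namespace Pool.Agent.NH

open MvPolynomial

variable {n : ℕ}

theorem primitive_of_nodal (hn : 1 ≤ n) {F : MvPolynomial (Fin (n + 1)) ℤ} {p : ℕ}
    (hp : p.Prime) (hnod : NodalAt F p) : ¬ C (p : ℤ) ∣ F := by
  classical
  rintro ⟨G, rfl⟩
  have : Fact p.Prime := ⟨hp⟩
  have h0 : ∀ H : MvPolynomial (Fin (n + 1)) ℤ,
      aeval (fun _ => (1 : ZMod p)) (C (p : ℤ) * H) = 0 := by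
    intro H
    rw [map_mul, aeval_C]
    simp
  have h1 : ∀ i, pderiv i (C (p : ℤ) * G) = C (p : ℤ) * pderiv i G := by
    intro i
    rw [pderiv_C_mul]
  refine hnod (ZMod p) (fun _ => 1) 0 one_ne_zero (h0 G) ?_ ?_
  · intro i
    rw [h1]
    exact h0 _
  · have hne : Nonempty {i : Fin (n + 1) // i ≠ 0} := by
      refine ⟨⟨⟨1, by omega⟩, ?_⟩⟩
      intro h
      have := congrArg Fin.val h
      simp at this
    have h2 : (Matrix.of fun a b : {i : Fin (n + 1) // i ≠ 0} =>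
        aeval (fun _ => (1 : ZMod p)) (pderiv a.1 (pderiv b.1 (C (p : ℤ) * G)))) = 0 := by
      ext a b
      rw [Matrix.of_apply, Matrix.zero_apply, h1, pderiv_C_mul]
      exact h0 _
    rw [h2]
    exact Matrix.det_zero

/-- clearing denominators -/
theorem DOMB_clear {σ : Type} (g : MvPolynomial σ ℚ) :
    ∃ (N : ℕ) (g' : MvPolynomial σ ℤ), N ≠ 0 ∧ C (N : ℚ) * g = map (algebraMap ℤ ℚ) g' := by
  induction g using MvPolynomial.induction_on with
  | C a =>
    refine ⟨a.den, C a.num, a.den_nz, ?_⟩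
    rw [← C_mul, map_C]
    congr 1
    rw [mul_comm]
    exact Rat.mul_den_eq_num a
  | add p q hp hq =>
    obtain ⟨N1, g1, hN1, h1⟩ := hp
    obtain ⟨N2, g2, hN2, h2⟩ := hq
    refine ⟨N1 * N2, C (N2 : ℤ) * g1 + C (N1 : ℤ) * g2, mul_ne_zero hN1 hN2, ?_⟩
    rw [map_add, map_mul, map_mul, ← h1, ← h2, map_C, map_C]
    push_cast
    rw [C_mul]
    ring
  | mul_X p i hp =>
    obtain ⟨N1, g1, hN1, h1⟩ := hp
    refine ⟨N1, g1 * X i, hN1, ?_⟩
    rw [map_mul, ← h1, map_X, mul_assoc]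

theorem DOMB_div {σ : Type} {F h : MvPolynomial σ ℤ} (hprim : ∀ p : ℕ, p.Prime → ¬ C (p : ℤ) ∣ F)
    (N : ℕ) : ∀ g : MvPolynomial σ ℤ, N ≠ 0 → F * g = C (N : ℤ) * h → F ∣ h := by
  induction N using Nat.strong_induction_on with
  | _ N ih =>
    intro g hN hg
    by_cases h1 : N = 1
    · subst h1
      rw [Nat.cast_one, C_1, one_mul] at hg
      exact ⟨g, hg.symm⟩
    · have hp := Nat.minFac_prime h1
      obtain ⟨M, hM⟩ := Nat.minFac_dvd N
      set p := N.minFac with hpdef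
      have hpZ : Prime (p : ℤ) := Nat.prime_iff_prime_int.mp hp
      have hpC : Prime (C (p : ℤ) : MvPolynomial σ ℤ) := (prime_C_iff σ).mpr hpZ
      have hdvd : (C (p : ℤ) : MvPolynomial σ ℤ) ∣ F * g := by
        rw [hg, hM]
        push_cast
        rw [C_mul, mul_assoc]
        exact Dvd.intro _ rfl
      rcases hpC.dvd_or_dvd hdvd with h2 | h2
      · exact absurd h2 (hprim p hp)
      · obtain ⟨g', rfl⟩ := h2
        have hM0 : M ≠ 0 := by
          rintro rfl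
          exact hN (by rw [hM, mul_zero])
        refine ih M ?_ g' hM0 ?_
        · rw [hM]
          have := hp.one_lt
          nlinarith [Nat.pos_of_ne_zero hM0]
        · apply mul_left_cancel₀ hpC.ne_zero
          have h3 : C (N : ℤ) * h = C (p : ℤ) * (C (M : ℤ) * h) := by
            rw [← mul_assoc, ← C_mul, ← Nat.cast_mul, ← hM]
          rw [← h3, ← hg]
          ring

/-- Gauss's lemma. -/
theorem ker_int {F : MvPolynomial (Fin (n + 1)) ℤ} (hprime : Prime (map (algebraMap ℤ ℚ) F))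
    (hprim : ∀ p : ℕ, p.Prime → ¬ C (p : ℤ) ∣ F) {B : Type} [CommRing B] [Algebra ℚ B]
    (y : Fin (n + 1) → B)
    (hker : RingHom.ker (aeval y : MvPolynomial (Fin (n + 1)) ℚ →ₐ[ℚ] B) =
      Ideal.span {map (algebraMap ℤ ℚ) F}) (h : MvPolynomial (Fin (n + 1)) ℤ) :
    aeval y h = 0 ↔ F ∣ h := by
  have h1 : ∀ q : MvPolynomial (Fin (n + 1)) ℤ,
      aeval y (map (algebraMap ℤ ℚ) q) = aeval y q := fun q => aeval_map_algebraMap ℚ y q
  have h2 : aeval y h = 0 ↔ map (algebraMap ℤ ℚ) F ∣ map (algebraMap ℤ ℚ) h := by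
    rw [← h1, ← Ideal.mem_span_singleton, ← hker]
    rfl
  rw [h2]
  constructor
  · rintro ⟨g, hg⟩
    obtain ⟨N, g', hN, hg'⟩ := DOMB_clear g
    refine DOMB_div hprim N g' hN ?_
    apply map_injective (algebraMap ℤ ℚ) (RingHom.injective_int _)
    rw [map_mul, map_mul, ← hg', hg, map_C]
    simp only [eq_intCast, Int.cast_natCast]
    ring
  · rintro ⟨g, rfl⟩
    rw [map_mul]
    exact Dvd.intro _ rfl

theorem isDomain_of_prime {F : MvPolynomial (Fin (n + 1)) ℤ}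
    (hprime : Prime (map (algebraMap ℤ ℚ) F)) {B : Type} [CommRing B] [Algebra ℚ B]
    (y : Fin (n + 1) → B)
    (hsurj : Function.Surjective (aeval y : MvPolynomial (Fin (n + 1)) ℚ →ₐ[ℚ] B))
    (hker : RingHom.ker (aeval y : MvPolynomial (Fin (n + 1)) ℚ →ₐ[ℚ] B) =
      Ideal.span {map (algebraMap ℤ ℚ) F}) : IsDomain B := by
  have hP : (RingHom.ker (aeval y : MvPolynomial (Fin (n + 1)) ℚ →ₐ[ℚ] B)).IsPrime := by
    rw [hker]
    exact (Ideal.span_singleton_prime hprime.ne_zero).mpr hprime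
  have hdom : IsDomain (MvPolynomial (Fin (n + 1)) ℚ ⧸
      RingHom.ker (aeval y : MvPolynomial (Fin (n + 1)) ℚ →ₐ[ℚ] B)) :=
    Ideal.Quotient.isDomain _
  exact (Ideal.quotientKerAlgEquivOfSurjective hsurj).symm.toMulEquiv.isDomain _

end Pool.Agent.NH
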