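import Pool.Agent.NodHyp.Deh

set_option autoImplicit false

/-! # DOMC: the homogeneous coordinate ring of a smooth hypersurface -/

namespace Pool.Agent.NH

open MvPolynomial

variable {n : ℕ}

theorem DOMC_pt {d : ℕ} {F : MvPolynomial (Fin (n + 1)) ℤ} (hF : F.IsHomogeneous d)
    (hsm : SmoothQ F) (m : Fin (n + 1)) (L : Type) [Field L] [CharZero L]
    (θ : MvPolynomial {i : Fin (n + 1) // i ≠ m} ℤ →+* L) (hf : θ (deh m F) = 0)
    (hdf : ∀ i, θ (pderiv i (deh m F)) = 0) : False := by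
  classical
  let x : Fin (n + 1) → L := fun i => if h : i ≠ m then θ (X ⟨i, h⟩) else 1
  have hxm : x m = 1 := by
    simp [x]
  have hxi : ∀ i : {i : Fin (n + 1) // i ≠ m}, x i.1 = θ (X i) := by
    intro i
    simp only [x]
    rw [dif_pos i.2]
  have hθe : ∀ q, aeval (fun i : {i : Fin (n + 1) // i ≠ m} => x i.1) q = θ q := by
    intro q
    have h1 : (aeval (fun i : {i : Fin (n + 1) // i ≠ m} => x i.1) :
        MvPolynomial {i : Fin (n + 1) // i ≠ m} ℤ →ₐ[ℤ] L).toRingHom = θ := by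
      apply MvPolynomial.ringHom_ext
      · intro r
        simp
      · intro i
        show aeval (fun i : {i : Fin (n + 1) // i ≠ m} => x i.1) (X i) = θ (X i)
        rw [aeval_X, hxi]
    rw [← h1]
    rfl
  have h0 : x = 0 := by
    apply hsm L x
    · rw [← aeval_deh x hxm, hθe, hf]
    · intro i
      rw [← aeval_deh x hxm, hθe]
      by_cases him : i = m
      · subst him
        rw [euler_deh hF, map_sub, map_mul, hf, mul_zero, zero_sub, map_sum, neg_eq_zero]
        refine Finset.sum_eq_zero ?_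
        intro j _
        rw [map_mul, hdf, mul_zero]
      · have h2 := pderiv_deh (⟨i, him⟩ : {i : Fin (n + 1) // i ≠ m}) F
        dsimp only at h2
        rw [← h2, hdf]
  have h1 : x m = 0 := by
    rw [h0]
    rfl
  rw [hxm] at h1
  exact one_ne_zero h1

/-- one chart -/
theorem DOMC_chart {d : ℕ} {F : MvPolynomial (Fin (n + 1)) ℤ} (hF : F.IsHomogeneous d)
    (hsm : SmoothQ F) (m : Fin (n + 1)) : ∃ N : ℤ, N ≠ 0 ∧
      (C N : MvPolynomial {i // i ≠ m} ℤ) ∈
        Ideal.span {deh m F} ⊔ Ideal.span (Set.range fun i => pderiv i (deh m F)) := by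
  classical
  by_contra hcon
  push Not at hcon
  set I : Ideal (MvPolynomial {i : Fin (n + 1) // i ≠ m} ℤ) :=
    Ideal.span {deh m F} ⊔ Ideal.span (Set.range fun i => pderiv i (deh m F)) with hI
  let S : Submonoid (MvPolynomial {i : Fin (n + 1) // i ≠ m} ℤ) :=
    (nonZeroDivisors ℤ).map (C : ℤ →+* MvPolynomial {i : Fin (n + 1) // i ≠ m} ℤ)
  have hdisj : Disjoint (I : Set (MvPolynomial {i : Fin (n + 1) // i ≠ m} ℤ)) S := by
    rw [Set.disjoint_left]
    rintro x hx ⟨N, hN, rfl⟩
    exact hcon N (nonZeroDivisors.ne_zero hN) hx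
  obtain ⟨P, hP, hIP, hPS⟩ := Ideal.exists_le_prime_disjoint I S hdisj
  have := hP
  have hinj : Function.Injective (algebraMap
      (MvPolynomial {i : Fin (n + 1) // i ≠ m} ℤ ⧸ P)
      (FractionRing (MvPolynomial {i : Fin (n + 1) // i ≠ m} ℤ ⧸ P))) :=
    IsFractionRing.injective _ _
  set θ : MvPolynomial {i : Fin (n + 1) // i ≠ m} ℤ →+*
      FractionRing (MvPolynomial {i : Fin (n + 1) // i ≠ m} ℤ ⧸ P) :=
    (algebraMap (MvPolynomial {i : Fin (n + 1) // i ≠ m} ℤ ⧸ P) _).comp
      (Ideal.Quotient.mk P) with hθdef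
  have hθ : ∀ q, θ q = 0 ↔ q ∈ P := by
    intro q
    rw [hθdef, RingHom.comp_apply, map_eq_zero_iff _ hinj, Ideal.Quotient.eq_zero_iff_mem]
  have hchar : CharZero (FractionRing (MvPolynomial {i : Fin (n + 1) // i ≠ m} ℤ ⧸ P)) := by
    refine charZero_of_inj_zero ?_
    intro N hN
    by_contra hN0
    have h1 : θ (C (N : ℤ)) = 0 := by
      have h2 : (C (N : ℤ) : MvPolynomial {i : Fin (n + 1) // i ≠ m} ℤ) =
          ((N : ℕ) : MvPolynomial {i : Fin (n + 1) // i ≠ m} ℤ) := by
        simp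
      rw [h2, map_natCast]
      exact hN
    rw [hθ] at h1
    refine (Set.disjoint_left.mp hPS) h1 ?_
    refine ⟨(N : ℤ), ?_, rfl⟩
    exact mem_nonZeroDivisors_of_ne_zero (by exact_mod_cast hN0)
  refine DOMC_pt hF hsm m _ θ ?_ ?_
  · rw [hθ]
    apply hIP
    exact Ideal.mem_sup_left (Ideal.subset_span rfl)
  · intro i
    rw [hθ]
    apply hIP
    exact Ideal.mem_sup_right (Ideal.subset_span ⟨i, rfl⟩)

/-- For each `m` the ideal of `ℚ[x_i, i ≠ m]` generated by `f = deh m F` and its partial derivatives is the unit ideal: else a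
maximal ideal gives a point with `x_m = 1` over a field of characteristic zero at which `F` and the `∂_i F`, `i ≠ m`, vanish, and
`∂_m F` too by Euler. Clear denominators, and take the product over `m`. -/
theorem exists_N {d : ℕ} {F : MvPolynomial (Fin (n + 1)) ℤ} (hF : F.IsHomogeneous d)
    (hsm : SmoothQ F) : ∃ N : ℤ, N ≠ 0 ∧ ∀ m : Fin (n + 1),
      (C N : MvPolynomial {i // i ≠ m} ℤ) ∈
        Ideal.span {deh m F} ⊔ Ideal.span (Set.range fun i => pderiv i (deh m F)) := by
  classical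
  choose N hN0 hN using fun m => DOMC_chart hF hsm m
  refine ⟨∏ m, N m, Finset.prod_ne_zero_iff.mpr (fun m _ => hN0 m), ?_⟩
  intro m
  rw [← Finset.mul_prod_erase Finset.univ N (Finset.mem_univ m), map_mul]
  exact Ideal.mul_mem_right _ _ (hN m)

end Pool.Agent.NH
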