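import Pool.Agent.NodHyp.Lat
import Pool.Agent.NodHyp.DomA
import Pool.Agent.NodHyp.DomB
import Pool.Agent.NodHyp.DomC
import Pool.Agent.NodHyp.Ver

set_option autoImplicit false

/-! # CRIT: smooth hypersurfaces with nodal reductions have regular models

`N` from `exists_N`, `R = N.natAbs`, `E = R (d - 1) + 1`; for each prime `p` write `N = p ^ v a`, `p ∤ a` (`v ≤ R`): `isLat_Lam`, `good_Lam`.
`LG.exists_good` and `hasModel_of_good_ver`. -/

open AlgebraicGeometry CategoryTheory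

namespace Pool.Agent.NH

open MvPolynomial Pool.MP_602153_ag

theorem nodal_hasModel {n d : ℕ} (hn : 2 ≤ n) (hd : 2 ≤ d)
    {F : MvPolynomial (Fin (n + 1)) ℤ} (hF : F.IsHomogeneous d) (hsm : SmoothQ F)
    (hnod : ∀ p : ℕ, p.Prime → NodalAt F p)
    (B : Type) [CommRing B] [Algebra ℚ B] (ℬ : ℕ → Submodule ℚ B) [GradedAlgebra ℬ]
    (y : Fin (n + 1) → B) (hy : ∀ i, y i ∈ ℬ 1)
    (hsurj : Function.Surjective (aeval y : MvPolynomial (Fin (n + 1)) ℚ →ₐ[ℚ] B))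
    (hker : RingHom.ker (aeval y : MvPolynomial (Fin (n + 1)) ℚ →ₐ[ℚ] B) =
      Ideal.span {map (algebraMap ℤ ℚ) F})
    (Z : Scheme) (e : Nonempty (Z ≅ Proj ℬ)) : HasModel Z := by
  have hprime := prime_of_smooth hn (by omega : 1 ≤ d) hF hsm
  have hdom : IsDomain B := isDomain_of_prime hprime y hsurj hker
  have hprim : ∀ p : ℕ, p.Prime → ¬ C (p : ℤ) ∣ F := fun p hp =>
    primitive_of_nodal (by omega) hp (hnod p hp)
  have hkz := ker_int hprime hprim y hker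
  have hF0 : F ≠ 0 := by
    rintro rfl
    exact hprime.ne_zero (map_zero _)
  obtain ⟨N, hN0, hN⟩ := exists_N hF hsm
  have hloc : ∀ p : ℕ, p.Prime → ∃ (Λ : Submodule ℤ B) (a : ℤ),
      LG.IsLat (ℬ (N.natAbs * (d - 1) + 1)) Λ ∧ ¬ (p : ℤ) ∣ a ∧ LG.Good Λ a := by
    intro p hp
    have hp1 : ¬ IsUnit (p : ℤ) := by
      intro h
      exact hp.one_lt.ne' (by simpa using Int.natAbs_of_isUnit h)
    obtain ⟨v, a, hpa, hNa⟩ : ∃ (v : ℕ) (a : ℤ), ¬ (p : ℤ) ∣ a ∧ N = (p : ℤ) ^ v * a := by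
      obtain ⟨a, h1, h2⟩ := (FiniteMultiplicity.of_not_isUnit hp1 hN0).exists_eq_pow_mul_and_not_dvd
      exact ⟨_, a, h2, h1⟩
    have ha0 : a ≠ 0 := by
      rintro rfl
      exact hpa (dvd_zero _)
    have hv : v ≤ N.natAbs := by
      have h1 : p ^ v ≤ N.natAbs := by
        apply Nat.le_of_dvd (Int.natAbs_pos.2 hN0)
        rw [hNa, Int.natAbs_mul, Int.natAbs_pow, Int.natAbs_natCast]
        exact dvd_mul_right _ _
      exact (Nat.lt_pow_self hp.one_lt).le.trans h1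
    refine ⟨Lam F p d N.natAbs y, a, isLat_Lam hF hp N.natAbs ℬ y hy hsurj, hpa,
      good_Lam hd hF hp (hnod p hp) y hkz (by omega : v ≤ 2 * N.natAbs + 1) ha0 ?_⟩
    intro m
    rw [← hNa]
    exact hN m
  obtain ⟨Λ, hΛ, hgood⟩ := LG.exists_good hloc
  have hgen : Algebra.adjoin ℚ (ℬ 1 : Set B) = ⊤ := by
    rw [eq_top_iff, ← (AlgHom.range_eq_top _).2 hsurj, ← Algebra.adjoin_range_eq_range_aeval]
    refine Algebra.adjoin_mono ?_
    rintro _ ⟨i, rfl⟩
    exact hy i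
  have hne : ℬ (N.natAbs * (d - 1) + 1) ≠ ⊥ := by
    intro h
    have hy0 : y 0 = 0 := by
      have h1 : y 0 ^ (N.natAbs * (d - 1) + 1) ∈ ℬ (N.natAbs * (d - 1) + 1) := by
        have h2 := SetLike.pow_mem_graded (N.natAbs * (d - 1) + 1) (hy 0)
        rwa [smul_eq_mul, mul_one] at h2
      rw [h, Submodule.mem_bot] at h1
      exact (pow_eq_zero_iff (Nat.succ_ne_zero _)).1 h1
    have h2 : F ∣ (X 0 : MvPolynomial (Fin (n + 1)) ℤ) := by
      rw [← hkz, aeval_X, hy0]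
    obtain ⟨G, hG⟩ := h2
    have hG0 : G ≠ 0 := by
      rintro rfl
      rw [mul_zero] at hG
      exact X_ne_zero _ hG
    have h3 := congrArg totalDegree hG
    rw [totalDegree_mul_of_isDomain hF0 hG0, totalDegree_X, hF.totalDegree hF0] at h3
    omega
  exact hasModel_of_good_ver ℬ hgen (Nat.succ_pos _) hne hΛ hgood Z e

end Pool.Agent.NH
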