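import Pool.Agent.NodHyp.Defs

set_option autoImplicit false

/-! # FDEFS: forms of degree `d` and their coefficients (definitions for the sieve) -/

namespace Pool.Agent.NH

open MvPolynomial

/-- The exponents of the monomials of degree `d` in `n + 1` variables. -/
abbrev Mon (n d : ℕ) : Type :=
  {α : Fin (n + 1) →₀ ℕ // α ∈ Finset.finsuppAntidiag (Finset.univ : Finset (Fin (n + 1))) d}

/-- The form with coefficient vector `c`. -/
noncomputable def toF {R : Type} [CommRing R] {n d : ℕ} (c : Mon n d → R) :
    MvPolynomial (Fin (n + 1)) R := ∑ α, monomial α.1 (c α)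

/-- The exponents without `x_m` (the top form in the chart `x_m = 1`). -/
abbrev Um (n d : ℕ) (m : Fin (n + 1)) : Type := {α : Mon n d // α.1 m = 0}

/-- The exponents of the monomials which have affine degree `1, ..., d - 1` in the chart `x_m = 1`. -/
abbrev Vm (n d : ℕ) (m : Fin (n + 1)) : Type := {α : Mon n d // α.1 m ≠ 0 ∧ α.1 m ≠ d}

/-- The form with coefficients `u` (monomials without `x_m`), `v`, and `a` (coefficient of `x_m ^ d`). -/
noncomputable def FF {R : Type} [CommRing R] {n d : ℕ} (m : Fin (n + 1)) (u : Um n d m → R)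
    (v : Vm n d m → R) (a : R) : MvPolynomial (Fin (n + 1)) R :=
  ∑ α, monomial α.1.1 (u α) + ∑ α, monomial α.1.1 (v α) + monomial (Finsupp.single m d) a

/-- The point `x` is singular on `F = 0`. -/
def Sing {R L : Type} [CommRing R] [CommRing L] [Algebra R L] {n : ℕ}
    (F : MvPolynomial (Fin (n + 1)) R) (x : Fin (n + 1) → L) : Prop :=
  aeval x F = 0 ∧ ∀ i, aeval x (pderiv i F) = 0

/-- The determinant of the Hessian with respect to the variables other than `x_m`. -/
noncomputable def hdet {R L : Type} [CommRing R] [CommRing L] [Algebra R L] {n : ℕ}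
    (m : Fin (n + 1)) (F : MvPolynomial (Fin (n + 1)) R) (x : Fin (n + 1) → L) : L :=
  (Matrix.of fun a b : {i : Fin (n + 1) // i ≠ m} => aeval x (pderiv a.1 (pderiv b.1 F))).det

end Pool.Agent.NH
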