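import Pool.Agent.NodHyp.Defs
import Pool.Agent.QuadAll.PNotSq

set_option autoImplicit false

/-! # IND1: the relations of the charts of the first kind are independent modulo `P ^ 2`

Write the combination as `δ (v_b - 1) + α (p - t w) + γ G + ∑ β_i (y'_i - (t w)^s t v_i) ∈ P ^ 2`,
`y'_i = il (∂_i f)`, `G = str1`. A derivation `∂` of the polynomial ring maps `P ^ 2` to `P`, so
`δ ∂(v_b - 1) + α ∂(p - t w) + ... ∈ P` (all relations are in `P`). -/

namespace Pool.Agent.NH

open MvPolynomial

namespace IND1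

theorem pd_sq {ι : Type} (P : Ideal (MvPolynomial ι ℤ)) (x : ι) {q : MvPolynomial ι ℤ}
    (hq : q ∈ P ^ 2) : pderiv x q ∈ P := by
  rw [pow_two] at hq
  induction hq using Submodule.mul_induction_on' with
  | mem_mul_mem a ha b hb =>
    rw [Derivation.leibniz, smul_eq_mul, smul_eq_mul]
    exact P.add_mem (P.mul_mem_right _ ha) (P.mul_mem_right _ hb)
  | add x _ y _ hx hy =>
    rw [map_add]
    exact P.add_mem hx hy

theorem sum_pd {ι κ : Type} [Fintype κ] (P : Ideal (MvPolynomial ι ℤ)) (x : ι)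
    (a r : κ → MvPolynomial ι ℤ) (hr : ∀ i, r i ∈ P) (h : ∑ i, a i * r i ∈ P ^ 2) :
    ∑ i, a i * pderiv x (r i) ∈ P := by
  have h1 := pd_sq P x h
  rw [map_sum] at h1
  have h2 : ∑ i, a i * pderiv x (r i) =
      ∑ i, pderiv x (a i * r i) - ∑ i, r i * pderiv x (a i) := by
    rw [← Finset.sum_sub_distrib]
    refine Finset.sum_congr rfl fun i _ => ?_
    rw [Derivation.leibniz, smul_eq_mul, smul_eq_mul]
    ring
  rw [h2]
  exact P.sub_mem h1 (P.sum_mem fun i _ => P.mul_mem_right _ (hr i))

theorem det_mul_mem {R σ : Type} [CommRing R] [Fintype σ] [DecidableEq σ] (P : Ideal R)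
    (M : Matrix σ σ R) (v : σ → R) (h : ∀ c, ∑ j, M c j * v j ∈ P) (j : σ) :
    M.det * v j ∈ P := by
  have h1 : M.adjugate.mulVec (M.mulVec v) = M.det • v := by
    rw [Matrix.mulVec_mulVec, Matrix.adjugate_mul, Matrix.smul_mulVec, Matrix.one_mulVec]
  have h2 := congrFun h1 j
  have h3 : M.det * v j = ∑ c, M.adjugate j c * ∑ i, M c i * v i := by
    rw [Pi.smul_apply, smul_eq_mul] at h2
    rw [← h2]
    rfl
  rw [h3]
  exact P.sum_mem fun c _ => P.mul_mem_left _ (h c)

set_option linter.unusedSectionVars false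

variable {σ : Type} [Fintype σ] [DecidableEq σ]

theorem pd_inr_il (y : Fin 2 ⊕ σ) (h : MvPolynomial σ ℤ) :
    pderiv (Sum.inr y : V1 σ) (il h) = 0 := by
  classical
  apply pderiv_eq_zero_of_notMem_vars
  intro hy
  have := vars_rename (Sum.inl : σ → V1 σ) h hy
  simp at this

theorem pd_inl_il (c : σ) (h : MvPolynomial σ ℤ) :
    pderiv (Sum.inl c : V1 σ) (il h) = il (pderiv c h) :=
  pderiv_rename Sum.inl_injective c h

/-- the linear forms `q_c` -/
noncomputable def ql (B : Matrix σ σ (MvPolynomial σ ℤ)) (c : σ) : MvPolynomial (V1 σ) ℤ :=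
  ∑ j, il ((B + B.transpose) c j) * vv j

theorem pd_qv_v (B : Matrix σ σ (MvPolynomial σ ℤ)) (c : σ) :
    pderiv (Sum.inr (Sum.inr c) : V1 σ) (qv B) = ql B c := by
  have h1 : ∀ i j : σ, pderiv (Sum.inr (Sum.inr c) : V1 σ) (il (B i j) * vv i * vv j) =
      (if i = c then il (B i j) * vv j else 0) + (if j = c then il (B i j) * vv i else 0) := by
    intro i j
    have hv : ∀ i : σ, pderiv (Sum.inr (Sum.inr c) : V1 σ) (vv i : MvPolynomial (V1 σ) ℤ) =
        if i = c then 1 else 0 := by
      intro i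
      by_cases h : i = c
      · rw [if_pos h, h, pderiv_X_self]
      · rw [if_neg h]
        apply pderiv_X_of_ne
        intro h2
        exact h (Sum.inr_injective (Sum.inr_injective h2))
    rw [Derivation.leibniz, Derivation.leibniz, hv, hv, pd_inr_il]
    simp only [smul_eq_mul]
    by_cases h : i = c <;> by_cases h' : j = c <;> simp [h, h'] <;> ring
  rw [qv, map_sum]
  simp only [map_sum, h1]
  simp only [Finset.sum_add_distrib]
  rw [Finset.sum_comm]
  have e1 : ∀ j : σ, (∑ i : σ, if i = c then il (B i j) * (vv j : MvPolynomial (V1 σ) ℤ) else 0) =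
      il (B c j) * vv j := by
    intro j
    rw [Finset.sum_ite_eq' Finset.univ c]
    simp
  have e2 : ∀ i : σ, (∑ j : σ, if j = c then il (B i j) * (vv i : MvPolynomial (V1 σ) ℤ) else 0) =
      il (B i c) * vv i := by
    intro i
    rw [Finset.sum_ite_eq' Finset.univ c]
    simp
  simp only [e1, e2]
  rw [ql, ← Finset.sum_add_distrib]
  refine Finset.sum_congr rfl fun j _ => ?_
  rw [Matrix.add_apply, Matrix.transpose_apply]
  simp only [map_add]
  ring

theorem pd_qv_tw (B : Matrix σ σ (MvPolynomial σ ℤ)) (e : Fin 2) :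
    pderiv (Sum.inr (Sum.inl e) : V1 σ) (qv B) = 0 := by
  rw [qv, map_sum]
  refine Finset.sum_eq_zero fun i _ => ?_
  rw [map_sum]
  refine Finset.sum_eq_zero fun j _ => ?_
  have hv : ∀ i : σ, pderiv (Sum.inr (Sum.inl e) : V1 σ) (vv i : MvPolynomial (V1 σ) ℤ) = 0 := by
    intro i
    apply pderiv_X_of_ne
    simp
  rw [Derivation.leibniz, Derivation.leibniz, hv, hv, pd_inr_il]
  simp

theorem sum_v_ql (B : Matrix σ σ (MvPolynomial σ ℤ)) :
    ∑ c, vv c * ql B c = 2 * qv B := by
  have h1 : ∑ c : σ, vv c * ql B c = ∑ c : σ, ∑ j : σ, il (B c j) * vv c * vv j +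
      ∑ c : σ, ∑ j : σ, il (B j c) * vv j * vv c := by
    rw [← Finset.sum_add_distrib]
    refine Finset.sum_congr rfl fun c _ => ?_
    rw [ql, Finset.mul_sum, ← Finset.sum_add_distrib]
    refine Finset.sum_congr rfl fun j _ => ?_
    rw [Matrix.add_apply, Matrix.transpose_apply]
    simp only [map_add]
    ring
  rw [h1, Finset.sum_comm (f := fun c j : σ => il (B j c) * (vv j : MvPolynomial (V1 σ) ℤ) * vv c),
    qv, two_mul]

end IND1

open IND1

theorem ind1 {σ : Type} [Fintype σ] [DecidableEq σ] (f : MvPolynomial σ ℤ) {p : ℕ}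
    (hp : p.Prime) {k s : ℕ} (hk : 1 ≤ k) (hks : 2 * s ≤ k)
    (B : Matrix σ σ (MvPolynomial σ ℤ)) (u : MvPolynomial σ ℤ) (b : σ)
    (P : Ideal (MvPolynomial (V1 σ) ℤ)) [P.IsPrime] (hpP : C (p : ℤ) ∈ P)
    (hrel : ∀ i, rel1 f p k s B u b i ∈ P) (hd : ∀ i, il (pderiv i f) ∈ P) (hw : ww σ ∈ P)
    (hH : il (hess f).det ∉ P) (hu : il u ∉ P) (hB : 2 ≤ k → il (B + B.transpose).det ∉ P)
    (a : Fin 3 ⊕ σ → MvPolynomial (V1 σ) ℤ)
    (ha : ∑ i, a i * rel1 f p k s B u b i ∈ P ^ 2) : ∀ i, a i ∈ P := by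
  have hP : P.IsPrime := inferInstance
  -- the relations
  have r0 : vv b - 1 ∈ P := hrel (Sum.inl 0)
  have r2 : str1 k s B u ∈ P := hrel (Sum.inl 2)
  have r3 : ∀ i, il (pderiv i f) - (tt σ * ww σ) ^ s * tt σ * vv i ∈ P := fun i => hrel (Sum.inr i)
  have hvb : ∀ x, x * vv b ∈ P → x ∈ P := by
    intro x hx
    have h1 : x = x * vv b - x * (vv b - 1) := by ring
    rw [h1]
    exact P.sub_mem hx (P.mul_mem_left _ r0)
  have hts : (tt σ * ww σ) ^ s * tt σ ∈ P := by
    apply hvb
    have h1 : (tt σ * ww σ) ^ s * tt σ * vv b = il (pderiv b f) -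
        (il (pderiv b f) - (tt σ * ww σ) ^ s * tt σ * vv b) := by ring
    rw [h1]
    exact P.sub_mem (hd b) (r3 b)
  -- derivatives
  have key : ∀ x : V1 σ, a (Sum.inl 0) * pderiv x (vv b - 1) +
      a (Sum.inl 1) * pderiv x (C (p : ℤ) - tt σ * ww σ) +
      a (Sum.inl 2) * pderiv x (str1 k s B u) +
      ∑ i, a (Sum.inr i) *
        pderiv x (il (pderiv i f) - (tt σ * ww σ) ^ s * tt σ * vv i) ∈ P := by
    intro x
    have h1 := sum_pd P x a (rel1 f p k s B u b) hrel ha
    rw [Fintype.sum_sum_type, Fin.sum_univ_three] at h1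
    exact h1
  have pX : ∀ x y : V1 σ, y ≠ x → pderiv x (X y : MvPolynomial (V1 σ) ℤ) = 0 :=
    fun x y h => pderiv_X_of_ne h
  -- all `β` are in `P` if `γ` is
  have hβ : a (Sum.inl 2) ∈ P → ∀ j, a (Sum.inr j) ∈ P := by
    intro hγ j
    have h1 : ∀ c, ∑ i, (hess f).map il c i * a (Sum.inr i) ∈ P := by
      intro c
      have h2 := key (Sum.inl c)
      have e1 : pderiv (Sum.inl c : V1 σ) (vv b - 1 : MvPolynomial (V1 σ) ℤ) = 0 := by
        rw [map_sub, pX _ _ (by simp), pderiv_one, sub_zero]
      have e2 : pderiv (Sum.inl c : V1 σ) (C (p : ℤ) - tt σ * ww σ : MvPolynomial (V1 σ) ℤ) = 0 := by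
        rw [map_sub, pderiv_C, Derivation.leibniz, pX _ _ (by simp), pX _ _ (by simp)]
        simp
      have e3 : ∀ i, pderiv (Sum.inl c : V1 σ)
          (il (pderiv i f) - (tt σ * ww σ) ^ s * tt σ * vv i : MvPolynomial (V1 σ) ℤ) =
          (hess f).map il c i := by
        intro i
        rw [map_sub, pd_inl_il, Derivation.leibniz, Derivation.leibniz, Derivation.leibniz_pow,
          Derivation.leibniz, pX _ _ (by simp), pX _ _ (by simp), pX _ _ (by simp)]
        simp [hess]
      rw [e1, e2, mul_zero, mul_zero, zero_add, zero_add] at h2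
      simp only [e3] at h2
      have h3 : ∑ i, (hess f).map il c i * a (Sum.inr i) =
          (a (Sum.inl 2) * pderiv (Sum.inl c) (str1 k s B u) +
            ∑ i, a (Sum.inr i) * (hess f).map il c i) -
          a (Sum.inl 2) * pderiv (Sum.inl c) (str1 k s B u) := by
        rw [add_sub_cancel_left]
        exact Finset.sum_congr rfl fun i _ => mul_comm _ _
      rw [h3]
      exact P.sub_mem h2 (P.mul_mem_right _ hγ)
    have h4 := det_mul_mem P ((hess f).map il) (fun i => a (Sum.inr i)) h1 j
    have h5 : ((hess f).map il).det = (il (hess f).det : MvPolynomial (V1 σ) ℤ) :=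
      (AlgHom.map_det (rename (Sum.inl : σ → V1 σ) : MvPolynomial σ ℤ →ₐ[ℤ] _) (hess f)).symm
    rw [h5] at h4
    exact (hP.mem_or_mem h4).resolve_left hH
  -- `γ ∂G/∂v_c ∈ P` for `c ≠ b`
  have hγv : ∀ c, c ≠ b →
      a (Sum.inl 2) * pderiv (Sum.inr (Sum.inr c) : V1 σ) (str1 k s B u) ∈ P := by
    intro c hc
    have h2 := key (Sum.inr (Sum.inr c))
    have e1 : pderiv (Sum.inr (Sum.inr c) : V1 σ) (vv b - 1 : MvPolynomial (V1 σ) ℤ) = 0 := by
      rw [map_sub, pX _ _ (by
        intro h; exact hc (Sum.inr_injective (Sum.inr_injective h)).symm), pderiv_one, sub_zero]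
    have e2 : pderiv (Sum.inr (Sum.inr c) : V1 σ)
        (C (p : ℤ) - tt σ * ww σ : MvPolynomial (V1 σ) ℤ) = 0 := by
      rw [map_sub, pderiv_C, Derivation.leibniz, pX _ _ (by simp), pX _ _ (by simp)]
      simp
    have e3 : ∀ i, pderiv (Sum.inr (Sum.inr c) : V1 σ)
        (il (pderiv i f) - (tt σ * ww σ) ^ s * tt σ * vv i : MvPolynomial (V1 σ) ℤ) ∈ P := by
      intro i
      rw [map_sub, pd_inr_il, Derivation.leibniz, Derivation.leibniz, Derivation.leibniz_pow,
        Derivation.leibniz, pX _ (Sum.inr (Sum.inl 0)) (by simp),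
        pX _ (Sum.inr (Sum.inl 1)) (by simp)]
      simp only [smul_eq_mul, mul_zero, smul_zero, add_zero, zero_sub]
      exact P.neg_mem (P.mul_mem_right _ hts)
    rw [e1, e2, mul_zero, mul_zero, zero_add, zero_add] at h2
    have h3 := P.sub_mem h2 (P.sum_mem (t := Finset.univ)
      (f := fun i => a (Sum.inr i) * pderiv (Sum.inr (Sum.inr c) : V1 σ)
        (il (pderiv i f) - (tt σ * ww σ) ^ s * tt σ * vv i)) fun i _ => P.mul_mem_left _ (e3 i))
    rwa [add_sub_cancel_right] at h3
  -- some `q_c` is not in `P`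
  have hq1 : 2 ≤ k → ∃ c, ql B c ∉ P := by
    intro hk2
    by_contra hcon
    push Not at hcon
    have h4 := det_mul_mem P ((B + B.transpose).map il) (fun i => vv i) (fun c => hcon c) b
    have h5 : ((B + B.transpose).map il).det =
        (il (B + B.transpose).det : MvPolynomial (V1 σ) ℤ) :=
      (AlgHom.map_det (rename (Sum.inl : σ → V1 σ) : MvPolynomial σ ℤ →ₐ[ℤ] _)
        (B + B.transpose)).symm
    rw [h5] at h4
    exact hB hk2 (hvb _ h4)
  have hq2 : 2 ≤ k → 2 * qv B ∈ P → ∃ c, c ≠ b ∧ ql B c ∉ P := by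
    intro hk2 h2q
    by_contra hcon
    push Not at hcon
    obtain ⟨c, hc⟩ := hq1 hk2
    have hcb : c = b := by
      by_contra h
      exact hc (hcon c h)
    subst hcb
    rw [← sum_v_ql] at h2q
    rw [← Finset.add_sum_erase _ _ (Finset.mem_univ c)] at h2q
    have h3 : ∑ x ∈ Finset.univ.erase c, vv x * ql B x ∈ P :=
      P.sum_mem fun x hx => P.mul_mem_left _ (hcon x (Finset.ne_of_mem_erase hx))
    have h4 := P.sub_mem h2q h3
    rw [add_sub_cancel_right, mul_comm] at h4
    exact hc (hvb _ h4)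
  -- `γ ∈ P`
  have hγ : a (Sum.inl 2) ∈ P := by
    by_cases c1 : 2 * s + 2 ≤ k
    · have eG : str1 k s B u = qv B + il u * tt σ ^ (k - 2 * s - 2) * ww σ ^ (k - 2 * s) := by
        rw [str1, if_pos c1]
      have hwk : ww σ ^ (k - 2 * s) ∈ P := Ideal.pow_mem_of_mem P hw _ (by omega)
      have hqv : qv B ∈ P := by
        have := P.sub_mem r2 (P.mul_mem_left (il u * tt σ ^ (k - 2 * s - 2)) hwk)
        rwa [eG, add_sub_cancel_right] at this
      obtain ⟨c, hcb, hc⟩ := hq2 (by omega) (P.mul_mem_left _ hqv)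
      have h3 := hγv c hcb
      have e1 : pderiv (Sum.inr (Sum.inr c) : V1 σ) (str1 k s B u) = ql B c := by
        rw [eG, map_add, pd_qv_v, Derivation.leibniz, Derivation.leibniz, Derivation.leibniz_pow,
          Derivation.leibniz_pow, pX _ (Sum.inr (Sum.inl 0)) (by simp),
          pX _ (Sum.inr (Sum.inl 1)) (by simp), pd_inr_il]
        simp
      rw [e1] at h3
      exact (hP.mem_or_mem h3).resolve_right hc
    · by_cases c2 : k = 2 * s + 1
      · have eG : str1 k s B u = tt σ * qv B + il u * ww σ := by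
          rw [str1, if_neg c1, if_pos c2]
        by_cases ht : tt σ ∈ P
        · have h2 := key (Sum.inr (Sum.inl 1))
          have e1 : pderiv (Sum.inr (Sum.inl 1) : V1 σ) (vv b - 1 : MvPolynomial (V1 σ) ℤ) = 0 := by
            rw [map_sub, pX _ _ (by simp), pderiv_one, sub_zero]
          have e2 : pderiv (Sum.inr (Sum.inl 1) : V1 σ)
              (C (p : ℤ) - tt σ * ww σ : MvPolynomial (V1 σ) ℤ) = - tt σ := by
            rw [map_sub, pderiv_C, Derivation.leibniz, pderiv_X_self, pX _ _ (by simp)]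
            simp
          have e3 : ∀ i, pderiv (Sum.inr (Sum.inl 1) : V1 σ)
              (il (pderiv i f) - (tt σ * ww σ) ^ s * tt σ * vv i : MvPolynomial (V1 σ) ℤ) ∈ P := by
            intro i
            rw [map_sub, pd_inr_il, zero_sub]
            refine P.neg_mem ?_
            rw [Derivation.leibniz, Derivation.leibniz, pX _ (Sum.inr (Sum.inr i)) (by simp),
              pX _ (Sum.inr (Sum.inl 0)) (by simp)]
            simp only [smul_eq_mul, mul_zero, zero_add]
            exact P.mul_mem_left _ (P.mul_mem_right _ ht)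
          have e4 : pderiv (Sum.inr (Sum.inl 1) : V1 σ) (str1 k s B u) = il u := by
            rw [eG, map_add, Derivation.leibniz, Derivation.leibniz, pd_qv_tw, pd_inr_il,
              pderiv_X_self, pX _ _ (by simp)]
            simp
          rw [e1, e2, e4, mul_zero, zero_add] at h2
          have h3 : a (Sum.inl 2) * il u ∈ P := by
            have h4 := P.sub_mem (P.sub_mem h2 (P.sum_mem (t := Finset.univ)
              (f := fun i => a (Sum.inr i) * pderiv (Sum.inr (Sum.inl 1) : V1 σ)
                (il (pderiv i f) - (tt σ * ww σ) ^ s * tt σ * vv i)) fun i _ =>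
                  P.mul_mem_left _ (e3 i))) (P.mul_mem_left (a (Sum.inl 1)) (P.neg_mem ht))
            have h5 : ∀ A B C : MvPolynomial (V1 σ) ℤ, A + B + C - C - A = B := by
              intro A B C; ring
            rwa [h5] at h4
          exact (hP.mem_or_mem h3).resolve_right hu
        · have hs : 1 ≤ s := by
            rcases Nat.eq_zero_or_pos s with h0 | h0
            · exfalso
              rw [h0, pow_zero, one_mul] at hts
              exact ht hts
            · exact h0
          have hqv : qv B ∈ P := by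
            have := P.sub_mem r2 (P.mul_mem_left (il u) hw)
            rw [eG, add_sub_cancel_right] at this
            exact (hP.mem_or_mem this).resolve_left ht
          obtain ⟨c, hcb, hc⟩ := hq2 (by omega) (P.mul_mem_left _ hqv)
          have h3 := hγv c hcb
          have e1 : pderiv (Sum.inr (Sum.inr c) : V1 σ) (str1 k s B u) = tt σ * ql B c := by
            rw [eG, map_add, Derivation.leibniz, Derivation.leibniz, pd_qv_v,
              pX _ (Sum.inr (Sum.inl 0)) (by simp),
              pX _ (Sum.inr (Sum.inl 1)) (by simp), pd_inr_il]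
            simp
          rw [e1] at h3
          exact (hP.mem_or_mem h3).resolve_right fun h => (hP.mem_or_mem h).elim ht hc
      · have hks' : k = 2 * s := by omega
        have hs : 1 ≤ s := by omega
        have eG : str1 k s B u = tt σ ^ 2 * qv B + il u := by
          rw [str1, if_neg c1, if_neg c2]
        have htq : tt σ ^ 2 * qv B ∉ P := by
          intro h
          have := P.sub_mem r2 h
          rw [eG, add_sub_cancel_left] at this
          exact hu this
        have ht : tt σ ∉ P := fun h => htq (P.mul_mem_right _ (Ideal.pow_mem_of_mem P h 2 (by omega)))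
        have hqv : qv B ∉ P := fun h => htq (P.mul_mem_left _ h)
        by_cases h2P : (2 : MvPolynomial (V1 σ) ℤ) ∈ P
        · obtain ⟨c, hcb, hc⟩ := hq2 (by omega) (P.mul_mem_right _ h2P)
          have h3 := hγv c hcb
          have e1 : pderiv (Sum.inr (Sum.inr c) : V1 σ) (str1 k s B u) = tt σ ^ 2 * ql B c := by
            rw [eG, map_add, Derivation.leibniz, Derivation.leibniz_pow, pd_qv_v,
              pX _ (Sum.inr (Sum.inl 0)) (by simp), pd_inr_il]
            simp
          rw [e1] at h3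
          refine (hP.mem_or_mem h3).resolve_right fun h => (hP.mem_or_mem h).elim (fun h' => ?_) hc
          exact ht (hP.mem_of_pow_mem 2 h')
        · have h2 := key (Sum.inr (Sum.inl 0))
          have e1 : pderiv (Sum.inr (Sum.inl 0) : V1 σ) (vv b - 1 : MvPolynomial (V1 σ) ℤ) = 0 := by
            rw [map_sub, pX _ _ (by simp), pderiv_one, sub_zero]
          have e2 : pderiv (Sum.inr (Sum.inl 0) : V1 σ)
              (C (p : ℤ) - tt σ * ww σ : MvPolynomial (V1 σ) ℤ) = - ww σ := by
            rw [map_sub, pderiv_C, Derivation.leibniz, pderiv_X_self, pX _ _ (by simp)]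
            simp
          have hws : (tt σ * ww σ) ^ (s - 1) * ww σ ∈ P := P.mul_mem_left _ hw
          have hws' : (tt σ * ww σ) ^ s ∈ P :=
            Ideal.pow_mem_of_mem P (P.mul_mem_left _ hw) s hs
          have e3 : ∀ i, pderiv (Sum.inr (Sum.inl 0) : V1 σ)
              (il (pderiv i f) - (tt σ * ww σ) ^ s * tt σ * vv i : MvPolynomial (V1 σ) ℤ) ∈ P := by
            intro i
            rw [map_sub, pd_inr_il, zero_sub]
            refine P.neg_mem ?_
            rw [Derivation.leibniz, Derivation.leibniz, Derivation.leibniz_pow, Derivation.leibniz,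
              pX _ (Sum.inr (Sum.inr i)) (by simp),
              pX _ (Sum.inr (Sum.inl 1)) (by simp), pderiv_X_self]
            simp only [smul_eq_mul, mul_zero, zero_add, mul_one, nsmul_eq_mul]
            refine P.mul_mem_left _ (P.add_mem hws' (P.mul_mem_left _ ?_))
            refine P.mul_mem_left _ ?_
            exact hws
          have e4 : pderiv (Sum.inr (Sum.inl 0) : V1 σ) (str1 k s B u) = 2 * tt σ * qv B := by
            rw [eG, map_add, Derivation.leibniz, Derivation.leibniz_pow, pd_qv_tw, pd_inr_il,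
              pderiv_X_self]
            simp
            ring
          rw [e1, e2, e4, mul_zero, zero_add] at h2
          have h3 : a (Sum.inl 2) * (2 * tt σ * qv B) ∈ P := by
            have h4 := P.sub_mem (P.sub_mem h2 (P.sum_mem (t := Finset.univ)
              (f := fun i => a (Sum.inr i) * pderiv (Sum.inr (Sum.inl 0) : V1 σ)
                (il (pderiv i f) - (tt σ * ww σ) ^ s * tt σ * vv i)) fun i _ =>
                  P.mul_mem_left _ (e3 i))) (P.mul_mem_left (a (Sum.inl 1)) (P.neg_mem hw))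
            have h5 : ∀ A B C : MvPolynomial (V1 σ) ℤ, A + B + C - C - A = B := by
              intro A B C; ring
            rwa [h5] at h4
          refine (hP.mem_or_mem h3).resolve_right fun h => (hP.mem_or_mem h).elim (fun h' => ?_) hqv
          exact (hP.mem_or_mem h').elim h2P ht
  have hβ' := hβ hγ
  -- the remaining two
  have hr1 : C (p : ℤ) - tt σ * ww σ ∈ P := hrel (Sum.inl 1)
  have h0 : a (Sum.inl 0) * (vv b - 1) + a (Sum.inl 1) * (C (p : ℤ) - tt σ * ww σ) ∈ P ^ 2 := by
    rw [Fintype.sum_sum_type, Fin.sum_univ_three] at ha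
    have e1 : a (Sum.inl 2) * str1 k s B u ∈ P ^ 2 := by
      rw [pow_two]; exact Ideal.mul_mem_mul hγ r2
    have e2 : ∑ i, a (Sum.inr i) * rel1 f p k s B u b (Sum.inr i) ∈ P ^ 2 := by
      refine (P ^ 2).sum_mem fun i _ => ?_
      rw [pow_two]; exact Ideal.mul_mem_mul (hβ' i) (hrel _)
    have h4 := (P ^ 2).sub_mem ((P ^ 2).sub_mem ha e2) e1
    have h5 : ∀ A B C D : MvPolynomial (V1 σ) ℤ, A + B + C + D - D - C = A + B := by
      intro A B C D; ring
    have h6 : a (Sum.inl 2) * rel1 f p k s B u b (Sum.inl 2) = a (Sum.inl 2) * str1 k s B u := rfl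
    rw [h6, h5] at h4
    exact h4
  have hδ : a (Sum.inl 0) ∈ P := by
    have h1 := pd_sq P (Sum.inr (Sum.inr b)) h0
    have e1 : pderiv (Sum.inr (Sum.inr b) : V1 σ) (vv b - 1 : MvPolynomial (V1 σ) ℤ) = 1 := by
      rw [map_sub, pderiv_X_self, pderiv_one, sub_zero]
    have e2 : pderiv (Sum.inr (Sum.inr b) : V1 σ)
        (C (p : ℤ) - tt σ * ww σ : MvPolynomial (V1 σ) ℤ) = 0 := by
      rw [map_sub, pderiv_C, Derivation.leibniz, pX _ _ (by simp), pX _ _ (by simp)]
      simp
    rw [map_add, Derivation.leibniz, Derivation.leibniz, e1, e2] at h1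
    simp only [smul_eq_mul, mul_one, mul_zero, zero_add] at h1
    have h3 := P.sub_mem h1 (P.add_mem (P.mul_mem_right
      (pderiv (Sum.inr (Sum.inr b) : V1 σ) (a (Sum.inl 0))) r0) (P.mul_mem_right
      (pderiv (Sum.inr (Sum.inr b) : V1 σ) (a (Sum.inl 1))) hr1))
    have h5 : ∀ A B C : MvPolynomial (V1 σ) ℤ, A + B + C - (B + C) = A := by
      intro A B C; ring
    rwa [h5] at h3
  have h1 : a (Sum.inl 1) * (C (p : ℤ) - tt σ * ww σ) ∈ P ^ 2 := by
    have e1 : a (Sum.inl 0) * (vv b - 1) ∈ P ^ 2 := by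
      rw [pow_two]; exact Ideal.mul_mem_mul hδ r0
    have := (P ^ 2).sub_mem h0 e1
    rwa [add_sub_cancel_left] at this
  have hα : a (Sum.inl 1) ∈ P := by
    by_cases ht : tt σ ∈ P
    · have e1 : a (Sum.inl 1) * (tt σ * ww σ) ∈ P ^ 2 := by
        refine (P ^ 2).mul_mem_left _ ?_
        rw [pow_two]; exact Ideal.mul_mem_mul ht hw
      have e2 := (P ^ 2).add_mem h1 e1
      have e3 : a (Sum.inl 1) * (C (p : ℤ) - tt σ * ww σ) + a (Sum.inl 1) * (tt σ * ww σ) =
          C (p : ℤ) * a (Sum.inl 1) := by ring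
      rw [e3] at e2
      exact QuadAll.mem_of_prime_mul_mem_sq p hp P hpP _ e2
    · have h2 := pd_sq P (Sum.inr (Sum.inl 1)) h1
      have e2 : pderiv (Sum.inr (Sum.inl 1) : V1 σ)
          (C (p : ℤ) - tt σ * ww σ : MvPolynomial (V1 σ) ℤ) = - tt σ := by
        rw [map_sub, pderiv_C, Derivation.leibniz, pderiv_X_self, pX _ _ (by simp)]
        simp
      rw [Derivation.leibniz, e2, smul_eq_mul, smul_eq_mul] at h2
      have h3 := P.sub_mem h2 (P.mul_mem_right
        (pderiv (Sum.inr (Sum.inl 1) : V1 σ) (a (Sum.inl 1))) hr1)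
      rw [add_sub_cancel_right, mul_neg] at h3
      have h4 := P.neg_mem h3
      rw [neg_neg] at h4
      exact (hP.mem_or_mem h4).resolve_right ht
  intro i
  rcases i with i | j
  · fin_cases i
    · exact hδ
    · exact hα
    · exact hγ
  · exact hβ' j

end Pool.Agent.NH
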