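import Pool.Agent.NodHyp.Loc
import Pool.Agent.NodHyp.Ind1

set_option autoImplicit false

/-! # CHART1: regularity in the charts of the first kind (level `s < R`) -/

namespace Pool.Agent.NH

open MvPolynomial

namespace CHART1

/-- fractions of elements of the range of `π` with denominators invertible in `O` -/
def fr {K T : Type} [Field K] [CommRing T] (π : T →+* K) (O : Subring K) : Subring K where
  carrier := {x | ∃ a c : T, π c ≠ 0 ∧ (π c)⁻¹ ∈ O ∧ x * π c = π a}
  mul_mem' := by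
    rintro x y ⟨a, c, hc, hc', h⟩ ⟨a', d, hd, hd', h'⟩
    refine ⟨a * a', c * d, ?_, ?_, ?_⟩
    · rw [map_mul]; exact mul_ne_zero hc hd
    · rw [map_mul, mul_inv]; exact O.mul_mem hc' hd'
    · rw [map_mul, map_mul, ← h, ← h']; ring
  one_mem' := ⟨1, 1, by simp, by simp, by simp⟩
  add_mem' := by
    rintro x y ⟨a, c, hc, hc', h⟩ ⟨a', d, hd, hd', h'⟩
    refine ⟨a * d + a' * c, c * d, ?_, ?_, ?_⟩
    · rw [map_mul]; exact mul_ne_zero hc hd
    · rw [map_mul, mul_inv]; exact O.mul_mem hc' hd'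
    · rw [map_mul, map_add, map_mul, map_mul, ← h, ← h']; ring
  zero_mem' := ⟨0, 1, by simp, by simp, by simp⟩
  neg_mem' := by
    rintro x ⟨a, c, hc, hc', h⟩
    exact ⟨-a, c, hc, hc', by rw [map_neg, ← h]; ring⟩

theorem div_mem_fr {K T : Type} [Field K] [CommRing T] (π : T →+* K) (O : Subring K) (a c : T)
    (hc : π c ≠ 0) (hc' : (π c)⁻¹ ∈ O) : π a / π c ∈ fr π O :=
  ⟨a, c, hc, hc', by field_simp⟩

theorem inv_mem_fr {K T : Type} [Field K] [CommRing T] (π : T →+* K) (O : Subring K) (x : K)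
    (hx : x ∈ fr π O) (hx' : x⁻¹ ∈ O) : x⁻¹ ∈ fr π O := by
  by_cases h0 : x = 0
  · rw [h0, inv_zero]; exact (fr π O).zero_mem
  · obtain ⟨a, c, hc, hc', h⟩ := hx
    refine ⟨c, a, ?_, ?_, ?_⟩
    · rw [← h]; exact mul_ne_zero h0 hc
    · rw [← h, mul_inv]; exact O.mul_mem hx' hc'
    · rw [← h]; field_simp

variable {σ K : Type} [Fintype σ] [DecidableEq σ] [Field K]

/-- the presentation -/
noncomputable def pr (θ : MvPolynomial σ ℤ →+* K) (t w : K) (v : σ → K) :
    MvPolynomial (V1 σ) ℤ →+* K :=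
  eval₂Hom (Int.castRingHom K) (Sum.elim (fun i => θ (X i)) (Sum.elim ![t, w] v))

variable (θ : MvPolynomial σ ℤ →+* K) (t w : K) (v : σ → K)

set_option linter.unusedSectionVars false

theorem il_mul (a c : MvPolynomial σ ℤ) : il (a * c) = il a * il c := map_mul _ a c

theorem il_add (a c : MvPolynomial σ ℤ) : il (a + c) = il a + il c := map_add _ a c

theorem il_pow (a : MvPolynomial σ ℤ) (m : ℕ) : il (a ^ m) = il a ^ m := map_pow _ a m

theorem il_C (a : ℤ) : il (C a : MvPolynomial σ ℤ) = C a := rename_C _ a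

theorem il_X (i : σ) : il (X i : MvPolynomial σ ℤ) = X (Sum.inl i) := rename_X _ i

theorem il_sum {κ : Type} (S : Finset κ) (F : κ → MvPolynomial σ ℤ) :
    il (∑ i ∈ S, F i) = ∑ i ∈ S, il (F i) := map_sum _ F S

theorem pr_il (h : MvPolynomial σ ℤ) : pr θ t w v (il h) = θ h := by
  have h1 : (pr θ t w v).comp
      (rename (Sum.inl : σ → V1 σ) : MvPolynomial σ ℤ →ₐ[ℤ] MvPolynomial (V1 σ) ℤ).toRingHom =
      θ := by
    apply MvPolynomial.ringHom_ext
    · intro a
      simp [pr]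
    · intro i
      simp [pr]
  exact RingHom.congr_fun h1 h

theorem pr_C (a : ℤ) : pr θ t w v (C a) = (a : K) := by simp [pr]

theorem pr_t : pr θ t w v (tt σ) = t := by simp [pr]

theorem pr_w : pr θ t w v (ww σ) = w := by simp [pr]

theorem pr_v (i : σ) : pr θ t w v (vv i) = v i := by simp [pr]

theorem pr_qv (B : Matrix σ σ (MvPolynomial σ ℤ)) :
    pr θ t w v (qv B) = ∑ i, ∑ j, θ (B i j) * v i * v j := by
  rw [qv, map_sum]
  refine Finset.sum_congr rfl fun i _ => ?_
  rw [map_sum]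
  refine Finset.sum_congr rfl fun j _ => ?_
  rw [map_mul, map_mul, pr_il, pr_v, pr_v]

theorem pr_mem (O : Subring K) (hθ : ∀ h, θ h ∈ O) (ht : t ∈ O) (hw : w ∈ O) (hv : ∀ i, v i ∈ O)
    (x : MvPolynomial (V1 σ) ℤ) : pr θ t w v x ∈ O := by
  induction x using MvPolynomial.induction_on with
  | C a => rw [pr_C]; exact intCast_mem O a
  | add p q hp hq => rw [map_add]; exact O.add_mem hp hq
  | mul_X p x hp =>
    rw [map_mul]
    refine O.mul_mem hp ?_
    rcases x with i | e | i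
    · have : pr θ t w v (X (Sum.inl i)) = θ (X i) := by simp [pr]
      rw [this]; exact hθ _
    · fin_cases e
      · show pr θ t w v (tt σ) ∈ O
        rw [pr_t]; exact ht
      · show pr θ t w v (ww σ) ∈ O
        rw [pr_w]; exact hw
    · rw [pr_v]; exact hv i

/-- `π` kills the relations -/
theorem pr_rel {f : MvPolynomial σ ℤ} {p : ℕ} {k s : ℕ} (hks : 2 * s ≤ k)
    {u : MvPolynomial σ ℤ} {B : Matrix σ σ (MvPolynomial σ ℤ)} {b : σ}
    (hp0 : (p : K) ≠ 0) (ht0 : t ≠ 0) (htw : t * w = p) (hvb : v b = 1)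
    (hy : ∀ i, θ (pderiv i f) = (p : K) ^ s * t * v i)
    (hmain : (p : K) ^ (2 * s) * t ^ 2 * (∑ i, ∑ j, θ (B i j) * v i * v j) +
      (p : K) ^ k * θ u = 0) (i : Fin 3 ⊕ σ) :
    pr θ t w v (rel1 f p k s B u b i) = 0 := by
  rcases i with e | i
  · fin_cases e
    · show pr θ t w v (vv b - 1) = 0
      rw [map_sub, map_one, pr_v, hvb, sub_self]
    · show pr θ t w v (C (p : ℤ) - tt σ * ww σ) = 0
      rw [map_sub, map_mul, pr_C, pr_t, pr_w, htw]
      simp
    · show pr θ t w v (str1 k s B u) = 0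
      obtain ⟨m, rfl⟩ := Nat.exists_eq_add_of_le hks
      set Q := ∑ i, ∑ j, θ (B i j) * v i * v j with hQ
      have hp2 : (p : K) ^ (2 * s) ≠ 0 := pow_ne_zero _ hp0
      rw [str1]
      split_ifs with c1 c2
      · obtain ⟨m', rfl⟩ : ∃ m', m = m' + 2 := ⟨m - 2, by omega⟩
        have e1 : 2 * s + (m' + 2) - 2 * s - 2 = m' := by omega
        have e2 : 2 * s + (m' + 2) - 2 * s = m' + 2 := by omega
        rw [e1, e2, map_add, map_mul, map_mul, map_pow, map_pow, pr_qv, pr_il, pr_t, pr_w, ← hQ]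
        have h1 : (p : K) ^ (2 * s) * t ^ 2 * (Q + θ u * t ^ m' * w ^ (m' + 2)) = 0 := by
          rw [← hmain, pow_add (p : K) (2 * s) (m' + 2)]
          have : (p : K) ^ (m' + 2) = t ^ (m' + 2) * w ^ (m' + 2) := by rw [← htw, mul_pow]
          rw [this]
          ring
        exact (mul_eq_zero.mp h1).resolve_left (mul_ne_zero hp2 (pow_ne_zero 2 ht0))
      · have hm : m = 1 := by omega
        subst hm
        rw [map_add, map_mul, map_mul, pr_qv, pr_il, pr_t, pr_w, ← hQ]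
        have h1 : (p : K) ^ (2 * s) * t * (t * Q + θ u * w) = 0 := by
          rw [← hmain, pow_add (p : K) (2 * s) 1, pow_one, ← htw]
          ring
        exact (mul_eq_zero.mp h1).resolve_left (mul_ne_zero hp2 ht0)
      · have hm : m = 0 := by omega
        subst hm
        rw [map_add, map_mul, map_pow, pr_qv, pr_il, pr_t, ← hQ]
        have h1 : (p : K) ^ (2 * s) * (t ^ 2 * Q + θ u) = 0 := by
          rw [← hmain, add_zero]
          ring
        exact (mul_eq_zero.mp h1).resolve_left hp2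
  · show pr θ t w v (il (pderiv i f) - (tt σ * ww σ) ^ s * tt σ * vv i) = 0
    rw [map_sub, map_mul, map_mul, map_pow, map_mul, pr_il, pr_t, pr_w, pr_v, hy, htw, sub_self]

/-- reduction of every polynomial to a polynomial in the coordinates, up to powers of
`C p * il (∂_b f)` -/
theorem reduce {f : MvPolynomial σ ℤ} {p k s : ℕ} {B : Matrix σ σ (MvPolynomial σ ℤ)}
    {u : MvPolynomial σ ℤ} {b : σ} {A : Type} [CommRing A]
    (φ : MvPolynomial (V1 σ) ℤ →+* A) (hφ : ∀ i, φ (rel1 f p k s B u b i) = 0)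
    (τ : MvPolynomial (V1 σ) ℤ) :
    ∃ (n : ℕ) (h : MvPolynomial σ ℤ), φ (il (C (p : ℤ) * pderiv b f)) ^ n * φ τ = φ (il h) := by
  have h0 : φ (vv b) = 1 := by
    have : φ (vv b - 1) = 0 := hφ (Sum.inl 0)
    rwa [map_sub, map_one, sub_eq_zero] at this
  have h1 : φ (C (p : ℤ)) = φ (tt σ) * φ (ww σ) := by
    have : φ (C (p : ℤ) - tt σ * ww σ) = 0 := hφ (Sum.inl 1)
    rwa [map_sub, map_mul, sub_eq_zero] at this
  have h3 : ∀ i, φ (il (pderiv i f)) = φ (C (p : ℤ)) ^ s * φ (tt σ) * φ (vv i) := by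
    intro i
    have : φ (il (pderiv i f) - (tt σ * ww σ) ^ s * tt σ * vv i) = 0 := hφ (Sum.inr i)
    rw [map_sub, map_mul, map_mul, map_pow, map_mul, sub_eq_zero, ← h1] at this
    exact this
  have hz : φ (il (C (p : ℤ) * pderiv b f)) =
      φ (C (p : ℤ)) * (φ (C (p : ℤ)) ^ s * φ (tt σ)) := by
    rw [il_mul, il_C, map_mul, h3, h0, mul_one]
  have hC : ∀ m : ℕ, φ (il (C (p : ℤ) ^ m)) = φ (C (p : ℤ)) ^ m := by
    intro m
    rw [il_pow, il_C, map_pow]
  induction τ using MvPolynomial.induction_on with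
  | C a => exact ⟨0, C a, by rw [pow_zero, one_mul, il_C]⟩
  | add x y hx hy =>
    obtain ⟨n, h, hn⟩ := hx
    obtain ⟨m, h', hm⟩ := hy
    refine ⟨n + m, (C (p : ℤ) * pderiv b f) ^ m * h + (C (p : ℤ) * pderiv b f) ^ n * h', ?_⟩
    generalize (C (p : ℤ) * pderiv b f : MvPolynomial σ ℤ) = z0 at hn hm ⊢
    rw [il_add, il_mul, il_mul, il_pow, il_pow, map_add φ, map_add φ, map_mul φ (_ ^ m),
      map_mul φ (_ ^ n), map_pow φ, map_pow φ, ← hn, ← hm]
    ring
  | mul_X q x hq =>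
    obtain ⟨n, h, hn⟩ := hq
    have key : ∃ (m : ℕ) (h' : MvPolynomial σ ℤ),
        φ (il (C (p : ℤ) * pderiv b f)) ^ m * φ (X x) = φ (il h') := by
      rcases x with i | e | i
      · exact ⟨0, X i, by rw [pow_zero, one_mul, il_X]⟩
      · fin_cases e
        · refine ⟨s, pderiv b f ^ (s + 1), ?_⟩
          show φ (il (C (p : ℤ) * pderiv b f)) ^ s * φ (tt σ) = _
          rw [hz, il_pow, map_pow, h3, h0, mul_one]
          ring
        · refine ⟨1, C (p : ℤ) ^ (s + 2), ?_⟩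
          show φ (il (C (p : ℤ) * pderiv b f)) ^ 1 * φ (ww σ) = _
          rw [hz, hC, pow_one]
          have : φ (C (p : ℤ)) * (φ (C (p : ℤ)) ^ s * φ (tt σ)) * φ (ww σ) =
            φ (C (p : ℤ)) ^ (s + 1) * (φ (tt σ) * φ (ww σ)) := by ring
          rw [this, ← h1]
          ring
      · refine ⟨1, C (p : ℤ) * pderiv i f, ?_⟩
        show φ (il (C (p : ℤ) * pderiv b f)) ^ 1 * φ (vv i) = _
        rw [hz, il_mul, il_C, map_mul, h3, pow_one]
        ring
    obtain ⟨m, h', hm⟩ := key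
    refine ⟨n + m, h * h', ?_⟩
    rw [il_mul h h', map_mul φ q, map_mul φ (il h), ← hn, ← hm]
    ring

/-- `D f = 0` modulo the relations -/
theorem Df_zero {f : MvPolynomial σ ℤ} {p k s : ℕ} (hks : 2 * s ≤ k)
    {B : Matrix σ σ (MvPolynomial σ ℤ)}
    {u D : MvPolynomial σ ℤ} {b : σ} {A : Type} [CommRing A]
    (hDf : D * f = ∑ i, ∑ j, B i j * pderiv i f * pderiv j f + C (p : ℤ) ^ k * u)
    (φ : MvPolynomial (V1 σ) ℤ →+* A) (hφ : ∀ i, φ (rel1 f p k s B u b i) = 0) :
    φ (il D) * φ (il f) = 0 := by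
  have h1 : φ (C (p : ℤ)) = φ (tt σ) * φ (ww σ) := by
    have : φ (C (p : ℤ) - tt σ * ww σ) = 0 := hφ (Sum.inl 1)
    rwa [map_sub, map_mul, sub_eq_zero] at this
  have h3 : ∀ i, φ (il (pderiv i f)) = φ (C (p : ℤ)) ^ s * φ (tt σ) * φ (vv i) := by
    intro i
    have : φ (il (pderiv i f) - (tt σ * ww σ) ^ s * tt σ * vv i) = 0 := hφ (Sum.inr i)
    rw [map_sub, map_mul, map_mul, map_pow, map_mul, sub_eq_zero, ← h1] at this
    exact this
  have h2 : φ (str1 k s B u) = 0 := hφ (Sum.inl 2)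
  have h4 : φ (il D) * φ (il f) = φ (C (p : ℤ)) ^ (2 * s) * φ (tt σ) ^ 2 * φ (qv B) +
      φ (C (p : ℤ)) ^ k * φ (il u) := by
    rw [← map_mul φ, ← il_mul, hDf, il_add, map_add φ, il_mul (_ ^ k), il_pow, il_C,
      map_mul φ (_ ^ k), map_pow φ]
    congr 1
    rw [il_sum, map_sum φ, qv, map_sum φ, Finset.mul_sum]
    refine Finset.sum_congr rfl fun i _ => ?_
    rw [il_sum, map_sum φ, map_sum φ, Finset.mul_sum]
    refine Finset.sum_congr rfl fun j _ => ?_
    rw [il_mul, il_mul, map_mul φ, map_mul φ, map_mul φ, map_mul φ, h3, h3]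
    ring
  rw [h4]
  obtain ⟨m, rfl⟩ := Nat.exists_eq_add_of_le hks
  rw [str1] at h2
  split_ifs at h2 with c1 c2
  · obtain ⟨m', rfl⟩ : ∃ m', m = m' + 2 := ⟨m - 2, by omega⟩
    have e1 : 2 * s + (m' + 2) - 2 * s - 2 = m' := by omega
    have e2 : 2 * s + (m' + 2) - 2 * s = m' + 2 := by omega
    rw [e1, e2, map_add, map_mul, map_mul, map_pow, map_pow] at h2
    have h5 : φ (C (p : ℤ)) ^ (m' + 2) = φ (tt σ) ^ (m' + 2) * φ (ww σ) ^ (m' + 2) := by
      rw [h1, mul_pow]
    rw [pow_add _ (2 * s) (m' + 2), h5]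
    linear_combination (φ (C (p : ℤ)) ^ (2 * s) * φ (tt σ) ^ 2) * h2
  · have hm : m = 1 := by omega
    subst hm
    rw [map_add, map_mul, map_mul] at h2
    rw [pow_add _ (2 * s) 1, pow_one]
    linear_combination (φ (C (p : ℤ)) ^ (2 * s) * φ (tt σ)) * h2 +
      φ (C (p : ℤ)) ^ (2 * s) * φ (il u) * h1
  · have hm : m = 0 := by omega
    subst hm
    rw [map_add, map_mul, map_pow] at h2
    rw [add_zero]
    linear_combination φ (C (p : ℤ)) ^ (2 * s) * h2

end CHART1

open CHART1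

theorem regular_chart1 {σ K : Type} [Fintype σ] [DecidableEq σ] [Field K] [CharZero K]
    {f : MvPolynomial σ ℤ} {p : ℕ} (hp : p.Prime) {R : ℕ} {θ : MvPolynomial σ ℤ →+* K}
    (hker : RingHom.ker θ = Ideal.span {f}) {g : Fin R → K} {O : Subring K} [IsLocalRing O]
    (hO : IsBlow f p θ g O) (hpO : (p : K)⁻¹ ∉ O)
    (hd : ∀ i, θ (pderiv i f) = 0 ∨ (θ (pderiv i f))⁻¹ ∉ O)
    (hH : θ (hess f).det ≠ 0 ∧ (θ (hess f).det)⁻¹ ∈ O)
    {k : ℕ} (hk : 1 ≤ k) {D u : MvPolynomial σ ℤ} {B : Matrix σ σ (MvPolynomial σ ℤ)}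
    (hD : θ D ≠ 0 ∧ (θ D)⁻¹ ∈ O) (hu : θ u ≠ 0 ∧ (θ u)⁻¹ ∈ O)
    (hDf : D * f = ∑ i, ∑ j, B i j * pderiv i f * pderiv j f + C (p : ℤ) ^ k * u)
    (hB : 2 ≤ k → θ (B + B.transpose).det ≠ 0 ∧ (θ (B + B.transpose).det)⁻¹ ∈ O)
    {s : ℕ} (hs : s < R) (b : σ) {t w : K} {v : σ → K} (ht : t ∈ O) (hw : w ∈ O)
    (hv : ∀ i, v i ∈ O) (hw0 : w⁻¹ ∉ O) (htw : t * w = p) (hvb : v b = 1)
    (hy : ∀ i, θ (pderiv i f) = (p : K) ^ s * t * v i) : IsRegularLocalRing O := by
  have hp0 : (p : K) ≠ 0 := by exact_mod_cast hp.ne_zero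
  have ht0 : t ≠ 0 := by
    rintro rfl
    rw [zero_mul] at htw
    exact hp0 htw.symm
  have hpmem : (p : K) ∈ O := natCast_mem O p
  have hθf : θ f = 0 := by
    have : f ∈ RingHom.ker θ := by rw [hker]; exact Ideal.mem_span_singleton_self f
    exact this
  -- the main relation in `K`
  have hmain : (p : K) ^ (2 * s) * t ^ 2 * (∑ i, ∑ j, θ (B i j) * v i * v j) +
      (p : K) ^ k * θ u = 0 := by
    have h1 : θ (D * f) = 0 := by rw [map_mul, hθf, mul_zero]
    rw [hDf, map_add, map_mul θ (_ ^ k), map_pow, map_sum] at h1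
    have hCp : θ (C (p : ℤ)) = (p : K) := by
      have : (C (p : ℤ) : MvPolynomial σ ℤ) = (p : MvPolynomial σ ℤ) := by simp
      rw [this, map_natCast]
    rw [hCp] at h1
    rw [← h1]
    congr 1
    rw [Finset.mul_sum]
    refine Finset.sum_congr rfl fun i _ => ?_
    rw [map_sum, Finset.mul_sum]
    refine Finset.sum_congr rfl fun j _ => ?_
    rw [map_mul, map_mul, hy, hy]
    ring
  have hks : 2 * s ≤ k := by
    by_contra hlt
    push Not at hlt
    obtain ⟨m, hm⟩ := Nat.exists_eq_add_of_lt hlt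
    have h1 : θ u = -((p : K) * ((p : K) ^ m * t ^ 2 * (∑ i, ∑ j, θ (B i j) * v i * v j))) := by
      have h2 : (p : K) ^ k * (θ u + (p : K) * ((p : K) ^ m * t ^ 2 *
          (∑ i, ∑ j, θ (B i j) * v i * v j))) = 0 := by
        rw [← hmain, hm]
        ring
      have h3 := (mul_eq_zero.mp h2).resolve_left (pow_ne_zero k hp0)
      exact eq_neg_of_add_eq_zero_left h3
    set S := (p : K) ^ m * t ^ 2 * (∑ i, ∑ j, θ (B i j) * v i * v j) with hS
    have hSO : S ∈ O := by
      refine O.mul_mem (O.mul_mem (O.pow_mem hpmem m) (O.pow_mem ht 2)) ?_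
      exact O.sum_mem fun i _ => O.sum_mem fun j _ =>
        O.mul_mem (O.mul_mem (hO.poly _) (hv i)) (hv j)
    apply hpO
    have h4 : (p : K)⁻¹ = -(S * (θ u)⁻¹) := by
      have hu0 := hu.1
      have hS0 : S ≠ 0 := by
        intro h
        rw [h, mul_zero, neg_zero] at h1
        exact hu0 h1
      rw [h1]
      field_simp
    rw [h4]
    exact O.neg_mem (O.mul_mem hSO hu.2)
  let π := pr θ t w v
  have hrel0 : ∀ i, π (rel1 f p k s B u b i) = 0 :=
    pr_rel θ t w v hks hp0 ht0 htw hvb hy hmain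
  have hpb : θ (pderiv b f) = (p : K) ^ s * t := by rw [hy, hvb, mul_one]
  have eC : π (C (p : ℤ)) = (p : K) := (pr_C θ t w v _).trans (by simp)
  have eil : ∀ h, π (il h) = θ h := pr_il θ t w v
  have et : π (tt σ) = t := pr_t θ t w v
  have ew : π (ww σ) = w := pr_w θ t w v
  have ev : ∀ i, π (vv i) = v i := pr_v θ t w v
  have hCp : θ (C (p : ℤ)) = (p : K) := by
    have : (C (p : ℤ) : MvPolynomial σ ℤ) = (p : MvPolynomial σ ℤ) := by simp
    rw [this, map_natCast]
  have hgj : ∀ j : Fin R, (p : K) ^ ((j : ℕ) + 1) / g j ∈ fr π O ∧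
      ∀ i, θ (pderiv i f) / g j ∈ fr π O := by
    intro j
    obtain ⟨c, e, hg⟩ := hO.gen j
    have hg0 := hO.ne j
    have hl := hO.left j
    have hr := hO.right j
    have hg1 : g j = θ c * (p : K) ^ ((j : ℕ) + 1) +
        ∑ i, θ (e i) * ((p : K) ^ s * t * v i) := by
      rw [hg, map_add, map_mul, map_pow, hCp, map_sum]
      congr 1
      refine Finset.sum_congr rfl fun i _ => ?_
      rw [map_mul, hy]
    rcases Nat.lt_or_ge s ((j : ℕ) + 1) with hj | hj
    · -- `j + 1 > s`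
      obtain ⟨m, hm⟩ := Nat.exists_eq_add_of_lt hj
      let ε : MvPolynomial (V1 σ) ℤ := il c * ww σ * C (p : ℤ) ^ m + ∑ i, il (e i) * vv i
      have hε : π ε = θ c * w * (p : K) ^ m + ∑ i, θ (e i) * v i := by
        rw [map_add, map_mul, map_mul, map_pow, eC, eil, ew, map_sum]
        congr 1
        refine Finset.sum_congr rfl fun i _ => ?_
        rw [map_mul, eil, ev]
      have hg2 : g j = (p : K) ^ s * t * π ε := by
        have hpp : (p : K) ^ ((j : ℕ) + 1) = (p : K) ^ s * (t * w) * (p : K) ^ m := by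
          rw [htw, hm]; ring
        rw [hg1, hε, hpp, mul_add, Finset.mul_sum]
        congr 1
        · ring
        · refine Finset.sum_congr rfl fun i _ => ?_
          ring
      have hε0 : π ε ≠ 0 := by
        intro h0
        rw [h0, mul_zero] at hg2
        exact hg0 hg2
      have hpt : (p : K) ^ s * t ≠ 0 := mul_ne_zero (pow_ne_zero _ hp0) ht0
      have hε1 : (π ε)⁻¹ ∈ O := by
        have h1 := hr b
        rw [hpb, hg2] at h1
        have h2 : (p : K) ^ s * t / ((p : K) ^ s * t * π ε) = (π ε)⁻¹ := by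
          field_simp
        rwa [h2] at h1
      refine ⟨?_, fun i => ?_⟩
      · have h1 : (p : K) ^ ((j : ℕ) + 1) / g j = π (ww σ * C (p : ℤ) ^ m) / π ε := by
          have hpp : (p : K) ^ ((j : ℕ) + 1) = (p : K) ^ s * t * (w * (p : K) ^ m) := by
            have : (p : K) ^ s * t * (w * (p : K) ^ m) =
              (p : K) ^ s * (t * w) * (p : K) ^ m := by ring
            rw [this, htw, hm]; ring
          rw [hg2, hpp, map_mul, map_pow, eC, ew, mul_div_mul_left _ _ hpt]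
        rw [h1]
        exact div_mem_fr π O _ _ hε0 hε1
      · have h1 : θ (pderiv i f) / g j = π (vv i) / π ε := by
          rw [hy, hg2, ev, mul_div_mul_left _ _ hpt]
        rw [h1]
        exact div_mem_fr π O _ _ hε0 hε1
    · -- `j + 1 ≤ s`
      obtain ⟨m, hm⟩ := Nat.exists_eq_add_of_le hj
      let ε : MvPolynomial (V1 σ) ℤ := il c + ∑ i, il (e i) * (C (p : ℤ) ^ m * tt σ * vv i)
      have hε : π ε = θ c + ∑ i, θ (e i) * ((p : K) ^ m * t * v i) := by
        rw [map_add, eil, map_sum]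
        congr 1
        refine Finset.sum_congr rfl fun i _ => ?_
        rw [map_mul, map_mul, map_mul, map_pow, eil, eC, et, ev]
      have hps : (p : K) ^ s = (p : K) ^ ((j : ℕ) + 1) * (p : K) ^ m := by
        rw [← pow_add, ← hm]
      have hg2 : g j = (p : K) ^ ((j : ℕ) + 1) * π ε := by
        rw [hg1, hε, hps, mul_add, Finset.mul_sum]
        congr 1
        · ring
        · refine Finset.sum_congr rfl fun i _ => ?_
          ring
      have hpj : (p : K) ^ ((j : ℕ) + 1) ≠ 0 := pow_ne_zero _ hp0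
      have hε0 : π ε ≠ 0 := by
        intro h0
        rw [h0, mul_zero] at hg2
        exact hg0 hg2
      have hε1 : (π ε)⁻¹ ∈ O := by
        rw [hg2] at hl
        have h2 : (p : K) ^ ((j : ℕ) + 1) / ((p : K) ^ ((j : ℕ) + 1) * π ε) = (π ε)⁻¹ := by
          field_simp
        rwa [h2] at hl
      refine ⟨?_, fun i => ?_⟩
      · have h1 : (p : K) ^ ((j : ℕ) + 1) / g j = π 1 / π ε := by
          rw [hg2, map_one]
          field_simp
        rw [h1]
        exact div_mem_fr π O _ _ hε0 hε1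
      · have h1 : θ (pderiv i f) / g j = π (C (p : ℤ) ^ m * tt σ * vv i) / π ε := by
          rw [hy, hg2, hps, map_mul, map_mul, map_pow, eC, et, ev,
            ← mul_div_mul_left _ (π ε) hpj]
          congr 1
          ring
        rw [h1]
        exact div_mem_fr π O _ _ hε0 hε1
  refine regular_of_pres O π (pr_mem θ t w v O hO.poly ht hw hv) ?_ (rel1 f p k s B u b) hrel0
    (il D * (C (p : ℤ) * il (pderiv b f))) ?_ ?_ ?_
  · -- fractions
    have hle : O ≤ fr π O := by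
      refine hO.min (fr π O) ?_ ?_ ?_ (fun x hx hx' => inv_mem_fr π O x hx hx')
      · intro h
        refine ⟨il h, 1, by simp, by simp, ?_⟩
        rw [map_one, mul_one]
        exact (pr_il θ t w v h).symm
      · intro j
        exact (hgj j).1
      · intro j i
        exact (hgj j).2 i
    intro x hx
    exact (hle hx : x ∈ fr π O)
  · -- `π e ≠ 0`
    have h1 : π (il D * (C (p : ℤ) * il (pderiv b f))) = θ D * ((p : K) * ((p : K) ^ s * t)) := by
      rw [map_mul, map_mul]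
      have e1 : π (il D) = θ D := pr_il θ t w v D
      have e2 : π (il (pderiv b f)) = (p : K) ^ s * t := (pr_il θ t w v _).trans hpb
      have e3 : π (C (p : ℤ)) = (p : K) := (pr_C θ t w v _).trans (by simp)
      rw [e1, e2, e3]
    rw [h1]
    exact mul_ne_zero hD.1 (mul_ne_zero hp0 (mul_ne_zero (pow_ne_zero _ hp0) ht0))
  · -- torsion
    intro τ hτ
    let I := Ideal.span (Set.range (rel1 f p k s B u b))
    let φ := Ideal.Quotient.mk I
    have hφ : ∀ i, φ (rel1 f p k s B u b i) = 0 := fun i =>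
      Ideal.Quotient.eq_zero_iff_mem.mpr (Ideal.subset_span ⟨i, rfl⟩)
    obtain ⟨n, h, hn⟩ := reduce φ hφ τ
    have hIπ : ∀ x ∈ I, π x = 0 := by
      intro x hx
      have : I ≤ RingHom.ker π := Ideal.span_le.mpr (by
        rintro _ ⟨i, rfl⟩
        exact hrel0 i)
      exact this hx
    have h1 : il (C (p : ℤ) * pderiv b f) ^ n * τ - il h ∈ I := by
      rw [← Ideal.Quotient.eq_zero_iff_mem]
      show φ _ = 0
      rw [map_sub, map_mul, map_pow, hn, sub_self]
    have h2 : θ h = 0 := by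
      have h3 := hIπ _ h1
      rw [map_sub, map_mul, hτ, mul_zero, zero_sub, neg_eq_zero] at h3
      rw [← pr_il θ t w v h]
      exact h3
    have h4 : h ∈ Ideal.span {f} := by
      rw [← hker]
      exact h2
    obtain ⟨q, rfl⟩ := Ideal.mem_span_singleton'.mp h4
    have hD0 := Df_zero hks hDf φ hφ
    refine ⟨n + 1, ?_⟩
    rw [← Ideal.Quotient.eq_zero_iff_mem]
    show φ _ = 0
    have e1 : φ (C (p : ℤ) * il (pderiv b f)) = φ (il (C (p : ℤ) * pderiv b f)) := by
      rw [il_mul, il_C]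
    rw [map_mul φ, map_pow φ, map_mul φ, e1]
    have hn' : φ (il (C (p : ℤ) * pderiv b f)) ^ n * φ τ = φ (il q) * φ (il f) := by
      rw [hn, il_mul, map_mul φ]
    have e2 : (φ (il D) * φ (il (C (p : ℤ) * pderiv b f))) ^ (n + 1) * φ τ =
        φ (il D) ^ n * φ (il (C (p : ℤ) * pderiv b f)) * φ (il D) *
          (φ (il (C (p : ℤ) * pderiv b f)) ^ n * φ τ) := by ring
    rw [e2, hn']
    linear_combination (φ (il D) ^ n * φ (il (C (p : ℤ) * pderiv b f)) * φ (il q)) * hD0
  · -- independence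
    intro P hP hmem a ha
    have e3 : π (C (p : ℤ)) = (p : K) := (pr_C θ t w v _).trans (by simp)
    have eil : ∀ h, π (il h) = θ h := pr_il θ t w v
    have hnot : ∀ h, (θ h ≠ 0 ∧ (θ h)⁻¹ ∈ O) → il h ∉ P := by
      rintro h ⟨h1, h2⟩ h3
      rw [hmem, eil] at h3
      rcases h3 with h3 | h3
      · exact h1 h3
      · exact h3 h2
    refine ind1 f hp hk hks B u b P ?_ ?_ ?_ ?_ (hnot _ hH) (hnot _ hu) (fun h2 => hnot _ (hB h2))
      a ha
    · rw [hmem, e3]; exact Or.inr hpO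
    · intro i; rw [hmem]; exact Or.inl (hrel0 i)
    · intro i; rw [hmem, eil]; exact hd i
    · rw [hmem]
      have : π (ww σ) = w := pr_w θ t w v
      rw [this]; exact Or.inr hw0

end Pool.Agent.NH
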