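import Pool.Agent.NodHyp.Loc
import Pool.Agent.NodHyp.Ind2

set_option autoImplicit false

/-! # CHART2: regularity in the charts of the second kind (level `R`)

Apply `regular_of_pres` with `T = MvPolynomial (V2 σ) ℤ`, `π = eval₂` with `y_i ↦ θ (X i)`, `z_i`, the relations
`rel2 f p k R B u`.
* `k = 2 R` or `2 R + 1`: `k ≤ 2 R + 1` by hypothesis, and `k < 2 R` is impossible: `0 = θ (D f) = p^k (u + p^(2R-k) Q(z))`.
* fractions: `g j = p^(j+1) ε` with `ε ∈ range π` and `1 / ε = p^(j+1) / g j ∈ O`; as in `Chart1`.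
* torsion: `e = il D * C p`; modulo the relations `p^R z_i ≡ y'_i`; `D f ≡ p^(2R) G`.
* independence: `ind2`. -/

namespace Pool.Agent.NH

open MvPolynomial

/-! auxiliary lemmas (prefix `CHART2_`) -/

section aux

variable {σ K : Type} [Field K]

/-- the evaluation of the chart -/
noncomputable def CHART2_pi (θ : MvPolynomial σ ℤ →+* K) (z : σ → K) :
    MvPolynomial (V2 σ) ℤ →+* K :=
  ((aeval (Sum.elim (fun i => θ (X i)) z) : MvPolynomial (V2 σ) ℤ →ₐ[ℤ] K) :
    MvPolynomial (V2 σ) ℤ →+* K)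

theorem CHART2_pi_il (θ : MvPolynomial σ ℤ →+* K) (z : σ → K) (h : MvPolynomial σ ℤ) :
    CHART2_pi θ z (rename Sum.inl h) = θ h := by
  have h1 : (CHART2_pi θ z).comp (rename (Sum.inl : σ → V2 σ) :
      MvPolynomial σ ℤ →ₐ[ℤ] MvPolynomial (V2 σ) ℤ).toRingHom = θ := by
    apply MvPolynomial.ringHom_ext
    · intro r
      simp
    · intro i
      simp [CHART2_pi]
  exact congrArg (fun f => f h) (congrArg DFunLike.coe h1)

theorem CHART2_pi_ir (θ : MvPolynomial σ ℤ →+* K) (z : σ → K) (i : σ) :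
    CHART2_pi θ z (X (Sum.inr i)) = z i := by
  simp [CHART2_pi]

theorem CHART2_pi_C (θ : MvPolynomial σ ℤ →+* K) (z : σ → K) (n : ℕ) :
    CHART2_pi θ z (C (n : ℤ)) = (n : K) := by
  simp [CHART2_pi]

theorem CHART2_pi_mem (θ : MvPolynomial σ ℤ →+* K) (z : σ → K) (O : Subring K)
    (h1 : ∀ h, θ h ∈ O) (h2 : ∀ i, z i ∈ O) (t : MvPolynomial (V2 σ) ℤ) :
    CHART2_pi θ z t ∈ O := by
  induction t using MvPolynomial.induction_on with
  | C a =>
    have h3 : CHART2_pi θ z (C a) = (a : K) := by simp [CHART2_pi]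
    rw [h3]
    exact intCast_mem O a
  | add a b ha hb => rw [map_add]; exact O.add_mem ha hb
  | mul_X a i ha =>
    rw [map_mul]
    refine O.mul_mem ha ?_
    rcases i with i | i
    · have h3 : (X (Sum.inl i) : MvPolynomial (V2 σ) ℤ) = rename Sum.inl (X i) := by
        rw [rename_X]
      rw [h3, CHART2_pi_il]
      exact h1 _
    · rw [CHART2_pi_ir]
      exact h2 i

/-- the subring of fractions -/
def CHART2_F {T : Type} [CommRing T] (π : T →+* K) (O : Subring K) : Subring K where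
  carrier := {x | ∃ u v : T, π v ≠ 0 ∧ (π v)⁻¹ ∈ O ∧ x * π v = π u}
  mul_mem' := by
    rintro x y ⟨a, b, h1, h2, h3⟩ ⟨a', b', h1', h2', h3'⟩
    refine ⟨a * a', b * b', ?_, ?_, ?_⟩
    · rw [map_mul]; exact mul_ne_zero h1 h1'
    · rw [map_mul, mul_inv]; exact O.mul_mem h2 h2'
    · rw [map_mul, map_mul, ← h3, ← h3']; ring
  one_mem' := ⟨1, 1, by rw [map_one]; exact one_ne_zero, by rw [map_one, inv_one]; exact O.one_mem,
    by rw [one_mul]⟩
  add_mem' := by
    rintro x y ⟨a, b, h1, h2, h3⟩ ⟨a', b', h1', h2', h3'⟩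
    refine ⟨a * b' + a' * b, b * b', ?_, ?_, ?_⟩
    · rw [map_mul]; exact mul_ne_zero h1 h1'
    · rw [map_mul, mul_inv]; exact O.mul_mem h2 h2'
    · rw [map_add, map_mul, map_mul, map_mul, ← h3, ← h3']; ring
  zero_mem' := ⟨0, 1, by rw [map_one]; exact one_ne_zero, by rw [map_one, inv_one]; exact O.one_mem,
    by rw [map_zero, zero_mul]⟩
  neg_mem' := by
    rintro x ⟨a, b, h1, h2, h3⟩
    exact ⟨-a, b, h1, h2, by rw [map_neg, ← h3]; ring⟩

theorem CHART2_F_inv {T : Type} [CommRing T] (π : T →+* K) (O : Subring K) (x : K)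
    (hx : x ∈ CHART2_F π O) (hxO : x⁻¹ ∈ O) : x⁻¹ ∈ CHART2_F π O := by
  by_cases h0 : x = 0
  · rw [h0, inv_zero]
    exact (CHART2_F π O).zero_mem
  · obtain ⟨a, b, h1, h2, h3⟩ := hx
    refine ⟨b, a, ?_, ?_, ?_⟩
    · rw [← h3]; exact mul_ne_zero h0 h1
    · rw [← h3, mul_inv]; exact O.mul_mem hxO h2
    · rw [← h3, ← mul_assoc, inv_mul_cancel₀ h0, one_mul]

variable [Fintype σ] [DecidableEq σ]

/-- reduction modulo the relations -/
theorem CHART2_red {f : MvPolynomial σ ℤ} {p k R : ℕ} {B : Matrix σ σ (MvPolynomial σ ℤ)}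
    {u : MvPolynomial σ ℤ} (τ : MvPolynomial (V2 σ) ℤ) :
    ∃ (N : ℕ) (h : MvPolynomial σ ℤ), C (p : ℤ) ^ N * τ - rename Sum.inl h ∈
      Ideal.span (Set.range (rel2 f p k R B u)) := by
  induction τ using MvPolynomial.induction_on with
  | C a => exact ⟨0, C a, by rw [rename_C, pow_zero, one_mul, sub_self]; exact Ideal.zero_mem _⟩
  | add a b ha hb =>
    obtain ⟨N, h, h1⟩ := ha
    obtain ⟨N', h', h1'⟩ := hb
    refine ⟨N + N', C (p : ℤ) ^ N' * h + C (p : ℤ) ^ N * h', ?_⟩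
    have e1 : C (p : ℤ) ^ (N + N') * (a + b) -
        rename (Sum.inl : σ → V2 σ) (C (p : ℤ) ^ N' * h + C (p : ℤ) ^ N * h') =
        C (p : ℤ) ^ N' * (C (p : ℤ) ^ N * a - rename Sum.inl h) +
        C (p : ℤ) ^ N * (C (p : ℤ) ^ N' * b - rename Sum.inl h') := by
      simp only [map_add, map_mul, map_pow, rename_C]
      ring
    rw [e1]
    exact Ideal.add_mem _ (Ideal.mul_mem_left _ _ h1) (Ideal.mul_mem_left _ _ h1')
  | mul_X a i ha =>
    obtain ⟨N, h, h1⟩ := ha
    rcases i with i | i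
    · refine ⟨N, h * X i, ?_⟩
      have e1 : C (p : ℤ) ^ N * (a * X (Sum.inl i)) - rename (Sum.inl : σ → V2 σ) (h * X i) =
          X (Sum.inl i) * (C (p : ℤ) ^ N * a - rename Sum.inl h) := by
        simp only [map_mul, rename_X]
        ring
      rw [e1]
      exact Ideal.mul_mem_left _ _ h1
    · refine ⟨N + R, h * pderiv i f, ?_⟩
      have e1 : C (p : ℤ) ^ (N + R) * (a * X (Sum.inr i)) -
          rename (Sum.inl : σ → V2 σ) (h * pderiv i f) =
          C (p : ℤ) ^ R * X (Sum.inr i) * (C (p : ℤ) ^ N * a - rename Sum.inl h) +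
          (-rename (Sum.inl : σ → V2 σ) h) * rel2 f p k R B u (some i) := by
        simp only [map_mul, rel2]
        ring
      rw [e1]
      exact Ideal.add_mem _ (Ideal.mul_mem_left _ _ h1)
        (Ideal.mul_mem_left _ _ (Ideal.subset_span ⟨some i, rfl⟩))

/-- `D f` is in the ideal of the relations -/
theorem CHART2_Df {f : MvPolynomial σ ℤ} {p k R : ℕ} (hk : 2 * R ≤ k)
    {B : Matrix σ σ (MvPolynomial σ ℤ)} {D u : MvPolynomial σ ℤ}
    (hDf : D * f = ∑ i, ∑ j, B i j * pderiv i f * pderiv j f + C (p : ℤ) ^ k * u) :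
    rename Sum.inl (D * f) ∈ Ideal.span (Set.range (rel2 f p k R B u)) := by
  rw [← Ideal.Quotient.eq_zero_iff_mem]
  set J := Ideal.span (Set.range (rel2 f p k R B u)) with hJ
  have hy : ∀ i, Ideal.Quotient.mk J (rename Sum.inl (pderiv i f)) =
      Ideal.Quotient.mk J (C (p : ℤ)) ^ R * Ideal.Quotient.mk J (X (Sum.inr i)) := by
    intro i
    have h1 : Ideal.Quotient.mk J (rel2 f p k R B u (some i)) = 0 :=
      Ideal.Quotient.eq_zero_iff_mem.mpr (Ideal.subset_span ⟨some i, rfl⟩)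
    simp only [rel2, map_sub, map_mul, map_pow] at h1
    exact sub_eq_zero.mp h1
  have h0 : Ideal.Quotient.mk J (rel2 f p k R B u none) = 0 :=
    Ideal.Quotient.eq_zero_iff_mem.mpr (Ideal.subset_span ⟨none, rfl⟩)
  simp only [rel2, map_add, map_mul, map_pow, map_sum] at h0
  rw [hDf]
  simp only [map_add, map_mul, map_pow, map_sum, rename_C, hy]
  have e1 : (Ideal.Quotient.mk J (C (p : ℤ))) ^ k =
      (Ideal.Quotient.mk J (C (p : ℤ))) ^ R * (Ideal.Quotient.mk J (C (p : ℤ))) ^ R *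
        (Ideal.Quotient.mk J (C (p : ℤ))) ^ (k - 2 * R) := by
    rw [← pow_add, ← pow_add]
    congr 1
    omega
  rw [e1]
  have e2 : (∑ i, ∑ j, Ideal.Quotient.mk J (rename Sum.inl (B i j)) *
      (Ideal.Quotient.mk J (C (p : ℤ)) ^ R * Ideal.Quotient.mk J (X (Sum.inr i))) *
      (Ideal.Quotient.mk J (C (p : ℤ)) ^ R * Ideal.Quotient.mk J (X (Sum.inr j)))) =
      (Ideal.Quotient.mk J (C (p : ℤ))) ^ R * (Ideal.Quotient.mk J (C (p : ℤ))) ^ R *
      ∑ i, ∑ j, Ideal.Quotient.mk J (rename Sum.inl (B i j)) *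
        Ideal.Quotient.mk J (X (Sum.inr i)) * Ideal.Quotient.mk J (X (Sum.inr j)) := by
    rw [Finset.mul_sum]
    refine Finset.sum_congr rfl fun i _ => ?_
    rw [Finset.mul_sum]
    refine Finset.sum_congr rfl fun j _ => ?_
    ring
  rw [e2]
  linear_combination ((Ideal.Quotient.mk J (C (p : ℤ))) ^ R *
    (Ideal.Quotient.mk J (C (p : ℤ))) ^ R) * h0

end aux

theorem regular_chart2 {σ K : Type} [Fintype σ] [DecidableEq σ] [Field K] [CharZero K]
    {f : MvPolynomial σ ℤ} {p : ℕ} (hp : p.Prime) {R : ℕ} {θ : MvPolynomial σ ℤ →+* K}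
    (hker : RingHom.ker θ = Ideal.span {f}) {g : Fin R → K} {O : Subring K} [IsLocalRing O]
    (hO : IsBlow f p θ g O) (hpO : (p : K)⁻¹ ∉ O)
    (hd : ∀ i, θ (pderiv i f) = 0 ∨ (θ (pderiv i f))⁻¹ ∉ O)
    (hH : θ (hess f).det ≠ 0 ∧ (θ (hess f).det)⁻¹ ∈ O)
    {k : ℕ} (hk : 1 ≤ k) (hkR : k ≤ 2 * R + 1) {D u : MvPolynomial σ ℤ}
    {B : Matrix σ σ (MvPolynomial σ ℤ)}
    (hD : θ D ≠ 0 ∧ (θ D)⁻¹ ∈ O) (hu : θ u ≠ 0 ∧ (θ u)⁻¹ ∈ O)
    (hDf : D * f = ∑ i, ∑ j, B i j * pderiv i f * pderiv j f + C (p : ℤ) ^ k * u)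
    (hB : 2 ≤ k → θ (B + B.transpose).det ≠ 0 ∧ (θ (B + B.transpose).det)⁻¹ ∈ O)
    {z : σ → K} (hz : ∀ i, z i ∈ O)
    (hy : ∀ i, θ (pderiv i f) = (p : K) ^ R * z i) : IsRegularLocalRing O := by
  have hp0 : (p : K) ≠ 0 := Nat.cast_ne_zero.mpr hp.ne_zero
  have hpow : ∀ j : ℕ, (p : K) ^ j ≠ 0 := fun j => pow_ne_zero j hp0
  have hθC : ∀ m : ℕ, θ (C (m : ℤ)) = (m : K) := by
    intro m
    have : (C (m : ℤ) : MvPolynomial σ ℤ) = (m : MvPolynomial σ ℤ) := by simp
    rw [this, map_natCast]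
  have hf0 : θ f = 0 := by
    rw [← RingHom.mem_ker, hker]
    exact Ideal.subset_span rfl
  -- the equation in the field
  have hfield : (p : K) ^ (2 * R) * (∑ i, ∑ j, θ (B i j) * z i * z j) + (p : K) ^ k * θ u = 0 := by
    have h1 := congrArg θ hDf
    rw [map_mul, hf0, mul_zero] at h1
    simp only [map_add, map_mul, map_pow, map_sum, hθC, hy] at h1
    rw [h1, Finset.mul_sum]
    congr 1
    refine Finset.sum_congr rfl fun i _ => ?_
    rw [Finset.mul_sum]
    refine Finset.sum_congr rfl fun j _ => ?_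
    rw [two_mul, pow_add]
    ring
  have hQO : (∑ i, ∑ j, θ (B i j) * z i * z j) ∈ O :=
    O.sum_mem fun i _ => O.sum_mem fun j _ => O.mul_mem (O.mul_mem (hO.poly _) (hz i)) (hz j)
  have hpO' : (p : K) ∈ O := natCast_mem O p
  have hk2 : 2 * R ≤ k := by
    by_contra hlt
    push Not at hlt
    apply hpO
    have e1 : (p : K) ^ (2 * R) = (p : K) ^ k * ((p : K) * (p : K) ^ (2 * R - k - 1)) := by
      rw [← pow_succ', ← pow_add]
      congr 1
      omega
    have h1 : (p : K) * ((p : K) ^ (2 * R - k - 1) * (∑ i, ∑ j, θ (B i j) * z i * z j)) =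
        - θ u := by
      have h2 : (p : K) ^ k * ((p : K) * ((p : K) ^ (2 * R - k - 1) *
          (∑ i, ∑ j, θ (B i j) * z i * z j)) + θ u) = 0 := by
        rw [e1] at hfield
        linear_combination hfield
      have h3 := (mul_eq_zero.mp h2).resolve_left (hpow k)
      linear_combination h3
    have h4 : (p : K)⁻¹ = -(θ u)⁻¹ * ((p : K) ^ (2 * R - k - 1) *
        (∑ i, ∑ j, θ (B i j) * z i * z j)) := by
      apply mul_left_cancel₀ hp0
      rw [mul_inv_cancel₀ hp0, ← inv_mul_cancel₀ hu.1]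
      linear_combination (θ u)⁻¹ * h1
    rw [h4]
    exact O.mul_mem (O.neg_mem hu.2) (O.mul_mem (O.pow_mem hpO' _) hQO)
  have hks : k = 2 * R ∨ k = 2 * R + 1 := by omega
  set π := CHART2_pi θ z with hπdef
  have hil : ∀ h, π (rename Sum.inl h) = θ h := CHART2_pi_il θ z
  have hir : ∀ i, π (X (Sum.inr i)) = z i := CHART2_pi_ir θ z
  have hC : ∀ m : ℕ, π (C (m : ℤ)) = (m : K) := CHART2_pi_C θ z
  have hπO : ∀ t, π t ∈ O := CHART2_pi_mem θ z O hO.poly hz
  have hrel : ∀ i, π (rel2 f p k R B u i) = 0 := by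
    rintro (_ | i)
    · simp only [rel2, map_add, map_mul, map_pow, map_sum, hil, hir, hC]
      have e1 : (p : K) ^ k = (p : K) ^ (2 * R) * (p : K) ^ (k - 2 * R) := by
        rw [← pow_add]
        congr 1
        omega
      rw [e1] at hfield
      have h2 : (p : K) ^ (2 * R) * ((∑ i, ∑ j, θ (B i j) * z i * z j) +
          θ u * (p : K) ^ (k - 2 * R)) = 0 := by linear_combination hfield
      exact (mul_eq_zero.mp h2).resolve_left (hpow _)
    · simp only [rel2, map_sub, map_mul, map_pow, hil, hir, hC, hy, sub_self]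
  refine regular_of_pres O π hπO ?_ (rel2 f p k R B u) hrel (rename Sum.inl D * C (p : ℤ)) ?_ ?_ ?_
  · -- fractions
    intro x hx
    have hle : O ≤ CHART2_F π O := by
      have hjF : ∀ j : Fin R, ∃ ε : MvPolynomial (V2 σ) ℤ, g j = (p : K) ^ ((j : ℕ) + 1) * π ε ∧
          π ε ≠ 0 ∧ (π ε)⁻¹ ∈ O := by
        intro j
        obtain ⟨c, e, h1⟩ := hO.gen j
        have hj : (j : ℕ) + 1 ≤ R := j.2
        have h2 : g j = (p : K) ^ ((j : ℕ) + 1) * π (rename Sum.inl c +
            C (p : ℤ) ^ (R - (j + 1)) * ∑ i, rename Sum.inl (e i) * X (Sum.inr i)) := by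
          have e1 : (p : K) ^ R = (p : K) ^ ((j : ℕ) + 1) * (p : K) ^ (R - (j + 1)) := by
            rw [← pow_add]
            congr 1
            omega
          rw [h1]
          simp only [map_add, map_mul, map_pow, map_sum, hθC, hy, hil, hir, hC, e1]
          rw [mul_add, mul_comm (θ c)]
          congr 1
          rw [← mul_assoc, Finset.mul_sum]
          refine Finset.sum_congr rfl fun i _ => ?_
          ring
        refine ⟨_, h2, ?_, ?_⟩
        · intro h3
          rw [h3, mul_zero] at h2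
          exact hO.ne j h2
        · have h3 := hO.left j
          rw [h2] at h3
          have h4 : (p : K) ^ ((j : ℕ) + 1) / ((p : K) ^ ((j : ℕ) + 1) * π (rename Sum.inl c +
            C (p : ℤ) ^ (R - (j + 1)) * ∑ i, rename Sum.inl (e i) * X (Sum.inr i))) =
            (π (rename Sum.inl c +
            C (p : ℤ) ^ (R - (j + 1)) * ∑ i, rename Sum.inl (e i) * X (Sum.inr i)))⁻¹ := by
            rw [div_mul_eq_div_div, div_self (hpow _), one_div]
          rwa [h4] at h3
      refine hO.min (CHART2_F π O) ?_ ?_ ?_ ?_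
      · intro h
        exact ⟨rename Sum.inl h, 1, by rw [map_one]; exact one_ne_zero,
          by rw [map_one, inv_one]; exact O.one_mem, by rw [map_one, mul_one, hil]⟩
      · intro j
        obtain ⟨ε, h1, h2, h3⟩ := hjF j
        refine ⟨1, ε, h2, h3, ?_⟩
        have h4 := hpow ((j : ℕ) + 1)
        rw [h1, map_one]
        field_simp
      · intro j i
        obtain ⟨ε, h1, h2, h3⟩ := hjF j
        refine ⟨C (p : ℤ) ^ (R - (j + 1)) * X (Sum.inr i), ε, h2, h3, ?_⟩
        have h4 := hpow ((j : ℕ) + 1)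
        have hj : (j : ℕ) + 1 ≤ R := j.2
        have e1 : (p : K) ^ R = (p : K) ^ ((j : ℕ) + 1) * (p : K) ^ (R - (j + 1)) := by
          rw [← pow_add]
          congr 1
          omega
        rw [h1, map_mul, map_pow, hC, hir, hy, e1]
        field_simp
      · exact fun x hx hxO => CHART2_F_inv π O x hx hxO
    exact hle hx
  · rw [map_mul, hil, hC]
    exact mul_ne_zero hD.1 hp0
  · -- torsion
    intro t ht
    obtain ⟨N, h, h1⟩ := CHART2_red (f := f) (p := p) (k := k) (R := R) (B := B) (u := u) t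
    have h2 : θ h = 0 := by
      have h3 : C (p : ℤ) ^ N * t - rename Sum.inl h ∈ RingHom.ker π := by
        refine (Ideal.span_le.mpr ?_ : Ideal.span (Set.range (rel2 f p k R B u)) ≤
          RingHom.ker π) h1
        rintro _ ⟨i, rfl⟩
        exact hrel i
      rw [RingHom.mem_ker, map_sub, map_mul, ht, mul_zero, hil, zero_sub, neg_eq_zero] at h3
      exact h3
    have h3 : h ∈ Ideal.span {f} := by rw [← hker]; exact h2
    obtain ⟨q, rfl⟩ := Ideal.mem_span_singleton'.mp h3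
    have h4 := CHART2_Df (R := R) hk2 hDf
    refine ⟨N + 1, ?_⟩
    have e1 : (rename Sum.inl D * C (p : ℤ)) ^ (N + 1) * t =
        (rename (Sum.inl : σ → V2 σ) D ^ (N + 1) * C (p : ℤ)) *
          (C (p : ℤ) ^ N * t - rename Sum.inl (q * f)) +
        (rename (Sum.inl : σ → V2 σ) D ^ N * C (p : ℤ) * rename Sum.inl q) *
          rename Sum.inl (D * f) := by
      simp only [map_mul]
      ring
    rw [e1]
    exact Ideal.add_mem _ (Ideal.mul_mem_left _ _ h1) (Ideal.mul_mem_left _ _ h4)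
  · -- independence
    intro P _ hP a ha
    refine ind2 f hp hk hks B u P ?_ ?_ ?_ ?_ ?_ ?_ a ha
    · rw [hP, hC]; exact Or.inr hpO
    · intro i
      rw [hP]; exact Or.inl (hrel i)
    · intro i
      rw [hP, hil]; exact hd i
    · rw [hP, hil]
      rintro (h1 | h1)
      · exact hH.1 h1
      · exact h1 hH.2
    · rw [hP, hil]
      rintro (h1 | h1)
      · exact hu.1 h1
      · exact h1 hu.2
    · intro h2
      rw [hP, hil]
      rintro (h1 | h1)
      · exact (hB h2).1 h1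
      · exact h1 (hB h2).2

end Pool.Agent.NH
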