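import Mathlib

set_option autoImplicit false

/-! # ALGDEP: algebraic dependence with a degree bound

`N + 1` polynomials of degree `≤ δ` in `N` variables are algebraically dependent, with a relation of degree bounded by
`D(N, δ)`. Proof: put `D' = (δ (N + 1) + 1) ^ N`. The `(D' + 1) ^ (N + 1)` monomials with all exponents `≤ D'` have images of degree
`≤ δ (N + 1) D'`, in a space of dimension `≤ (δ (N + 1) D' + 1) ^ N ≤ (δ (N + 1) + 1) ^ N (D' + 1) ^ N < (D' + 1) ^ (N + 1)`. So a nontrivial linear
combination is mapped to zero; its total degree is at most `(N + 1) D'`. -/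

namespace Pool.Agent.NH

open MvPolynomial

/-- the exponent vector of a bounded function -/
noncomputable def ALGDEP_exp {n B : ℕ} (s : Fin n → Fin (B + 1)) : Fin n →₀ ℕ :=
  Finsupp.equivFunOnFinite.symm (fun i => (s i : ℕ))

theorem ALGDEP_exp_apply {n B : ℕ} (s : Fin n → Fin (B + 1)) (i : Fin n) :
    ALGDEP_exp s i = (s i : ℕ) := rfl

theorem ALGDEP_exp_inj {n B : ℕ} : Function.Injective (ALGDEP_exp (n := n) (B := B)) := by
  intro s t h
  funext i
  apply Fin.ext
  rw [← ALGDEP_exp_apply s i, h, ALGDEP_exp_apply]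

theorem ALGDEP_deg {n m δ : ℕ} {k : Type} [Field k]
    (φ : MvPolynomial (Fin n) k →ₐ[k] MvPolynomial (Fin m) k)
    (hφ : ∀ i, (φ (X i)).totalDegree ≤ δ) (s : Fin n →₀ ℕ) :
    (φ (monomial s 1)).totalDegree ≤ δ * ∑ i, s i := by
  rw [monomial_eq, map_mul, Finsupp.prod_fintype _ _ (fun i => pow_zero _), map_prod]
  refine (totalDegree_mul _ _).trans ?_
  have h1 : (φ (C (1 : k))).totalDegree = 0 := by
    rw [C_1, map_one, totalDegree_one]
  rw [h1, Nat.zero_add]
  refine (totalDegree_finsetProd _ _).trans ?_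
  rw [Finset.mul_sum]
  refine Finset.sum_le_sum ?_
  intro i _
  rw [map_pow]
  refine (totalDegree_pow _ _).trans ?_
  rw [Nat.mul_comm]
  exact Nat.mul_le_mul_right _ (hφ i)

theorem exists_relation (N δ : ℕ) : ∃ D : ℕ, ∀ (k : Type) [Field k]
    (φ : MvPolynomial (Fin (N + 1)) k →ₐ[k] MvPolynomial (Fin N) k),
    (∀ i, (φ (X i)).totalDegree ≤ δ) →
      ∃ P : MvPolynomial (Fin (N + 1)) k, P ≠ 0 ∧ P.totalDegree ≤ D ∧ φ P = 0 := by
  classical
  let B := (δ * (N + 1) + 1) ^ N
  let M := δ * ((N + 1) * B)
  refine ⟨(N + 1) * B, ?_⟩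
  intro k _ φ hφ
  -- the linear map
  let src := (Fin (N + 1) → Fin (B + 1)) → k
  let tgt := (Fin N → Fin (M + 1)) → k
  let poly : src →ₗ[k] MvPolynomial (Fin (N + 1)) k :=
    ∑ s : Fin (N + 1) → Fin (B + 1),
      (LinearMap.proj s : src →ₗ[k] k).smulRight (monomial (ALGDEP_exp s) (1 : k))
  have hpoly : ∀ a : src, poly a = ∑ s, a s • monomial (ALGDEP_exp s) (1 : k) := by
    intro a
    simp only [poly, LinearMap.coe_sum, Finset.sum_apply, LinearMap.smulRight_apply]
    rfl
  let res : MvPolynomial (Fin N) k →ₗ[k] tgt :=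
    LinearMap.pi (fun t => lcoeff k (ALGDEP_exp t))
  let T : src →ₗ[k] tgt := res ∘ₗ φ.toLinearMap ∘ₗ poly
  have hdim : Module.finrank k tgt < Module.finrank k src := by
    rw [Module.finrank_fintype_fun_eq_card, Module.finrank_fintype_fun_eq_card, Fintype.card_fun,
      Fintype.card_fun, Fintype.card_fin, Fintype.card_fin, Fintype.card_fin, Fintype.card_fin]
    have h1 : M + 1 ≤ (δ * (N + 1) + 1) * (B + 1) := by
      have : M = δ * (N + 1) * B := by
        change δ * ((N + 1) * B) = _
        ring
      rw [this]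
      nlinarith [Nat.zero_le (δ * (N + 1)), Nat.zero_le B]
    calc (M + 1) ^ N ≤ ((δ * (N + 1) + 1) * (B + 1)) ^ N := Nat.pow_le_pow_left h1 N
      _ = B * (B + 1) ^ N := by rw [Nat.mul_pow]
      _ < (B + 1) * (B + 1) ^ N :=
          Nat.mul_lt_mul_of_pos_right (Nat.lt_succ_self B) (Nat.pow_pos (Nat.succ_pos B))
      _ = (B + 1) ^ (N + 1) := by rw [Nat.pow_succ, Nat.mul_comm]
  have hker := LinearMap.ker_ne_bot_of_finrank_lt (f := T) hdim
  obtain ⟨a, haT, ha0⟩ := Submodule.exists_mem_ne_zero_of_ne_bot hker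
  rw [LinearMap.mem_ker] at haT
  have hcoef : ∀ s : Fin (N + 1) → Fin (B + 1), coeff (ALGDEP_exp s) (poly a) = a s := by
    intro s
    rw [hpoly, coeff_sum]
    rw [Finset.sum_eq_single s]
    · rw [coeff_smul, coeff_monomial, if_pos rfl, smul_eq_mul, mul_one]
    · intro t _ hts
      rw [coeff_smul, coeff_monomial, if_neg (fun h => hts (ALGDEP_exp_inj h)), smul_zero]
    · intro h
      exact absurd (Finset.mem_univ s) h
  have hexp : ∀ s : Fin (N + 1) → Fin (B + 1), ∑ i, ALGDEP_exp s i ≤ (N + 1) * B := by
    intro s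
    calc ∑ i, ALGDEP_exp s i ≤ ∑ _i : Fin (N + 1), B := by
          refine Finset.sum_le_sum (fun i _ => ?_)
          rw [ALGDEP_exp_apply]
          exact Nat.lt_succ_iff.mp (s i).isLt
      _ = (N + 1) * B := by simp
  refine ⟨poly a, ?_, ?_, ?_⟩
  · intro h0
    apply ha0
    funext s
    rw [← hcoef s, h0, coeff_zero]
    rfl
  · rw [hpoly]
    refine totalDegree_finsetSum_le ?_
    intro s _
    refine (totalDegree_smul_le _ _).trans ?_
    refine (totalDegree_monomial_le _ _).trans ?_
    rw [Finsupp.sum_fintype _ _ (fun _ => rfl)]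
    exact hexp s
  · have hdeg : (φ (poly a)).totalDegree ≤ M := by
      rw [hpoly, map_sum]
      refine totalDegree_finsetSum_le ?_
      intro s _
      rw [map_smul]
      refine (totalDegree_smul_le _ _).trans ?_
      refine (ALGDEP_deg φ hφ _).trans ?_
      exact Nat.mul_le_mul_left _ (hexp s)
    ext t
    rw [coeff_zero]
    by_cases ht : t ∈ (φ (poly a)).support
    · have h1 : ∀ i, t i < M + 1 := by
        intro i
        have h2 := le_totalDegree ht
        rw [Finsupp.sum_fintype _ _ (fun _ => rfl)] at h2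
        have h3 : t i ≤ ∑ j, t j := Finset.single_le_sum (fun _ _ => Nat.zero_le _) (Finset.mem_univ i)
        omega
      have h4 : t = ALGDEP_exp (fun i => (⟨t i, h1 i⟩ : Fin (M + 1))) := by
        ext i
        rfl
      have h5 := congrFun haT (fun i => (⟨t i, h1 i⟩ : Fin (M + 1)))
      rw [h4]
      exact h5
    · exact notMem_support_iff.mp ht

/-- The same with arbitrary finite index types, and with a relation which is not divisible by the distinguished variable
(`none`) if the image of this variable is not zero: the polynomial `c` obtained by putting it equal to zero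
is nonzero, and `c` lies in the kernel modulo the image `h` of that variable: at every point where `h` vanishes, `c`
vanishes on the images. -/
theorem exists_elim (N δ : ℕ) : ∃ D : ℕ, ∀ (k V W : Type) [Field k] [Fintype V] [Fintype W]
    (_hV : Fintype.card V = N) (_hW : Fintype.card W = N) (φ : V → MvPolynomial W k)
    (h : MvPolynomial W k), (∀ i, (φ i).totalDegree ≤ δ) → h.totalDegree ≤ δ → h ≠ 0 →
      ∃ c : MvPolynomial V k, c ≠ 0 ∧ c.totalDegree ≤ D ∧
        ∃ q : MvPolynomial W k, aeval φ c = q * h := by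
  classical
  obtain ⟨D, hD⟩ := exists_relation N δ
  refine ⟨D, ?_⟩
  intro k V W _ _ _ hV hW φ h hφ hh h0
  -- the index equivalences
  have hcV : Fintype.card (Option V) = N + 1 := by rw [Fintype.card_option, hV]
  let e : Option V ≃ Fin (N + 1) := Fintype.equivFinOfCardEq hcV
  let f : W ≃ Fin N := Fintype.equivFinOfCardEq hW
  let ψ : Option V → MvPolynomial W k := fun o => o.elim h φ
  have hψ : ∀ o, (ψ o).totalDegree ≤ δ := by
    intro o
    cases o with
    | none => exact hh
    | some v => exact hφ v
  let Φ : MvPolynomial (Fin (N + 1)) k →ₐ[k] MvPolynomial (Fin N) k :=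
    aeval (fun i => rename f (ψ (e.symm i)))
  obtain ⟨P, hP0, hPD, hPΦ⟩ := hD k Φ (by
    intro i
    change (aeval (fun i => rename f (ψ (e.symm i))) (X i)).totalDegree ≤ δ
    rw [aeval_X]
    exact (totalDegree_rename_le _ _).trans (hψ _))
  -- pull back
  let Q : MvPolynomial (Option V) k := rename e.symm P
  have hQ0 : Q ≠ 0 := by
    intro hq
    apply hP0
    apply rename_injective e.symm e.symm.injective
    rw [map_zero]
    exact hq
  have hQD : Q.totalDegree ≤ D := (totalDegree_rename_le _ _).trans hPD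
  have hQψ : aeval ψ Q = 0 := by
    have h1 : rename f (aeval ψ Q) = 0 := by
      rw [← hPΦ]
      change rename f (aeval ψ (rename e.symm P)) = aeval (fun i => rename f (ψ (e.symm i))) P
      rw [aeval_rename]
      have h2 : (rename f).comp (aeval (ψ ∘ e.symm)) =
          (aeval (fun i => rename f (ψ (e.symm i))) :
            MvPolynomial (Fin (N + 1)) k →ₐ[k] MvPolynomial (Fin N) k) := by
        apply algHom_ext
        intro i
        simp
      rw [← h2]
      rfl
    apply rename_injective f f.injective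
    rw [map_zero]
    exact h1
  -- polynomials in the distinguished variable
  let R : Polynomial (MvPolynomial V k) := optionEquivLeft k V Q
  have hR0 : R ≠ 0 := by
    intro hr
    apply hQ0
    apply (optionEquivLeft k V).injective
    rw [map_zero]
    exact hr
  let Ψ : Polynomial (MvPolynomial V k) →+* MvPolynomial W k :=
    Polynomial.eval₂RingHom (aeval φ).toRingHom h
  have hΨR : Ψ R = 0 := by
    rw [← hQψ]
    have h2 : Ψ.comp (optionEquivLeft k V).toAlgHom.toRingHom =
        (aeval ψ : MvPolynomial (Option V) k →ₐ[k] MvPolynomial W k).toRingHom := by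
      apply ringHom_ext
      · intro r
        simp [Ψ]
      · intro o
        cases o with
        | none => simp [Ψ, ψ]
        | some v => simp [Ψ, ψ]
    exact congrArg (fun g => g Q) h2
  -- remove the powers of the distinguished variable
  set m := R.natTrailingDegree with hm
  have hdvd : (Polynomial.X : Polynomial (MvPolynomial V k)) ^ m ∣ R := by
    rw [Polynomial.X_pow_dvd_iff]
    intro d hd
    exact Polynomial.coeff_eq_zero_of_lt_natTrailingDegree hd
  obtain ⟨S, hS⟩ := hdvd
  have hS0 : S.coeff 0 = R.coeff m := by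
    rw [hS, Polynomial.coeff_X_pow_mul']
    simp
  have hcm : R.coeff m ≠ 0 := by
    have := Polynomial.trailingCoeff_nonzero_iff_nonzero.mpr hR0
    exact this
  have hΨS : Ψ S = 0 := by
    have h1 : h ^ m * Ψ S = 0 := by
      rw [← hΨR, hS, map_mul, map_pow]
      congr 2
      simp [Ψ]
    rcases mul_eq_zero.mp h1 with h2 | h2
    · exact absurd h2 (pow_ne_zero m h0)
    · exact h2
  refine ⟨R.coeff m, hcm, ?_, -(Ψ S.divX), ?_⟩
  · exact (totalDegree_coeff_optionEquivLeft_le k V Q m).trans hQD
  · have h1 : S = S.divX * Polynomial.X + Polynomial.C (S.coeff 0) :=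
      (Polynomial.divX_mul_X_add S).symm
    have h2 : Ψ S = Ψ S.divX * h + aeval φ (S.coeff 0) := by
      conv_lhs => rw [h1]
      rw [map_add, map_mul]
      simp [Ψ]
    rw [hΨS, hS0] at h2
    rw [neg_mul]
    exact (neg_eq_of_add_eq_zero_right h2.symm).symm

end Pool.Agent.NH
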