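import Pool.Agent.NodHyp.ElimA
import Pool.Agent.NodHyp.AlgDep

set_option autoImplicit false

/-! # ELIMB: the condition on the coefficients for a degenerate critical point

`elim_univ` and `exists_elim`. For `elim_field` specialise the variables `Um` to `u` in `φ` and `h` (total degrees do not grow),
`N = card (Vm n d m)`: `exists_elim` gives `c` and `q` with `aeval φ c = q h`; evaluate at the singular point. For
`elim_int` use the variables `Um ⊕ Vm` and `Um ⊕ (V' ⊕ ..)` over `ℚ`, `φ` extended by the variables on `Um` (`h ≠ 0` over `ℚ`, from the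
third property with `k = ℚ`), and clear denominators (`c ∈ ℤ[U ⊕ V]`, `c ≠ 0`, `aeval φ c = q h` with `q` integral after
multiplication by an integer). -/

namespace Pool.Agent.NH

open MvPolynomial

namespace ElimBAux

/-- specialisation of some variables to constants does not increase the total degree -/
theorem totalDegree_spec {k Z W : Type} [Field k] (u : Z → k) (p : MvPolynomial (Z ⊕ W) ℤ) :
    (aeval (Sum.elim (fun α => (C (u α) : MvPolynomial W k)) X) p).totalDegree ≤
      p.totalDegree := by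
  classical
  have h1 : aeval (Sum.elim (fun α => (C (u α) : MvPolynomial W k)) X) p =
      ∑ β ∈ p.support, aeval (Sum.elim (fun α => (C (u α) : MvPolynomial W k)) X)
        (monomial β (coeff β p)) := by
    conv_lhs => rw [p.as_sum]
    rw [map_sum]
  rw [h1]
  apply totalDegree_finsetSum_le
  intro β hβ
  refine le_trans ?_ (le_totalDegree hβ)
  rw [aeval_monomial]
  refine le_trans (totalDegree_mul _ _) ?_
  have h2 : (algebraMap ℤ (MvPolynomial W k) (coeff β p)).totalDegree = 0 := by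
    have : algebraMap ℤ (MvPolynomial W k) (coeff β p) = C ((coeff β p : ℤ) : k) := by simp
    rw [this, totalDegree_C]
  rw [h2, zero_add, Finsupp.prod, Finsupp.sum]
  refine le_trans (totalDegree_finsetProd _ _) ?_
  apply Finset.sum_le_sum
  intro i _
  refine le_trans (totalDegree_pow _ _) ?_
  have h3 : (Sum.elim (fun α => (C (u α) : MvPolynomial W k)) X i).totalDegree ≤ 1 := by
    rcases i with i | i
    · rw [Sum.elim_inl, totalDegree_C]; exact Nat.zero_le _
    · rw [Sum.elim_inr, totalDegree_X]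
  calc β i * (Sum.elim (fun α => (C (u α) : MvPolynomial W k)) X i).totalDegree ≤ β i * 1 :=
        Nat.mul_le_mul_left _ h3
    _ = β i := mul_one _

/-- clearing denominators -/
theorem clear_den {W : Type} (p : MvPolynomial W ℚ) : ∃ M : ℤ, M ≠ 0 ∧
    ∃ p' : MvPolynomial W ℤ, map (Int.castRingHom ℚ) p' = C (M : ℚ) * p := by
  induction p using MvPolynomial.induction_on with
  | C a =>
    refine ⟨a.den, by exact_mod_cast a.den_ne_zero, C a.num, ?_⟩
    rw [map_C, ← C_mul]
    congr 1
    rw [eq_intCast, Int.cast_natCast, mul_comm]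
    exact (Rat.mul_den_eq_num a).symm
  | add p q hp hq =>
    obtain ⟨M1, h1, p', hp'⟩ := hp
    obtain ⟨M2, h2, q', hq'⟩ := hq
    refine ⟨M1 * M2, mul_ne_zero h1 h2, C M2 * p' + C M1 * q', ?_⟩
    rw [map_add, map_mul, map_mul, hp', hq', map_C, map_C]
    simp only [eq_intCast, Int.cast_mul, C_mul]
    ring
  | mul_X p i hp =>
    obtain ⟨M1, h1, p', hp'⟩ := hp
    refine ⟨M1, h1, p' * X i, ?_⟩
    rw [map_mul, hp', map_X]
    ring

end ElimBAux

open ElimBAux

theorem elim_field (n d : ℕ) (hd : 3 ≤ d) (m : Fin (n + 1)) : ∃ D : ℕ,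
    ∀ (k : Type) [Field k], (2 : k) ≠ 0 → ∀ u : Um n d m → k,
      ∃ c : MvPolynomial (Vm n d m) k, c ≠ 0 ∧ c.totalDegree ≤ D ∧
        ∀ (L : Type) [Field L] [Algebra k L] (v : Vm n d m → k) (a : k) (x : Fin (n + 1) → L),
          x m = 1 → Sing (FF m u v a) x → hdet m (FF m u v a) x = 0 → eval v c = 0 := by
  classical
  obtain ⟨V', _, δ, φ, h, hcard, hφ, hh, hne, hval⟩ := elim_univ n d hd m
  obtain ⟨D, hD⟩ := exists_elim (Fintype.card (Vm n d m)) δ
  refine ⟨D, ?_⟩
  intro k _ h2 u
  have hW : Fintype.card (V' ⊕ {i : Fin (n + 1) // i ≠ m}) = Fintype.card (Vm n d m) := by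
    rw [Fintype.card_sum, ← hcard]
    simp
  obtain ⟨c, hc0, hcD, q, hq⟩ := hD k (Vm n d m) (V' ⊕ {i : Fin (n + 1) // i ≠ m}) rfl hW
    (fun α => aeval (Sum.elim (fun α => (C (u α) : MvPolynomial _ k)) X) (φ α))
    (aeval (Sum.elim (fun α => (C (u α) : MvPolynomial _ k)) X) h)
    (fun α => le_trans (totalDegree_spec u (φ α)) (hφ α))
    (le_trans (totalDegree_spec u h) hh) (hne k h2 u)
  refine ⟨c, hc0, hcD, ?_⟩
  intro L _ _ v a x hx hS hdt
  obtain ⟨v', hv', hv2⟩ := hval k L u v a x hx hS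
  have key : ∀ p : MvPolynomial (Um n d m ⊕ (V' ⊕ {i : Fin (n + 1) // i ≠ m})) ℤ,
      aeval (Sum.elim v' (fun i : {i : Fin (n + 1) // i ≠ m} => x i.1))
        (aeval (Sum.elim (fun α => (C (u α) : MvPolynomial _ k)) X) p) =
      aeval (Sum.elim (fun β => algebraMap k L (u β)) (Sum.elim v' (fun i => x i.1))) p := by
    intro p
    have hcomp : ((aeval (Sum.elim v' (fun i : {i : Fin (n + 1) // i ≠ m} => x i.1)) :
        MvPolynomial (V' ⊕ {i : Fin (n + 1) // i ≠ m}) k →ₐ[k] L).toRingHom.comp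
        (aeval (R := ℤ) (Sum.elim (fun α => (C (u α) : MvPolynomial _ k)) X)).toRingHom) =
        (aeval (R := ℤ) (Sum.elim (fun β => algebraMap k L (u β))
          (Sum.elim v' (fun i => x i.1)))).toRingHom := by
      apply MvPolynomial.ringHom_ext
      · intro r
        simp
      · intro i
        rcases i with i | i
        · simp
        · simp
    exact DFunLike.congr_fun hcomp p
  apply (algebraMap k L).injective
  rw [map_zero]
  have h3 : algebraMap k L (eval v c) = aeval (fun α => algebraMap k L (v α)) c := by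
    have e : aeval v c = eval v c := by
      rw [← coe_aeval_eq_eval]
      rfl
    rw [← e]
    exact (aeval_algebraMap_apply L v c).symm
  rw [h3]
  have h4 : (fun α => algebraMap k L (v α)) = fun α =>
      aeval (Sum.elim v' (fun i : {i : Fin (n + 1) // i ≠ m} => x i.1))
        (aeval (Sum.elim (fun α => (C (u α) : MvPolynomial _ k)) X) (φ α)) := by
    funext α
    rw [key, hv']
  rw [h4]
  have h5 := congrArg (aeval (Sum.elim v' (fun i : {i : Fin (n + 1) // i ≠ m} => x i.1))) hq
  rw [map_mul, key h, hv2, hdt, mul_zero] at h5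
  rw [← h5]
  exact (MvPolynomial.comp_aeval_apply _ _ _).symm

theorem elim_int (n d : ℕ) (hd : 3 ≤ d) (m : Fin (n + 1)) :
    ∃ Δ : MvPolynomial (Um n d m ⊕ Vm n d m) ℤ, Δ ≠ 0 ∧
      ∀ (L : Type) [Field L] (u : Um n d m → ℤ) (v : Vm n d m → ℤ) (a : ℤ)
        (x : Fin (n + 1) → L), x m = 1 → Sing (FF m u v a) x → hdet m (FF m u v a) x = 0 →
          ((eval (Sum.elim u v) Δ : ℤ) : L) = 0 := by
  classical
  obtain ⟨V', _, δ, φ, h, hcard, hφ, hh, hne, hval⟩ := elim_univ n d hd m
  have h0 : h ≠ 0 := by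
    intro h0
    have := hne ℚ two_ne_zero (fun _ => 0)
    rw [h0, map_zero] at this
    exact this rfl
  obtain ⟨D, hD⟩ := exists_elim (Fintype.card (Um n d m ⊕ Vm n d m)) (δ + 1)
  have hW : Fintype.card (Um n d m ⊕ (V' ⊕ {i : Fin (n + 1) // i ≠ m})) =
      Fintype.card (Um n d m ⊕ Vm n d m) := by
    rw [Fintype.card_sum, Fintype.card_sum, Fintype.card_sum, ← hcard]
    simp
  have hmapdeg : ∀ p : MvPolynomial (Um n d m ⊕ (V' ⊕ {i : Fin (n + 1) // i ≠ m})) ℤ,
      (map (Int.castRingHom ℚ) p).totalDegree ≤ p.totalDegree := fun p =>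
    Finset.sup_mono (support_map_subset _ _)
  obtain ⟨φZ, hφZ⟩ : ∃ φZ : Um n d m ⊕ Vm n d m →
      MvPolynomial (Um n d m ⊕ (V' ⊕ {i : Fin (n + 1) // i ≠ m})) ℤ,
      φZ = Sum.elim (fun β => X (Sum.inl β)) φ := ⟨_, rfl⟩
  have hinj : Function.Injective (map (Int.castRingHom ℚ) :
      MvPolynomial (Um n d m ⊕ (V' ⊕ {i : Fin (n + 1) // i ≠ m})) ℤ →+* _) :=
    map_injective _ (RingHom.injective_int _)
  obtain ⟨c, hc0, hcD, q, hq⟩ := hD ℚ (Um n d m ⊕ Vm n d m)
    (Um n d m ⊕ (V' ⊕ {i : Fin (n + 1) // i ≠ m})) rfl hW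
    (fun i => map (Int.castRingHom ℚ) (φZ i)) (map (Int.castRingHom ℚ) h) (by
      intro i
      refine le_trans (hmapdeg _) ?_
      rw [hφZ]
      rcases i with i | i
      · rw [Sum.elim_inl, totalDegree_X]; omega
      · rw [Sum.elim_inr]
        exact le_trans (hφ i) (Nat.le_succ _))
    (le_trans (hmapdeg _) (le_trans hh (Nat.le_succ _))) (by
      intro h1
      rw [map_eq_zero_iff _ hinj] at h1
      exact h0 h1)
  obtain ⟨M, hM, c', hc'⟩ := clear_den c
  obtain ⟨M2, hM2, q', hq'⟩ := clear_den q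
  have hcomm : ∀ p : MvPolynomial (Um n d m ⊕ Vm n d m) ℤ,
      map (Int.castRingHom ℚ) (aeval φZ p) =
        aeval (fun i => map (Int.castRingHom ℚ) (φZ i)) (map (Int.castRingHom ℚ) p) := by
    intro p
    have hcomp : (map (Int.castRingHom ℚ)).comp (aeval (R := ℤ) φZ).toRingHom =
        ((aeval (R := ℚ) (fun i => map (Int.castRingHom ℚ) (φZ i))).toRingHom.comp
          (map (Int.castRingHom ℚ))) := by
      apply MvPolynomial.ringHom_ext
      · intro r
        simp
      · intro i
        simp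
    exact DFunLike.congr_fun hcomp p
  have hΔ : aeval φZ (C M2 * c') = C M * q' * h := by
    apply hinj
    rw [hcomm, map_mul, map_mul, map_mul, map_mul, hc', hq', map_mul, hq, map_C, map_C]
    simp only [eq_intCast, aeval_C]
    have e1 : (algebraMap ℚ (MvPolynomial (Um n d m ⊕ (V' ⊕ {i : Fin (n + 1) // i ≠ m})) ℚ)) =
      C := rfl
    rw [e1]
    ring
  refine ⟨C M2 * c', ?_, ?_⟩
  · apply mul_ne_zero
    · rw [Ne, C_eq_zero]; exact hM2
    · rintro rfl
      rw [map_zero] at hc'
      have h1 : (C (M : ℚ) : MvPolynomial (Um n d m ⊕ Vm n d m) ℚ) ≠ 0 := by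
        rw [Ne, C_eq_zero]; exact_mod_cast hM
      exact mul_ne_zero h1 hc0 hc'.symm
  · intro L _ u v a x hx hS hdt
    obtain ⟨v', hv', hv2⟩ := hval ℤ L u v a x hx hS
    have h3 : ((eval (Sum.elim u v) (C M2 * c') : ℤ) : L) =
        aeval (fun i => ((Sum.elim u v i : ℤ) : L)) (C M2 * c') := by
      have e : aeval (Sum.elim u v) (C M2 * c') = eval (Sum.elim u v) (C M2 * c') := by
        rw [← coe_aeval_eq_eval]
        rfl
      rw [← e]
      exact (aeval_algebraMap_apply L (Sum.elim u v) (C M2 * c')).symm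
    have h4 : (fun i => ((Sum.elim u v i : ℤ) : L)) = fun i =>
        aeval (Sum.elim (fun β => algebraMap ℤ L (u β)) (Sum.elim v' (fun i => x i.1)))
          (φZ i) := by
      funext i
      rw [hφZ]
      rcases i with i | i
      · rw [Sum.elim_inl, Sum.elim_inl, aeval_X, Sum.elim_inl]
        rfl
      · rw [Sum.elim_inr, Sum.elim_inr, hv']
        rfl
    rw [h3, h4, ← comp_aeval_apply, hΔ, map_mul, hv2, hdt, mul_zero]

end Pool.Agent.NH
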