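import Pool.Agent.NodHyp.FDefs

set_option autoImplicit false

/-! # FORMSB: elementary facts on `toF` and `FF` -/

namespace Pool.Agent.NH

open MvPolynomial

namespace FormsBAux

lemma mem_mon {n d : ℕ} (α : Fin (n + 1) →₀ ℕ) :
    α ∈ Finset.finsuppAntidiag (Finset.univ : Finset (Fin (n + 1))) d ↔ α.degree = d := by
  rw [Finset.mem_finsuppAntidiag, Finsupp.degree_eq_sum]
  simp

lemma deg {n d : ℕ} (α : Mon n d) : α.1.degree = d := (mem_mon α.1).1 α.2

end FormsBAux

open FormsBAux

theorem toF_isHomogeneous {R : Type} [CommRing R] {n d : ℕ} (c : Mon n d → R) :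
    (toF c).IsHomogeneous d := by
  apply IsHomogeneous.sum
  intro α _
  exact isHomogeneous_monomial _ (deg α)

theorem coeff_toF {R : Type} [CommRing R] {n d : ℕ} (c : Mon n d → R) (α : Mon n d) :
    coeff α.1 (toF c) = c α := by
  classical
  rw [toF, coeff_sum]
  simp only [coeff_monomial, ← Subtype.ext_iff]
  simp

theorem exists_toF {R : Type} [CommRing R] {n d : ℕ} {F : MvPolynomial (Fin (n + 1)) R}
    (hF : F.IsHomogeneous d) : ∃ c : Mon n d → R, toF c = F := by
  refine ⟨fun α => coeff α.1 F, ?_⟩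
  ext β
  by_cases h : β.degree = d
  · exact coeff_toF _ (⟨β, (mem_mon β).2 h⟩ : Mon n d)
  · rw [(toF_isHomogeneous _).coeff_eq_zero h, hF.coeff_eq_zero h]

theorem toF_injective {R : Type} [CommRing R] {n d : ℕ} :
    Function.Injective (toF : (Mon n d → R) → MvPolynomial (Fin (n + 1)) R) := by
  intro c c' h
  funext α
  rw [← coeff_toF c α, ← coeff_toF c' α, h]

theorem map_toF {R S : Type} [CommRing R] [CommRing S] (φ : R →+* S) {n d : ℕ}
    (c : Mon n d → R) : map φ (toF c) = toF (fun α => φ (c α)) := by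
  simp [toF, map_sum, map_monomial]

theorem map_FF {R S : Type} [CommRing R] [CommRing S] (φ : R →+* S) {n d : ℕ}
    (m : Fin (n + 1)) (u : Um n d m → R) (v : Vm n d m → R) (a : R) :
    map φ (FF m u v a) = FF m (fun α => φ (u α)) (fun α => φ (v α)) (φ a) := by
  simp [FF, map_sum, map_monomial]

/-- the exponent `d e_m` -/
theorem single_mem (n d : ℕ) (m : Fin (n + 1)) :
    Finsupp.single m d ∈ Finset.finsuppAntidiag (Finset.univ : Finset (Fin (n + 1))) d := by
  rw [mem_mon]
  simp

namespace FormsBAux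

lemma eq_single {n d : ℕ} (α : Mon n d) (m : Fin (n + 1)) (h : α.1 m = d) :
    α = ⟨Finsupp.single m d, single_mem n d m⟩ := by
  apply Subtype.ext
  have h1 := deg α
  rw [Finsupp.degree_eq_sum] at h1
  rw [← Finset.add_sum_erase _ _ (Finset.mem_univ m), h] at h1
  have h2 : ∑ x ∈ Finset.univ.erase m, α.1 x = 0 := by omega
  ext i
  by_cases hi : i = m
  · subst hi
    simp [h]
  · rw [Finset.sum_eq_zero_iff] at h2
    rw [h2 i (by simp [hi]), Finsupp.single_eq_of_ne hi]

/-- the decomposition of the set of exponents -/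
noncomputable def dec (n d : ℕ) (m : Fin (n + 1)) : Um n d m ⊕ (Vm n d m ⊕ Unit) → Mon n d :=
  Sum.elim (fun α => α.1) (Sum.elim (fun α => α.1)
    (fun _ => ⟨Finsupp.single m d, single_mem n d m⟩))

lemma dec_bij (n d : ℕ) (m : Fin (n + 1)) (hd : 1 ≤ d) : Function.Bijective (dec n d m) := by
  constructor
  · rintro (⟨α, ha⟩ | ⟨α, ha⟩ | _) (⟨β, hb⟩ | ⟨β, hb⟩ | _) h
    · simp only [dec, Sum.elim_inl] at h
      subst h
      rfl
    · simp only [dec, Sum.elim_inl, Sum.elim_inr] at h
      subst h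
      exact absurd ha hb.1
    · simp only [dec, Sum.elim_inl, Sum.elim_inr] at h
      subst h
      simp at ha
      omega
    · simp only [dec, Sum.elim_inl, Sum.elim_inr] at h
      subst h
      exact absurd hb ha.1
    · simp only [dec, Sum.elim_inl, Sum.elim_inr] at h
      subst h
      rfl
    · simp only [dec, Sum.elim_inl, Sum.elim_inr] at h
      subst h
      simp at ha
    · simp only [dec, Sum.elim_inl, Sum.elim_inr] at h
      subst h
      simp at hb
      omega
    · simp only [dec, Sum.elim_inl, Sum.elim_inr] at h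
      subst h
      simp at hb
    · rfl
  · intro α
    by_cases h0 : α.1 m = 0
    · exact ⟨Sum.inl ⟨α, h0⟩, rfl⟩
    · by_cases h1 : α.1 m = d
      · exact ⟨Sum.inr (Sum.inr ()), (eq_single α m h1).symm⟩
      · exact ⟨Sum.inr (Sum.inl ⟨α, h0, h1⟩), rfl⟩

end FormsBAux

theorem toF_eq_FF {R : Type} [CommRing R] {n d : ℕ} (m : Fin (n + 1)) (hd : 1 ≤ d)
    (c : Mon n d → R) : toF c = FF m (fun α => c α.1) (fun α => c α.1)
      (c ⟨Finsupp.single m d, single_mem n d m⟩) := by
  have h := (Equiv.ofBijective _ (dec_bij n d m hd)).sum_comp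
    (fun α => monomial α.1 (c α) : Mon n d → MvPolynomial (Fin (n + 1)) R)
  rw [toF, ← h, Fintype.sum_sum_type, Fintype.sum_sum_type]
  simp only [Equiv.ofBijective_apply, dec, Sum.elim_inl, Sum.elim_inr, FF, Finset.univ_unique,
    Finset.sum_singleton, add_assoc]

/-- the index sets -/
theorem exists_equiv (n d : ℕ) (m : Fin (n + 1)) (hd : 1 ≤ d) (L : ℕ) :
    ∃ e : (Mon n d → Fin L) ≃ (Um n d m → Fin L) × (Vm n d m → Fin L) × Fin L,
      ∀ x, (∀ α, (e x).1 α = x α.1) ∧ (∀ α, (e x).2.1 α = x α.1) ∧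
        (e x).2.2 = x ⟨Finsupp.single m d, single_mem n d m⟩ := by
  refine ⟨(Equiv.arrowCongr (Equiv.ofBijective _ (dec_bij n d m hd)).symm
    (Equiv.refl (Fin L))).trans ((Equiv.sumArrowEquivProdArrow _ _ _).trans
    (Equiv.prodCongr (Equiv.refl _) ((Equiv.sumArrowEquivProdArrow _ _ _).trans
    (Equiv.prodCongr (Equiv.refl _) (Equiv.funUnique Unit (Fin L)))))), fun x => ⟨?_, ?_, ?_⟩⟩
  · intro α
    rfl
  · intro α
    rfl
  · rfl

theorem card_mon (n d : ℕ) (m : Fin (n + 1)) (hd : 1 ≤ d) :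
    Fintype.card (Mon n d) = Fintype.card (Um n d m) + Fintype.card (Vm n d m) + 1 := by
  have h := Fintype.card_congr (Equiv.ofBijective _ (dec_bij n d m hd))
  rw [← h, Fintype.card_sum, Fintype.card_sum, Fintype.card_unit, add_assoc]

end Pool.Agent.NH
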