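import Pool.Agent.NodHyp.FDefs

set_option autoImplicit false

/-! # FORMSC: change of rings, scaling, congruences -/

namespace Pool.Agent.NH

open MvPolynomial

namespace FormsCAux

lemma aeval_map {R S L : Type} [CommRing R] [CommRing S] [CommRing L] [Algebra R L]
    [Algebra S L] (φ : R →+* S) (hφ : ∀ r, algebraMap S L (φ r) = algebraMap R L r) {σ : Type}
    (F : MvPolynomial σ R) (x : σ → L) : aeval x (map φ F) = aeval x F := by
  rw [aeval_def, aeval_def, eval₂_map]
  congr 1
  exact RingHom.ext hφ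

lemma aeval_scale {R L : Type} [CommRing R] [CommRing L] [Algebra R L] {σ : Type}
    {F : MvPolynomial σ R} {d : ℕ} (hF : F.IsHomogeneous d) (c : L) (x : σ → L) :
    aeval (fun i => c * x i) F = c ^ d * aeval x F := by
  classical
  rw [aeval_def, aeval_def, eval₂_eq, eval₂_eq, Finset.mul_sum]
  refine Finset.sum_congr rfl fun α hα => ?_
  have h1 : α.degree = d := by
    by_contra h
    exact (mem_support_iff.1 hα) (hF.coeff_eq_zero h)
  have h2 : (∏ i ∈ α.support, (c * x i) ^ α i) = c ^ d * ∏ i ∈ α.support, x i ^ α i := by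
    simp only [mul_pow]
    rw [Finset.prod_mul_distrib, Finset.prod_pow_eq_pow_sum, ← h1]
    rfl
  rw [h2]
  ring

lemma sing_scale {R L : Type} [CommRing R] [CommRing L] [Algebra R L] {n d : ℕ}
    {F : MvPolynomial (Fin (n + 1)) R} (hF : F.IsHomogeneous d) (c : L) (x : Fin (n + 1) → L)
    (h : Sing F x) : Sing F (fun i => c * x i) := by
  refine ⟨?_, fun i => ?_⟩
  · rw [aeval_scale hF, h.1, mul_zero]
  · rw [aeval_scale hF.pderiv, h.2 i, mul_zero]

lemma hdet_scale {R L : Type} [CommRing R] [CommRing L] [Algebra R L] {n d : ℕ}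
    {F : MvPolynomial (Fin (n + 1)) R} (hF : F.IsHomogeneous d) (c : L) (x : Fin (n + 1) → L)
    (m : Fin (n + 1)) (h : hdet m F x = 0) : hdet m F (fun i => c * x i) = 0 := by
  have h1 : (Matrix.of fun a b : {i : Fin (n + 1) // i ≠ m} =>
      aeval (fun i => c * x i) (pderiv a.1 (pderiv b.1 F))) =
      c ^ (d - 1 - 1) • (Matrix.of fun a b : {i : Fin (n + 1) // i ≠ m} =>
      aeval x (pderiv a.1 (pderiv b.1 F))) := by
    ext a b
    simp only [Matrix.of_apply, Matrix.smul_apply, smul_eq_mul]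
    exact aeval_scale hF.pderiv.pderiv c x
  rw [hdet] at h ⊢
  rw [h1, Matrix.det_smul, h, mul_zero]

end FormsCAux

open FormsCAux

/-- Change of the ring of coefficients. -/
theorem sing_map {R S L : Type} [CommRing R] [CommRing S] [CommRing L] [Algebra R L]
    [Algebra S L] (φ : R →+* S) (hφ : ∀ r, algebraMap S L (φ r) = algebraMap R L r) {n : ℕ}
    (F : MvPolynomial (Fin (n + 1)) R) (x : Fin (n + 1) → L) (m : Fin (n + 1)) :
    (Sing (map φ F) x ↔ Sing F x) ∧ hdet m (map φ F) x = hdet m F x := by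
  constructor
  · unfold Sing
    simp only [pderiv_map, aeval_map φ hφ]
  · unfold hdet
    simp only [pderiv_map, aeval_map φ hφ]

/-- It is enough to test the points with `x_m = 1` (scale the point; `F` and its derivatives are homogeneous). -/
theorem nodalAt_iff {n d : ℕ} {F : MvPolynomial (Fin (n + 1)) ℤ} (hF : F.IsHomogeneous d)
    {p : ℕ} (hp : p.Prime) : NodalAt F p ↔ ∀ (m : Fin (n + 1)) (L : Type) [Field L] [CharP L p]
      (x : Fin (n + 1) → L), x m = 1 → Sing F x → hdet m F x ≠ 0 := by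
  constructor
  · intro h m L _ _ x hx hs
    exact h L x m (by rw [hx]; exact one_ne_zero) hs.1 hs.2
  · intro h L _ _ x m hx h0 h1 h2
    refine h m L (fun i => (x m)⁻¹ * x i) (inv_mul_cancel₀ hx) (sing_scale hF _ x ⟨h0, h1⟩) ?_
    exact hdet_scale hF _ x m h2

theorem smoothQ_iff {n d : ℕ} {F : MvPolynomial (Fin (n + 1)) ℤ} (hF : F.IsHomogeneous d) :
    SmoothQ F ↔ ∀ (m : Fin (n + 1)) (L : Type) [Field L] [CharZero L]
      (x : Fin (n + 1) → L), x m = 1 → ¬ Sing F x := by
  constructor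
  · intro h m L _ _ x hx hs
    have := h L x hs.1 hs.2
    rw [this] at hx
    exact zero_ne_one hx
  · intro h L _ _ x h0 h1
    by_contra hx
    obtain ⟨m, hm⟩ : ∃ m, x m ≠ 0 := by
      by_contra hc
      push_neg at hc
      exact hx (funext hc)
    exact h m L (fun i => (x m)⁻¹ * x i) (inv_mul_cancel₀ hm) (sing_scale hF _ x ⟨h0, h1⟩)

/-- Being nodal at `p` depends only on the coefficients modulo `p`. -/
theorem nodalAt_congr {n : ℕ} {F G : MvPolynomial (Fin (n + 1)) ℤ} {p : ℕ}
    (h : C (p : ℤ) ∣ F - G) (hF : NodalAt F p) : NodalAt G p := by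
  obtain ⟨H, hH⟩ := h
  have hFG : F = G + C (p : ℤ) * H := by rw [← hH]; ring
  intro L _ _ x m hx h0 h1
  have e0 : ∀ A B : MvPolynomial (Fin (n + 1)) ℤ, aeval x (A + C (p : ℤ) * B) = aeval x A := by
    intro A B
    rw [map_add, map_mul, aeval_C]
    have : (algebraMap ℤ L (p : ℤ)) = 0 := by simp
    rw [this, zero_mul, add_zero]
  have e1 : ∀ i, pderiv i F = pderiv i G + C (p : ℤ) * pderiv i H := by
    intro i
    rw [hFG, map_add, pderiv_C_mul]
  have e2 : ∀ i j, pderiv i (pderiv j F) =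
      pderiv i (pderiv j G) + C (p : ℤ) * pderiv i (pderiv j H) := by
    intro i j
    rw [e1, map_add, pderiv_C_mul]
  have h2 := hF L x m hx (by rw [hFG, e0, h0]) (fun i => by rw [e1, e0, h1])
  simp only [e2, e0] at h2
  exact h2

end Pool.Agent.NH
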