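import Pool.Agent.NodHyp.FormsA
import Pool.Agent.NodHyp.FormsB
import Pool.Agent.NodHyp.FormsC

/-! # Forms: the three files together (final) -/
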