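import Pool.Agent.NodHyp.MacA

set_option autoImplicit false

/-! # MACB: if the top form is nondegenerate there are boundedly many critical values

`s = n (d - 2) + 1`, `ρ` from `exists_rho`. Suppose `ρ (u) ≠ 0` in the field `k`. Let `J` be the ideal of `k[y]` generated by the `∂f/∂y_i`
(`f` = dehomogenisation of `FF m u v a` with respect to `x_m`, with top form `topf m u`; `J` does not depend on `a`). Each monomial of degree
`≥ s` is congruent modulo `J` to a polynomial of smaller degree, so `A = k[y] / J` is spanned by the monomials of degree `< s`,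
`dim A ≤ C`. The minimal polynomial `χ` of the class of `f_0 = f - a` in `A` has degree `≤ C`, and if `x` is a singular point
with `x_m = 1` over `L`, evaluation at `x` factors through `A` and `f_0 (x) = - a`, so `χ (- a) = 0`. `S` = negatives of the roots of `χ`. -/

namespace Pool.Agent.NH

open MvPolynomial

/-- put `x_m = 1` -/
private noncomputable def MACB_deh {R : Type} [CommRing R] {n : ℕ} (m : Fin (n + 1)) :
    MvPolynomial (Fin (n + 1)) R →ₐ[R] MvPolynomial {i : Fin (n + 1) // i ≠ m} R :=
  aeval fun i => if h : i ≠ m then X ⟨i, h⟩ else 1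

private theorem MACB_deh_X_self {R : Type} [CommRing R] {n : ℕ} (m : Fin (n + 1)) :
    MACB_deh (R := R) m (X m) = 1 := by
  simp [MACB_deh]

private theorem MACB_deh_X {R : Type} [CommRing R] {n : ℕ} {m : Fin (n + 1)}
    (i : {i : Fin (n + 1) // i ≠ m}) : MACB_deh (R := R) m (X i.1) = X i := by
  simp [MACB_deh, i.2]

private theorem MACB_deh_C {R : Type} [CommRing R] {n : ℕ} (m : Fin (n + 1)) (a : R) :
    MACB_deh m (C a) = C a := by
  simp [MACB_deh]

private theorem MACB_pderiv {R : Type} [CommRing R] {n : ℕ} {m : Fin (n + 1)}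
    (i : {i : Fin (n + 1) // i ≠ m}) (F : MvPolynomial (Fin (n + 1)) R) :
    pderiv i (MACB_deh m F) = MACB_deh m (pderiv i.1 F) := by
  induction F using MvPolynomial.induction_on with
  | C a => simp [MACB_deh_C]
  | add p q hp hq => simp [hp, hq]
  | mul_X p j hp =>
      rw [map_mul, pderiv_mul, pderiv_mul, map_add, map_mul, map_mul, hp]
      congr 1
      congr 1
      by_cases hj : j = m
      · subst hj
        rw [MACB_deh_X_self, pderiv_one, pderiv_X_of_ne (fun h => i.2 h.symm), map_zero]
      · have h1 := MACB_deh_X (R := R) (m := m) ⟨j, hj⟩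
        change MACB_deh m (X j) = X ⟨j, hj⟩ at h1
        rw [h1]
        by_cases hij : j = i.1
        · have h2 : (⟨j, hj⟩ : {i : Fin (n + 1) // i ≠ m}) = i := Subtype.ext hij
          rw [h2, pderiv_X_self, hij, pderiv_X_self, map_one]
        · have h2 : (⟨j, hj⟩ : {i : Fin (n + 1) // i ≠ m}) ≠ i := fun h => hij (congrArg Subtype.val h)
          rw [pderiv_X_of_ne h2, pderiv_X_of_ne hij, map_zero]

private theorem MACB_aeval {R A : Type} [CommRing R] [CommRing A] [Algebra R A] {n : ℕ}
    {m : Fin (n + 1)} (x : Fin (n + 1) → A) (hx : x m = 1) (F : MvPolynomial (Fin (n + 1)) R) :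
    aeval (fun i : {i : Fin (n + 1) // i ≠ m} => x i.1) (MACB_deh m F) = aeval x F := by
  have h : (aeval (fun i : {i : Fin (n + 1) // i ≠ m} => x i.1)).comp (MACB_deh (R := R) m) =
      aeval x := by
    apply MvPolynomial.algHom_ext
    intro j
    rw [AlgHom.comp_apply, aeval_X]
    by_cases hj : j = m
    · subst hj
      rw [MACB_deh_X_self, map_one, hx]
    · have h1 := MACB_deh_X (R := R) (m := m) ⟨j, hj⟩
      change MACB_deh m (X j) = X ⟨j, hj⟩ at h1
      rw [h1, aeval_X]
  exact DFunLike.congr_fun h F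

private theorem MACB_monomial {R : Type} [CommRing R] {n : ℕ} (m : Fin (n + 1))
    (α : Fin (n + 1) →₀ ℕ) (c : R) : MACB_deh m (monomial α c) = monomial (resm m α) c := by
  classical
  rw [MACB_deh, aeval_monomial, monomial_eq (s := resm m α), algebraMap_eq]
  congr 1
  rw [Finsupp.prod_fintype _ _ (fun i => pow_zero _), Finsupp.prod_fintype _ _ (fun i => pow_zero _)]
  rw [Fintype.prod_eq_mul_prod_subtype_ne _ m, dif_neg (by simp), one_pow, one_mul]
  refine Finset.prod_congr rfl fun i _ => ?_
  rw [dif_pos i.2]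
  rfl

/-- existence of a sub-exponent of given degree -/
private theorem MACB_sub {σ : Type} [Fintype σ] (μ : σ →₀ ℕ) (t : ℕ) (ht : t ≤ μ.degree) :
    ∃ μ' : σ →₀ ℕ, μ' ≤ μ ∧ μ'.degree = t := by
  classical
  induction t with
  | zero => exact ⟨0, by simp, by simp⟩
  | succ t ih =>
      obtain ⟨μ', h1, h2⟩ := ih (by omega)
      have h3 : ∃ i, μ' i < μ i := by
        by_contra hcon
        push Not at hcon
        have h4 : μ ≤ μ' := fun i => hcon i
        have h5 : μ = μ' := le_antisymm h4 h1
        rw [h5] at ht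
        omega
      obtain ⟨i, hi⟩ := h3
      refine ⟨μ' + Finsupp.single i 1, ?_, ?_⟩
      · intro j
        by_cases hj : j = i
        · subst hj
          simp
          omega
        · simp [Finsupp.single_apply, Ne.symm hj, h1 j]
      · rw [map_add Finsupp.degree, h2, Finsupp.degree_single]

private theorem MACB_tdeg_pderiv {k σ : Type} [Field k] (i : σ) (e : ℕ)
    (p : MvPolynomial σ k) (hp : ∀ μ ∈ p.support, μ.degree ≤ e) :
    (pderiv i p).totalDegree ≤ e - 1 := by
  classical
  have h1 : pderiv i p = ∑ μ ∈ p.support, pderiv i (monomial μ (coeff μ p)) := by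
    conv_lhs => rw [← p.support_sum_monomial_coeff]
    rw [map_sum]
  rw [h1]
  apply totalDegree_finsetSum_le
  intro μ hμ
  rw [pderiv_monomial]
  by_cases h0 : μ i = 0
  · rw [h0]
    simp
  · refine le_trans (totalDegree_monomial_le _ _) ?_
    have h2 : (μ - Finsupp.single i 1).degree + 1 = μ.degree := by
      have h3 : μ - Finsupp.single i 1 + Finsupp.single i 1 = μ := by
        apply tsub_add_cancel_of_le
        rw [Finsupp.single_le_iff]
        omega
      conv_rhs => rw [← h3]
      rw [map_add Finsupp.degree, Finsupp.degree_single]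
    have h4 := hp μ hμ
    change (μ - Finsupp.single i 1).degree ≤ e - 1
    omega

private theorem MACB_span {k σ : Type} [Field k] [Fintype σ] (s d : ℕ) (hd : 2 ≤ d) (hs : 1 ≤ s)
    (hsd : Nonempty σ → d - 1 ≤ s) (top low : MvPolynomial σ k)
    (hlow : ∀ i, (pderiv i low).totalDegree ≤ d - 2)
    (hmon : ∀ μ : σ →₀ ℕ, μ.degree = s → ∃ q : σ → MvPolynomial σ k,
      (∀ i, (q i).IsHomogeneous (s - (d - 1))) ∧ monomial μ 1 = ∑ i, q i * pderiv i top)
    (J : Ideal (MvPolynomial σ k)) (hJ : ∀ i, pderiv i (top + low) ∈ J) :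
    Submodule.span k (Set.range fun μ : {μ : σ →₀ ℕ // μ.degree < s} =>
      Ideal.Quotient.mkₐ k J (monomial μ.1 1)) = ⊤ := by
  classical
  set W := Submodule.span k (Set.range fun μ : {μ : σ →₀ ℕ // μ.degree < s} =>
      Ideal.Quotient.mkₐ k J (monomial μ.1 1)) with hW
  have key : ∀ D : ℕ, ∀ h : MvPolynomial σ k, h.totalDegree ≤ D →
      Ideal.Quotient.mkₐ k J h ∈ W := by
    intro D
    induction D using Nat.strong_induction_on with
    | _ D ih =>
      intro h hh
      rw [← h.support_sum_monomial_coeff, map_sum]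
      apply Submodule.sum_mem
      intro μ hμ
      have h1 : monomial μ (coeff μ h) = (coeff μ h) • (monomial μ (1 : k)) := by
        rw [smul_monomial, smul_eq_mul, mul_one]
      rw [h1, map_smul]
      apply Submodule.smul_mem
      have hμD : μ.degree ≤ D := le_trans (le_totalDegree hμ) hh
      by_cases hlt : μ.degree < s
      · exact Submodule.subset_span ⟨⟨μ, hlt⟩, rfl⟩
      push Not at hlt
      obtain ⟨μ', h2, h3⟩ := MACB_sub μ s hlt
      obtain ⟨q, hq, hq'⟩ := hmon μ' h3
      have hne : Nonempty σ := by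
        by_contra hcon
        rw [not_nonempty_iff] at hcon
        have : μ.degree = 0 := by
          rw [Finsupp.degree_eq_zero_iff]
          exact Subsingleton.elim _ _
        omega
      have hsd' := hsd hne
      have h4 : monomial μ (1 : k) = monomial (μ - μ') 1 * monomial μ' 1 := by
        rw [monomial_mul, one_mul, tsub_add_cancel_of_le h2]
      have h5 : monomial μ (1 : k) - (-∑ i, monomial (μ - μ') 1 * q i * pderiv i low) ∈ J := by
        rw [h4, hq', Finset.mul_sum, sub_neg_eq_add, ← Finset.sum_add_distrib]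
        apply Ideal.sum_mem
        intro i _
        have h6 : monomial (μ - μ') (1 : k) * (q i * pderiv i top) +
            monomial (μ - μ') 1 * q i * pderiv i low =
            (monomial (μ - μ') 1 * q i) * pderiv i (top + low) := by
          rw [map_add]
          ring
        rw [h6]
        exact Ideal.mul_mem_left _ _ (hJ i)
      have h7 : Ideal.Quotient.mkₐ k J (monomial μ (1 : k)) =
          Ideal.Quotient.mkₐ k J (-∑ i, monomial (μ - μ') 1 * q i * pderiv i low) :=
        Ideal.Quotient.eq.2 h5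
      rw [h7]
      have hdeg : (μ - μ').degree + s = μ.degree := by
        rw [← h3, ← map_add Finsupp.degree, tsub_add_cancel_of_le h2]
      refine ih (μ.degree - 1) (by omega) _ ?_
      rw [totalDegree_neg]
      apply totalDegree_finsetSum_le
      intro i _
      refine le_trans (totalDegree_mul _ _) ?_
      have t1 : (monomial (μ - μ') (1 : k) * q i).totalDegree ≤ (μ - μ').degree + (s - (d - 1)) := by
        refine le_trans (totalDegree_mul _ _) ?_
        exact Nat.add_le_add (totalDegree_monomial_le _ _) (hq i).totalDegree_le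
      have t2 := hlow i
      omega
  rw [eq_top_iff]
  intro a _
  obtain ⟨h, rfl⟩ := Ideal.Quotient.mkₐ_surjective k J a
  exact key _ h le_rfl

private theorem MACB_final {k σ I : Type} [Field k] [Fintype σ] [Fintype I]
    (b : I → MvPolynomial σ k) (f : MvPolynomial σ k) (J : Ideal (MvPolynomial σ k))
    (hJ : J = Ideal.span (Set.range fun i => pderiv i f))
    (hspan : Submodule.span k (Set.range fun μ : I => Ideal.Quotient.mkₐ k J (b μ)) = ⊤) :
    ∃ S : Finset k, S.card ≤ Fintype.card I ∧ ∀ a : k,
      (∃ (L : Type) (_ : Field L) (_ : Algebra k L) (y : σ → L),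
        aeval y f = algebraMap k L (-a) ∧ ∀ i, aeval y (pderiv i f) = 0) → a ∈ S := by
  classical
  have hfd : Module.Finite k (MvPolynomial σ k ⧸ J) := by
    rw [Module.finite_def, ← hspan]
    exact Submodule.fg_span (Set.finite_range _)
  have hdim : Module.finrank k (MvPolynomial σ k ⧸ J) ≤ Fintype.card I := by
    have h1 := finrank_range_le_card (R := k) (fun μ : I => Ideal.Quotient.mkₐ k J (b μ))
    rw [Set.finrank, hspan, finrank_top] at h1
    exact h1
  obtain ⟨f₀, hf₀⟩ : ∃ f₀, f₀ = Ideal.Quotient.mkₐ k J f := ⟨_, rfl⟩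
  have hχ : (minpoly k f₀).natDegree ≤ Fintype.card I :=
    le_trans (minpoly.natDegree_le f₀) hdim
  have hint : IsIntegral k f₀ := Algebra.IsIntegral.isIntegral f₀
  refine ⟨(minpoly k f₀).roots.toFinset.image (fun r => -r), ?_, ?_⟩
  · refine le_trans Finset.card_image_le ?_
    refine le_trans (Multiset.toFinset_card_le _) ?_
    exact le_trans (Polynomial.card_roots' _) hχ
  · rintro a ⟨L, _, _, y, hya, hyp⟩
    rw [Finset.mem_image]
    refine ⟨-a, ?_, neg_neg a⟩
    rw [Multiset.mem_toFinset, Polynomial.mem_roots (minpoly.ne_zero hint), Polynomial.IsRoot.def]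
    have hJ0 : ∀ g ∈ J, aeval y g = 0 := by
      intro g hg
      have h1 : J ≤ RingHom.ker (aeval y : MvPolynomial σ k →ₐ[k] L) := by
        rw [hJ, Ideal.span_le]
        rintro _ ⟨i, rfl⟩
        exact hyp i
      exact h1 hg
    let φ : (MvPolynomial σ k ⧸ J) →ₐ[k] L := Ideal.Quotient.liftₐ J (aeval y) hJ0
    have h3 : φ f₀ = algebraMap k L (-a) := by
      rw [← hya, hf₀]
      exact Ideal.Quotient.liftₐ_apply J (aeval y) hJ0 _
    have h6 := congrArg φ (minpoly.aeval k f₀)
    rw [← Polynomial.aeval_algHom_apply, h3, map_zero, Polynomial.aeval_algebraMap_apply] at h6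
    rw [← Polynomial.coe_aeval_eq_eval]
    exact (map_eq_zero (algebraMap k L)).1 h6

private theorem MACB_degm {n d : ℕ} (m : Fin (n + 1)) (α : Mon n d) :
    (resm m α.1).degree + α.1 m = d := by
  classical
  have h2 := (Finset.mem_finsuppAntidiag.1 α.2).1
  rw [Fintype.sum_eq_add_sum_subtype_ne _ m] at h2
  rw [Finsupp.degree_eq_sum, add_comm]
  exact h2

private theorem MACB_FF {k : Type} [Field k] {n d : ℕ} (m : Fin (n + 1)) (u : Um n d m → k)
    (v : Vm n d m → k) (a : k) : MACB_deh m (FF m u v a) =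
      topf m u + (∑ α : Vm n d m, monomial (resm m α.1.1) (v α)) + C a := by
  have h1 : MACB_deh m (∑ α : Um n d m, monomial α.1.1 (u α)) = topf m u := by
    rw [map_sum, topf]
    exact Finset.sum_congr rfl fun α _ => MACB_monomial _ _ _
  have h2 : MACB_deh m (∑ α : Vm n d m, monomial α.1.1 (v α)) =
      ∑ α : Vm n d m, monomial (resm m α.1.1) (v α) := by
    rw [map_sum]
    exact Finset.sum_congr rfl fun α _ => MACB_monomial _ _ _
  have h3 : MACB_deh m (monomial (Finsupp.single m d) a) = C a := by
    have h4 : resm m (Finsupp.single m d) = 0 := by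
      ext i
      simp [resm, Finsupp.single_apply, Ne.symm i.2]
    rw [MACB_monomial, h4]
    exact (C_apply).symm
  unfold FF
  rw [map_add, map_add, h1, h2, h3]

private theorem MACB_finite (σ : Type) [Fintype σ] (s : ℕ) :
    Finite {μ : σ →₀ ℕ // μ.degree < s} := by
  have h1 : Set.Finite {μ : σ →₀ ℕ | μ.degree < s} := by
    classical
    apply Set.Finite.subset (Set.finite_Iic (Finsupp.equivFunOnFinite.symm fun _ : σ => s))
    intro μ hμ i
    have h2 : μ i ≤ μ.degree := Finsupp.le_degree i μ
    have h3 : μ.degree < s := hμ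
    change μ i ≤ s
    omega
  exact h1.to_subtype

theorem mac (n d : ℕ) (hd : 2 ≤ d) (m : Fin (n + 1)) :
    ∃ (ρ : MvPolynomial (Um n d m) ℤ) (C : ℕ),
      (∀ p : ℕ, p.Prime → ¬ p ∣ d → map (Int.castRingHom (ZMod p)) ρ ≠ 0) ∧
      ∀ (k : Type) [Field k] (u : Um n d m → k) (v : Vm n d m → k),
        eval₂ (Int.castRingHom k) u ρ ≠ 0 → ∃ S : Finset k, S.card ≤ C ∧ ∀ a : k,
          (∃ (L : Type) (_ : Field L) (_ : Algebra k L) (x : Fin (n + 1) → L),
            x m = 1 ∧ Sing (FF m u v a) x) → a ∈ S := by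
  classical
  obtain ⟨ρ, hρ, hρ'⟩ := exists_rho n d hd m
  obtain ⟨s, hs⟩ : ∃ s, s = n * (d - 2) + 1 := ⟨_, rfl⟩
  rw [← hs] at hρ'
  have hfin := MACB_finite {i : Fin (n + 1) // i ≠ m} s
  let _ : Fintype {μ : {i : Fin (n + 1) // i ≠ m} →₀ ℕ // μ.degree < s} := Fintype.ofFinite _
  refine ⟨ρ, Fintype.card {μ : {i : Fin (n + 1) // i ≠ m} →₀ ℕ // μ.degree < s}, hρ, ?_⟩
  intro k _ u v hu
  have hlowdeg : ∀ μ ∈ (∑ α : Vm n d m, monomial (resm m α.1.1) (v α)).support,
      μ.degree ≤ d - 1 := by
    intro μ hμ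
    have h1 : ∃ α : Vm n d m, μ = resm m α.1.1 := by
      by_contra hcon
      push Not at hcon
      rw [mem_support_iff, coeff_sum] at hμ
      apply hμ
      apply Finset.sum_eq_zero
      intro α _
      rw [coeff_monomial, if_neg (fun h => hcon α h.symm)]
    obtain ⟨α, rfl⟩ := h1
    have h3 := MACB_degm m α.1
    have h4 := α.2.1
    omega
  have hspan := MACB_span (k := k) (σ := {i : Fin (n + 1) // i ≠ m}) s d hd (by omega) (by
    rintro ⟨i⟩
    have hn : 1 ≤ n := by
      by_contra hn
      apply i.2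
      apply Fin.ext
      have h1 := i.1.2
      have h2 := m.2
      omega
    have : 1 * (d - 2) ≤ n * (d - 2) := Nat.mul_le_mul_right _ hn
    omega) (topf m u) (∑ α : Vm n d m, monomial (resm m α.1.1) (v α)) (fun i => by
      have := MACB_tdeg_pderiv i (d - 1) _ hlowdeg
      have h2 : d - 1 - 1 = d - 2 := by omega
      rw [h2] at this
      exact this) (hρ' k u hu)
      (Ideal.span (Set.range fun i : {i : Fin (n + 1) // i ≠ m} =>
        pderiv i (topf m u + ∑ α : Vm n d m, monomial (resm m α.1.1) (v α))))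
      (fun i => Ideal.subset_span ⟨i, rfl⟩)
  obtain ⟨S, hS, hS'⟩ := MACB_final _ _ _ rfl hspan
  refine ⟨S, hS, ?_⟩
  rintro a ⟨L, hL, hA, x, hx, hS⟩
  refine hS' a ⟨L, hL, hA, fun i => x i.1, ?_, ?_⟩
  · have h5 : aeval (fun i : {i : Fin (n + 1) // i ≠ m} => x i.1) (MACB_deh m (FF m u v a)) = 0 := by
      rw [MACB_aeval x hx]
      exact hS.1
    rw [MACB_FF, map_add (aeval _) (_ + _), aeval_C] at h5
    rw [map_neg]
    exact eq_neg_of_add_eq_zero_left h5
  · intro i
    have h2 : pderiv i (topf m u + ∑ α : Vm n d m, monomial (resm m α.1.1) (v α)) =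
        pderiv i (MACB_deh m (FF m u v a)) := by
      rw [MACB_FF, map_add (pderiv i) (_ + _), pderiv_C, add_zero]
    rw [h2, MACB_pderiv, MACB_aeval x hx]
    exact hS.2 i.1

end Pool.Agent.NH
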