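import Pool.Agent.NodHyp.SZ

set_option autoImplicit false

/-! # SIEVE: the abstract sieve, part (B) -/

namespace Pool.Agent.NH

open MvPolynomial

namespace SieveBAux

theorem card_mono {α : Type} [Finite α] {A B : α → Prop} (h : ∀ x, A x → B x) :
    Nat.card {x // A x} ≤ Nat.card {x // B x} :=
  Nat.card_le_card_of_injective (Subtype.map id h) (Subtype.map_injective h Function.injective_id)

theorem card_fib {α β : Type} [Finite α] [Finite β] (A : α → Prop) (R : α → β → Prop) (k : ℕ)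
    (h : ∀ a b, R a b → A a) (hk : ∀ a, A a → Nat.card {b // R a b} ≤ k) :
    Nat.card {x : α × β // R x.1 x.2} ≤ Nat.card {a // A a} * k := by
  classical
  have e : {x : α × β // R x.1 x.2} ≃ Σ a : {a // A a}, {b // R a.1 b} :=
    { toFun := fun x => ⟨⟨x.1.1, h _ _ x.2⟩, ⟨x.1.2, x.2⟩⟩
      invFun := fun y => ⟨(y.1.1, y.2.1), y.2.2⟩
      left_inv := fun x => rfl
      right_inv := fun y => rfl }
  have : Fintype {a // A a} := Fintype.ofFinite _
  rw [Nat.card_congr e, Nat.card_sigma]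
  calc ∑ a : {a // A a}, Nat.card {b // R a.1 b} ≤ ∑ a : {a // A a}, k :=
        Finset.sum_le_sum fun a _ => hk a.1 a.2
    _ = Nat.card {a // A a} * k := by
        rw [Finset.sum_const, Nat.card_eq_fintype_card, Finset.card_univ, smul_eq_mul]

theorem card_exists_le {α ι : Type} [Finite α] (T : Finset ι) (R : ι → α → Prop) :
    Nat.card {x // ∃ p ∈ T, R p x} ≤ ∑ p ∈ T, Nat.card {x // R p x} := by
  classical
  have : Fintype α := Fintype.ofFinite _
  have h1 : ∀ Q : α → Prop, Nat.card {x // Q x} = (Finset.univ.filter Q).card := by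
    intro Q
    rw [Nat.card_eq_fintype_card, Fintype.card_subtype]
  rw [h1]
  simp_rw [h1]
  refine (Finset.card_le_card ?_).trans Finset.card_biUnion_le
  intro x hx
  simp only [Finset.mem_filter, Finset.mem_univ, true_and, Finset.mem_biUnion] at hx ⊢
  exact hx

theorem card_or {α : Type} [Finite α] (A B : α → Prop) :
    Nat.card {x // A x ∨ B x} ≤ Nat.card {x // A x} + Nat.card {x // B x} := by
  classical
  have : Fintype α := Fintype.ofFinite _
  have h1 : ∀ Q : α → Prop, Nat.card {x // Q x} = (Finset.univ.filter Q).card := by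
    intro Q
    rw [Nat.card_eq_fintype_card, Fintype.card_subtype]
  rw [h1, h1, h1]
  refine (Finset.card_le_card ?_).trans (Finset.card_union_le _ _)
  intro x hx
  simp only [Finset.mem_filter, Finset.mem_univ, true_and, Finset.mem_union] at hx ⊢
  exact hx

/-- the large prime factors form a finite set -/
theorem primes_finset {z : ℤ} (hz : z ≠ 0) {L E : ℕ} (hL : 2 ≤ L) (h : z.natAbs ≤ L ^ E) :
    ∃ T : Finset ℕ, T.card ≤ E ∧ ∀ p : ℕ, p ∈ T ↔ (p.Prime ∧ L < p ∧ (p : ℤ) ∣ z) := by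
  classical
  let T : Finset ℕ := (Finset.range (z.natAbs + 1)).filter
    (fun p => p.Prime ∧ L < p ∧ (p : ℤ) ∣ z)
  have hT : ∀ p : ℕ, p ∈ T ↔ (p.Prime ∧ L < p ∧ (p : ℤ) ∣ z) := by
    intro p
    simp only [T, Finset.mem_filter, Finset.mem_range]
    constructor
    · exact fun h => h.2
    · intro h'
      refine ⟨?_, h'⟩
      have := Int.natAbs_dvd_natAbs.2 h'.2.2
      have := Nat.le_of_dvd (Int.natAbs_pos.2 hz) this
      simp at this
      omega
  refine ⟨T, ?_, hT⟩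
  have h1 := few_primes hz hL h
  have h2 : Nat.card {p : ℕ // p.Prime ∧ L < p ∧ (p : ℤ) ∣ z} = T.card :=
    Nat.subtype_card T hT
  rw [← h2]
  exact h1

end SieveBAux

open SieveBAux in
/-- part (B): the primes which divide `ρ (u)` -/
theorem sieveB {U V : Type} [Fintype U] [Fintype V] (ρ : MvPolynomial U ℤ) (D M₁ : ℕ)
    (hρ0 : ρ ≠ 0)
    (hρ : ∀ p : ℕ, p.Prime → M₁ < p → map (Int.castRingHom (ZMod p)) ρ ≠ 0)
    (Bad : ℕ → (U → ℤ) → (V → ℤ) → ℤ → Prop)
    (h3 : ∀ p : ℕ, p.Prime → M₁ < p → ∀ u, (p : ℤ) ∣ eval u ρ →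
      ∃ c : MvPolynomial V (ZMod p), c ≠ 0 ∧ c.totalDegree ≤ D ∧ ∀ (v : V → ℤ) (a : ℤ),
        Bad p u v a → eval (fun i => (v i : ZMod p)) c = 0) :
    ∃ K : ℕ, ∀ M P : ℕ, M₁ ≤ M → 1 ≤ M → 1 ≤ P → (∀ p : ℕ, p.Prime → M < p → ¬ p ∣ P) →
      ∃ L₀ : ℕ, ∀ L : ℕ, L₀ ≤ L → ∀ (u₀ : U → ℤ) (v₀ : V → ℤ) (a₀ : ℤ),
        (∀ i, |u₀ i| ≤ 2 * P * L) → (∀ i, |v₀ i| ≤ 2 * P * L) → |a₀| ≤ 2 * P * L →
        M * Nat.card {x : (U → Fin L) × (V → Fin L) × Fin L // ∃ p : ℕ, p.Prime ∧ M < p ∧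
          (p : ℤ) ∣ eval (fun i => u₀ i + P * ((x.1 i : ℕ) : ℤ)) ρ ∧
          Bad p (fun i => u₀ i + P * ((x.1 i : ℕ) : ℤ)) (fun i => v₀ i + P * ((x.2.1 i : ℕ) : ℤ))
            (a₀ + P * ((x.2.2 : ℕ) : ℤ))} ≤
          K * (L ^ (Fintype.card U + Fintype.card V + 1) +
            M * L ^ (Fintype.card U + Fintype.card V)) := by
  classical
  obtain ⟨A, hA⟩ := value_bound ρ
  set R := ρ.totalDegree with hR
  set nU := Fintype.card U with hnU
  set nV := Fintype.card V with hnV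
  refine ⟨R + (R + 1) * D + 2 ^ (nU + nV) * R * D, ?_⟩
  intro M P hM1 hM hP hprime
  refine ⟨max 2 (A * (3 * P) ^ R), ?_⟩
  intro L hL u₀ v₀ a₀ hu₀ hv₀ ha₀
  have hL2 : 2 ≤ L := (le_max_left _ _).trans hL
  have hLA : A * (3 * P) ^ R ≤ L := (le_max_right _ _).trans hL
  let vu : (U → Fin L) → U → ℤ := fun w i => u₀ i + P * ((w i : ℕ) : ℤ)
  let vv : (V → Fin L) → V → ℤ := fun w i => v₀ i + P * ((w i : ℕ) : ℤ)
  let rv : (U → Fin L) → ℤ := fun w => eval (vu w) ρ
  let Bd : ℕ → (U → Fin L) → ((V → Fin L) × Fin L) → Prop := fun p w t =>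
    Bad p (vu w) (vv t.1) (a₀ + P * ((t.2 : ℕ) : ℤ))
  have habs : ∀ w i, |vu w i| ≤ ((3 * P * L : ℕ) : ℤ) := by
    intro w i
    have h0 : |u₀ i| ≤ 2 * P * L := hu₀ i
    have h1 : ((w i : ℕ) : ℤ) ≤ L := by exact_mod_cast (w i).2.le
    have h2 : |(P : ℤ) * ((w i : ℕ) : ℤ)| ≤ P * L := by
      rw [abs_of_nonneg (by positivity)]
      exact mul_le_mul_of_nonneg_left h1 (by positivity)
    calc |vu w i| ≤ |u₀ i| + |(P : ℤ) * ((w i : ℕ) : ℤ)| := abs_add_le _ _
      _ ≤ 2 * P * L + P * L := add_le_add h0 h2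
      _ = ((3 * P * L : ℕ) : ℤ) := by push_cast; ring
  have hsize : ∀ w, (rv w).natAbs ≤ L ^ (R + 1) := by
    intro w
    have h4 := hA (3 * P * L) (vu w) (Nat.mul_pos (Nat.mul_pos (by norm_num) hP) (by omega))
      (habs w)
    calc (rv w).natAbs ≤ A * (3 * P * L) ^ R := h4
      _ = (A * (3 * P) ^ R) * L ^ R := by rw [mul_pow]; ring
      _ ≤ L * L ^ R := Nat.mul_le_mul_right _ hLA
      _ = L ^ (R + 1) := by ring
  have hcU : Nat.card (U → Fin L) = L ^ nU := by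
    rw [Nat.card_eq_fintype_card, Fintype.card_fun, Fintype.card_fin]
  have hcVF : Nat.card ((V → Fin L) × Fin L) = L ^ nV * L := by
    rw [Nat.card_eq_fintype_card, Fintype.card_prod, Fintype.card_fun, Fintype.card_fin]
  let Q : (U → Fin L) × ((V → Fin L) × Fin L) → Prop := fun y =>
    ∃ p : ℕ, p.Prime ∧ M < p ∧ (p : ℤ) ∣ rv y.1 ∧ Bd p y.1 y.2
  change M * Nat.card {y // Q y} ≤ _
  let Tp : Finset ℕ := (Finset.Ioc M L).filter Nat.Prime
  let Q1 : (U → Fin L) × ((V → Fin L) × Fin L) → Prop := fun y => rv y.1 = 0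
  let Q2 : (U → Fin L) × ((V → Fin L) × Fin L) → Prop := fun y => rv y.1 ≠ 0 ∧
    ∃ p : ℕ, p.Prime ∧ M < p ∧ L < p ∧ (p : ℤ) ∣ rv y.1 ∧ Bd p y.1 y.2
  let Q3 : (U → Fin L) × ((V → Fin L) × Fin L) → Prop := fun y =>
    ∃ p ∈ Tp, (p : ℤ) ∣ rv y.1 ∧ Bd p y.1 y.2
  have hsplit : ∀ y, Q y → Q1 y ∨ (Q2 y ∨ Q3 y) := by
    rintro y ⟨p, hp, hMp, hρ', hb⟩
    by_cases h0 : rv y.1 = 0
    · exact Or.inl h0
    right
    by_cases hpL : L < p
    · exact Or.inl ⟨h0, p, hp, hMp, hpL, hρ', hb⟩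
    · right
      refine ⟨p, ?_, hρ', hb⟩
      simp only [Tp, Finset.mem_filter, Finset.mem_Ioc]
      exact ⟨⟨hMp, by omega⟩, hp⟩
  have hB1 : Nat.card {y // Q1 y} ≤ R * L ^ (nU + nV) := by
    have h4 := card_fib (α := U → Fin L) (β := (V → Fin L) × Fin L) (fun w => rv w = 0)
      (fun w _ => rv w = 0) (L ^ nV * L) (fun a b h => h) (fun a _ => by
        calc Nat.card {b : (V → Fin L) × Fin L // rv a = 0} ≤ Nat.card ((V → Fin L) × Fin L) :=
              Nat.card_le_card_of_injective Subtype.val Subtype.val_injective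
          _ = L ^ nV * L := hcVF)
    refine h4.trans ?_
    have h5 := sz_int hρ0 hP L u₀
    calc Nat.card {w // rv w = 0} * (L ^ nV * L) = (L * Nat.card {w // rv w = 0}) * L ^ nV := by
          ring
      _ ≤ (R * L ^ nU) * L ^ nV := Nat.mul_le_mul_right _ h5
      _ = R * L ^ (nU + nV) := by rw [pow_add]; ring
  -- the bad `v`, `a` for given `u` and large `p`
  have hB2 : Nat.card {y // Q2 y} ≤ (R + 1) * D * L ^ (nU + nV) := by
    have h4 := card_fib (α := U → Fin L) (β := (V → Fin L) × Fin L) (fun w => rv w ≠ 0)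
      (fun w t => rv w ≠ 0 ∧ ∃ p : ℕ, p.Prime ∧ M < p ∧ L < p ∧ (p : ℤ) ∣ rv w ∧ Bd p w t)
      ((R + 1) * (D * L ^ nV)) (fun a b h => h.1) ?_
    · refine h4.trans ?_
      have h5 : Nat.card {w // rv w ≠ 0} ≤ L ^ nU := by
        rw [← hcU]
        exact Nat.card_le_card_of_injective Subtype.val Subtype.val_injective
      calc Nat.card {w // rv w ≠ 0} * ((R + 1) * (D * L ^ nV)) ≤ L ^ nU * ((R + 1) * (D * L ^ nV)) :=
            Nat.mul_le_mul_right _ h5
        _ = _ := by rw [pow_add]; ring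
    · intro w hw
      obtain ⟨T, hTc, hT⟩ := primes_finset hw hL2 (hsize w)
      have h5 : Nat.card {t : (V → Fin L) × Fin L // rv w ≠ 0 ∧ ∃ p : ℕ, p.Prime ∧ M < p ∧ L < p ∧
          (p : ℤ) ∣ rv w ∧ Bd p w t} ≤
          Nat.card {t : (V → Fin L) × Fin L // ∃ p ∈ T, M < p ∧ Bd p w t} := by
        apply card_mono
        rintro t ⟨-, p, hp, hMp, hLp, hr, hb⟩
        exact ⟨p, (hT p).2 ⟨hp, hLp, hr⟩, hMp, hb⟩
      refine h5.trans ((card_exists_le T _).trans ?_)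
      have h6 : ∀ p ∈ T, Nat.card {t : (V → Fin L) × Fin L // M < p ∧ Bd p w t} ≤ D * L ^ nV := by
        intro p hpT
        obtain ⟨hp, hLp, hr⟩ := (hT p).1 hpT
        by_cases hc : M < p
        · obtain ⟨c, hc0, hcD, hcv⟩ := h3 p hp (by omega) (vu w) hr
          have h7 := card_fib (α := V → Fin L) (β := Fin L)
            (fun v => eval (fun i => ((v₀ i + P * ((v i : ℕ) : ℤ) : ℤ) : ZMod p)) c = 0)
            (fun v t => M < p ∧ Bd p w (v, t)) L (fun v t h => hcv _ _ h.2) (fun v _ => by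
              calc Nat.card {t : Fin L // M < p ∧ Bd p w (v, t)} ≤ Nat.card (Fin L) :=
                    Nat.card_le_card_of_injective Subtype.val Subtype.val_injective
                _ = L := by simp)
          refine h7.trans ?_
          have h8 := sz_gt hp hc0 (hprime p hp hc) hLp v₀
          rw [mul_comm]
          refine h8.trans ?_
          exact Nat.mul_le_mul_right _ hcD
        · have : IsEmpty {t : (V → Fin L) × Fin L // M < p ∧ Bd p w t} := ⟨fun t => hc t.2.1⟩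
          rw [Nat.card_of_isEmpty]
          exact Nat.zero_le _
      calc ∑ p ∈ T, Nat.card {t : (V → Fin L) × Fin L // M < p ∧ Bd p w t}
          ≤ ∑ p ∈ T, D * L ^ nV := Finset.sum_le_sum h6
        _ = T.card * (D * L ^ nV) := by rw [Finset.sum_const, smul_eq_mul]
        _ ≤ (R + 1) * (D * L ^ nV) := Nat.mul_le_mul_right _ hTc
  have hB3 : ∀ p ∈ Tp, (Nat.card {y : (U → Fin L) × ((V → Fin L) × Fin L) //
      (p : ℤ) ∣ rv y.1 ∧ Bd p y.1 y.2} : ℝ) ≤
        (2 ^ (nU + nV) * R * D : ℕ) * (L : ℝ) ^ (nU + nV + 1) * (1 / (p : ℝ) ^ 2) := by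
    intro p hpT
    simp only [Tp, Finset.mem_filter, Finset.mem_Ioc] at hpT
    obtain ⟨⟨hMp, hpL⟩, hp⟩ := hpT
    have hppos := hp.pos
    have h4 := card_fib (α := U → Fin L) (β := (V → Fin L) × Fin L)
      (fun w => (p : ℤ) ∣ rv w)
      (fun w t => (p : ℤ) ∣ rv w ∧ Bd p w t) (2 ^ nV * D * L ^ nV / p * L) (fun w t h => h.1)
      (fun w hw => by
        obtain ⟨c, hc0, hcD, hcv⟩ := h3 p hp (by omega) (vu w) hw
        have h7 := card_fib (α := V → Fin L) (β := Fin L)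
          (fun v => eval (fun i => ((v₀ i + P * ((v i : ℕ) : ℤ) : ℤ) : ZMod p)) c = 0)
          (fun v t => (p : ℤ) ∣ rv w ∧ Bd p w (v, t)) L (fun v t h => hcv _ _ h.2) (fun v _ => by
            calc Nat.card {t : Fin L // (p : ℤ) ∣ rv w ∧ Bd p w (v, t)} ≤ Nat.card (Fin L) :=
                  Nat.card_le_card_of_injective Subtype.val Subtype.val_injective
              _ = L := by simp)
        refine h7.trans ?_
        have h8 := sz_le hp hc0 (hprime p hp hMp) hpL v₀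
        refine Nat.mul_le_mul_right _ ?_
        rw [Nat.le_div_iff_mul_le hppos, mul_comm]
        refine h8.trans ?_
        gcongr)
    have h5 : p * Nat.card {w // (p : ℤ) ∣ rv w} ≤ 2 ^ nU * R * L ^ nU := by
      have h6 := sz_le hp (hρ p hp (by omega)) (hprime p hp hMp) hpL u₀
      have h7 : Nat.card {w // (p : ℤ) ∣ rv w} ≤
          Nat.card {x : U → Fin L // eval (fun i => ((u₀ i + P * ((x i : ℕ) : ℤ) : ℤ) : ZMod p))
            (map (Int.castRingHom (ZMod p)) ρ) = 0} := by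
        apply card_mono
        intro w hd
        have h7 : ((rv w : ℤ) : ZMod p) = 0 := (ZMod.intCast_zmod_eq_zero_iff_dvd _ _).2 hd
        have h8 : ((rv w : ℤ) : ZMod p) = eval (fun i => ((u₀ i + P * ((w i : ℕ) : ℤ) : ℤ) : ZMod p))
            (map (Int.castRingHom (ZMod p)) ρ) := by
          rw [eval_map]
          exact (eval₂_comp_left (Int.castRingHom (ZMod p)) (RingHom.id ℤ) (vu w) ρ)
        rw [← h8]
        exact h7
      calc p * Nat.card {w // (p : ℤ) ∣ rv w}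
          ≤ _ := Nat.mul_le_mul_left _ h7
        _ ≤ _ := h6
        _ ≤ 2 ^ nU * R * L ^ nU := by
          gcongr
          exact Finset.sup_mono (support_map_subset _ _)
    have h6 : p * (2 ^ nV * D * L ^ nV / p) ≤ 2 ^ nV * D * L ^ nV := Nat.mul_div_le _ _
    have h7 : p ^ 2 * Nat.card {y : (U → Fin L) × ((V → Fin L) × Fin L) //
      (p : ℤ) ∣ rv y.1 ∧ Bd p y.1 y.2} ≤ 2 ^ (nU + nV) * R * D * L ^ (nU + nV + 1) := by
      calc _ ≤ p ^ 2 * (Nat.card {w // (p : ℤ) ∣ rv w} * (2 ^ nV * D * L ^ nV / p * L)) :=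
            Nat.mul_le_mul_left _ h4
        _ = (p * Nat.card {w // (p : ℤ) ∣ rv w}) * (p * (2 ^ nV * D * L ^ nV / p)) * L := by
            ring
        _ ≤ (2 ^ nU * R * L ^ nU) * (2 ^ nV * D * L ^ nV) * L :=
            Nat.mul_le_mul_right _ (Nat.mul_le_mul h5 h6)
        _ = _ := by rw [pow_add, pow_succ, pow_add]; ring
    have h8 : (p : ℝ) ^ 2 * (Nat.card {y : (U → Fin L) × ((V → Fin L) × Fin L) //
      (p : ℤ) ∣ rv y.1 ∧ Bd p y.1 y.2} : ℝ) ≤
        (2 ^ (nU + nV) * R * D : ℕ) * (L : ℝ) ^ (nU + nV + 1) := by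
      exact_mod_cast h7
    have h9 : (0 : ℝ) < (p : ℝ) ^ 2 := by positivity
    rw [mul_one_div, le_div_iff₀ h9]
    linarith
  have hB3' : M * Nat.card {y // Q3 y} ≤ 2 ^ (nU + nV) * R * D * L ^ (nU + nV + 1) := by
    have h4 : (Nat.card {y // Q3 y} : ℝ) ≤
        (2 ^ (nU + nV) * R * D : ℕ) * (L : ℝ) ^ (nU + nV + 1) * (1 / M) := by
      have h5 : (Nat.card {y // Q3 y} : ℝ) ≤ ∑ p ∈ Tp,
          (Nat.card {y : (U → Fin L) × ((V → Fin L) × Fin L) //
          (p : ℤ) ∣ rv y.1 ∧ Bd p y.1 y.2} : ℝ) := by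
        exact_mod_cast card_exists_le Tp
          (fun p (y : (U → Fin L) × ((V → Fin L) × Fin L)) => (p : ℤ) ∣ rv y.1 ∧ Bd p y.1 y.2)
      refine h5.trans ((Finset.sum_le_sum hB3).trans ?_)
      rw [← Finset.mul_sum]
      refine mul_le_mul_of_nonneg_left (sum_inv_sq hM Tp ?_) (by positivity)
      intro p hp
      simp only [Tp, Finset.mem_filter, Finset.mem_Ioc] at hp
      exact hp.1.1
    have hM' : (0 : ℝ) < M := by exact_mod_cast hM
    have h5 : (M : ℝ) * (Nat.card {y // Q3 y} : ℝ) ≤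
        (2 ^ (nU + nV) * R * D : ℕ) * (L : ℝ) ^ (nU + nV + 1) := by
      calc (M : ℝ) * (Nat.card {y // Q3 y} : ℝ) ≤
            M * ((2 ^ (nU + nV) * R * D : ℕ) * (L : ℝ) ^ (nU + nV + 1) * (1 / M)) :=
              mul_le_mul_of_nonneg_left h4 hM'.le
        _ = _ := by field_simp
    exact_mod_cast h5
  have hfin : Nat.card {y // Q y} ≤ Nat.card {y // Q1 y} +
      (Nat.card {y // Q2 y} + Nat.card {y // Q3 y}) :=
    (card_mono hsplit).trans ((card_or _ _).trans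
      (Nat.add_le_add_left (card_or _ _) _))
  set n := nU + nV with hn
  calc M * Nat.card {y // Q y} ≤ M * (Nat.card {y // Q1 y} +
      (Nat.card {y // Q2 y} + Nat.card {y // Q3 y})) := Nat.mul_le_mul_left _ hfin
    _ = M * Nat.card {y // Q1 y} + M * Nat.card {y // Q2 y} + M * Nat.card {y // Q3 y} := by ring
    _ ≤ M * (R * L ^ n) + M * ((R + 1) * D * L ^ n) +
        2 ^ n * R * D * L ^ (n + 1) := by
        gcongr
    _ ≤ (R + (R + 1) * D + 2 ^ n * R * D) * (L ^ (n + 1) + M * L ^ n) := by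
        nlinarith [Nat.zero_le (R * L ^ (n + 1)), Nat.zero_le ((R + 1) * D * L ^ (n + 1)),
          Nat.zero_le (2 ^ n * R * D * (M * L ^ n))]

end Pool.Agent.NH
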