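import Pool.Agent.NodHyp.SieveA
import Pool.Agent.NodHyp.SieveB
import Pool.Agent.NodHyp.Forms
import Pool.Agent.NodHyp.Elim
import Pool.Agent.NodHyp.Mac

set_option autoImplicit false

/-! # TAILA: few forms are bad at some prime `p > M`, or singular over `ℚ` -/

namespace Pool.Agent.NH

open MvPolynomial

/-- A nonzero integral polynomial is nonzero modulo all large primes. -/
theorem ne_zero_mod {V : Type} {c : MvPolynomial V ℤ} (hc : c ≠ 0) :
    ∃ M₁ : ℕ, ∀ p : ℕ, p.Prime → M₁ < p → map (Int.castRingHom (ZMod p)) c ≠ 0 := by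
  obtain ⟨α, hα⟩ := MvPolynomial.ne_zero_iff.1 hc
  refine ⟨(coeff α c).natAbs, fun p hp hlt h => hα ?_⟩
  have h1 : coeff α (map (Int.castRingHom (ZMod p)) c) = 0 := by rw [h, coeff_zero]
  rw [coeff_map, eq_intCast, ZMod.intCast_zmod_eq_zero_iff_dvd] at h1
  exact Int.eq_zero_of_dvd_of_natAbs_lt_natAbs h1 (by simpa using hlt)

/-- badness of a vector of coefficients at a prime -/
def TAILA_Bad (n d : ℕ) (m : Fin (n + 1)) (p : ℕ) (u : Um n d m → ℤ) (v : Vm n d m → ℤ)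
    (a : ℤ) : Prop :=
  ∃ (L' : Type) (_ : Field L') (_ : CharP L' p) (x : Fin (n + 1) → L'), x m = 1 ∧
    Sing (FF m u v a) x ∧ hdet m (FF m u v a) x = 0

private theorem TAILA_card {α β : Type} [Finite α] [Finite β] (e : α ≃ β) (P : α → Prop)
    (A B : β → Prop) (h : ∀ x, P x → A (e x) ∨ B (e x)) :
    Nat.card {x // P x} ≤ Nat.card {y // A y} + Nat.card {y // B y} := by
  classical
  rw [← Nat.card_sum]
  refine Nat.card_le_card_of_injective
    (fun x : {x // P x} => if hA : A (e x.1) then (Sum.inl ⟨e x.1, hA⟩ : {y // A y} ⊕ {y // B y})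
      else Sum.inr ⟨e x.1, (h x.1 x.2).resolve_left hA⟩) ?_
  intro x y hxy
  apply Subtype.ext
  apply e.injective
  by_cases h1 : A (e x.1) <;> by_cases h2 : A (e y.1)
  · simpa [h1, h2] using hxy
  · simp [h1, h2] at hxy
  · simp [h1, h2] at hxy
  · simpa [h1, h2] using hxy

/-- One chart. Apply `sieveA` and `sieveB` with `ρ`, `C` from `mac`, `Δ` from `elim_int`, `D` from `elim_field`,
`Bad p u v a` = there is a field `L` of characteristic `p` and a point `x`, `x m = 1`, with `Sing (FF m u v a) x` and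
`hdet m (FF m u v a) x = 0`, and `M₁ ≥ 2`, `d`, and the bounds of `ne_zero_mod` for `ρ`, `Δ`. For `h2`, `h3` regard `L` as an algebra over
`ZMod p` and reduce the coefficients modulo `p` (`map_FF`, `sing_map`). -/
theorem tail_chart (n d : ℕ) (hd : 3 ≤ d) (m : Fin (n + 1)) : ∃ K M₁ : ℕ, ∀ M P : ℕ, M₁ ≤ M →
    1 ≤ M → 1 ≤ P → (∀ p : ℕ, p.Prime → M < p → ¬ p ∣ P) → ∃ L₀ : ℕ, ∀ L : ℕ, L₀ ≤ L →
      ∀ c₀ : Mon n d → ℤ, (∀ α, |c₀ α| ≤ 2 * P * L) →
        M * Nat.card {x : Mon n d → Fin L // ∃ p : ℕ, p.Prime ∧ M < p ∧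
          ∃ (L' : Type) (_ : Field L') (_ : CharP L' p) (y : Fin (n + 1) → L'), y m = 1 ∧
            Sing (toF fun α => c₀ α + P * ((x α : ℕ) : ℤ)) y ∧
            hdet m (toF fun α => c₀ α + P * ((x α : ℕ) : ℤ)) y = 0} ≤
          K * (L ^ Fintype.card (Mon n d) + M * L ^ (Fintype.card (Mon n d) - 1)) := by
  obtain ⟨ρ, C, hρ, hmac⟩ := mac n d (by omega) m
  obtain ⟨Δ, hΔ0, hΔ⟩ := elim_int n d hd m
  obtain ⟨D, hD⟩ := elim_field n d hd m
  obtain ⟨M₂, hM₂⟩ := ne_zero_mod hΔ0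
  have hnd : ∀ p : ℕ, p.Prime → d < p → ¬ p ∣ d := fun p hp h h' =>
    absurd (Nat.le_of_dvd (by omega) h') (by omega)
  have hρ0 : ρ ≠ 0 := by
    obtain ⟨p, hp1, hp2⟩ := Nat.exists_infinite_primes (d + 1)
    intro h
    apply hρ p hp2 (hnd p hp2 (by omega))
    rw [h, map_zero]
  set M₁ := max (max M₂ d) 2 with hM₁
  have hM1 : M₂ ≤ M₁ := le_trans (le_max_left _ _) (le_max_left _ _)
  have hM1d : d ≤ M₁ := le_trans (le_max_right _ _) (le_max_left _ _)
  have hM12 : 2 ≤ M₁ := le_max_right _ _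
  -- passage to the prime field
  have hpass : ∀ (p : ℕ) (hp : p.Prime) (L' : Type) (_ : Field L') (_ : CharP L' p)
      (_ : Algebra (ZMod p) L') (u : Um n d m → ℤ) (v : Vm n d m → ℤ) (a : ℤ)
      (x : Fin (n + 1) → L'),
      (Sing (FF m (fun α => (u α : ZMod p)) (fun α => (v α : ZMod p)) (a : ZMod p)) x ↔
        Sing (FF m u v a) x) ∧
      hdet m (FF m (fun α => (u α : ZMod p)) (fun α => (v α : ZMod p)) (a : ZMod p)) x =
        hdet m (FF m u v a) x := by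
    intro p hp L' _ _ _ u v a x
    have h1 := sing_map (R := ℤ) (S := ZMod p) (L := L') (Int.castRingHom (ZMod p))
      (fun r => by simp) (FF m u v a) x m
    rw [map_FF] at h1
    exact h1
  obtain ⟨KA, hKA⟩ := sieveA ρ Δ C M₁ hΔ0 (fun p hp h => hM₂ p hp (lt_of_le_of_lt hM1 h))
    (TAILA_Bad n d m) (by
      rintro p hp hlt u v a ⟨L', hF, hC, x, hx, hS, hdt⟩ -
      have h1 := hΔ L' u v a x hx hS hdt
      exact (CharP.intCast_eq_zero_iff L' p _).1 h1) (by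
      intro p hp hlt u v hnd'
      haveI : Fact p.Prime := ⟨hp⟩
      have h1 : eval₂ (Int.castRingHom (ZMod p)) (fun α => (u α : ZMod p)) ρ ≠ 0 := by
        intro h2
        apply hnd'
        rw [← ZMod.intCast_zmod_eq_zero_iff_dvd, ← h2]
        have h3 := MvPolynomial.eval₂_comp_left (Int.castRingHom (ZMod p)) (RingHom.id ℤ) u ρ
        rw [RingHom.comp_id] at h3
        have h4 : (Int.castRingHom (ZMod p)) (eval₂ (RingHom.id ℤ) u ρ) =
            ((eval u ρ : ℤ) : ZMod p) := by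
          rw [eval₂_id, eq_intCast]
        rw [← h4, h3]
        rfl
      obtain ⟨S, hS, hS'⟩ := hmac (ZMod p) (fun α => (u α : ZMod p)) (fun α => (v α : ZMod p)) h1
      refine ⟨S, hS, ?_⟩
      rintro a ⟨L', hF, hC, x, hx, hSi, -⟩
      letI : Algebra (ZMod p) L' := ZMod.algebra L' p
      exact hS' _ ⟨L', hF, inferInstance, x, hx, (hpass p hp L' hF hC inferInstance u v a x).1.2 hSi⟩)
  obtain ⟨KB, hKB⟩ := sieveB ρ D M₁ hρ0
    (fun p hp h => hρ p hp (hnd p hp (lt_of_le_of_lt hM1d h)))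
    (TAILA_Bad n d m) (by
      intro p hp hlt u _
      haveI : Fact p.Prime := ⟨hp⟩
      have h2 : (2 : ZMod p) ≠ 0 := by
        intro h
        have h3 : ((2 : ℕ) : ZMod p) = 0 := by exact_mod_cast h
        rw [ZMod.natCast_eq_zero_iff] at h3
        exact absurd (Nat.le_of_dvd (by norm_num) h3) (by omega)
      obtain ⟨c, hc0, hcD, hc⟩ := hD (ZMod p) h2 (fun α => (u α : ZMod p))
      refine ⟨c, hc0, hcD, ?_⟩
      rintro v a ⟨L', hF, hC, x, hx, hSi, hdt⟩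
      letI : Algebra (ZMod p) L' := ZMod.algebra L' p
      have h4 := hpass p hp L' hF hC inferInstance u v a x
      exact hc L' (fun α => (v α : ZMod p)) (a : ZMod p) x hx (h4.1.2 hSi) (h4.2.trans hdt))
  refine ⟨KA + KB, M₁, ?_⟩
  intro M P hM hM' hP hPp
  obtain ⟨LA, hLA⟩ := hKA M P hM hM' hP hPp
  obtain ⟨LB, hLB⟩ := hKB M P hM hM' hP hPp
  refine ⟨max LA LB, ?_⟩
  intro L hL c₀ hc₀
  have hA := hLA L (le_trans (le_max_left _ _) hL) (fun α => c₀ α.1) (fun α => c₀ α.1)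
    (c₀ ⟨Finsupp.single m d, single_mem n d m⟩) (fun α => hc₀ _) (fun α => hc₀ _) (hc₀ _)
  have hB := hLB L (le_trans (le_max_right _ _) hL) (fun α => c₀ α.1) (fun α => c₀ α.1)
    (c₀ ⟨Finsupp.single m d, single_mem n d m⟩) (fun α => hc₀ _) (fun α => hc₀ _) (hc₀ _)
  obtain ⟨e, he⟩ := exists_equiv n d m (by omega) L
  rw [card_mon n d m (by omega)]
  have hsub : Fintype.card (Um n d m) + Fintype.card (Vm n d m) + 1 - 1 =
      Fintype.card (Um n d m) + Fintype.card (Vm n d m) := by omega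
  rw [hsub]
  have hcard := TAILA_card e (fun x : Mon n d → Fin L => ∃ p : ℕ, p.Prime ∧ M < p ∧
          ∃ (L' : Type) (_ : Field L') (_ : CharP L' p) (y : Fin (n + 1) → L'), y m = 1 ∧
            Sing (toF fun α => c₀ α + P * ((x α : ℕ) : ℤ)) y ∧
            hdet m (toF fun α => c₀ α + P * ((x α : ℕ) : ℤ)) y = 0)
        (fun y => ∃ p : ℕ, p.Prime ∧ M < p ∧
          ¬ (p : ℤ) ∣ eval (fun i : Um n d m => c₀ i.1 + P * ((y.1 i : ℕ) : ℤ)) ρ ∧
          TAILA_Bad n d m p (fun i => c₀ i.1 + P * ((y.1 i : ℕ) : ℤ))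
            (fun i => c₀ i.1 + P * ((y.2.1 i : ℕ) : ℤ))
            (c₀ ⟨Finsupp.single m d, single_mem n d m⟩ + P * ((y.2.2 : ℕ) : ℤ)))
        (fun y => ∃ p : ℕ, p.Prime ∧ M < p ∧
          (p : ℤ) ∣ eval (fun i : Um n d m => c₀ i.1 + P * ((y.1 i : ℕ) : ℤ)) ρ ∧
          TAILA_Bad n d m p (fun i => c₀ i.1 + P * ((y.1 i : ℕ) : ℤ))
            (fun i => c₀ i.1 + P * ((y.2.1 i : ℕ) : ℤ))
            (c₀ ⟨Finsupp.single m d, single_mem n d m⟩ + P * ((y.2.2 : ℕ) : ℤ)))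
  refine le_trans (Nat.mul_le_mul_left M (hcard ?_)) ?_
  · rintro x ⟨p, hp, hlt, L', hF, hC, y, hy, hS, hdt⟩
    rw [toF_eq_FF m (by omega)] at hS hdt
    obtain ⟨e1, e2, e3⟩ := he x
    have hbad : TAILA_Bad n d m p (fun i => c₀ i.1 + P * (((e x).1 i : ℕ) : ℤ))
            (fun i => c₀ i.1 + P * (((e x).2.1 i : ℕ) : ℤ))
            (c₀ ⟨Finsupp.single m d, single_mem n d m⟩ + P * (((e x).2.2 : ℕ) : ℤ)) := by
      refine ⟨L', hF, hC, y, hy, ?_, ?_⟩
      · simp only [e1, e2, e3]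
        exact hS
      · simp only [e1, e2, e3]
        exact hdt
    by_cases hdv : (p : ℤ) ∣ eval (fun i : Um n d m => c₀ i.1 + P * (((e x).1 i : ℕ) : ℤ)) ρ
    · right
      exact ⟨p, hp, hlt, hdv, hbad⟩
    · left
      exact ⟨p, hp, hlt, hdv, hbad⟩
  · rw [mul_add, add_mul]
    exact Nat.add_le_add hA hB

end Pool.Agent.NH
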