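import Pool.Agent.NodHyp.DensA
import Pool.Agent.NodHyp.Forms

set_option autoImplicit false

/-! # DENSB: densities

Let `M` be given, `P = primorial M` (product of the primes `≤ M`), `N = card (Mon n d)`; for `H` let `L = ⌊2 H / P⌋ + 1`. Identify the
forms in the box with the vectors `c : Mon n d → ℤ`, `|c α| ≤ H` (`toF`). The box is the disjoint union of the classes modulo `P`;
each class has at least `(L - 1) ^ N` elements and is contained in a set `{c₀ + P x : x ∈ (Fin L) ^ N}` with `|c₀ α| ≤ 2 P L`. Whether a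
form is nodal at all `p ≤ M` depends only on its class (`nodalAt_congr`). -/

namespace Pool.Agent.NH

open MvPolynomial

theorem DensB_nodal (n d : ℕ) (hd : 3 ≤ d) {p : ℕ} (hp : p.Prime) :
    ∃ F : MvPolynomial (Fin (n + 1)) ℤ, F.IsHomogeneous d ∧ NodalAt F p := by
  obtain ⟨F, hF, h⟩ := exists_smooth n d hd hp
  refine ⟨F, hF, fun L _ _ x m hm h0 h1 => ?_⟩
  exact absurd (congrFun (h L x ⟨h0, h1⟩) m) hm

/-- Chinese remainder theorem for forms. -/
theorem DensB_crt (n d : ℕ) (f : ℕ → MvPolynomial (Fin (n + 1)) ℤ)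
    (S : Finset ℕ) (hS : ∀ p ∈ S, p.Prime) (hf : ∀ p ∈ S, (f p).IsHomogeneous d) :
    ∃ F : MvPolynomial (Fin (n + 1)) ℤ, F.IsHomogeneous d ∧
      ∀ p ∈ S, C (p : ℤ) ∣ f p - F := by
  classical
  induction S using Finset.induction_on with
  | empty => exact ⟨0, isHomogeneous_zero _ _ _, by simp⟩
  | insert q S hq ih =>
    obtain ⟨F, hF, hd⟩ := ih (fun p hp => hS p (Finset.mem_insert_of_mem hp))
      (fun p hp => hf p (Finset.mem_insert_of_mem hp))
    have hqp := hS q (Finset.mem_insert_self _ _)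
    have hcop : Nat.Coprime (∏ p ∈ S, p) q := by
      refine Nat.Coprime.prod_left fun p hp => ?_
      have hpp := hS p (Finset.mem_insert_of_mem hp)
      rw [Nat.coprime_primes hpp hqp]
      rintro rfl
      exact hq hp
    have hcop' : IsCoprime ((∏ p ∈ S, p : ℕ) : ℤ) (q : ℤ) := Nat.isCoprime_iff_coprime.2 hcop
    obtain ⟨a, b, hab⟩ := hcop'
    have hC : (C a : MvPolynomial (Fin (n + 1)) ℤ) * C ((∏ p ∈ S, p : ℕ) : ℤ) +
        C b * C (q : ℤ) = 1 := by
      rw [← C_mul, ← C_mul, ← C_add, hab, C_1]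
    refine ⟨C (b * q) * F + C (a * ((∏ p ∈ S, p : ℕ) : ℤ)) * f q, ?_, ?_⟩
    · refine IsHomogeneous.add ?_ ?_
      · have := (isHomogeneous_C (Fin (n + 1)) (b * (q : ℤ))).mul hF
        rwa [zero_add] at this
      · have := (isHomogeneous_C (Fin (n + 1)) (a * ((∏ p ∈ S, p : ℕ) : ℤ))).mul
          (hf q (Finset.mem_insert_self _ _))
        rwa [zero_add] at this
    · intro p hp
      rcases Finset.mem_insert.1 hp with rfl | hp
      · refine ⟨C b * (f p - F), ?_⟩
        rw [C_mul, C_mul]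
        linear_combination (-(f p)) * hC
      · obtain ⟨g, hg⟩ := hd p hp
        have hdiv : (C (p : ℤ) : MvPolynomial (Fin (n + 1)) ℤ) ∣ C ((∏ p ∈ S, p : ℕ) : ℤ) := by
          refine map_dvd C ?_
          exact_mod_cast Finset.dvd_prod_of_mem (fun p => p) hp
        have heq : f p - (C (b * (q : ℤ)) * F + C (a * ((∏ p ∈ S, p : ℕ) : ℤ)) * f q) =
            (f p - F) + C ((∏ p ∈ S, p : ℕ) : ℤ) * (C a * (F - f q)) := by
          rw [C_mul, C_mul]
          linear_combination (-F) * hC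
        rw [heq]
        exact dvd_add (hd p hp) (dvd_mul_of_dvd_left hdiv _)

/-- Nodal classes exist: Chinese remainder theorem and `exists_smooth`. -/
theorem exists_nodal_class (n d : ℕ) (hd : 3 ≤ d) (M : ℕ) :
    ∃ F : MvPolynomial (Fin (n + 1)) ℤ, F.IsHomogeneous d ∧
      ∀ p : ℕ, p ≤ M → p.Prime → NodalAt F p := by
  classical
  have h1 : ∀ p : ℕ, ∃ F : MvPolynomial (Fin (n + 1)) ℤ, p.Prime →
      F.IsHomogeneous d ∧ NodalAt F p := by
    intro p
    by_cases hp : p.Prime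
    · obtain ⟨F, hF⟩ := DensB_nodal n d hd hp
      exact ⟨F, fun _ => hF⟩
    · exact ⟨0, fun h => absurd h hp⟩
  choose f hf using h1
  obtain ⟨F, hF, hdiv⟩ := DensB_crt n d f ((Finset.range (M + 1)).filter Nat.Prime)
    (fun p hp => (Finset.mem_filter.1 hp).2) (fun p hp => (hf p (Finset.mem_filter.1 hp).2).1)
  refine ⟨F, hF, fun p hp hpp => ?_⟩
  exact nodalAt_congr (hdiv p (Finset.mem_filter.2 ⟨Finset.mem_range.2 (by omega), hpp⟩))
    (hf p hpp).2

/-- The forms which are nodal at all `p ≤ M` have positive density. -/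
theorem density_pos (n d : ℕ) (hd : 3 ≤ d) (M : ℕ) : ∃ c : ℝ, 0 < c ∧ ∃ H₀ : ℕ, ∀ H : ℕ, H₀ ≤ H →
    c * ((Box n d H).ncard : ℝ) ≤
      ({F ∈ Box n d H | ∀ p : ℕ, p ≤ M → p.Prime → NodalAt F p}.ncard : ℝ) := by
  obtain ⟨F, hF, hnod⟩ := exists_nodal_class n d hd M
  have hP : 0 < primorial M := primorial_pos M
  set P := primorial M with hPdef
  have hPr : (0 : ℝ) < P := by exact_mod_cast hP
  refine ⟨(1 / (4 * (P : ℝ))) ^ Fintype.card (Mon n d), by positivity, P, fun H hH => ?_⟩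
  have hsub : {G ∈ Box n d H | C (P : ℤ) ∣ G - F} ⊆
      {F ∈ Box n d H | ∀ p : ℕ, p ≤ M → p.Prime → NodalAt F p} := by
    rintro G ⟨hG, hdvd⟩
    refine ⟨hG, fun p hp hpp => ?_⟩
    refine nodalAt_congr (F := F) ?_ (hnod p hp hpp)
    have h1 : (p : ℤ) ∣ (P : ℤ) := by
      have : p ∣ P := by
        rw [hPdef, primorial]
        exact Finset.dvd_prod_of_mem (fun p => p)
          (Finset.mem_filter.2 ⟨Finset.mem_range.2 (by omega), hpp⟩)
      exact_mod_cast this
    have h2 : (C (p : ℤ) : MvPolynomial (Fin (n + 1)) ℤ) ∣ C (P : ℤ) := map_dvd C h1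
    have h3 := h2.trans hdvd
    rw [← neg_sub] 
    exact (dvd_neg).2 h3
  have hfin : {F ∈ Box n d H | ∀ p : ℕ, p ≤ M → p.Prime → NodalAt F p}.Finite :=
    (box_finite n d H).subset fun G hG => hG.1
  have h1 := (class_count n d hP H F hF).1.trans (Set.ncard_le_ncard hsub hfin)
  have h2 : ((2 * H / P : ℕ) : ℝ) ^ Fintype.card (Mon n d) ≤
      ({F ∈ Box n d H | ∀ p : ℕ, p ≤ M → p.Prime → NodalAt F p}.ncard : ℝ) := by
    exact_mod_cast h1
  refine le_trans ?_ h2
  rw [card_box]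
  push_cast
  rw [← mul_pow]
  refine pow_le_pow_left₀ (by positivity) ?_ _
  have h3 : 2 * H < P * (2 * H / P + 1) := Nat.lt_mul_div_succ (2 * H) hP
  have h3' : (2 : ℝ) * H < P * (((2 * H / P : ℕ) : ℝ) + 1) := by exact_mod_cast h3
  have h4 : (P : ℝ) ≤ H := by exact_mod_cast hH
  have h5 : (1 : ℝ) ≤ P := by exact_mod_cast hP
  rw [div_mul_eq_mul_div, div_le_iff₀ (by positivity)]
  nlinarith

end Pool.Agent.NH
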