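import Pool.Agent.NodHyp.SZ
import Pool.Agent.NodHyp.FormsB
import Pool.Agent.NodHyp.FormsC
import Pool.Agent.NodHyp.Mac

set_option autoImplicit false

/-! # TAILB: few forms are bad at some prime `p > M`, or singular over `ℚ` -/

namespace Pool.Agent.NH

open MvPolynomial

theorem TAILB_fiber {α γ : Type} [Fintype α] [Fintype γ] (T : α → Set γ) (C : ℕ)
    (h : ∀ a, (T a).ncard ≤ C) : Nat.card {y : α × γ // y.2 ∈ T y.1} ≤ Fintype.card α * C := by
  classical
  have e : {y : α × γ // y.2 ∈ T y.1} ≃ (Σ a : α, {w : γ // w ∈ T a}) :=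
    { toFun := fun y => ⟨y.1.1, y.1.2, y.2⟩
      invFun := fun y => ⟨(y.1, y.2.1), y.2.2⟩
      left_inv := fun y => rfl
      right_inv := fun y => rfl }
  rw [Nat.card_congr e, Nat.card_sigma]
  calc ∑ a : α, Nat.card {w : γ // w ∈ T a} ≤ ∑ _a : α, C := Finset.sum_le_sum fun a _ => h a
    _ = Fintype.card α * C := by simp

theorem TAILB_ap {L P : ℕ} (hP : 1 ≤ P) (a₀ : ℤ) (S : Finset ℚ) (C : ℕ) (hS : S.card ≤ C) :
    ({w : Fin L | ((a₀ + P * ((w : ℕ) : ℤ) : ℤ) : ℚ) ∈ S} : Set (Fin L)).ncard ≤ C := by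
  classical
  refine le_trans ?_ hS
  rw [← Set.ncard_coe_finset]
  apply Set.ncard_le_ncard_of_injOn (fun w : Fin L => ((a₀ + P * ((w : ℕ) : ℤ) : ℤ) : ℚ))
  · intro w hw
    exact hw
  · intro w _ w' _ h
    have h1 : (a₀ + P * ((w : ℕ) : ℤ) : ℤ) = a₀ + P * ((w' : ℕ) : ℤ) := Int.cast_injective h
    have h2 : (P : ℤ) * ((w : ℕ) : ℤ) = P * ((w' : ℕ) : ℤ) := by linarith
    have hP' : (P : ℤ) ≠ 0 := by exact_mod_cast (by omega : P ≠ 0)
    have h3 := mul_left_cancel₀ hP' h2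
    exact Fin.ext (by exact_mod_cast h3)

/-- Singular over `ℚ`, one chart: `ρ (u) = 0` (`sz_int`), or at most `C` values of `a` (`mac` with `k = ℚ`). -/
theorem sing_chart (n d : ℕ) (hd : 3 ≤ d) (m : Fin (n + 1)) : ∃ K : ℕ, ∀ (P : ℕ), 1 ≤ P →
    ∀ (L : ℕ) (c₀ : Mon n d → ℤ),
      Nat.card {x : Mon n d → Fin L // ∃ (L' : Type) (_ : Field L') (_ : CharZero L')
        (y : Fin (n + 1) → L'), y m = 1 ∧ Sing (toF fun α => c₀ α + P * ((x α : ℕ) : ℤ)) y} ≤
        K * L ^ (Fintype.card (Mon n d) - 1) := by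
  classical
  obtain ⟨ρ, C, hρ, hmac⟩ := mac n d (by omega) m
  have hρ0 : ρ ≠ 0 := by
    obtain ⟨p, hpd, hp⟩ := Nat.exists_infinite_primes (d + 1)
    intro h
    refine hρ p hp (fun h' => ?_) (by rw [h, map_zero])
    have := Nat.le_of_dvd (by omega) h'
    omega
  refine ⟨ρ.totalDegree + C, fun P hP L c₀ => ?_⟩
  obtain ⟨e, he⟩ := exists_equiv n d m (by omega) L
  -- the set of bad values of `a`
  set α₀ : Mon n d := ⟨Finsupp.single m d, single_mem n d m⟩ with hα₀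
  let uu : (Um n d m → Fin L) → (Um n d m → ℤ) := fun x i => c₀ i.1 + P * ((x i : ℕ) : ℤ)
  let vv : (Vm n d m → Fin L) → (Vm n d m → ℤ) := fun x i => c₀ i.1 + P * ((x i : ℕ) : ℤ)
  have key : ∀ (u : Um n d m → Fin L) (v : Vm n d m → Fin L), eval (uu u) ρ ≠ 0 →
      ∃ S : Finset ℚ, S.card ≤ C ∧ ∀ a : ℤ, (∃ (L' : Type) (_ : Field L') (_ : CharZero L')
        (y : Fin (n + 1) → L'), y m = 1 ∧ Sing (FF m (uu u) (vv v) a) y) → (a : ℚ) ∈ S := by
    intro u v hu
    have hu' : eval₂ (Int.castRingHom ℚ) (fun i => ((uu u i : ℤ) : ℚ)) ρ ≠ 0 := by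
      have h1 : eval₂ (Int.castRingHom ℚ) (fun i => ((uu u i : ℤ) : ℚ)) ρ =
          Int.castRingHom ℚ (eval (uu u) ρ) := by
        rw [← MvPolynomial.eval₂_id, MvPolynomial.hom_eval₂]
        rfl
      rw [h1]
      simpa using hu
    obtain ⟨S, hS, hS2⟩ := hmac ℚ _ (fun i => ((vv v i : ℤ) : ℚ)) hu'
    refine ⟨S, hS, ?_⟩
    rintro a ⟨L', hL', hL0, y, hy, hs⟩
    refine hS2 (a : ℚ) ⟨L', hL', DivisionRing.toRatAlgebra, y, hy, ?_⟩
    let _ : Algebra ℚ L' := DivisionRing.toRatAlgebra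
    have h1 := (sing_map (L := L') (Int.castRingHom ℚ) (fun r => by simp)
      (FF m (uu u) (vv v) a) y m).1
    rw [map_FF] at h1
    exact h1.2 hs
  choose! S hS1 hS2 using key
  -- the two classes
  let T : ((Um n d m → Fin L) × (Vm n d m → Fin L)) → Set (Fin L) := fun q =>
    {w : Fin L | eval (uu q.1) ρ ≠ 0 ∧ ((c₀ α₀ + P * ((w : ℕ) : ℤ) : ℤ) : ℚ) ∈ S q.1 q.2}
  have hT : ∀ q, (T q).ncard ≤ C := by
    intro q
    by_cases hq : eval (uu q.1) ρ ≠ 0
    · refine le_trans (Set.ncard_le_ncard ?_ (Set.toFinite _))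
        (TAILB_ap (L := L) hP (c₀ α₀) (S q.1 q.2) C (hS1 q.1 q.2 hq))
      intro w hw
      exact hw.2
    · have : T q = ∅ := by
        ext w
        simp only [T, Set.mem_ofPred_eq, Set.mem_empty_iff_false, iff_false]
        exact fun h => hq h.1
      rw [this, Set.ncard_empty]
      exact Nat.zero_le _
  have hB := TAILB_fiber T C hT
  have hA := sz_int hρ0 hP L (fun i : Um n d m => c₀ i.1)
  set A := {x : Um n d m → Fin L // eval (fun i => c₀ i.1 + P * ((x i : ℕ) : ℤ)) ρ = 0} with hAdef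
  set B := {y : ((Um n d m → Fin L) × (Vm n d m → Fin L)) × Fin L // y.2 ∈ T y.1} with hBdef
  have hinj : Nat.card {x : Mon n d → Fin L // ∃ (L' : Type) (_ : Field L') (_ : CharZero L')
        (y : Fin (n + 1) → L'), y m = 1 ∧ Sing (toF fun α => c₀ α + P * ((x α : ℕ) : ℤ)) y} ≤
      Nat.card ((A × (Vm n d m → Fin L) × Fin L) ⊕ B) := by
    let f : {x : Mon n d → Fin L // ∃ (L' : Type) (_ : Field L') (_ : CharZero L')
        (y : Fin (n + 1) → L'), y m = 1 ∧ Sing (toF fun α => c₀ α + P * ((x α : ℕ) : ℤ)) y} →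
        (A × (Vm n d m → Fin L) × Fin L) ⊕ B := fun x =>
      if h : eval (fun i => c₀ i.1 + P * (((e x.1).1 i : ℕ) : ℤ)) ρ = 0 then
        Sum.inl (⟨(e x.1).1, h⟩, (e x.1).2.1, (e x.1).2.2)
      else Sum.inr ⟨(((e x.1).1, (e x.1).2.1), (e x.1).2.2), by
        refine ⟨h, hS2 _ _ h _ ?_⟩
        obtain ⟨L', hL', hL0, y, hy, hs⟩ := x.2
        refine ⟨L', hL', hL0, y, hy, ?_⟩
        rw [toF_eq_FF m (by omega)] at hs
        have h1 : uu (e x.1).1 = fun α : Um n d m => c₀ α.1 + P * ((x.1 α.1 : ℕ) : ℤ) := by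
          funext i
          simp only [uu, (he x.1).1]
        have h2 : vv (e x.1).2.1 = fun α : Vm n d m => c₀ α.1 + P * ((x.1 α.1 : ℕ) : ℤ) := by
          funext i
          simp only [vv, (he x.1).2.1]
        have h3 : c₀ α₀ + P * (((e x.1).2.2 : ℕ) : ℤ) = c₀ α₀ + P * ((x.1 α₀ : ℕ) : ℤ) := by
          rw [(he x.1).2.2]
        rw [h1, h2, h3]
        exact hs⟩
    apply Nat.card_le_card_of_injective f
    intro x x' hxx
    apply Subtype.ext
    apply e.injective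
    simp only [f] at hxx
    split_ifs at hxx with h1 h2 h2
    · have h3 := Sum.inl.inj hxx
      have h4 := congrArg (fun q => (q.1.1, q.2.1, q.2.2)) h3
      exact h4
    · have h3 := Sum.inr.inj hxx
      have h4 := congrArg (fun q => (q.1.1.1, q.1.1.2, q.1.2)) h3
      exact h4
  refine le_trans hinj ?_
  rw [Nat.card_sum, Nat.card_prod, Nat.card_prod, Nat.card_eq_fintype_card (α := Fin L),
    Nat.card_eq_fintype_card (α := Vm n d m → Fin L), Fintype.card_fin, Fintype.card_fun,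
    Fintype.card_fin]
  rw [Fintype.card_prod, Fintype.card_fun, Fintype.card_fun, Fintype.card_fin] at hB
  rw [card_mon n d m (by omega), Nat.add_sub_cancel, pow_add]
  have h4 : Nat.card A * (L ^ Fintype.card (Vm n d m) * L) ≤
      ρ.totalDegree * (L ^ Fintype.card (Um n d m) * L ^ Fintype.card (Vm n d m)) := by
    calc Nat.card A * (L ^ Fintype.card (Vm n d m) * L) =
        (L * Nat.card A) * L ^ Fintype.card (Vm n d m) := by ring
      _ ≤ (ρ.totalDegree * L ^ Fintype.card (Um n d m)) * L ^ Fintype.card (Vm n d m) :=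
        Nat.mul_le_mul_right _ hA
      _ = _ := by ring
  calc _ ≤ ρ.totalDegree * (L ^ Fintype.card (Um n d m) * L ^ Fintype.card (Vm n d m)) +
      L ^ Fintype.card (Um n d m) * L ^ Fintype.card (Vm n d m) * C := add_le_add h4 hB
    _ = _ := by ring

end Pool.Agent.NH
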