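import Pool.Agent.NodHyp.TailA
import Pool.Agent.NodHyp.TailB

set_option autoImplicit false

/-! # TAILC: all charts together -/

namespace Pool.Agent.NH

open MvPolynomial

/-- All charts together (`nodalAt_iff`, `smoothQ_iff`). -/
theorem tail (n d : ℕ) (hd : 3 ≤ d) : ∃ K M₁ : ℕ, ∀ M P : ℕ, M₁ ≤ M → 1 ≤ M → 1 ≤ P →
    (∀ p : ℕ, p.Prime → M < p → ¬ p ∣ P) → ∃ L₀ : ℕ, ∀ L : ℕ, L₀ ≤ L →
      ∀ c₀ : Mon n d → ℤ, (∀ α, |c₀ α| ≤ 2 * P * L) →
        M * Nat.card {x : Mon n d → Fin L //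
          ¬ (SmoothQ (toF fun α => c₀ α + P * ((x α : ℕ) : ℤ)) ∧
            ∀ p : ℕ, p.Prime → M < p → NodalAt (toF fun α => c₀ α + P * ((x α : ℕ) : ℤ)) p)} ≤
          K * (L ^ Fintype.card (Mon n d) + M * L ^ (Fintype.card (Mon n d) - 1)) := by
  classical
  choose KA MA hA using tail_chart n d hd
  choose KB hB using sing_chart n d hd
  refine ⟨∑ m, (KA m + KB m), ∑ m, MA m, ?_⟩
  intro M P hM h1M hP hprime
  have hMm : ∀ m, MA m ≤ M := fun m =>
    (Finset.single_le_sum (f := MA) (fun _ _ => Nat.zero_le _) (Finset.mem_univ m)).trans hM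
  choose L₀ hL₀ using fun m => hA m M P (hMm m) h1M hP hprime
  refine ⟨∑ m, L₀ m, ?_⟩
  intro L hL c₀ hc₀
  have hLm : ∀ m, L₀ m ≤ L := fun m =>
    (Finset.single_le_sum (f := L₀) (fun _ _ => Nat.zero_le _) (Finset.mem_univ m)).trans hL
  set N := Fintype.card (Mon n d) with hN
  set SA : Fin (n + 1) → Set (Mon n d → Fin L) := fun m => {x | ∃ p : ℕ, p.Prime ∧ M < p ∧
          ∃ (L' : Type) (_ : Field L') (_ : CharP L' p) (y : Fin (n + 1) → L'), y m = 1 ∧
            Sing (toF fun α => c₀ α + P * ((x α : ℕ) : ℤ)) y ∧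
            hdet m (toF fun α => c₀ α + P * ((x α : ℕ) : ℤ)) y = 0} with hSA
  set SB : Fin (n + 1) → Set (Mon n d → Fin L) := fun m => {x | ∃ (L' : Type) (_ : Field L')
        (_ : CharZero L') (y : Fin (n + 1) → L'), y m = 1 ∧
          Sing (toF fun α => c₀ α + P * ((x α : ℕ) : ℤ)) y} with hSB
  have hAc : ∀ m, M * (SA m).ncard ≤ KA m * (L ^ N + M * L ^ (N - 1)) := fun m =>
    hL₀ m L (hLm m) c₀ hc₀
  have hBc : ∀ m, (SB m).ncard ≤ KB m * L ^ (N - 1) := fun m => hB m P hP L c₀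
  set S : Set (Mon n d → Fin L) := {x |
          ¬ (SmoothQ (toF fun α => c₀ α + P * ((x α : ℕ) : ℤ)) ∧
            ∀ p : ℕ, p.Prime → M < p → NodalAt (toF fun α => c₀ α + P * ((x α : ℕ) : ℤ)) p)}
    with hS
  have hsub : S ⊆ ⋃ m : Fin (n + 1), (SA m ∪ SB m) := by
    intro x hx
    have hhom : (toF fun α => c₀ α + P * ((x α : ℕ) : ℤ)).IsHomogeneous d := toF_isHomogeneous _
    rw [Set.mem_iUnion]
    by_contra hcon
    push Not at hcon
    apply hx
    constructor
    · rw [smoothQ_iff hhom]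
      intro m L' _ _ y hy hsing
      exact hcon m (Or.inr ⟨L', inferInstance, inferInstance, y, hy, hsing⟩)
    · intro p hp hMp
      rw [nodalAt_iff hhom hp]
      intro m L' _ _ y hy hsing hdet0
      exact hcon m (Or.inl ⟨p, hp, hMp, L', inferInstance, inferInstance, y, hy, hsing, hdet0⟩)
  have h1 : S.ncard ≤ ∑ m, ((SA m).ncard + (SB m).ncard) := by
    refine (Set.ncard_le_ncard hsub (Set.toFinite _)).trans ?_
    have h2 : (⋃ m : Fin (n + 1), (SA m ∪ SB m)).ncard ≤ ∑ m, (SA m ∪ SB m).ncard := by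
      have h3 := Set.ncard_iUnion_le_of_fintype (fun m : Fin (n + 1) => SA m ∪ SB m)
      exact h3
    exact h2.trans (Finset.sum_le_sum fun m _ => Set.ncard_union_le _ _)
  show M * S.ncard ≤ _
  calc M * S.ncard ≤ M * ∑ m, ((SA m).ncard + (SB m).ncard) := Nat.mul_le_mul_left _ h1
    _ = ∑ m, (M * (SA m).ncard + M * (SB m).ncard) := by
        rw [Finset.mul_sum]
        exact Finset.sum_congr rfl fun m _ => mul_add _ _ _
    _ ≤ ∑ m, (KA m + KB m) * (L ^ N + M * L ^ (N - 1)) := by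
        refine Finset.sum_le_sum fun m _ => ?_
        have h4 := hAc m
        have h5 : M * (SB m).ncard ≤ M * (KB m * L ^ (N - 1)) := Nat.mul_le_mul_left _ (hBc m)
        have h6 : M * (KB m * L ^ (N - 1)) ≤ KB m * (L ^ N + M * L ^ (N - 1)) := by
          rw [mul_add]
          have : M * (KB m * L ^ (N - 1)) = KB m * (M * L ^ (N - 1)) := by ring
          omega
        rw [add_mul]
        omega
    _ = (∑ m, (KA m + KB m)) * (L ^ N + M * L ^ (N - 1)) := by rw [Finset.sum_mul]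

end Pool.Agent.NH
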