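import Pool.Agent.NodHyp.DensA
import Pool.Agent.NodHyp.DensB
import Pool.Agent.NodHyp.Tail

set_option autoImplicit false

/-! # DENSC: densities

Let `M` be given, `P = primorial M` (product of the primes `≤ M`), `N = card (Mon n d)`; for `H` let `L = ⌊2 H / P⌋ + 1`. Identify the
forms in the box with the vectors `c : Mon n d → ℤ`, `|c α| ≤ H` (`toF`). The box is the disjoint union of the classes modulo `P`;
each class has at least `(L - 1) ^ N` elements and is contained in a set `{c₀ + P x : x ∈ (Fin L) ^ N}` with `|c₀ α| ≤ 2 P L`. Whether a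
form is nodal at all `p ≤ M` depends only on its class (`nodalAt_congr`). -/

namespace Pool.Agent.NH

open MvPolynomial

/-- the numerical estimate -/
theorem DENSC_num {K N M L : ℕ} {ε : ℝ} (hε : 0 < ε) (hM : 2 * K * 2 ^ N / ε ≤ (M : ℝ))
    (hM1 : 1 ≤ M) (hL2 : 2 ≤ L) (hL : 2 * K * 2 ^ N / ε ≤ (L : ℝ)) (hN : 1 ≤ N) {b c : ℕ}
    (hb : M * b ≤ K * (L ^ N + M * L ^ (N - 1))) (hc : (L - 1) ^ N ≤ c) :
    (b : ℝ) ≤ ε * c := by
  have hM0 : (0 : ℝ) < M := by exact_mod_cast hM1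
  have hL0 : (0 : ℝ) < L := by exact_mod_cast (by omega : 0 < L)
  have hb' : (M : ℝ) * b ≤ K * (L ^ N + M * L ^ (N - 1)) := by exact_mod_cast hb
  have hc' : ((L : ℝ) - 1) ^ N ≤ c := by
    have h1 : (((L - 1 : ℕ) ^ N : ℕ) : ℝ) ≤ c := by exact_mod_cast hc
    rw [Nat.cast_pow, Nat.cast_sub (by omega)] at h1
    simpa using h1
  have h2 : (L : ℝ) ≤ 2 * ((L : ℝ) - 1) := by
    have : (2 : ℝ) ≤ L := by exact_mod_cast hL2
    linarith
  have h3 : (L : ℝ) ^ N ≤ 2 ^ N * c := by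
    calc (L : ℝ) ^ N ≤ (2 * ((L : ℝ) - 1)) ^ N := pow_le_pow_left₀ hL0.le h2 N
      _ = 2 ^ N * ((L : ℝ) - 1) ^ N := by rw [mul_pow]
      _ ≤ 2 ^ N * c := by gcongr
  have hLN : (L : ℝ) ^ N = L * L ^ (N - 1) := by
    obtain ⟨k, rfl⟩ : ∃ k, N = k + 1 := ⟨N - 1, by omega⟩
    rw [Nat.add_sub_cancel, pow_succ]
    ring
  have hc0 : (0 : ℝ) ≤ c := Nat.cast_nonneg c
  have hM2 : 2 * K * 2 ^ N ≤ (M : ℝ) * ε := by
    rwa [div_le_iff₀ hε] at hM
  have hL3 : 2 * K * 2 ^ N ≤ (L : ℝ) * ε := by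
    rwa [div_le_iff₀ hε] at hL
  -- first term
  have h4 : (K : ℝ) * L ^ N ≤ M * (ε / 2 * c) := by
    calc (K : ℝ) * L ^ N ≤ K * (2 ^ N * c) := by gcongr
      _ = (2 * K * 2 ^ N) * (c / 2) := by ring
      _ ≤ (M * ε) * (c / 2) := by gcongr
      _ = M * (ε / 2 * c) := by ring
  have h5 : (K : ℝ) * L ^ (N - 1) ≤ ε / 2 * c := by
    have h6 : (L : ℝ) * (K * L ^ (N - 1)) ≤ L * (ε / 2 * c) := by
      calc (L : ℝ) * (K * L ^ (N - 1)) = K * L ^ N := by rw [hLN]; ring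
        _ ≤ K * (2 ^ N * c) := by gcongr
        _ = (2 * K * 2 ^ N) * (c / 2) := by ring
        _ ≤ (L * ε) * (c / 2) := by gcongr
        _ = L * (ε / 2 * c) := by ring
    exact le_of_mul_le_mul_left h6 hL0
  have h7 : (M : ℝ) * b ≤ M * (ε * c) := by
    calc (M : ℝ) * b ≤ K * (L ^ N + M * L ^ (N - 1)) := hb'
      _ = K * L ^ N + M * (K * L ^ (N - 1)) := by ring
      _ ≤ M * (ε / 2 * c) + M * (ε / 2 * c) := by gcongr
      _ = M * (ε * c) := by ring
  exact le_of_mul_le_mul_left h7 hM0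

/-- Almost all forms which are nodal at the small primes are nodal at all primes and smooth over `ℚ`. -/
theorem density_main (n d : ℕ) (hd : 3 ≤ d) : ∀ ε : ℝ, 0 < ε → ∃ M₀ : ℕ, ∀ M : ℕ, M₀ ≤ M →
    ∃ H₀ : ℕ, ∀ H : ℕ, H₀ ≤ H →
      ({F ∈ Box n d H | (∀ p : ℕ, p ≤ M → p.Prime → NodalAt F p) ∧
        ¬ (SmoothQ F ∧ ∀ p : ℕ, p.Prime → NodalAt F p)}.ncard : ℝ) ≤
        ε * ({F ∈ Box n d H | ∀ p : ℕ, p ≤ M → p.Prime → NodalAt F p}.ncard : ℝ) := by
  classical
  intro ε hε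
  obtain ⟨K, M₁, htail⟩ := tail n d hd
  set N := Fintype.card (Mon n d) with hN
  have hN1 : 1 ≤ N := Fintype.card_pos_iff.2 ⟨⟨Finsupp.single 0 d, single_mem n d 0⟩⟩
  obtain ⟨Q, hQ⟩ := exists_nat_ge (2 * K * 2 ^ N / ε)
  refine ⟨max (max M₁ 1) Q, fun M hM => ?_⟩
  have hM₁ : M₁ ≤ M := le_trans (le_trans (le_max_left _ _) (le_max_left _ _)) hM
  have hM1 : 1 ≤ M := le_trans (le_trans (le_max_right _ _) (le_max_left _ _)) hM
  have hMQ : Q ≤ M := le_trans (le_max_right _ _) hM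
  set P := primorial M with hPdef
  have hP : 1 ≤ P := primorial_pos M
  have hPp : ∀ p : ℕ, p.Prime → M < p → ¬ p ∣ P := by
    intro p hp hMp hdvd
    rw [hPdef, primorial] at hdvd
    obtain ⟨q, hq, hpq⟩ := (Prime.dvd_finsetProd_iff hp.prime _).1 hdvd
    rw [Finset.mem_filter, Finset.mem_range] at hq
    have := (Nat.prime_dvd_prime_iff_eq hp hq.2).1 hpq
    omega
  have hPdvd : ∀ p : ℕ, p ≤ M → p.Prime → p ∣ P := by
    intro p hpM hp
    exact Finset.dvd_prod_of_mem _ (Finset.mem_filter.2 ⟨Finset.mem_range.2 (by omega), hp⟩)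
  obtain ⟨L₀, hL₀⟩ := htail M P hM₁ hM1 hP hPp
  refine ⟨P * (max (max L₀ 2) Q), fun H hH => ?_⟩
  set L := 2 * H / P + 1 with hL
  have hLbig : max (max L₀ 2) Q ≤ L := by
    have h1 : max (max L₀ 2) Q ≤ 2 * H / P := by
      rw [Nat.le_div_iff_mul_le (by omega)]
      calc max (max L₀ 2) Q * P = P * max (max L₀ 2) Q := by ring
        _ ≤ H := hH
        _ ≤ 2 * H := by omega
    omega
  have hLL₀ : L₀ ≤ L := le_trans (le_trans (le_max_left _ _) (le_max_left _ _)) hLbig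
  have hL2 : 2 ≤ L := le_trans (le_trans (le_max_right _ _) (le_max_left _ _)) hLbig
  have hLQ : Q ≤ L := le_trans (le_max_right _ _) hLbig
  -- finite sets
  have hfin := box_finite n d H
  set R : Set (MvPolynomial (Fin (n + 1)) ℤ) :=
    {F ∈ Box n d H | ∀ p : ℕ, p ≤ M → p.Prime → NodalAt F p} with hR
  set T : Set (MvPolynomial (Fin (n + 1)) ℤ) :=
    {F ∈ Box n d H | (∀ p : ℕ, p ≤ M → p.Prime → NodalAt F p) ∧
        ¬ (SmoothQ F ∧ ∀ p : ℕ, p.Prime → NodalAt F p)} with hT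
  have hRf : R.Finite := hfin.subset (fun F hF => hF.1)
  have hTf : T.Finite := hfin.subset (fun F hF => hF.1)
  have hTR : T ⊆ R := fun F hF => ⟨hF.1, hF.2.1⟩
  rw [Set.ncard_eq_toFinset_card R hRf, Set.ncard_eq_toFinset_card T hTf]
  let f : MvPolynomial (Fin (n + 1)) ℤ → MvPolynomial (Fin (n + 1)) (ZMod P) :=
    fun G => map (Int.castRingHom (ZMod P)) G
  have hf : ∀ F G : MvPolynomial (Fin (n + 1)) ℤ, f G = f F ↔ C (P : ℤ) ∣ G - F := by
    intro F G
    rw [MvPolynomial.C_dvd_iff_zmod, map_sub, sub_eq_zero]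
  have e1 : (hRf.toFinset.card : ℝ) = ∑ b ∈ hRf.toFinset.image f,
      ((hRf.toFinset.filter fun G => f G = b).card : ℝ) := by
    rw [Finset.card_eq_sum_card_image f hRf.toFinset]
    push_cast
    rfl
  have e2 : (hTf.toFinset.card : ℝ) = ∑ b ∈ hRf.toFinset.image f,
      ((hTf.toFinset.filter fun G => f G = b).card : ℝ) := by
    rw [Finset.card_eq_sum_card_fiberwise (s := hTf.toFinset) (t := hRf.toFinset.image f)
      (f := f)]
    · push_cast
      rfl
    · intro G hG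
      have hG' : G ∈ T := by simpa using hG
      exact Finset.mem_coe.2 (Finset.mem_image.2 ⟨G, hRf.mem_toFinset.2 (hTR hG'), rfl⟩)
  rw [e1, e2, Finset.mul_sum]
  refine Finset.sum_le_sum fun b hb => ?_
  obtain ⟨F, hF, rfl⟩ := Finset.mem_image.1 hb
  rw [hRf.mem_toFinset] at hF
  obtain ⟨hlow, c₀, hc₀, hG⟩ := class_count n d hP H F hF.1.1
  have hcong : ∀ G : MvPolynomial (Fin (n + 1)) ℤ, C (P : ℤ) ∣ G - F →
      ∀ p : ℕ, p ≤ M → p.Prime → NodalAt G p := by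
    intro G hGF p hpM hp
    refine nodalAt_congr (F := F) ?_ (hF.2 p hpM hp)
    have h1 : C (p : ℤ) ∣ (C (P : ℤ) : MvPolynomial (Fin (n + 1)) ℤ) := by
      obtain ⟨q, hq⟩ := hPdvd p hpM hp
      exact ⟨C (q : ℤ), by rw [← C_mul, hq]; push_cast; rfl⟩
    rw [← neg_sub]
    exact (dvd_neg).2 (h1.trans hGF)
  refine DENSC_num (K := K) (N := N) (M := M) (L := L) hε (hQ.trans (by exact_mod_cast hMQ)) hM1
    hL2 (hQ.trans (by exact_mod_cast hLQ)) hN1 ?_ ?_
  · refine le_trans (Nat.mul_le_mul_left M ?_) (hL₀ L hLL₀ c₀ hc₀)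
    have h2 : (hTf.toFinset.filter fun G => f G = f F).card ≤
        Nat.card {x : Mon n d → Fin L //
          ¬ (SmoothQ (toF fun α => c₀ α + P * ((x α : ℕ) : ℤ)) ∧
            ∀ p : ℕ, p.Prime → M < p → NodalAt (toF fun α => c₀ α + P * ((x α : ℕ) : ℤ)) p)} := by
      set W := {x : Mon n d → Fin L //
          ¬ (SmoothQ (toF fun α => c₀ α + P * ((x α : ℕ) : ℤ)) ∧
            ∀ p : ℕ, p.Prime → M < p →
              NodalAt (toF fun α => c₀ α + P * ((x α : ℕ) : ℤ)) p)} with hW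
      let _ : Fintype W := Fintype.ofFinite W
      have hsub : (hTf.toFinset.filter fun G => f G = f F) ⊆
          (Finset.univ : Finset W).image (fun x : W => toF fun α => c₀ α + P * ((x.1 α : ℕ) : ℤ)) := by
        intro G hG'
        rw [Finset.mem_filter, hTf.mem_toFinset] at hG'
        obtain ⟨hGT, hGf⟩ := hG'
        have hGF := (hf F G).1 hGf
        obtain ⟨x, hx⟩ := hG G hGT.1 hGF
        refine Finset.mem_image.2 ⟨⟨x, ?_⟩, Finset.mem_univ _, hx.symm⟩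
        rw [← hx]
        rintro ⟨hs, hn⟩
        refine hGT.2.2 ⟨hs, fun p hp => ?_⟩
        rcases Nat.lt_or_ge M p with h | h
        · exact hn p hp h
        · exact hcong G hGF p h hp
      calc _ ≤ _ := Finset.card_le_card hsub
        _ ≤ (Finset.univ : Finset W).card := Finset.card_image_le
        _ = Nat.card W := by rw [Finset.card_univ, Nat.card_eq_fintype_card]
    exact h2
  · have h3 : (hRf.toFinset.filter fun G => f G = f F).card =
        {G ∈ Box n d H | C (P : ℤ) ∣ G - F}.ncard := by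
      rw [← Set.ncard_coe_finset]
      congr 1
      ext G
      simp only [Finset.coe_filter, Set.Finite.mem_toFinset, Set.mem_ofPred_eq]
      constructor
      · rintro ⟨h4, h5⟩
        exact ⟨h4.1, (hf F G).1 h5⟩
      · rintro ⟨h4, h5⟩
        exact ⟨⟨h4, hcong G h5⟩, (hf F G).2 h5⟩
    rw [h3]
    have h6 : L - 1 = 2 * H / P := by omega
    rw [h6]
    exact hlow

end Pool.Agent.NH
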