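import Pool.Agent.NodHyp.Crit
import Pool.Agent.NodHyp.Dens

set_option autoImplicit false

/-! # MAIN: the main theorem from `nodal_hasModel` and the densities -/

open AlgebraicGeometry CategoryTheory CategoryTheory.Limits

namespace Pool.Agent.NH

open MvPolynomial Pool.MP_602153_ag

theorem hasRegularModel_of_nodal {n d : ℕ} (hn : 2 ≤ n) (hd : 2 ≤ d)
    {F : MvPolynomial (Fin (n + 1)) ℤ} (hF : F.IsHomogeneous d) (hsm : SmoothQ F)
    (hnod : ∀ p : ℕ, p.Prime → NodalAt F p) : HasRegularModel F := by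
  intro B _ _ ℬ _ y hy hsurj hker X hX
  exact nodal_hasModel hn hd hF hsm hnod B ℬ y hy hsurj hker X hX

/-- Almost all forms nodal at the small primes have a regular model. -/
theorem almost_all {n d : ℕ} (hn : 2 ≤ n) (hd : 3 ≤ d) : ∀ ε : ℝ, 0 < ε → ∃ M₀ : ℕ, ∀ M : ℕ,
    M₀ ≤ M → ∃ H₀ : ℕ, ∀ H : ℕ, H₀ ≤ H →
      ({F ∈ Box n d H | (∀ p : ℕ, p ≤ M → p.Prime → NodalAt F p) ∧
        ¬ (SmoothQ F ∧ HasRegularModel F)}.ncard : ℝ) ≤
        ε * ({F ∈ Box n d H | ∀ p : ℕ, p ≤ M → p.Prime → NodalAt F p}.ncard : ℝ) := by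
  intro ε hε
  obtain ⟨M₀, hM₀⟩ := density_main n d hd ε hε
  refine ⟨M₀, fun M hM => ?_⟩
  obtain ⟨H₀, hH₀⟩ := hM₀ M hM
  refine ⟨H₀, fun H hH => le_trans ?_ (hH₀ H hH)⟩
  have hsub : {F ∈ Box n d H | (∀ p : ℕ, p ≤ M → p.Prime → NodalAt F p) ∧
      ¬ (SmoothQ F ∧ HasRegularModel F)} ⊆
      {F ∈ Box n d H | (∀ p : ℕ, p ≤ M → p.Prime → NodalAt F p) ∧
        ¬ (SmoothQ F ∧ ∀ p : ℕ, p.Prime → NodalAt F p)} := by
    rintro F ⟨hF, h1, h2⟩
    refine ⟨hF, h1, fun h => h2 ⟨h.1, ?_⟩⟩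
    exact hasRegularModel_of_nodal hn (by omega) hF.1 h.1 h.2
  have hfin : {F ∈ Box n d H | (∀ p : ℕ, p ≤ M → p.Prime → NodalAt F p) ∧
      ¬ (SmoothQ F ∧ ∀ p : ℕ, p.Prime → NodalAt F p)}.Finite :=
    (box_finite n d H).subset fun F hF => hF.1
  exact_mod_cast Set.ncard_le_ncard hsub hfin

/-- A positive proportion of all hypersurfaces has a regular model. -/
theorem positive_proportion {n d : ℕ} (hn : 2 ≤ n) (hd : 3 ≤ d) : ∃ c : ℝ, 0 < c ∧ ∃ H₀ : ℕ,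
    ∀ H : ℕ, H₀ ≤ H → c * ((Box n d H).ncard : ℝ) ≤
      ({F ∈ Box n d H | SmoothQ F ∧ HasRegularModel F}.ncard : ℝ) := by
  obtain ⟨M, hM⟩ := almost_all hn hd (1 / 2) (by norm_num)
  obtain ⟨H₁, hH₁⟩ := hM M le_rfl
  obtain ⟨c, hc, H₂, hH₂⟩ := density_pos n d hd M
  refine ⟨c / 2, by positivity, max H₁ H₂, fun H hH => ?_⟩
  have h1 := hH₁ H ((le_max_left _ _).trans hH)
  have h2 := hH₂ H ((le_max_right _ _).trans hH)
  set A := {F ∈ Box n d H | ∀ p : ℕ, p ≤ M → p.Prime → NodalAt F p} with hA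
  set G := {F ∈ Box n d H | SmoothQ F ∧ HasRegularModel F} with hG
  set D := {F ∈ Box n d H | (∀ p : ℕ, p ≤ M → p.Prime → NodalAt F p) ∧
        ¬ (SmoothQ F ∧ HasRegularModel F)} with hD
  have hfin : (Box n d H).Finite := box_finite n d H
  have hsub : A ⊆ D ∪ G := by
    intro F hF
    by_cases h : SmoothQ F ∧ HasRegularModel F
    · exact Or.inr ⟨hF.1, h⟩
    · exact Or.inl ⟨hF.1, hF.2, h⟩
  have hfin' : (D ∪ G).Finite := hfin.subset (Set.union_subset (fun F hF => hF.1)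
    (fun F hF => hF.1))
  have h3 : (A.ncard : ℝ) ≤ D.ncard + G.ncard := by
    have h4 := (Set.ncard_le_ncard hsub hfin').trans (Set.ncard_union_le D G)
    exact_mod_cast h4
  linarith

/-- A positive proportion of all forms is smooth over `ℚ` and nodal modulo all primes. -/
theorem positive_proportion_nodal {n d : ℕ} (hd : 3 ≤ d) : ∃ c : ℝ, 0 < c ∧ ∃ H₀ : ℕ,
    ∀ H : ℕ, H₀ ≤ H → c * ((Box n d H).ncard : ℝ) ≤
      ({F ∈ Box n d H | SmoothQ F ∧ ∀ p : ℕ, p.Prime → NodalAt F p}.ncard : ℝ) := by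
  obtain ⟨M, hM⟩ := density_main n d hd (1 / 2) (by norm_num)
  obtain ⟨H₁, hH₁⟩ := hM M le_rfl
  obtain ⟨c, hc, H₂, hH₂⟩ := density_pos n d hd M
  refine ⟨c / 2, by positivity, max H₁ H₂, fun H hH => ?_⟩
  have h1 := hH₁ H ((le_max_left _ _).trans hH)
  have h2 := hH₂ H ((le_max_right _ _).trans hH)
  set A := {F ∈ Box n d H | ∀ p : ℕ, p ≤ M → p.Prime → NodalAt F p} with hA
  set G := {F ∈ Box n d H | SmoothQ F ∧ ∀ p : ℕ, p.Prime → NodalAt F p} with hG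
  set D := {F ∈ Box n d H | (∀ p : ℕ, p ≤ M → p.Prime → NodalAt F p) ∧
        ¬ (SmoothQ F ∧ ∀ p : ℕ, p.Prime → NodalAt F p)} with hD
  have hfin : (Box n d H).Finite := box_finite n d H
  have hsub : A ⊆ D ∪ G := by
    intro F hF
    by_cases h : SmoothQ F ∧ ∀ p : ℕ, p.Prime → NodalAt F p
    · exact Or.inr ⟨hF.1, h⟩
    · exact Or.inl ⟨hF.1, hF.2, h⟩
  have hfin' : (D ∪ G).Finite := hfin.subset (Set.union_subset (fun F hF => hF.1)
    (fun F hF => hF.1))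
  have h3 : (A.ncard : ℝ) ≤ D.ncard + G.ncard := by
    have h4 := (Set.ncard_le_ncard hsub hfin').trans (Set.ncard_union_le D G)
    exact_mod_cast h4
  linarith

end Pool.Agent.NH
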