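import Pool.Agent.NodHyp.Stmt

set_option autoImplicit false

/-!
# Nodal hypersurfaces: definitions

`NH`: hypersurfaces over `ℤ` all of whose reductions are nodal, and the local rings of the blow
up of the ideals `(p^j, ∂f)`.
-/

namespace Pool.Agent.NH

open MvPolynomial

/-- The Hessian matrix. -/
noncomputable def hess {R σ : Type} [CommRing R] (f : MvPolynomial σ R) :
    Matrix σ σ (MvPolynomial σ R) :=
  Matrix.of fun a b => pderiv a (pderiv b f)

/-- `O` is a local ring, in the field `K`, of the blow up of the ideals `(p ^ j, ∂f)`,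
`j = 1, ..., R`, on the hypersurface `f = 0` with function field in `K` (`θ` has kernel `(f)`);
`g j` generates the `j + 1`-st ideal. -/
structure IsBlow {σ K : Type} [Fintype σ] [Field K] (f : MvPolynomial σ ℤ) (p : ℕ) {R : ℕ}
    (θ : MvPolynomial σ ℤ →+* K) (g : Fin R → K) (O : Subring K) : Prop where
  poly : ∀ h, θ h ∈ O
  ne : ∀ j, g j ≠ 0
  left : ∀ j : Fin R, (p : K) ^ ((j : ℕ) + 1) / g j ∈ O
  right : ∀ j i, θ (pderiv i f) / g j ∈ O
  gen : ∀ j : Fin R, ∃ (c : MvPolynomial σ ℤ) (e : σ → MvPolynomial σ ℤ),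
    g j = θ (c * C (p : ℤ) ^ ((j : ℕ) + 1) + ∑ i, e i * pderiv i f)
  min : ∀ F : Subring K, (∀ h, θ h ∈ F) → (∀ j : Fin R, (p : K) ^ ((j : ℕ) + 1) / g j ∈ F) →
    (∀ j i, θ (pderiv i f) / g j ∈ F) → (∀ x ∈ F, x⁻¹ ∈ O → x⁻¹ ∈ F) → O ≤ F

/-- The variables of the first kind of charts: `inl i` the coordinates `y_i`, `inr (inl 0) = t`,
`inr (inl 1) = w`, `inr (inr i) = v_i`. -/
abbrev V1 (σ : Type) : Type := σ ⊕ (Fin 2 ⊕ σ)

section chart1

variable {σ : Type} [Fintype σ] [DecidableEq σ]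

noncomputable abbrev tt (σ : Type) : MvPolynomial (V1 σ) ℤ := X (Sum.inr (Sum.inl 0))
noncomputable abbrev ww (σ : Type) : MvPolynomial (V1 σ) ℤ := X (Sum.inr (Sum.inl 1))
noncomputable abbrev vv (i : σ) : MvPolynomial (V1 σ) ℤ := X (Sum.inr (Sum.inr i))
/-- polynomials in the `y_i` -/
noncomputable abbrev il (h : MvPolynomial σ ℤ) : MvPolynomial (V1 σ) ℤ := rename Sum.inl h

/-- the quadratic form `∑ B_ij v_i v_j` -/
noncomputable def qv (B : Matrix σ σ (MvPolynomial σ ℤ)) : MvPolynomial (V1 σ) ℤ :=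
  ∑ i, ∑ j, il (B i j) * vv i * vv j

/-- the strict transform of `f = Q(y) + p^k u` in the chart of level `s` -/
noncomputable def str1 (k s : ℕ) (B : Matrix σ σ (MvPolynomial σ ℤ)) (u : MvPolynomial σ ℤ) :
    MvPolynomial (V1 σ) ℤ :=
  if 2 * s + 2 ≤ k then qv B + il u * tt σ ^ (k - 2 * s - 2) * ww σ ^ (k - 2 * s)
  else if k = 2 * s + 1 then tt σ * qv B + il u * ww σ
  else tt σ ^ 2 * qv B + il u

/-- The relations of the charts of the first kind. -/
noncomputable def rel1 (f : MvPolynomial σ ℤ) (p k s : ℕ) (B : Matrix σ σ (MvPolynomial σ ℤ))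
    (u : MvPolynomial σ ℤ) (b : σ) : Fin 3 ⊕ σ → MvPolynomial (V1 σ) ℤ :=
  Sum.elim ![vv b - 1, C (p : ℤ) - tt σ * ww σ, str1 k s B u]
    (fun i => il (pderiv i f) - (tt σ * ww σ) ^ s * tt σ * vv i)

end chart1

section chart2

variable {σ : Type} [Fintype σ] [DecidableEq σ]

/-- The variables of the charts of the second kind: `inl i` the coordinates `y_i`, `inr i` the
variables `z_i`. -/
abbrev V2 (σ : Type) : Type := σ ⊕ σ

/-- The relations of the charts of the second kind. -/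
noncomputable def rel2 (f : MvPolynomial σ ℤ) (p k s : ℕ) (B : Matrix σ σ (MvPolynomial σ ℤ))
    (u : MvPolynomial σ ℤ) : Option σ → MvPolynomial (V2 σ) ℤ
  | none => ∑ i, ∑ j, rename Sum.inl (B i j) * X (Sum.inr i) * X (Sum.inr j) +
      rename Sum.inl u * C (p : ℤ) ^ (k - 2 * s)
  | some i => rename Sum.inl (pderiv i f) - C (p : ℤ) ^ s * X (Sum.inr i)

end chart2

end Pool.Agent.NH
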