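import Pool.Agent.NodHyp.FormsB

set_option autoImplicit false

/-! # DENSA: densities

Let `M` be given, `P = primorial M` (product of the primes `≤ M`), `N = card (Mon n d)`; for `H` let `L = ⌊2 H / P⌋ + 1`. Identify the
forms in the box with the vectors `c : Mon n d → ℤ`, `|c α| ≤ H` (`toF`). The box is the disjoint union of the classes modulo `P`;
each class has at least `(L - 1) ^ N` elements and is contained in a set `{c₀ + P x : x ∈ (Fin L) ^ N}` with `|c₀ α| ≤ 2 P L`. Whether a
form is nodal at all `p ≤ M` depends only on its class (`nodalAt_congr`). -/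

namespace Pool.Agent.NH

open MvPolynomial

theorem DensA_coeff_toF_ne {n d : ℕ} (c : Mon n d → ℤ) {α : Fin (n + 1) →₀ ℕ}
    (h : α ∉ Finset.finsuppAntidiag (Finset.univ : Finset (Fin (n + 1))) d) :
    coeff α (toF c) = 0 := by
  rw [toF, coeff_sum]
  refine Finset.sum_eq_zero fun β _ => ?_
  rw [coeff_monomial, if_neg]
  intro h1
  exact h (h1 ▸ β.2)

theorem DensA_toF_mem_box {n d H : ℕ} (c : Mon n d → ℤ) :
    toF c ∈ Box n d H ↔ ∀ α, |c α| ≤ (H : ℤ) := by
  constructor
  · intro h α
    have := h.2 α.1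
    rwa [coeff_toF] at this
  · intro h
    refine ⟨toF_isHomogeneous c, fun α => ?_⟩
    by_cases h1 : α ∈ Finset.finsuppAntidiag (Finset.univ : Finset (Fin (n + 1))) d
    · have := coeff_toF c ⟨α, h1⟩
      simp only at this
      rw [this]
      exact h _
    · rw [DensA_coeff_toF_ne c h1]
      simp

theorem DensA_box_eq (n d H : ℕ) : Box n d H =
    toF '' (↑(Fintype.piFinset fun _ : Mon n d => Finset.Icc (-(H : ℤ)) H) :
      Set (Mon n d → ℤ)) := by
  ext F
  constructor
  · intro hF
    obtain ⟨c, rfl⟩ := exists_toF hF.1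
    refine ⟨c, ?_, rfl⟩
    rw [Finset.mem_coe, Fintype.mem_piFinset]
    intro α
    rw [Finset.mem_Icc, ← abs_le]
    exact (DensA_toF_mem_box c).1 hF α
  · rintro ⟨c, hc, rfl⟩
    rw [Finset.mem_coe, Fintype.mem_piFinset] at hc
    refine (DensA_toF_mem_box c).2 fun α => ?_
    rw [abs_le, ← Finset.mem_Icc]
    exact hc α

theorem box_finite (n d H : ℕ) : (Box n d H).Finite := by
  rw [DensA_box_eq]
  exact (Finset.finite_toSet _).image _

theorem card_box (n d H : ℕ) : (Box n d H).ncard = (2 * H + 1) ^ Fintype.card (Mon n d) := by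
  rw [DensA_box_eq, Set.ncard_image_of_injective _ toF_injective, Set.ncard_coe_finset,
    Fintype.card_piFinset]
  simp only [Int.card_Icc]
  rw [Finset.prod_const, Finset.card_univ]
  congr 1
  omega

theorem DensA_dvd_iff {n d P : ℕ} (c c' : Mon n d → ℤ) :
    C (P : ℤ) ∣ toF c - toF c' ↔ ∀ α, (P : ℤ) ∣ c α - c' α := by
  rw [C_dvd_iff_dvd_coeff]
  constructor
  · intro h α
    have := h α.1
    rwa [coeff_sub, coeff_toF, coeff_toF] at this
  · intro h α
    rw [coeff_sub]
    by_cases h1 : α ∈ Finset.finsuppAntidiag (Finset.univ : Finset (Fin (n + 1))) d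
    · have h2 := coeff_toF c ⟨α, h1⟩
      have h3 := coeff_toF c' ⟨α, h1⟩
      simp only at h2 h3
      rw [h2, h3]
      exact h _
    · rw [DensA_coeff_toF_ne c h1, DensA_coeff_toF_ne c' h1]
      simp

/-- A class modulo `P` of the box is large, and is contained in a box of arithmetic progressions. -/
theorem class_count (n d : ℕ) {P : ℕ} (hP : 1 ≤ P) (H : ℕ) (F : MvPolynomial (Fin (n + 1)) ℤ)
    (hF : F.IsHomogeneous d) :
    (2 * H / P) ^ Fintype.card (Mon n d) ≤ {G ∈ Box n d H | C (P : ℤ) ∣ G - F}.ncard ∧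
    ∃ c₀ : Mon n d → ℤ, (∀ α, |c₀ α| ≤ 2 * P * (2 * H / P + 1 : ℕ)) ∧
      ∀ G ∈ Box n d H, C (P : ℤ) ∣ G - F → ∃ x : Mon n d → Fin (2 * H / P + 1),
        G = toF fun α => c₀ α + P * ((x α : ℕ) : ℤ) := by
  obtain ⟨f, rfl⟩ := exists_toF hF
  set K : ℕ := 2 * H / P with hK
  have hPz : (0 : ℤ) < P := by exact_mod_cast hP
  have hKH : P * K ≤ 2 * H := Nat.mul_div_le _ _
  have hKH' : 2 * H < P * K + P := by
    have := Nat.lt_mul_div_succ (2 * H) (show 0 < P by omega)
    rw [← hK] at this
    calc 2 * H < P * (K + 1) := this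
      _ = P * K + P := by ring
  have hKHz : (P : ℤ) * K ≤ 2 * H := by exact_mod_cast hKH
  have hKHz' : (2 : ℤ) * H < P * K + P := by exact_mod_cast hKH'
  -- the smallest representative
  set c₀ : Mon n d → ℤ := fun α => -(H : ℤ) + (f α + H) % P with hc₀
  have h0 : ∀ α, -(H : ℤ) ≤ c₀ α := fun α => by
    have := Int.emod_nonneg (f α + H) hPz.ne'
    simp only [hc₀]
    linarith
  have h1 : ∀ α, c₀ α < -(H : ℤ) + P := fun α => by
    have := Int.emod_lt_of_pos (f α + H) hPz
    simp only [hc₀]
    linarith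
  have h2 : ∀ α, (P : ℤ) ∣ f α - c₀ α := fun α => by
    have := Int.emod_add_mul_ediv (f α + H) P
    refine ⟨(f α + H) / P, ?_⟩
    simp only [hc₀]
    linarith
  refine ⟨?_, c₀, ?_, ?_⟩
  · -- lower bound
    have hsub : Set.range (fun x : Mon n d → Fin K => toF fun α => c₀ α + P * ((x α : ℕ) : ℤ)) ⊆
        {G ∈ Box n d H | C (P : ℤ) ∣ G - toF f} := by
      rintro _ ⟨x, rfl⟩
      refine ⟨(DensA_toF_mem_box _).2 fun α => ?_, (DensA_dvd_iff _ _).2 fun α => ?_⟩
      · have hx : ((x α : ℕ) : ℤ) + 1 ≤ K := by exact_mod_cast (x α).2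
        have hx0 : (0 : ℤ) ≤ ((x α : ℕ) : ℤ) := by positivity
        have h3 := h0 α
        have h4 := h1 α
        rw [abs_le]
        constructor
        · nlinarith
        · nlinarith
      · obtain ⟨q, hq⟩ := h2 α
        refine ⟨((x α : ℕ) : ℤ) - q, ?_⟩
        linarith
    have hinj : Function.Injective
        (fun x : Mon n d → Fin K => (toF fun α => c₀ α + P * ((x α : ℕ) : ℤ) :
          MvPolynomial (Fin (n + 1)) ℤ)) := by
      intro x y hxy
      have := toF_injective hxy
      funext α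
      have h3 := congrFun this α
      simp only [add_right_inj, mul_eq_mul_left_iff] at h3
      rcases h3 with h3 | h3
      · exact Fin.ext (by exact_mod_cast h3)
      · exact absurd h3 hPz.ne'
    have hfin : {G ∈ Box n d H | C (P : ℤ) ∣ G - toF f}.Finite :=
      (box_finite n d H).subset fun G hG => hG.1
    have h3 := Set.ncard_le_ncard hsub hfin
    rw [← Set.image_univ, Set.ncard_image_of_injective _ hinj, Set.ncard_univ,
      Nat.card_eq_fintype_card, Fintype.card_fun, Fintype.card_fin] at h3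
    exact h3
  · intro α
    have h3 := h0 α
    have h4 := h1 α
    have h5 : (2 * (P : ℤ) * ((K + 1 : ℕ) : ℤ)) = 2 * (P * K + P) := by push_cast; ring
    rw [h5, abs_le]
    constructor
    · linarith
    · have : (0 : ℤ) ≤ P * K := by positivity
      linarith
  · intro G hG hdvd
    obtain ⟨g, rfl⟩ := exists_toF hG.1
    have hg := (DensA_toF_mem_box g).1 hG
    have hd := (DensA_dvd_iff _ _).1 hdvd
    have h3 : ∀ α, ∃ y : Fin (K + 1), g α = c₀ α + P * ((y : ℕ) : ℤ) := by
      intro α
      obtain ⟨q, hq⟩ := h2 α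
      obtain ⟨r, hr⟩ := hd α
      have h4 : g α = c₀ α + P * (r + q) := by linarith
      have h5 := abs_le.1 (hg α)
      have h6 := h0 α
      have h7 := h1 α
      have h8 : 0 ≤ r + q := by
        by_contra hneg
        have : r + q ≤ -1 := by omega
        nlinarith
      have h9 : r + q < K + 1 := by
        by_contra hneg
        have : (K : ℤ) + 1 ≤ r + q := by omega
        nlinarith
      refine ⟨⟨(r + q).toNat, by omega⟩, ?_⟩
      simp only
      rw [Int.toNat_of_nonneg h8]
      exact h4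
    choose y hy using h3
    exact ⟨y, congrArg toF (funext hy)⟩

end Pool.Agent.NH
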