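import Pool.Agent.NodHyp.FDefs

set_option autoImplicit false

/-! # ELIMA: the universal critical point

Chart `x_m = 1`, `y_i = x_i` (`i ≠ m`). Among `Vm` let `lin i` be the exponent `(d - 1) e_m + e_i` (the linear monomial `y_i`), and `V'` the
others, so `card V' + n = card V`. Let `g ∈ ℤ[Um ⊕ (V' ⊕ {i // i ≠ m})]` be the sum of the monomials `c_α y^α` (`α` in `Um` and
`V'`, `y^α = ∏_{i ≠ m} y_i ^ α_i`; the third summand are the variables `y_i`), without linear terms.
`φ α` = the variable `c_α` for `α ∈ V'`, `φ (lin i) = - ∂g/∂y_i`; `h` = determinant of the Hessian of `g` with respect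
to the `y_i`. `δ = (n + 1) (d + 1)` is large enough.
The third property: specialise the coefficients in `V'` to `1` for `y_i ^ 2` (`α = (d - 2) e_m + 2 e_i`), `0` otherwise, and all
`y_i = 0`: the Hessian matrix becomes `2 · 1` (the top form has degree `d ≥ 3`).
The last property: `v'` = the images of `v`; `0 = ∂_i F (x) = v (lin i) + (∂g/∂y_i)(u, v', x)` as `x_m = 1`, and `h` becomes `hdet`
(linear and constant terms have no second derivatives). -/

namespace Pool.Agent.NH

open MvPolynomial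

namespace ElimAAux

variable {n d : ℕ} (m : Fin (n + 1))

/-- restriction of an exponent to the variables other than `x_m` -/
noncomputable def resE {n : ℕ} (m : Fin (n + 1)) (α : Fin (n + 1) →₀ ℕ) :
    {i : Fin (n + 1) // i ≠ m} →₀ ℕ :=
  Finsupp.equivFunOnFinite.symm fun i => α i.1

theorem resE_apply {n : ℕ} (m : Fin (n + 1)) (α : Fin (n + 1) →₀ ℕ)
    (i : {i : Fin (n + 1) // i ≠ m}) : resE m α i = α i.1 := rfl

theorem resE_sub {n : ℕ} (m : Fin (n + 1)) (α : Fin (n + 1) →₀ ℕ)
    (i : {i : Fin (n + 1) // i ≠ m}) :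
    resE m (α - Finsupp.single i.1 1) = resE m α - Finsupp.single i 1 := by
  ext j
  rw [Finsupp.tsub_apply, resE_apply, resE_apply, Finsupp.tsub_apply]
  congr 1
  by_cases h : i = j
  · subst h; simp
  · have h' : i.1 ≠ j.1 := fun h2 => h (Subtype.ext h2)
    rw [Finsupp.single_eq_of_ne (Ne.symm h'), Finsupp.single_eq_of_ne (Ne.symm h)]

/-- value of a monomial at a point with `x_m = 1` -/
theorem aeval_mon {R L : Type} [CommRing R] [CommRing L] [Algebra R L] {n : ℕ}
    (m : Fin (n + 1)) (α : Fin (n + 1) →₀ ℕ) (r : R) (x : Fin (n + 1) → L) (hx : x m = 1) :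
    aeval x (monomial α r) = algebraMap R L r *
      aeval (fun i : {i : Fin (n + 1) // i ≠ m} => x i.1) (monomial (resE m α) (1 : ℤ)) := by
  classical
  rw [aeval_monomial, aeval_monomial, map_one, one_mul]
  congr 1
  rw [Finsupp.prod_fintype _ _ (fun i => pow_zero _), Finsupp.prod_fintype _ _ (fun i => pow_zero _)]
  have h1 := Fintype.prod_subtype_mul_prod_subtype (fun i => i ≠ m) (fun i => x i ^ α i)
  rw [← h1]
  have h2 : ∏ i : {i : Fin (n + 1) // ¬ i ≠ m}, x i.1 ^ α i.1 = 1 := by
    apply Finset.prod_eq_one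
    intro i _
    have := i.2
    rw [not_not] at this
    rw [this, hx, one_pow]
  rw [h2, mul_one]
  rfl

/-- first derivative -/
theorem aeval_pd {R L : Type} [CommRing R] [CommRing L] [Algebra R L] {n : ℕ}
    (m : Fin (n + 1)) (α : Fin (n + 1) →₀ ℕ) (r : R) (x : Fin (n + 1) → L) (hx : x m = 1)
    (i : {i : Fin (n + 1) // i ≠ m}) :
    aeval x (pderiv i.1 (monomial α r)) = algebraMap R L r *
      aeval (fun i : {i : Fin (n + 1) // i ≠ m} => x i.1)
        (pderiv i (monomial (resE m α) (1 : ℤ))) := by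
  rw [pderiv_monomial, aeval_mon m _ _ x hx, pderiv_monomial, resE_sub, resE_apply, map_mul,
    map_natCast, one_mul, mul_assoc]
  congr 1
  rw [aeval_monomial, aeval_monomial]
  simp

/-- second derivative -/
theorem aeval_pd2 {R L : Type} [CommRing R] [CommRing L] [Algebra R L] {n : ℕ}
    (m : Fin (n + 1)) (α : Fin (n + 1) →₀ ℕ) (r : R) (x : Fin (n + 1) → L) (hx : x m = 1)
    (i j : {i : Fin (n + 1) // i ≠ m}) :
    aeval x (pderiv i.1 (pderiv j.1 (monomial α r))) = algebraMap R L r *
      aeval (fun i : {i : Fin (n + 1) // i ≠ m} => x i.1)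
        (pderiv i (pderiv j (monomial (resE m α) (1 : ℤ)))) := by
  rw [pderiv_monomial, aeval_pd m _ _ x hx, resE_sub, map_mul, map_natCast, mul_assoc]
  congr 1
  have e1 : pderiv j (monomial (resE m α) (1 : ℤ)) =
      C ((α j.1 : ℕ) : ℤ) * monomial (resE m α - Finsupp.single j 1) (1 : ℤ) := by
    rw [pderiv_monomial, C_mul_monomial, resE_apply, mul_one, one_mul]
  rw [e1, pderiv_C_mul, map_mul, aeval_C]
  simp


/-- the exponents in `V` other than the linear ones -/
abbrev V1 (n d : ℕ) (m : Fin (n + 1)) : Type := {α : Vm n d m // α.1.1 m ≠ d - 1}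

/-- the variables of the universal situation -/
abbrev Zt (n d : ℕ) (m : Fin (n + 1)) : Type :=
  Um n d m ⊕ (V1 n d m ⊕ {i : Fin (n + 1) // i ≠ m})

/-- the variables `y_i` among all variables -/
def emb (n d : ℕ) (m : Fin (n + 1)) : {i : Fin (n + 1) // i ≠ m} → Zt n d m :=
  fun i => Sum.inr (Sum.inr i)

theorem emb_inj (n d : ℕ) (m : Fin (n + 1)) : Function.Injective (emb n d m) := by
  intro a b h
  simpa [emb] using h

/-- the polynomial `g` after a differential operator `D` with respect to the `y_i` -/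
noncomputable def gP (n d : ℕ) (m : Fin (n + 1))
    (D : MvPolynomial {i : Fin (n + 1) // i ≠ m} ℤ → MvPolynomial {i : Fin (n + 1) // i ≠ m} ℤ) :
    MvPolynomial (Zt n d m) ℤ :=
  ∑ α : Um n d m, X (Sum.inl α) * rename (emb n d m) (D (monomial (resE m α.1.1) 1)) +
    ∑ α : V1 n d m, X (Sum.inr (Sum.inl α)) *
      rename (emb n d m) (D (monomial (resE m α.1.1.1) 1))

/-- value of `gP` -/
theorem aeval_gP {L : Type} [CommRing L] {n d : ℕ} (m : Fin (n + 1))
    (D : MvPolynomial {i : Fin (n + 1) // i ≠ m} ℤ → MvPolynomial {i : Fin (n + 1) // i ≠ m} ℤ)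
    (u : Um n d m → L) (v' : V1 n d m → L) (y : {i : Fin (n + 1) // i ≠ m} → L) :
    aeval (Sum.elim u (Sum.elim v' y)) (gP n d m D) =
      ∑ α : Um n d m, u α * aeval y (D (monomial (resE m α.1.1) 1)) +
      ∑ α : V1 n d m, v' α * aeval y (D (monomial (resE m α.1.1.1) 1)) := by
  have hc : (Sum.elim u (Sum.elim v' y)) ∘ (emb n d m) = y := rfl
  have h1 : aeval (Sum.elim u (Sum.elim v' y)) (∑ α : Um n d m, X (Sum.inl α) *
      rename (emb n d m) (D (monomial (resE m α.1.1) 1))) =
      ∑ α : Um n d m, u α * aeval y (D (monomial (resE m α.1.1) 1)) := by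
    rw [map_sum]
    refine Finset.sum_congr rfl fun α _ => ?_
    rw [map_mul, aeval_X, aeval_rename, hc, Sum.elim_inl]
  have h2 : aeval (Sum.elim u (Sum.elim v' y)) (∑ α : V1 n d m, X (Sum.inr (Sum.inl α)) *
      rename (emb n d m) (D (monomial (resE m α.1.1.1) 1))) =
      ∑ α : V1 n d m, v' α * aeval y (D (monomial (resE m α.1.1.1) 1)) := by
    rw [map_sum]
    refine Finset.sum_congr rfl fun α _ => ?_
    rw [map_mul, aeval_X, aeval_rename, hc, Sum.elim_inr, Sum.elim_inl]
  rw [gP, map_add, h1, h2]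

/-- the exponent of the linear monomial `y_i` -/
noncomputable def linE {n : ℕ} (d : ℕ) (m : Fin (n + 1)) (i : {i : Fin (n + 1) // i ≠ m}) :
    Fin (n + 1) →₀ ℕ := Finsupp.single m (d - 1) + Finsupp.single i.1 1

theorem linE_m {n : ℕ} (d : ℕ) (m : Fin (n + 1)) (i : {i : Fin (n + 1) // i ≠ m}) :
    linE d m i m = d - 1 := by
  rw [linE, Finsupp.add_apply, Finsupp.single_eq_same, Finsupp.single_eq_of_ne (Ne.symm i.2)]
  rfl

theorem linE_res {n : ℕ} (d : ℕ) (m : Fin (n + 1)) (i : {i : Fin (n + 1) // i ≠ m}) :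
    resE m (linE d m i) = Finsupp.single i 1 := by
  ext j
  rw [resE_apply, linE, Finsupp.add_apply, Finsupp.single_eq_of_ne j.2, zero_add]
  by_cases h : i = j
  · subst h; simp
  · have h' : i.1 ≠ j.1 := fun h2 => h (Subtype.ext h2)
    rw [Finsupp.single_eq_of_ne (Ne.symm h'), Finsupp.single_eq_of_ne (Ne.symm h)]

theorem mem_anti {n d : ℕ} (α : Fin (n + 1) →₀ ℕ) :
    α ∈ Finset.finsuppAntidiag (Finset.univ : Finset (Fin (n + 1))) d ↔
      (∑ i, α i) = d := by
  rw [Finset.mem_finsuppAntidiag]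
  constructor
  · intro h; exact h.1
  · intro h; exact ⟨h, Finset.subset_univ _⟩

theorem linE_mem {n d : ℕ} (hd : 3 ≤ d) (m : Fin (n + 1)) (i : {i : Fin (n + 1) // i ≠ m}) :
    linE d m i ∈ Finset.finsuppAntidiag (Finset.univ : Finset (Fin (n + 1))) d := by
  rw [mem_anti]
  simp only [linE, Finsupp.add_apply, Finset.sum_add_distrib, Finsupp.univ_sum_single_apply]
  omega

/-- the linear monomial as an element of `Vm` -/
noncomputable def lin {n d : ℕ} (hd : 3 ≤ d) (m : Fin (n + 1)) (i : {i : Fin (n + 1) // i ≠ m}) :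
    {α : Vm n d m // ¬ α.1.1 m ≠ d - 1} :=
  ⟨⟨⟨linE d m i, linE_mem hd m i⟩, by
    show linE d m i m ≠ 0 ∧ linE d m i m ≠ d
    rw [linE_m]; omega⟩, by
    rw [not_not]
    exact linE_m d m i⟩

theorem lin_bij {n d : ℕ} (hd : 3 ≤ d) (m : Fin (n + 1)) : Function.Bijective (lin hd m) := by
  constructor
  · intro i j h
    have h1 : linE d m i = linE d m j := by
      have := congrArg (fun z => z.1.1.1) h
      exact this
    have h2 := congrArg (resE m) h1
    rw [linE_res, linE_res] at h2
    exact Finsupp.single_left_injective one_ne_zero h2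
  · rintro ⟨⟨⟨α, hα⟩, h1⟩, h2⟩
    have h2' : α m = d - 1 := by
      rw [not_not] at h2
      exact h2
    have hs := (mem_anti α).1 hα
    have hle : Finsupp.single m (d - 1) ≤ α := by
      rw [Finsupp.single_le_iff, h2']
    have hsub : (∑ i, (α - Finsupp.single m (d - 1)) i) = 1 := by
      have h3 : (∑ i, (α - Finsupp.single m (d - 1)) i) + ∑ i, (Finsupp.single m (d - 1)) i = d := by
        rw [← Finset.sum_add_distrib]
        refine Eq.trans ?_ hs
        apply Finset.sum_congr rfl
        intro i _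
        rw [← Finsupp.add_apply, tsub_add_cancel_of_le hle]
      rw [Finsupp.univ_sum_single_apply] at h3
      omega
    have h4 : ((α - Finsupp.single m (d - 1)).sum fun _ k => k) = 1 := by
      rw [Finsupp.sum_fintype _ _ (fun _ => rfl)]
      exact hsub
    rw [Finsupp.sum_eq_one_iff] at h4
    obtain ⟨i, hi⟩ := h4
    have hαe : α = Finsupp.single m (d - 1) + Finsupp.single i 1 := by
      rw [← hi]
      exact (add_tsub_cancel_of_le hle).symm
    have him : i ≠ m := by
      rintro rfl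
      rw [hαe, Finsupp.add_apply, Finsupp.single_eq_same, Finsupp.single_eq_same] at h2'
      omega
    refine ⟨⟨i, him⟩, ?_⟩
    apply Subtype.ext
    apply Subtype.ext
    apply Subtype.ext
    exact hαe.symm

/-- sum over `Vm` of an expression -/
theorem sum_Vm {M : Type} [AddCommMonoid M] {n d : ℕ} (hd : 3 ≤ d) (m : Fin (n + 1))
    (f : Vm n d m → M) :
    ∑ α, f α = ∑ α : V1 n d m, f α.1 + ∑ i : {i : Fin (n + 1) // i ≠ m}, f (lin hd m i).1 := by
  have h3 : ∑ i : {i : Fin (n + 1) // i ≠ m}, f (lin hd m i).1 =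
      ∑ α : {α : Vm n d m // ¬ α.1.1 m ≠ d - 1}, f α.1 :=
    Equiv.sum_comp (Equiv.ofBijective _ (lin_bij hd m))
      (fun α : {α : Vm n d m // ¬ α.1.1 m ≠ d - 1} => f α.1)
  rw [h3]
  exact (Fintype.sum_subtype_add_sum_subtype (fun α : Vm n d m => α.1.1 m ≠ d - 1) f).symm

theorem card_V1 {n d : ℕ} (hd : 3 ≤ d) (m : Fin (n + 1)) :
    Fintype.card (V1 n d m) + n = Fintype.card (Vm n d m) := by
  classical
  have h1 : Fintype.card {i : Fin (n + 1) // i ≠ m} = n := by
    simp
  have h2 : Fintype.card (V1 n d m ⊕ {i : Fin (n + 1) // i ≠ m}) = Fintype.card (Vm n d m) := by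
    apply Fintype.card_congr
    exact (Equiv.sumCongr (Equiv.refl _) (Equiv.ofBijective _ (lin_bij hd m))).trans
      (Equiv.sumCompl (fun α : Vm n d m => α.1.1 m ≠ d - 1))
  rw [Fintype.card_sum, h1] at h2
  exact h2

theorem resE_single {n : ℕ} (d : ℕ) (m : Fin (n + 1)) : resE m (Finsupp.single m d) = 0 := by
  ext j
  rw [resE_apply, Finsupp.single_eq_of_ne j.2]
  rfl

/-- first derivatives of `FF` at a point with `x_m = 1` -/
theorem aeval_FF1 {R L : Type} [CommRing R] [CommRing L] [Algebra R L] {n d : ℕ} (hd : 3 ≤ d)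
    (m : Fin (n + 1)) (u : Um n d m → R) (v : Vm n d m → R) (a : R) (x : Fin (n + 1) → L)
    (hx : x m = 1) (i : {i : Fin (n + 1) // i ≠ m}) :
    aeval x (pderiv i.1 (FF m u v a)) =
      ∑ α : Um n d m, algebraMap R L (u α) *
        aeval (fun i : {i : Fin (n + 1) // i ≠ m} => x i.1)
          (pderiv i (monomial (resE m α.1.1) (1 : ℤ))) +
      ∑ α : V1 n d m, algebraMap R L (v α.1) *
        aeval (fun i : {i : Fin (n + 1) // i ≠ m} => x i.1)
          (pderiv i (monomial (resE m α.1.1.1) (1 : ℤ))) +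
      algebraMap R L (v (lin hd m i).1) := by
  have h1 : aeval x (pderiv i.1 (∑ α : Um n d m, monomial α.1.1 (u α))) =
      ∑ α : Um n d m, algebraMap R L (u α) *
        aeval (fun i : {i : Fin (n + 1) // i ≠ m} => x i.1)
          (pderiv i (monomial (resE m α.1.1) (1 : ℤ))) := by
    rw [map_sum, map_sum]
    exact Finset.sum_congr rfl fun α _ => aeval_pd m _ _ x hx i
  have h2 : aeval x (pderiv i.1 (∑ α : Vm n d m, monomial α.1.1 (v α))) =
      ∑ α : V1 n d m, algebraMap R L (v α.1) *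
        aeval (fun i : {i : Fin (n + 1) // i ≠ m} => x i.1)
          (pderiv i (monomial (resE m α.1.1.1) (1 : ℤ))) +
      algebraMap R L (v (lin hd m i).1) := by
    rw [map_sum, map_sum, sum_Vm hd m]
    have h3 : ∑ j : {i : Fin (n + 1) // i ≠ m}, aeval x (pderiv i.1
        (monomial (lin hd m j).1.1.1 (v (lin hd m j).1))) = algebraMap R L (v (lin hd m i).1) := by
      rw [Finset.sum_eq_single i]
      · rw [aeval_pd m _ _ x hx i]
        have h4 : resE m (lin hd m i).1.1.1 = Finsupp.single i 1 := linE_res d m i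
        have h5 : (monomial (Finsupp.single i 1) (1 : ℤ) :
          MvPolynomial {i : Fin (n + 1) // i ≠ m} ℤ) = X i := rfl
        rw [h4, h5, pderiv_X_self, map_one, mul_one]
      · intro j _ hj
        rw [aeval_pd m _ _ x hx i]
        have h4 : resE m (lin hd m j).1.1.1 = Finsupp.single j 1 := linE_res d m j
        have h5 : (monomial (Finsupp.single j 1) (1 : ℤ) :
          MvPolynomial {i : Fin (n + 1) // i ≠ m} ℤ) = X j := rfl
        rw [h4, h5, pderiv_X_of_ne hj, map_zero, mul_zero]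
      · intro h
        exact absurd (Finset.mem_univ i) h
    rw [h3]
    refine congrArg₂ (· + ·) ?_ rfl
    exact Finset.sum_congr rfl fun α _ => aeval_pd m _ _ x hx i
  have h3 : aeval x (pderiv i.1 (monomial (Finsupp.single m d) a)) = (0 : L) := by
    rw [aeval_pd m _ _ x hx i, resE_single]
    have h5 : (monomial (0 : {i : Fin (n + 1) // i ≠ m} →₀ ℕ) (1 : ℤ)) = 1 := rfl
    rw [h5, pderiv_one, map_zero, mul_zero]
  rw [FF, map_add, map_add, map_add, map_add, h1, h2, h3, add_zero, add_assoc]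

/-- second derivatives of `FF` at a point with `x_m = 1` -/
theorem aeval_FF2 {R L : Type} [CommRing R] [CommRing L] [Algebra R L] {n d : ℕ} (hd : 3 ≤ d)
    (m : Fin (n + 1)) (u : Um n d m → R) (v : Vm n d m → R) (a : R) (x : Fin (n + 1) → L)
    (hx : x m = 1) (i j : {i : Fin (n + 1) // i ≠ m}) :
    aeval x (pderiv i.1 (pderiv j.1 (FF m u v a))) =
      ∑ α : Um n d m, algebraMap R L (u α) *
        aeval (fun i : {i : Fin (n + 1) // i ≠ m} => x i.1)
          (pderiv i (pderiv j (monomial (resE m α.1.1) (1 : ℤ)))) +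
      ∑ α : V1 n d m, algebraMap R L (v α.1) *
        aeval (fun i : {i : Fin (n + 1) // i ≠ m} => x i.1)
          (pderiv i (pderiv j (monomial (resE m α.1.1.1) (1 : ℤ)))) := by
  have h1 : aeval x (pderiv i.1 (pderiv j.1 (∑ α : Um n d m, monomial α.1.1 (u α)))) =
      ∑ α : Um n d m, algebraMap R L (u α) *
        aeval (fun i : {i : Fin (n + 1) // i ≠ m} => x i.1)
          (pderiv i (pderiv j (monomial (resE m α.1.1) (1 : ℤ)))) := by
    rw [map_sum, map_sum, map_sum]
    exact Finset.sum_congr rfl fun α _ => aeval_pd2 m _ _ x hx i j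
  have h2 : aeval x (pderiv i.1 (pderiv j.1 (∑ α : Vm n d m, monomial α.1.1 (v α)))) =
      ∑ α : V1 n d m, algebraMap R L (v α.1) *
        aeval (fun i : {i : Fin (n + 1) // i ≠ m} => x i.1)
          (pderiv i (pderiv j (monomial (resE m α.1.1.1) (1 : ℤ)))) := by
    rw [map_sum, map_sum, map_sum, sum_Vm hd m]
    have h3 : ∑ l : {i : Fin (n + 1) // i ≠ m}, aeval x (pderiv i.1 (pderiv j.1
        (monomial (lin hd m l).1.1.1 (v (lin hd m l).1)))) = 0 := by
      apply Finset.sum_eq_zero
      intro l _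
      rw [aeval_pd2 m _ _ x hx i j]
      have h4 : resE m (lin hd m l).1.1.1 = Finsupp.single l 1 := linE_res d m l
      have h5 : (monomial (Finsupp.single l 1) (1 : ℤ) :
        MvPolynomial {i : Fin (n + 1) // i ≠ m} ℤ) = X l := rfl
      have h6 : pderiv i (pderiv j (X l : MvPolynomial {i : Fin (n + 1) // i ≠ m} ℤ)) = 0 := by
        by_cases hl : l = j
        · subst hl
          rw [pderiv_X_self, pderiv_one]
        · rw [pderiv_X_of_ne hl, map_zero]
      rw [h4, h5, h6, map_zero, mul_zero]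
    rw [h3, add_zero]
    exact Finset.sum_congr rfl fun α _ => aeval_pd2 m _ _ x hx i j
  have h3 : aeval x (pderiv i.1 (pderiv j.1 (monomial (Finsupp.single m d) a))) = (0 : L) := by
    rw [aeval_pd2 m _ _ x hx i j, resE_single]
    have h5 : (monomial (0 : {i : Fin (n + 1) // i ≠ m} →₀ ℕ) (1 : ℤ)) = 1 := rfl
    rw [h5, pderiv_one, map_zero, map_zero, mul_zero]
  rw [FF, map_add, map_add, map_add, map_add, map_add, map_add, h1, h2, h3, add_zero]

/-- second derivatives at the origin -/
theorem val_ne {k : Type} [CommRing k] {σ : Type} (i j : σ) (β : σ →₀ ℕ)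
    (h : β ≠ Finsupp.single i 1 + Finsupp.single j 1) :
    aeval (fun _ : σ => (0 : k)) (pderiv i (pderiv j (monomial β (1 : ℤ)))) = 0 := by
  classical
  rw [pderiv_monomial, pderiv_monomial, aeval_monomial]
  by_cases h1 : β j = 0
  · rw [h1]; simp
  by_cases h2 : (β - Finsupp.single j 1 : σ →₀ ℕ) i = 0
  · rw [h2]; simp
  have h3 : β - Finsupp.single j 1 - Finsupp.single i 1 ≠ 0 := by
    intro h0
    apply h
    have e1 : Finsupp.single i 1 ≤ β - Finsupp.single j 1 := by
      rw [Finsupp.single_le_iff]; omega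
    have e2 : Finsupp.single j 1 ≤ β := by
      rw [Finsupp.single_le_iff]; omega
    rw [tsub_eq_zero_iff_le] at h0
    have e3 := le_antisymm h0 e1
    rw [← e3, tsub_add_cancel_of_le e2]
  obtain ⟨l, hl⟩ := Finsupp.ne_iff.1 h3
  have h4 : ((β - Finsupp.single j 1 - Finsupp.single i 1).prod fun _ r => (0 : k) ^ r) = 0 := by
    rw [Finsupp.prod]
    apply Finset.prod_eq_zero (i := l)
    · rw [Finsupp.mem_support_iff]; exact hl
    · exact zero_pow hl
  rw [h4, mul_zero]

theorem val_two {k : Type} [CommRing k] {σ : Type} (i : σ) :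
    aeval (fun _ : σ => (0 : k)) (pderiv i (pderiv i (monomial (Finsupp.single i 2) (1 : ℤ)))) =
      2 := by
  classical
  have h1 : Finsupp.single i 2 - Finsupp.single i 1 = Finsupp.single i 1 := by
    rw [← Finsupp.single_tsub]
  rw [pderiv_monomial, pderiv_monomial, aeval_monomial, h1, tsub_self]
  simp

/-- the exponent of `y_i ^ 2` -/
noncomputable def sqE {n : ℕ} (d : ℕ) (m : Fin (n + 1)) (i : {i : Fin (n + 1) // i ≠ m}) :
    Fin (n + 1) →₀ ℕ := Finsupp.single m (d - 2) + Finsupp.single i.1 2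

theorem sqE_m {n : ℕ} (d : ℕ) (m : Fin (n + 1)) (i : {i : Fin (n + 1) // i ≠ m}) :
    sqE d m i m = d - 2 := by
  rw [sqE, Finsupp.add_apply, Finsupp.single_eq_same, Finsupp.single_eq_of_ne (Ne.symm i.2)]
  rfl

theorem sqE_res {n : ℕ} (d : ℕ) (m : Fin (n + 1)) (i : {i : Fin (n + 1) // i ≠ m}) :
    resE m (sqE d m i) = Finsupp.single i 2 := by
  ext j
  rw [resE_apply, sqE, Finsupp.add_apply, Finsupp.single_eq_of_ne j.2, zero_add]
  by_cases h : i = j
  · subst h; simp
  · have h' : i.1 ≠ j.1 := fun h2 => h (Subtype.ext h2)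
    rw [Finsupp.single_eq_of_ne (Ne.symm h'), Finsupp.single_eq_of_ne (Ne.symm h)]

theorem sqE_mem {n d : ℕ} (hd : 3 ≤ d) (m : Fin (n + 1)) (i : {i : Fin (n + 1) // i ≠ m}) :
    sqE d m i ∈ Finset.finsuppAntidiag (Finset.univ : Finset (Fin (n + 1))) d := by
  rw [mem_anti]
  simp only [sqE, Finsupp.add_apply, Finset.sum_add_distrib, Finsupp.univ_sum_single_apply]
  omega

/-- `y_i ^ 2` as an element of `V1` -/
noncomputable def sq {n d : ℕ} (hd : 3 ≤ d) (m : Fin (n + 1)) (i : {i : Fin (n + 1) // i ≠ m}) :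
    V1 n d m :=
  ⟨⟨⟨sqE d m i, sqE_mem hd m i⟩, by
    show sqE d m i m ≠ 0 ∧ sqE d m i m ≠ d
    rw [sqE_m]; omega⟩, by
    show sqE d m i m ≠ d - 1
    rw [sqE_m]; omega⟩

theorem resE_sum {n d : ℕ} (m : Fin (n + 1)) (α : Fin (n + 1) →₀ ℕ) (hα : (∑ i, α i) = d) :
    (∑ i, resE m α i) + α m = d := by
  rw [← hα, ← Fintype.sum_subtype_add_sum_subtype (fun i => i ≠ m) α]
  have h2 : ∑ i : {i : Fin (n + 1) // ¬ i ≠ m}, α i.1 = α m := by
    rw [Finset.sum_eq_single (⟨m, by simp⟩ : {i : Fin (n + 1) // ¬ i ≠ m})]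
    · intro b _ hb
      exfalso
      apply hb
      apply Subtype.ext
      have := b.2
      rw [not_not] at this
      exact this
    · intro h; exact absurd (Finset.mem_univ _) h
  rw [h2]
  rfl

/-- an exponent of degree `d` is determined by its restriction -/
theorem resE_inj {n d : ℕ} (m : Fin (n + 1)) (α β : Fin (n + 1) →₀ ℕ) (hα : (∑ i, α i) = d)
    (hβ : (∑ i, β i) = d) (h : resE m α = resE m β) : α = β := by
  have h1 := resE_sum m α hα
  have h2 := resE_sum m β hβ
  rw [h] at h1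
  ext i
  by_cases hi : i = m
  · subst hi; omega
  · exact DFunLike.congr_fun h (⟨i, hi⟩ : {i : Fin (n + 1) // i ≠ m})

/-- the universal parametrisation of the coefficients of the pairs (form, singular point) -/
noncomputable def phi {n d : ℕ} (hd : 3 ≤ d) (m : Fin (n + 1)) (α : Vm n d m) :
    MvPolynomial (Zt n d m) ℤ :=
  if h : α.1.1 m ≠ d - 1 then X (Sum.inr (Sum.inl ⟨α, h⟩)) else
    - gP n d m (pderiv ((Equiv.ofBijective _ (lin_bij hd m)).symm ⟨α, h⟩))

/-- the universal Hessian -/
noncomputable def hh (n d : ℕ) (m : Fin (n + 1)) : MvPolynomial (Zt n d m) ℤ :=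
  (Matrix.of fun a b : {i : Fin (n + 1) // i ≠ m} =>
    gP n d m (fun p => pderiv a (pderiv b p))).det

theorem aeval_hh {L : Type} [CommRing L] {n d : ℕ} (m : Fin (n + 1))
    (u : Um n d m → L) (v' : V1 n d m → L) (y : {i : Fin (n + 1) // i ≠ m} → L) :
    aeval (Sum.elim u (Sum.elim v' y)) (hh n d m) =
      (Matrix.of fun a b : {i : Fin (n + 1) // i ≠ m} =>
        ∑ α : Um n d m, u α * aeval y (pderiv a (pderiv b (monomial (resE m α.1.1) (1 : ℤ)))) +
        ∑ α : V1 n d m, v' α *
          aeval y (pderiv a (pderiv b (monomial (resE m α.1.1.1) (1 : ℤ))))).det := by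
  rw [hh, AlgHom.map_det]
  refine congrArg Matrix.det ?_
  ext a b
  rw [AlgHom.mapMatrix_apply, Matrix.map_apply, Matrix.of_apply, Matrix.of_apply, aeval_gP]

open Classical in
theorem hh_ne {k : Type} [Field k] (h2 : (2 : k) ≠ 0) {n d : ℕ} (hd : 3 ≤ d) (m : Fin (n + 1))
    (u : Um n d m → k) :
    aeval (Sum.elim u (Sum.elim (fun α : V1 n d m => if ∃ i, α = sq hd m i then (1 : k) else 0)
      (fun _ => 0))) (hh n d m) ≠ 0 := by
  rw [aeval_hh]
  have h1 : (Matrix.of fun a b : {i : Fin (n + 1) // i ≠ m} =>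
        ∑ α : Um n d m, u α * aeval (fun _ : {i : Fin (n + 1) // i ≠ m} => (0 : k))
          (pderiv a (pderiv b (monomial (resE m α.1.1) (1 : ℤ)))) +
        ∑ α : V1 n d m, (if ∃ i, α = sq hd m i then (1 : k) else 0) *
          aeval (fun _ : {i : Fin (n + 1) // i ≠ m} => (0 : k))
            (pderiv a (pderiv b (monomial (resE m α.1.1.1) (1 : ℤ))))) =
        Matrix.diagonal fun _ => (2 : k) := by
    ext a b
    rw [Matrix.of_apply]
    have e1 : ∑ α : Um n d m, u α * aeval (fun _ : {i : Fin (n + 1) // i ≠ m} => (0 : k))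
          (pderiv a (pderiv b (monomial (resE m α.1.1) (1 : ℤ)))) = 0 := by
      apply Finset.sum_eq_zero
      intro α _
      rw [val_ne, mul_zero]
      intro h
      have h3 := resE_sum m α.1.1 ((mem_anti _).1 α.1.2)
      rw [α.2, h] at h3
      simp only [Finsupp.add_apply, Finset.sum_add_distrib, Finsupp.univ_sum_single_apply] at h3
      omega
    rw [e1, zero_add]
    by_cases hab : a = b
    · subst hab
      rw [Matrix.diagonal_apply_eq, Finset.sum_eq_single (sq hd m a)]
      · rw [if_pos ⟨a, rfl⟩, one_mul]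
        have h4 : resE m (sq hd m a).1.1.1 = Finsupp.single a 2 := sqE_res d m a
        rw [h4, val_two]
      · intro α _ hα
        rw [val_ne, mul_zero]
        intro h
        apply hα
        apply Subtype.ext
        apply Subtype.ext
        apply Subtype.ext
        refine resE_inj m _ _ ((mem_anti _).1 α.1.1.2) ((mem_anti _).1 (sq hd m a).1.1.2) ?_
        have h4 : resE m (sq hd m a).1.1.1 = Finsupp.single a 2 := sqE_res d m a
        rw [h4, h, ← Finsupp.single_add]
      · intro h; exact absurd (Finset.mem_univ _) h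
    · rw [Matrix.diagonal_apply_ne _ hab]
      apply Finset.sum_eq_zero
      intro α _
      by_cases hα : ∃ i, α = sq hd m i
      · obtain ⟨i, rfl⟩ := hα
        rw [val_ne, mul_zero]
        have h4 : resE m (sq hd m i).1.1.1 = Finsupp.single i 2 := sqE_res d m i
        rw [h4]
        intro h
        have ha := DFunLike.congr_fun h a
        have hb := DFunLike.congr_fun h b
        rw [Finsupp.add_apply, Finsupp.single_eq_same, Finsupp.single_eq_of_ne hab] at ha
        rw [Finsupp.add_apply, Finsupp.single_eq_same, Finsupp.single_eq_of_ne (Ne.symm hab)] at hb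
        by_cases hia : a = i
        · subst hia
          rw [Finsupp.single_eq_same] at ha
          omega
        · rw [Finsupp.single_eq_of_ne hia] at ha
          omega
      · rw [if_neg hα, zero_mul]
  rw [h1, Matrix.det_diagonal, Finset.prod_const]
  exact pow_ne_zero _ h2

theorem aeval_comp {k V W Z : Type} [Field k] (u : Z → k) (w : V ⊕ W → k)
    (p : MvPolynomial (Z ⊕ (V ⊕ W)) ℤ) :
    aeval w (aeval (Sum.elim (fun α => (C (u α) : MvPolynomial (V ⊕ W) k)) X) p) =
      aeval (Sum.elim u w) p := by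
  have h : ((aeval w : MvPolynomial (V ⊕ W) k →ₐ[k] k).toRingHom.comp
      (aeval (R := ℤ) (Sum.elim (fun α => (C (u α) : MvPolynomial (V ⊕ W) k)) X)).toRingHom) =
      (aeval (R := ℤ) (Sum.elim u w)).toRingHom := by
    apply MvPolynomial.ringHom_ext
    · intro r
      simp
    · intro i
      rcases i with i | i
      · simp
      · simp
  exact DFunLike.congr_fun h p

end ElimAAux

open ElimAAux in
theorem elim_univ (n d : ℕ) (hd : 3 ≤ d) (m : Fin (n + 1)) :
    ∃ (V' : Type) (_ : Fintype V') (δ : ℕ)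
      (φ : Vm n d m → MvPolynomial (Um n d m ⊕ (V' ⊕ {i : Fin (n + 1) // i ≠ m})) ℤ)
      (h : MvPolynomial (Um n d m ⊕ (V' ⊕ {i : Fin (n + 1) // i ≠ m})) ℤ),
      Fintype.card V' + n = Fintype.card (Vm n d m) ∧
      (∀ α, (φ α).totalDegree ≤ δ) ∧ h.totalDegree ≤ δ ∧
      (∀ (k : Type) [Field k], (2 : k) ≠ 0 → ∀ u : Um n d m → k,
        aeval (Sum.elim (fun α => (C (u α) : MvPolynomial (V' ⊕ {i : Fin (n + 1) // i ≠ m}) k)) X) h
          ≠ 0) ∧
      ∀ (R L : Type) [CommRing R] [Field L] [Algebra R L] (u : Um n d m → R) (v : Vm n d m → R)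
        (a : R) (x : Fin (n + 1) → L), x m = 1 → Sing (FF m u v a) x → ∃ v' : V' → L,
          (∀ α, aeval (Sum.elim (fun β => algebraMap R L (u β))
            (Sum.elim v' (fun i => x i.1))) (φ α) = algebraMap R L (v α)) ∧
          aeval (Sum.elim (fun β => algebraMap R L (u β)) (Sum.elim v' (fun i => x i.1))) h =
            hdet m (FF m u v a) x := by
  classical
  obtain ⟨δ, hδ⟩ : ∃ δ : ℕ, ∀ α, (phi hd m α).totalDegree ≤ δ := by
    obtain ⟨M, hM⟩ := (Set.finite_range fun α => (phi hd m α).totalDegree).bddAbove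
    exact ⟨M, fun α => hM ⟨α, rfl⟩⟩
  refine ⟨ElimAAux.V1 n d m, inferInstance, δ + (hh n d m).totalDegree, phi hd m,
    hh n d m, card_V1 hd m, ?_, ?_, ?_, ?_⟩
  · intro α
    exact le_trans (hδ α) (Nat.le_add_right _ _)
  · exact Nat.le_add_left _ _
  · intro k _ h2 u h0
    apply hh_ne h2 hd m u
    rw [← aeval_comp, h0, map_zero]
  · intro R L _ _ _ u v a x hx hS
    refine ⟨fun α => algebraMap R L (v α.1), ?_, ?_⟩
    · intro α
      rw [phi]
      split_ifs with h
      · rw [aeval_X]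
        rfl
      · rw [map_neg, aeval_gP]
        have h1 : lin hd m ((Equiv.ofBijective _ (lin_bij hd m)).symm ⟨α, h⟩) = ⟨α, h⟩ :=
          Equiv.ofBijective_apply_symm_apply _ (lin_bij hd m) ⟨α, h⟩
        have h2 := hS.2 ((Equiv.ofBijective _ (lin_bij hd m)).symm ⟨α, h⟩).1
        rw [aeval_FF1 hd m u v a x hx, h1] at h2
        rw [neg_eq_iff_add_eq_zero]
        exact h2
    · rw [aeval_hh, hdet]
      refine congrArg Matrix.det ?_
      ext a' b
      rw [Matrix.of_apply, Matrix.of_apply, aeval_FF2 hd m u v a x hx]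

end Pool.Agent.NH
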