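import Pool.Agent.NodHyp.FDefs

set_option autoImplicit false

/-! # FORMSA: smooth forms modulo every prime -/

namespace Pool.Agent.NH

open MvPolynomial

namespace FormsAAux

lemma fermat {n d : ℕ} {L : Type} [Field L] (hdL : (d : L) ≠ 0)
    (x : Fin (n + 1) → L)
    (h : Sing (∑ i : Fin (n + 1), X i ^ d : MvPolynomial (Fin (n + 1)) ℤ) x) : x = 0 := by
  classical
  funext j
  have h1 := h.2 j
  rw [map_sum, map_sum] at h1
  have h2 : ∀ i : Fin (n + 1), aeval x (pderiv j (X i ^ d : MvPolynomial (Fin (n + 1)) ℤ)) =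
      if i = j then (d : L) * x i ^ (d - 1) else 0 := by
    intro i
    rw [pderiv_pow, pderiv_X]
    by_cases hij : i = j
    · subst hij
      simp
    · rw [if_neg hij, Pi.single_eq_of_ne hij]
      simp
  simp only [h2] at h1
  rw [Finset.sum_ite_eq' Finset.univ j, if_pos (Finset.mem_univ j)] at h1
  have h3 := (mul_eq_zero.1 h1).resolve_left hdL
  exact eq_zero_of_pow_eq_zero h3

/-- the second form -/
noncomputable def chain (n d : ℕ) : MvPolynomial (Fin (n + 1)) ℤ :=
  X 0 ^ d + ∑ i : Fin n, X i.castSucc * X i.succ ^ (d - 1)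

lemma chain_hom (n d : ℕ) (hd : 3 ≤ d) : (chain n d).IsHomogeneous d := by
  refine IsHomogeneous.add ?_ ?_
  · simpa using (isHomogeneous_X ℤ (0 : Fin (n + 1))).pow d
  · refine IsHomogeneous.sum _ _ _ fun i _ => ?_
    have h := (isHomogeneous_X ℤ i.castSucc).mul ((isHomogeneous_X ℤ i.succ).pow (d - 1))
    rwa [one_mul, show 1 + (d - 1) = d by omega] at h

lemma chain_pd (n d : ℕ) {L : Type} [Field L] (x : Fin (n + 1) → L) (j : Fin (n + 1)) :
    aeval x (pderiv j (chain n d)) = (if (0 : Fin (n + 1)) = j then (d : L) * x 0 ^ (d - 1) else 0)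
      + ∑ i : Fin n, ((if i.castSucc = j then x i.succ ^ (d - 1) else 0) +
        (if i.succ = j then x i.castSucc * (((d - 1 : ℕ) : L) * x i.succ ^ (d - 1 - 1)) else 0)) := by
  classical
  rw [chain, map_add, map_add, map_sum, map_sum]
  have hX : ∀ i : Fin (n + 1), aeval x (pderiv j (X i : MvPolynomial (Fin (n + 1)) ℤ)) =
      if i = j then (1 : L) else 0 := by
    intro i
    rw [pderiv_X]
    by_cases hij : i = j
    · subst hij
      simp
    · rw [if_neg hij, Pi.single_eq_of_ne hij]
      simp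
  congr 1
  · rw [pderiv_pow, map_mul, hX]
    by_cases hij : (0 : Fin (n + 1)) = j
    · rw [if_pos hij, if_pos hij]
      simp
    · rw [if_neg hij, if_neg hij, mul_zero]
  · refine Finset.sum_congr rfl fun i _ => ?_
    rw [pderiv_mul, map_add, map_mul, map_mul, hX, pderiv_pow, map_mul, hX]
    congr 1
    · by_cases hij : i.castSucc = j
      · rw [if_pos hij, if_pos hij]
        simp
      · rw [if_neg hij, if_neg hij, zero_mul]
    · by_cases hij : i.succ = j
      · rw [if_pos hij, if_pos hij]
        simp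
      · rw [if_neg hij, if_neg hij, mul_zero, mul_zero]

lemma chain_sing {n d : ℕ} (hd : 3 ≤ d) {L : Type} [Field L] (hdL : (d : L) = 0)
    (x : Fin (n + 1) → L) (h : Sing (chain n d) x) : x = 0 := by
  have key : ∀ k : ℕ, ∀ hk : k < n, x (Fin.succ ⟨k, hk⟩) = 0 := by
    intro k
    induction k with
    | zero =>
      intro hk
      have h1 := h.2 (Fin.castSucc ⟨0, hk⟩)
      rw [chain_pd, hdL] at h1
      rw [Finset.sum_eq_single (⟨0, hk⟩ : Fin n)] at h1
      · have e2 : ¬ (Fin.succ ⟨0, hk⟩ = Fin.castSucc (⟨0, hk⟩ : Fin n)) := by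
          intro hc
          have := congrArg Fin.val hc
          simp at this
        rw [if_pos rfl, if_neg e2] at h1
        have h2 : x (Fin.succ ⟨0, hk⟩) ^ (d - 1) = 0 := by
          simpa using h1
        exact eq_zero_of_pow_eq_zero h2
      · intro b _ hb
        rw [if_neg, if_neg, add_zero]
        · intro hc
          have := congrArg Fin.val hc
          simp at this
        · intro hc
          exact hb (Fin.castSucc_injective n hc)
      · intro hc
        exact absurd (Finset.mem_univ _) hc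
    | succ k ih =>
      intro hk
      have ih' := ih (by omega)
      have h1 := h.2 (Fin.castSucc ⟨k + 1, hk⟩)
      rw [chain_pd, hdL] at h1
      rw [Finset.sum_eq_single (⟨k + 1, hk⟩ : Fin n)] at h1
      · have e2 : ¬ (Fin.succ ⟨k + 1, hk⟩ = Fin.castSucc (⟨k + 1, hk⟩ : Fin n)) := by
          intro hc
          have := congrArg Fin.val hc
          simp at this
        rw [if_pos rfl, if_neg e2] at h1
        have h2 : x (Fin.succ ⟨k + 1, hk⟩) ^ (d - 1) = 0 := by
          simpa using h1
        exact eq_zero_of_pow_eq_zero h2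
      · intro b _ hb
        rw [if_neg (fun hc => hb (Fin.castSucc_injective n hc)), zero_add]
        by_cases hc : b.succ = Fin.castSucc ⟨k + 1, hk⟩
        · rw [if_pos hc]
          have h3 : b = ⟨k, by omega⟩ := by
            apply Fin.ext
            have := congrArg Fin.val hc
            simpa using this
          rw [h3, ih', zero_pow (by omega), mul_zero, mul_zero]
        · rw [if_neg hc]
      · intro hc
        exact absurd (Finset.mem_univ _) hc
  have h0 : x 0 = 0 := by
    have h1 := h.1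
    rw [chain, map_add, map_sum] at h1
    rw [Finset.sum_eq_zero] at h1
    · have h2 : x 0 ^ d = 0 := by simpa using h1
      exact eq_zero_of_pow_eq_zero h2
    · intro i _
      rw [map_mul, map_pow, aeval_X, aeval_X, key i.1 i.2, zero_pow (by omega), mul_zero]
  funext j
  rcases Fin.eq_zero_or_eq_succ j with rfl | ⟨i, rfl⟩
  · exact h0
  · exact key i.1 i.2

end FormsAAux

open FormsAAux

/-- `p ∤ d`: the Fermat form `∑ x_i ^ d` (`∂_i = d x_i ^ (d-1)`). `p ∣ d`: `x_0 ^ d + ∑_{i < n} x_i x_{i+1} ^ (d-1)`; from `∂_0 = 0` we get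
`x_1 = 0`, and from `x_i = 0` (`i ≥ 1`) and `∂_i = (d - 1) x_{i-1} x_i ^ (d-2) + x_{i+1} ^ (d-1) = 0` we get `x_{i+1} = 0` (`d ≥ 3`); then
`F = x_0 ^ d = 0`. -/
theorem exists_smooth (n d : ℕ) (hd : 3 ≤ d) {p : ℕ} (hp : p.Prime) :
    ∃ F : MvPolynomial (Fin (n + 1)) ℤ, F.IsHomogeneous d ∧
      ∀ (L : Type) [Field L] [CharP L p] (x : Fin (n + 1) → L), Sing F x → x = 0 := by
  by_cases h : p ∣ d
  · refine ⟨chain n d, chain_hom n d hd, ?_⟩
    intro L _ _ x hx
    exact chain_sing hd ((CharP.cast_eq_zero_iff L p d).2 h) x hx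
  · refine ⟨∑ i, X i ^ d, ?_, ?_⟩
    · refine IsHomogeneous.sum _ _ _ fun i _ => ?_
      simpa using (isHomogeneous_X ℤ i).pow d
    · intro L _ _ x hx
      exact fermat (fun hc => h ((CharP.cast_eq_zero_iff L p d).1 hc)) x hx

end Pool.Agent.NH
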