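import Pool.Agent.NodHyp.LatA

set_option autoImplicit false

/-! # LATB: the local rings of the charts are local rings of the blow up -/

namespace Pool.Agent.NH

open MvPolynomial Pool.MP_602153_ag

variable {n : ℕ}

namespace LatBAux

/-- all evaluations over `ℤ` agree -/
theorem aeval_inst {σ A : Type*} [CommRing A] (i1 i2 : Algebra ℤ A) (x : σ → A)
    (G : MvPolynomial σ ℤ) : @aeval ℤ A σ _ _ i1 x G = @aeval ℤ A σ _ _ i2 x G := by
  have h : i1 = i2 := Subsingleton.elim _ _
  subst h
  rfl

section

variable {B : Type} [CommRing B] [IsDomain B] (y : Fin (n + 1) → B) (m : Fin (n + 1))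

theorem eta_self (hm : y m ≠ 0) : eta y m m = 1 := by
  have h : algebraMap B (FractionRing B) (y m) ≠ 0 := by
    rw [Ne, FaithfulSMul.algebraMap_eq_zero_iff]
    exact hm
  exact div_self h

theorem thet_deh (hm : y m ≠ 0) (G : MvPolynomial (Fin (n + 1)) ℤ) :
    thet y m (deh m G) = aeval (eta y m) G := by
  have h1 := aeval_deh (eta y m) (eta_self y m hm) G
  exact (aeval_inst _ _ (fun i : {i : Fin (n + 1) // i ≠ m} => eta y m i.1) (deh m G)).trans
    (h1.trans (aeval_inst _ _ _ _))

theorem map_aeval (hm : y m ≠ 0) {e : ℕ} {G : MvPolynomial (Fin (n + 1)) ℤ}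
    (hG : G.IsHomogeneous e) :
    algebraMap B (FractionRing B) (aeval y G) =
      algebraMap B (FractionRing B) (y m) ^ e * aeval (eta y m) G := by
  have h : algebraMap B (FractionRing B) (y m) ≠ 0 := by
    rw [Ne, FaithfulSMul.algebraMap_eq_zero_iff]
    exact hm
  have h1 := aeval_deh_div (fun i => algebraMap B (FractionRing B) (y i)) h hG
  have h2 : algebraMap B (FractionRing B) (y m) ^ e * aeval (eta y m) G =
      aeval (fun i => algebraMap B (FractionRing B) (y i)) G := by
    rw [← thet_deh y m hm G]
    refine Eq.trans ?_ (h1.trans (aeval_inst _ _ _ _))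
    congr 1
    exact aeval_inst _ _ (fun i : {i : Fin (n + 1) // i ≠ m} => eta y m i.1) (deh m G)
  rw [h2]
  have h3 : algebraMap B (FractionRing B) (aeval y G) =
      ((algebraMap B (FractionRing B)).comp (aeval y).toRingHom) G := rfl
  have h4 : aeval (fun i => algebraMap B (FractionRing B) (y i)) G =
      (aeval (fun i => algebraMap B (FractionRing B) (y i)) :
        MvPolynomial (Fin (n + 1)) ℤ →ₐ[ℤ] FractionRing B).toRingHom G := rfl
  rw [h3, h4]
  congr 1
  apply MvPolynomial.ringHom_ext
  · intro r
    simp
  · intro i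
    simp

/-- the quotient of two generators -/
theorem quot_gpoly (hm : y m ≠ 0) {F : MvPolynomial (Fin (n + 1)) ℤ} {d : ℕ}
    (hF : F.IsHomogeneous d) (p R : ℕ) (w : Fin R → ((Fin (d - 1) → Fin (n + 1)) ⊕ Fin (n + 1)))
    (c' : GIdx n d R) :
    algebraMap B (FractionRing B) (aeval y (gpoly F p d R c')) /
      algebraMap B (FractionRing B) (aeval y (gpoly F p d R (m, w))) =
    eta y m c'.1 * ∏ j : Fin R, (aeval (eta y m) (gfac F p d j (c'.2 j)) /
      aeval (eta y m) (gfac F p d j (w j))) := by
  have h : algebraMap B (FractionRing B) (y m) ≠ 0 := by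
    rw [Ne, FaithfulSMul.algebraMap_eq_zero_iff]
    exact hm
  rw [map_aeval y m hm (gpoly_isHomogeneous hF p R c'),
    map_aeval y m hm (gpoly_isHomogeneous hF p R (m, w)),
    mul_div_mul_left _ _ (pow_ne_zero _ h), gpoly, gpoly, map_mul, map_mul, aeval_X, aeval_X,
    eta_self y m hm, one_mul, map_prod, map_prod, Finset.prod_div_distrib, mul_div_assoc]

end

end LatBAux

open LatBAux

/-- The local rings of the charts are local rings of the blow up. Proof: `m = c.1`; the quotients of generators
`gpoly c' / gpoly c` are `eta_(c'.1)` times products of `gfac c' / gfac c` at the point `eta`; taking `c'` which differs from `c` in one place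
one gets `eta_i`, `p^(j+1) (∏ eta_(w i)) / g_j`, `(∂_l F)(eta) / g_j` in the chart ring (take `w` constant equal to `m` for
`p^(j+1) / g_j`). `(∂_l F)(eta) = θ (∂_l (deh m F))` for `l ≠ m`, and for `l = m` use `euler_deh` and `θ (deh m F) = 0`.
`min`: if `F'` contains the `θ h` and the generators, it contains all quotients of generators, so the chart ring, so `O`
by `hfrac`. -/
theorem isBlow_chart {F : MvPolynomial (Fin (n + 1)) ℤ} {d : ℕ} (hd : 2 ≤ d)
    (hF : F.IsHomogeneous d) {p : ℕ} (hp : p.Prime) {R : ℕ} {B : Type} [CommRing B] [IsDomain B]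
    [Algebra ℚ B] (y : Fin (n + 1) → B)
    (hker : ∀ h : MvPolynomial (Fin (n + 1)) ℤ, aeval y h = 0 ↔ F ∣ h) (c : GIdx n d R)
    (hc : aeval y (gpoly F p d R c) ≠ 0) (O : Subring (FractionRing B))
    (hA : ∀ z ∈ LG.chartSub (Lam F p d R y) (aeval y (gpoly F p d R c)), z ∈ O)
    (hfrac : ∀ x ∈ O, ∃ u ∈ LG.chartSub (Lam F p d R y) (aeval y (gpoly F p d R c)),
      ∃ v ∈ LG.chartSub (Lam F p d R y) (aeval y (gpoly F p d R c)),
        v ≠ 0 ∧ v⁻¹ ∈ O ∧ x * v = u) :
    IsBlow (deh c.1 F) p (thet y c.1)
      (fun j : Fin R => aeval (eta y c.1) (gfac F p d j (c.2 j))) O := by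
  classical
  obtain ⟨m, w⟩ := c
  have hc' : y m * ∏ j : Fin R, aeval y (gfac F p d j (w j)) ≠ 0 := by
    have h1 : aeval y (gpoly F p d R (m, w)) = y m * ∏ j : Fin R, aeval y (gfac F p d j (w j)) := by
      rw [gpoly, map_mul, aeval_X, map_prod]
    rw [← h1]
    exact hc
  have hm : y m ≠ 0 := left_ne_zero_of_mul hc'
  have hg : ∀ j : Fin R, aeval y (gfac F p d j (w j)) ≠ 0 := fun j =>
    Finset.prod_ne_zero_iff.1 (right_ne_zero_of_mul hc') j (Finset.mem_univ _)
  have hym : algebraMap B (FractionRing B) (y m) ≠ 0 := by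
    rw [Ne, FaithfulSMul.algebraMap_eq_zero_iff]
    exact hm
  have hge : ∀ j : Fin R, aeval (eta y m) (gfac F p d j (w j)) ≠ 0 := by
    intro j h0
    have h1 := map_aeval y m hm (gfac_isHomogeneous hF p j (w j))
    rw [h0, mul_zero, FaithfulSMul.algebraMap_eq_zero_iff] at h1
    exact hg j h1
  -- the point lies on the hypersurface
  have hF0 : aeval (eta y m) F = 0 := by
    have h1 := map_aeval y m hm hF
    rw [(hker F).2 (dvd_refl F), map_zero] at h1
    exact (mul_eq_zero.1 h1.symm).resolve_left (pow_ne_zero _ hym)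
  have hθ0 : thet y m (deh m F) = 0 := by
    rw [thet_deh y m hm, hF0]
  have hder : ∀ i : {i : Fin (n + 1) // i ≠ m},
      thet y m (pderiv i (deh m F)) = aeval (eta y m) (pderiv i.1 F) := by
    intro i
    rw [pderiv_deh, thet_deh y m hm]
  have hderm : aeval (eta y m) (pderiv m F) =
      thet y m (∑ i : {i : Fin (n + 1) // i ≠ m}, (- X i) * pderiv i (deh m F)) := by
    rw [← thet_deh y m hm, euler_deh hF, map_sub, map_mul, hθ0, mul_zero, zero_sub, ← map_neg,
      ← Finset.sum_neg_distrib]
    congr 1
    refine Finset.sum_congr rfl fun i _ => ?_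
    ring
  -- quotients of the generators are in the chart ring
  have hquot : ∀ c' : GIdx n d R, eta y m c'.1 * ∏ j : Fin R,
      (aeval (eta y m) (gfac F p d j (c'.2 j)) / aeval (eta y m) (gfac F p d j (w j))) ∈
      LG.chartSub (Lam F p d R y) (aeval y (gpoly F p d R (m, w))) := by
    intro c'
    rw [← quot_gpoly y m hm hF p R w c']
    exact Algebra.subset_adjoin ⟨_, Submodule.subset_span ⟨c', rfl⟩, rfl⟩
  have heta : ∀ i, eta y m i ∈ LG.chartSub (Lam F p d R y) (aeval y (gpoly F p d R (m, w))) := by
    intro i
    have h1 := hquot (i, w)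
    rw [Finset.prod_eq_one (fun j _ => div_self (hge j)), mul_one] at h1
    exact h1
  have hupd : ∀ (j : Fin R) (t : (Fin (d - 1) → Fin (n + 1)) ⊕ Fin (n + 1)),
      aeval (eta y m) (gfac F p d j t) / aeval (eta y m) (gfac F p d j (w j)) ∈
        LG.chartSub (Lam F p d R y) (aeval y (gpoly F p d R (m, w))) := by
    intro j t
    have h1 := hquot (m, Function.update w j t)
    have h3 : ∏ j' : Fin R, (aeval (eta y m) (gfac F p d j' ((m, Function.update w j t).2 j')) /
        aeval (eta y m) (gfac F p d j' (w j'))) =
        aeval (eta y m) (gfac F p d j t) / aeval (eta y m) (gfac F p d j (w j)) := by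
      rw [Finset.prod_eq_single j]
      · have h2 : Function.update w j t j = t := Function.update_self j t w
        change aeval (eta y m) (gfac F p d j (Function.update w j t j)) / _ = _
        rw [h2]
      · intro b _ hb
        have h2 : Function.update w j t b = w b := Function.update_of_ne hb t w
        change aeval (eta y m) (gfac F p d b (Function.update w j t b)) / _ = _
        rw [h2]
        exact div_self (hge b)
      · intro h
        exact absurd (Finset.mem_univ _) h
    rw [h3] at h1
    have h4 : eta y m (m, Function.update w j t).1 = 1 := eta_self y m hm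
    rw [h4, one_mul] at h1
    exact h1
  have hgp : ∀ (j : Fin R), aeval (eta y m) (gfac F p d j (Sum.inl fun _ => m)) =
      (p : FractionRing B) ^ ((j : ℕ) + 1) := by
    intro j
    rw [gfac, Sum.elim_inl, map_mul, map_prod, Finset.prod_eq_one, mul_one]
    · simp
    · intro i _
      rw [aeval_X, eta_self y m hm]
  refine ⟨?_, hge, ?_, ?_, ?_, ?_⟩
  · intro h
    apply hA
    have h1 : thet y m h = aeval (fun i : {i : Fin (n + 1) // i ≠ m} => eta y m i.1) h := rfl
    rw [h1]
    induction h using MvPolynomial.induction_on with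
    | C r =>
      rw [aeval_C]
      exact Subalgebra.algebraMap_mem _ r
    | add a b ha hb =>
      rw [map_add]
      exact add_mem (ha rfl) (hb rfl)
    | mul_X a i ha =>
      rw [map_mul, aeval_X]
      exact mul_mem (ha rfl) (heta i.1)
  · intro j
    have h1 := hupd j (Sum.inl fun _ => m)
    rw [hgp j] at h1
    exact hA _ h1
  · intro j i
    have h1 := hupd j (Sum.inr i.1)
    have h2 : aeval (eta y m) (gfac F p d j (Sum.inr i.1)) = thet y m (pderiv i (deh m F)) :=
      (hder i).symm
    rw [h2] at h1
    exact hA _ h1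
  · intro j
    rcases hwj : w j with t | l
    · refine ⟨deh m (∏ i, X (t i)), 0, ?_⟩
      change aeval (eta y m) (gfac F p d j (w j)) = _
      rw [hwj, gfac, Sum.elim_inl]
      have h1 : (∑ i : {i : Fin (n + 1) // i ≠ m},
          (0 : {i : Fin (n + 1) // i ≠ m} → MvPolynomial {i : Fin (n + 1) // i ≠ m} ℤ) i *
            pderiv i (deh m F)) = 0 :=
        Finset.sum_eq_zero fun i _ => by rw [Pi.zero_apply, zero_mul]
      rw [h1, add_zero, map_mul, map_mul, thet_deh y m hm, mul_comm]
      congr 1
      rw [map_pow, map_pow]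
      congr 1
      rw [aeval_C]
      have h2 : thet y m (C (p : ℤ)) = aeval (fun i : {i : Fin (n + 1) // i ≠ m} => eta y m i.1)
        (C (p : ℤ) : MvPolynomial {i : Fin (n + 1) // i ≠ m} ℤ) := rfl
      rw [h2, aeval_C]
    · by_cases hl : l = m
      · refine ⟨0, fun i => - X i, ?_⟩
        change aeval (eta y m) (gfac F p d j (w j)) = _
        rw [hwj, gfac, Sum.elim_inr, hl, hderm, zero_mul, zero_add]
      · refine ⟨0, Pi.single ⟨l, hl⟩ 1, ?_⟩
        change aeval (eta y m) (gfac F p d j (w j)) = _
        rw [hwj, gfac, Sum.elim_inr, zero_mul, zero_add, Finset.sum_eq_single ⟨l, hl⟩]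
        · rw [Pi.single_eq_same, one_mul, hder]
        · intro b _ hb
          rw [Pi.single_eq_of_ne hb, zero_mul]
        · intro h
          exact absurd (Finset.mem_univ _) h
  · intro F' hpoly hleft hright hinv x hx
    have hetaF : ∀ i, eta y m i ∈ F' := by
      intro i
      by_cases hi : i = m
      · rw [hi, eta_self y m hm]
        exact F'.one_mem
      · have h1 := hpoly (X ⟨i, hi⟩)
        have h2 : thet y m (X ⟨i, hi⟩) = eta y m i :=
          aeval_X (fun i : {i : Fin (n + 1) // i ≠ m} => eta y m i.1) ⟨i, hi⟩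
        rw [h2] at h1
        exact h1
    have hfacF : ∀ (j : Fin R) (t : (Fin (d - 1) → Fin (n + 1)) ⊕ Fin (n + 1)),
        aeval (eta y m) (gfac F p d j t) / aeval (eta y m) (gfac F p d j (w j)) ∈ F' := by
      intro j t
      rcases t with t | l
      · have h1 : aeval (eta y m) (gfac F p d j (Sum.inl t)) =
            (p : FractionRing B) ^ ((j : ℕ) + 1) * ∏ i, eta y m (t i) := by
          rw [gfac, Sum.elim_inl, map_mul, map_prod]
          congr 1
          · simp
          · refine Finset.prod_congr rfl fun i _ => ?_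
            rw [aeval_X]
        rw [h1, mul_div_right_comm]
        exact F'.mul_mem (hleft j) (F'.prod_mem fun i _ => hetaF _)
      · have h1 : aeval (eta y m) (gfac F p d j (Sum.inr l)) = aeval (eta y m) (pderiv l F) := rfl
        rw [h1]
        by_cases hl : l = m
        · rw [hl, hderm, map_sum, Finset.sum_div]
          refine F'.sum_mem fun i _ => ?_
          rw [map_mul, mul_div_assoc]
          exact F'.mul_mem (hpoly _) (hright j i)
        · have h2 := hright j ⟨l, hl⟩
          rw [hder] at h2
          exact h2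
    have hchart : ∀ z ∈ LG.chartSub (Lam F p d R y) (aeval y (gpoly F p d R (m, w))), z ∈ F' := by
      intro z hz
      rw [LG.chartSub] at hz
      induction hz using Algebra.adjoin_induction with
      | mem z hz =>
        obtain ⟨b, hb, rfl⟩ := hz
        rw [Lam] at hb
        induction hb using Submodule.span_induction with
        | mem b hb =>
          obtain ⟨c', rfl⟩ := hb
          have h1 := quot_gpoly y m hm hF p R w c'
          have h2 : algebraMap B (FractionRing B) (aeval y (gpoly F p d R c')) /
              algebraMap B (FractionRing B) (aeval y (gpoly F p d R (m, w))) ∈ F' := by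
            rw [h1]
            exact F'.mul_mem (hetaF _) (F'.prod_mem fun j _ => hfacF j _)
          exact h2
        | zero =>
          rw [map_zero, zero_div]
          exact F'.zero_mem
        | add a b _ _ ha hb =>
          rw [map_add, add_div]
          exact F'.add_mem ha hb
        | smul r a _ ha =>
          rw [map_zsmul, zsmul_eq_mul, mul_div_assoc]
          exact F'.mul_mem (intCast_mem F' r) ha
      | algebraMap r =>
        have h1 : (algebraMap ℤ (FractionRing B)) r = (r : FractionRing B) := by simp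
        rw [h1]
        exact intCast_mem F' r
      | add a b _ _ ha hb => exact F'.add_mem ha hb
      | mul a b _ _ ha hb => exact F'.mul_mem ha hb
    obtain ⟨u, hu, v, hv, hv0, hvO, huv⟩ := hfrac x hx
    have h1 : v⁻¹ ∈ F' := hinv v (hchart v hv) hvO
    have h2 : x = u * v⁻¹ := by
      rw [← huv, mul_assoc, mul_inv_cancel₀ hv0, mul_one]
    rw [h2]
    exact F'.mul_mem (hchart u hu) h1

end Pool.Agent.NH
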