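import Pool.Agent.NodHyp.LatA

set_option autoImplicit false

/-! # LATC: the node condition in the charts -/

namespace Pool.Agent.NH

open MvPolynomial Pool.MP_602153_ag

variable {n : ℕ}

/-- evaluation in a subring of a field -/
theorem LatC_coe_aeval {K : Type} [Field K] (O : Subring K) {τ : Type} (e : τ → O)
    (h : MvPolynomial τ ℤ) : ((aeval e h : O) : K) = aeval (fun i => (e i : K)) h :=
  comp_aeval_apply e (RingHom.toIntAlgHom O.subtype) h

theorem LatC_map_aeval {A A' : Type} [CommRing A] [CommRing A'] (f : A →+* A') {τ : Type}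
    (e : τ → A) (h : MvPolynomial τ ℤ) : f (aeval e h) = aeval (fun i => f (e i)) h :=
  comp_aeval_apply e (RingHom.toIntAlgHom f) h

theorem LatC_inst {K : Type} [CommRing K] (I1 I2 : Algebra ℤ K) {τ : Type} (e : τ → K)
    (h : MvPolynomial τ ℤ) : @aeval ℤ K τ _ _ I1 e h = @aeval ℤ K τ _ _ I2 e h := by
  rw [Subsingleton.elim I1 I2]

theorem LatC_zero {K B : Type} [Field K] [CommRing B] (f : B →+* K) {m : Fin (n + 1)} {d : ℕ}
    {F : MvPolynomial (Fin (n + 1)) ℤ} (hF : F.IsHomogeneous d) (y : Fin (n + 1) → B)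
    (hyF : aeval y F = 0) (hym : f (y m) ≠ 0) :
    aeval (fun i : {i : Fin (n + 1) // i ≠ m} => f (y i.1) / f (y m)) (deh m F) = 0 := by
  have h1 := aeval_deh_div (fun i => f (y i)) hym hF
  have h2 : aeval (fun i => f (y i)) F = 0 := by
    rw [← LatC_map_aeval f y F, hyF, map_zero]
  rw [h2] at h1
  exact (mul_eq_zero.mp h1).resolve_left (pow_ne_zero _ hym)

/-- nonunits of a subring of a field -/
theorem LatC_isUnit_iff {K : Type} [Field K] (O : Subring K) (z : O) :
    IsUnit z ↔ ((z : K) ≠ 0 ∧ (z : K)⁻¹ ∈ O) := by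
  constructor
  · rintro ⟨u, rfl⟩
    have h1 : ((u : O) : K) * ((↑(u⁻¹) : O) : K) = 1 := by
      rw [← Subring.coe_mul, Units.mul_inv, Subring.coe_one]
    have h2 : ((u : O) : K) ≠ 0 := left_ne_zero_of_mul_eq_one h1
    refine ⟨h2, ?_⟩
    rw [← eq_inv_of_mul_eq_one_right h1]
    exact (↑(u⁻¹) : O).2
  · rintro ⟨h1, h2⟩
    refine IsUnit.of_mul_eq_one ⟨(z : K)⁻¹, h2⟩ ?_
    apply Subtype.ext
    rw [Subring.coe_mul, Subring.coe_one]
    exact mul_inv_cancel₀ h1

/-- The node condition: a local ring of a chart at which `p` and the partial derivatives vanish gives a point of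
`F = 0` over its residue field (a field of characteristic `p`) with coordinates the residues of `eta_i`, singular (use
`euler_deh` for `∂_m F`), so the Hessian is invertible. -/
theorem node_chart {F : MvPolynomial (Fin (n + 1)) ℤ} {d : ℕ} (hF : F.IsHomogeneous d) {p : ℕ}
    (hp : p.Prime) (hnod : NodalAt F p) {B : Type} [CommRing B] [IsDomain B] [Algebra ℚ B]
    (y : Fin (n + 1) → B) (hyF : aeval y F = 0) (m : Fin (n + 1)) (hm : y m ≠ 0)
    (O : Subring (FractionRing B)) [IsLocalRing O] (hη : ∀ i, eta y m i ∈ O)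
    (hpO : (p : FractionRing B)⁻¹ ∉ O)
    (hd : ∀ i, thet y m (pderiv i (deh m F)) = 0 ∨ (thet y m (pderiv i (deh m F)))⁻¹ ∉ O) :
    thet y m (hess (deh m F)).det ≠ 0 ∧ (thet y m (hess (deh m F)).det)⁻¹ ∈ O := by
  have hym : algebraMap B (FractionRing B) (y m) ≠ 0 := by
    rw [Ne, IsFractionRing.to_map_eq_zero_iff]
    exact hm
  set e : Fin (n + 1) → O := fun i => ⟨eta y m i, hη i⟩ with he
  have hem : e m = 1 := by
    apply Subtype.ext
    simp only [he, Subring.coe_one, eta]
    exact div_self hym
  set e' : {i : Fin (n + 1) // i ≠ m} → O := fun i => e i.1 with he'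
  -- `θ h` is the value of the evaluation in `O`
  have hth : ∀ h, thet y m h = ((aeval e' h : O) : FractionRing B) := by
    intro h
    rw [LatC_coe_aeval]
    exact LatC_inst _ _ _ _
  set r : O →+* IsLocalRing.ResidueField O := IsLocalRing.residue O with hr
  -- a nonunit has residue zero
  have hnon : ∀ z : O, ((z : FractionRing B) = 0 ∨ (z : FractionRing B)⁻¹ ∉ O) → r z = 0 := by
    intro z hz
    rw [hr, IsLocalRing.residue_eq_zero_iff, IsLocalRing.mem_maximalIdeal, mem_nonunits_iff,
      LatC_isUnit_iff]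
    tauto
  have hchar : CharP (IsLocalRing.ResidueField O) p := by
    apply (CharP.charP_iff_prime_eq_zero hp).mpr
    have h1 : r ((p : ℕ) : O) = 0 := by
      apply hnon
      right
      simpa using hpO
    rwa [map_natCast] at h1
  set x : Fin (n + 1) → IsLocalRing.ResidueField O := fun i => r (e i) with hx
  have hxm : x m = 1 := by
    simp only [hx, hem, map_one]
  have hxdeh : ∀ G : MvPolynomial (Fin (n + 1)) ℤ, aeval x G = r (aeval e' (deh m G)) := by
    intro G
    rw [LatC_map_aeval]
    exact (aeval_deh x hxm G).symm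
  -- `F` vanishes
  have hF0 : aeval e' (deh m F) = 0 := by
    apply Subtype.ext
    rw [← hth, Subring.coe_zero]
    exact (LatC_inst _ _ _ _).trans (LatC_zero (algebraMap B (FractionRing B)) hF y hyF hym)
  have hxF : aeval x F = 0 := by
    rw [hxdeh, hF0, map_zero]
  have hder : ∀ i : {i : Fin (n + 1) // i ≠ m}, r (aeval e' (pderiv i (deh m F))) = 0 := by
    intro i
    apply hnon
    rw [← hth]
    exact hd i
  have hxd : ∀ i, aeval x (pderiv i F) = 0 := by
    intro i
    by_cases hi : i = m
    · subst hi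
      rw [hxdeh, euler_deh hF, map_sub, map_mul, hF0, mul_zero, zero_sub, map_neg, map_sum,
        map_sum, neg_eq_zero]
      apply Finset.sum_eq_zero
      intro j _
      rw [map_mul, map_mul, hder, mul_zero]
    · rw [hxdeh]
      have := hder ⟨i, hi⟩
      rwa [pderiv_deh] at this
  have hdet := hnod (IsLocalRing.ResidueField O) x m (by rw [hxm]; exact one_ne_zero) hxF hxd
  have hdet' : r (aeval e' (hess (deh m F)).det) ≠ 0 := by
    have h1 : r (aeval e' (hess (deh m F)).det) =
        (Matrix.of fun a b : {i : Fin (n + 1) // i ≠ m} =>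
          aeval x (pderiv a.1 (pderiv b.1 F))).det := by
      have h2 : r (aeval e' (hess (deh m F)).det) =
          (r.comp (aeval e' : MvPolynomial {i : Fin (n + 1) // i ≠ m} ℤ →ₐ[ℤ] O).toRingHom)
            (hess (deh m F)).det := rfl
      rw [h2, RingHom.map_det, hess_deh]
      congr 1
      ext a b
      simp only [RingHom.mapMatrix_apply, Matrix.map_apply, Matrix.of_apply]
      exact (hxdeh _).symm
    rw [h1]
    exact hdet
  have hunit : IsUnit (aeval e' (hess (deh m F)).det) := by
    by_contra hcon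
    apply hdet'
    rw [hr, IsLocalRing.residue_eq_zero_iff, IsLocalRing.mem_maximalIdeal]
    exact hcon
  rw [LatC_isUnit_iff, ← hth] at hunit
  exact hunit

end Pool.Agent.NH
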