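import Pool.Agent.NodHyp.Smooth
import Pool.Agent.NodHyp.Chart1
import Pool.Agent.NodHyp.Chart2
import Pool.Agent.NodHyp.Node

set_option autoImplicit false

/-! # LOCAL: all local rings of the blow up are regular

If some `θ (∂_i f)` is a unit of `O`: `regular_smooth`. This is the case if `p` is a unit (`hN` and `θ f = 0` give
`p^v a = ∑ c_i θ (∂_i f)`, a unit). Otherwise let `P` be the preimage in `ℤ[x]` of the maximal ideal of `O`:
`node_structure` gives `k, D, u, B`. Let `s ≤ R` be maximal with `θ (∂_i f) / p^s ∈ O` for all `i`. If `s = R`: `regular_chart2`.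
If `s < R`: from `gen` for `j = s`: `1 = θ c (p^(s+1) / g) + ∑ θ e_i (θ (∂_i f) / g)`, so one of these elements is a unit; the first
one is not (else `θ (∂_i f) / p^(s+1) ∈ O` for all `i`); so some `θ (∂_b f) / g` is. Put `t = θ (∂_b f) / p^s`,
`v_i = θ (∂_i f) / θ (∂_b f)`, `w = p / t = p^(s+1) / θ (∂_b f)`, and apply `regular_chart1`. -/

namespace Pool.Agent.NH

open MvPolynomial

theorem LOCAL_isUnit {K : Type} [Field K] (O : Subring K) (x : O) :
    IsUnit x ↔ (x : K) ≠ 0 ∧ (x : K)⁻¹ ∈ O := by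
  constructor
  · rintro ⟨u, rfl⟩
    have h1 : ((u : O) : K) * ((↑u⁻¹ : O) : K) = 1 := by
      exact congrArg (Subtype.val : O → K) (Units.mul_inv u)
    have h0 : ((u : O) : K) ≠ 0 := left_ne_zero_of_mul_eq_one h1
    refine ⟨h0, ?_⟩
    rw [inv_eq_of_mul_eq_one_right h1]
    exact (↑u⁻¹ : O).2
  · rintro ⟨h0, h1⟩
    refine IsUnit.of_mul_eq_one ⟨(x : K)⁻¹, h1⟩ ?_
    apply Subtype.ext
    change (x : K) * (x : K)⁻¹ = 1
    exact mul_inv_cancel₀ h0

/-- in a local subring: if a linear combination is a unit then one of the elements is -/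
theorem LOCAL_sum {K ι : Type} [Field K] [Fintype ι] (O : Subring K) [IsLocalRing O]
    (c x : ι → K) (hc : ∀ i, c i ∈ O) (hx : ∀ i, x i ∈ O)
    (h0 : ∑ i, c i * x i ≠ 0) (h1 : (∑ i, c i * x i)⁻¹ ∈ O) :
    ∃ i, x i ≠ 0 ∧ (x i)⁻¹ ∈ O := by
  classical
  by_contra hcon
  push Not at hcon
  have h2 : ∀ i, (⟨x i, hx i⟩ : O) ∈ IsLocalRing.maximalIdeal O := by
    intro i
    rw [IsLocalRing.mem_maximalIdeal, mem_nonunits_iff, LOCAL_isUnit]
    rintro ⟨h3, h4⟩
    exact hcon i h3 h4
  have h3 : ∑ i, (⟨c i, hc i⟩ : O) * ⟨x i, hx i⟩ ∈ IsLocalRing.maximalIdeal O :=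
    Ideal.sum_mem _ fun i _ => Ideal.mul_mem_left _ _ (h2 i)
  rw [IsLocalRing.mem_maximalIdeal, mem_nonunits_iff, LOCAL_isUnit] at h3
  apply h3
  have h4 : ((∑ i, (⟨c i, hc i⟩ : O) * ⟨x i, hx i⟩ : O) : K) = ∑ i, c i * x i := by
    rw [← Subring.subtype_apply, map_sum]
    rfl
  rw [h4]
  exact ⟨h0, h1⟩

theorem regular_of_blow {σ K : Type} [Fintype σ] [DecidableEq σ] [Field K] [CharZero K]
    {f : MvPolynomial σ ℤ} {p : ℕ} (hp : p.Prime) {R v : ℕ} (hR : v ≤ 2 * R + 1) {a : ℤ}
    {θ : MvPolynomial σ ℤ →+* K} (hker : RingHom.ker θ = Ideal.span {f}) {g : Fin R → K}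
    {O : Subring K} [IsLocalRing O] (hO : IsBlow f p θ g O) (ha : a ≠ 0) (haO : (a : K)⁻¹ ∈ O)
    (hN : (C ((p : ℤ) ^ v * a) : MvPolynomial σ ℤ) ∈
      Ideal.span {f} ⊔ Ideal.span (Set.range fun i => pderiv i f))
    (hnode : (p : K)⁻¹ ∉ O → (∀ i, θ (pderiv i f) = 0 ∨ (θ (pderiv i f))⁻¹ ∉ O) →
      θ (hess f).det ≠ 0 ∧ (θ (hess f).det)⁻¹ ∈ O) : IsRegularLocalRing O := by
  classical
  by_cases hsm : ∃ i, θ (pderiv i f) ≠ 0 ∧ (θ (pderiv i f))⁻¹ ∈ O
  · exact regular_smooth hp hker hO hsm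
  have hd : ∀ i, θ (pderiv i f) = 0 ∨ (θ (pderiv i f))⁻¹ ∉ O := by
    intro i
    by_contra hcon
    push Not at hcon
    exact hsm ⟨i, hcon⟩
  have hp0 : (p : K) ≠ 0 := by exact_mod_cast hp.ne_zero
  have ha0 : (a : K) ≠ 0 := by exact_mod_cast ha
  have hθf : θ f = 0 := by
    have : f ∈ RingHom.ker θ := by
      rw [hker]
      exact Ideal.mem_span_singleton_self f
    exact this
  have hθC : ∀ m : ℤ, θ (C m) = (m : K) := by
    intro m
    have : (θ.comp C) = Int.castRingHom K := RingHom.ext_int _ _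
    exact congrArg (fun φ : ℤ →+* K => φ m) this
  have hpO : (p : K)⁻¹ ∉ O := by
    intro hpi
    obtain ⟨x1, hx1, x2, hx2, hx⟩ := Submodule.mem_sup.1 hN
    obtain ⟨α, rfl⟩ := Ideal.mem_span_singleton'.1 hx1
    obtain ⟨e, rfl⟩ := (Ideal.mem_span_range_iff_exists_fun).1 hx2
    have h1 : ∑ i, θ (e i) * θ (pderiv i f) = (p : K) ^ v * a := by
      have h2 := congrArg θ hx
      rw [map_add, map_mul, hθf, mul_zero, zero_add, map_sum] at h2
      simp only [map_mul] at h2
      rw [h2, ← map_mul, ← C_mul, hθC]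
      push_cast
      rfl
    have h2 : ∑ i, θ (e i) * θ (pderiv i f) ≠ 0 := by
      rw [h1]
      exact mul_ne_zero (pow_ne_zero _ hp0) ha0
    have h3 : (∑ i, θ (e i) * θ (pderiv i f))⁻¹ ∈ O := by
      rw [h1, mul_inv, ← inv_pow]
      exact O.mul_mem (O.pow_mem hpi _) haO
    exact hsm (LOCAL_sum O _ _ (fun i => hO.poly _) (fun i => hO.poly _) h2 h3)
  obtain ⟨hH0, hH1⟩ := hnode hpO hd
  -- the prime ideal
  let θ' : MvPolynomial σ ℤ →+* O := θ.codRestrict O hO.poly
  let P : Ideal (MvPolynomial σ ℤ) := (IsLocalRing.maximalIdeal O).comap θ'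
  have hPp : P.IsPrime := Ideal.comap_isPrime θ' _
  have hP : ∀ h, h ∈ P ↔ ¬ (θ h ≠ 0 ∧ (θ h)⁻¹ ∈ O) := by
    intro h
    change θ' h ∈ IsLocalRing.maximalIdeal O ↔ _
    rw [IsLocalRing.mem_maximalIdeal, mem_nonunits_iff, LOCAL_isUnit]
    rfl
  have hnP : ∀ h, h ∉ P ↔ (θ h ≠ 0 ∧ (θ h)⁻¹ ∈ O) := by
    intro h
    rw [hP, not_not]
  obtain ⟨k, D, u, B, hk1, hkv, hD, hu, hDf, hB⟩ := node_structure f hp P
    (by
      rw [hP, hθC]
      rintro ⟨-, h2⟩
      exact hpO (by simpa using h2))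
    (by
      rw [hP]
      rintro ⟨h2, -⟩
      exact h2 hθf)
    (by
      intro i
      rw [hP]
      intro h2
      exact hsm ⟨i, h2⟩)
    (by
      rw [hnP]
      exact ⟨hH0, hH1⟩)
    (a := a) (v := v)
    (by
      rw [hnP, hθC]
      exact ⟨ha0, haO⟩)
    hN
  rw [hnP] at hD hu
  have hB' : 2 ≤ k → θ (B + B.transpose).det ≠ 0 ∧ (θ (B + B.transpose).det)⁻¹ ∈ O := by
    intro h2
    have := hB h2
    rwa [hnP] at this
  -- the level
  let Q : ℕ → Prop := fun s => ∀ i, θ (pderiv i f) / (p : K) ^ s ∈ O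
  have hQ0 : Q 0 := by
    intro i
    rw [pow_zero, div_one]
    exact hO.poly _
  obtain ⟨s, hsR, hQs, hmax⟩ : ∃ s ≤ R, Q s ∧ (s < R → ¬ Q (s + 1)) := by
    refine ⟨Nat.findGreatest Q R, Nat.findGreatest_le R, Nat.findGreatest_spec (Nat.zero_le R) hQ0,
      fun h => ?_⟩
    exact Nat.findGreatest_is_greatest (Nat.lt_succ_self _) h
  rcases hsR.eq_or_lt with hsR | hsR
  · subst hsR
    refine regular_chart2 hp hker hO hpO hd ⟨hH0, hH1⟩ hk1 (hkv.trans hR) hD hu hDf hB'
      (z := fun i => θ (pderiv i f) / (p : K) ^ s) hQs ?_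
    intro i
    field_simp
  · have hnQ := hmax hsR
    set j : Fin R := ⟨s, hsR⟩ with hj
    obtain ⟨c, e, hg⟩ := hO.gen j
    have hg0 := hO.ne j
    have hone : ∑ i : Option σ, (i.elim (θ c) (fun i => θ (e i))) *
        (i.elim ((p : K) ^ (s + 1) / g j) (fun i => θ (pderiv i f) / g j)) = 1 := by
      rw [Fintype.sum_option]
      simp only [Option.elim]
      have h1 : g j = θ c * (p : K) ^ (s + 1) + ∑ i, θ (e i) * θ (pderiv i f) := by
        conv_lhs => rw [hg]
        rw [map_add, map_mul, map_pow, hθC, map_sum]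
        simp only [map_mul]
        push_cast
        rfl
      have h2 : θ c * ((p : K) ^ (s + 1) / g j) + ∑ i, θ (e i) * (θ (pderiv i f) / g j) =
          (θ c * (p : K) ^ (s + 1) + ∑ i, θ (e i) * θ (pderiv i f)) / g j := by
        rw [add_div, Finset.sum_div]
        congr 1
        · ring
        · exact Finset.sum_congr rfl fun i _ => by ring
      rw [h2, ← h1, div_self hg0]
    obtain ⟨i, hi0, hi1⟩ := LOCAL_sum (ι := Option σ) O
      (fun i => i.elim (θ c) (fun i => θ (e i)))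
      (fun i => i.elim ((p : K) ^ (s + 1) / g j) (fun i => θ (pderiv i f) / g j))
      (fun i => by
        cases i with
        | none => exact hO.poly _
        | some i => exact hO.poly _)
      (fun i => by
        cases i with
        | none => exact hO.left j
        | some i => exact hO.right j i)
      (by rw [hone]; exact one_ne_zero) (by rw [hone, inv_one]; exact O.one_mem)
    cases i with
    | none =>
      exfalso
      apply hnQ
      intro i
      simp only [Option.elim] at hi0 hi1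
      have h1 : θ (pderiv i f) / (p : K) ^ (s + 1) =
          (θ (pderiv i f) / g j) * ((p : K) ^ (s + 1) / g j)⁻¹ := by
        field_simp
      rw [h1]
      exact O.mul_mem (hO.right j i) hi1
    | some b =>
      simp only [Option.elim] at hi0 hi1
      have hb0 : θ (pderiv b f) ≠ 0 := by
        intro h0
        apply hi0
        rw [h0, zero_div]
      have hvO : ∀ i, θ (pderiv i f) / θ (pderiv b f) ∈ O := by
        intro i
        have h1 : θ (pderiv i f) / θ (pderiv b f) =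
            (θ (pderiv i f) / g j) * (θ (pderiv b f) / g j)⁻¹ := by
          field_simp
        rw [h1]
        exact O.mul_mem (hO.right j i) hi1
      refine regular_chart1 hp hker hO hpO hd ⟨hH0, hH1⟩ hk1 hD hu hDf hB' hsR b
        (t := θ (pderiv b f) / (p : K) ^ s) (w := (p : K) ^ (s + 1) / θ (pderiv b f))
        (v := fun i => θ (pderiv i f) / θ (pderiv b f)) (hQs b) ?_ hvO ?_ ?_ ?_ ?_
      · have h1 : (p : K) ^ (s + 1) / θ (pderiv b f) =
            ((p : K) ^ (s + 1) / g j) * (θ (pderiv b f) / g j)⁻¹ := by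
          field_simp
        rw [h1]
        exact O.mul_mem (hO.left j) hi1
      · intro hw
        apply hnQ
        intro i
        have h1 : θ (pderiv i f) / (p : K) ^ (s + 1) =
            (θ (pderiv i f) / θ (pderiv b f)) * ((p : K) ^ (s + 1) / θ (pderiv b f))⁻¹ := by
          field_simp
        rw [h1]
        exact O.mul_mem (hvO i) hw
      · field_simp
        exact pow_succ _ _
      · exact div_self hb0
      · intro i
        field_simp

end Pool.Agent.NH
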