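import Pool.Agent.NodHyp.LatA
import Pool.Agent.NodHyp.LatB
import Pool.Agent.NodHyp.LatC
import Pool.Agent.NodHyp.Local

set_option autoImplicit false

/-! # LATD: regularity of the model of the lattice -/

namespace Pool.Agent.NH

open MvPolynomial Pool.MP_602153_ag

variable {n : ℕ}

theorem LATD_local {K : Type} [Field K] [inst : Algebra ℤ K] (A : Subalgebra ℤ K) (Q : Ideal A)
    [Q.IsPrime]
    (h : ∀ (O : Subring K) [IsLocalRing O], (∀ z ∈ A, z ∈ O) →
      (∀ x ∈ O, ∃ u ∈ A, ∃ v ∈ A, v ≠ 0 ∧ v⁻¹ ∈ O ∧ x * v = u) →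
      (∀ z : A, z ∈ Q ↔ ((z : K) = 0 ∨ ((z : K))⁻¹ ∉ O)) → IsRegularLocalRing O) :
    IsRegularLocalRing (Localization.AtPrime Q) := by
  obtain rfl : inst = Ring.toIntAlgebra K := Subsingleton.elim _ _
  exact regular_of_localSub A Q h

theorem LATD_map {σ K B : Type} [CommRing K] (_i : Algebra ℤ K) [CommRing B] (φ : B →+* K)
    (y : σ → B) (h : MvPolynomial σ ℤ) : aeval (fun i => φ (y i)) h = φ (aeval y h) := by
  have h1 : ((aeval (fun i => φ (y i)) : MvPolynomial σ ℤ →ₐ[ℤ] K) : MvPolynomial σ ℤ →+* K) =
      φ.comp ((aeval y : MvPolynomial σ ℤ →ₐ[ℤ] B) : MvPolynomial σ ℤ →+* B) := by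
    apply MvPolynomial.ringHom_ext
    · intro r
      simp
    · intro i
      simp
  exact congrArg (fun g : MvPolynomial σ ℤ →+* K => g h) h1

theorem LATD_aeval {σ K : Type} [CommRing K] (i1 i2 : Algebra ℤ K) (x : σ → K)
    (h : MvPolynomial σ ℤ) : (@aeval ℤ K σ _ _ i1 x) h = (@aeval ℤ K σ _ _ i2 x) h := by
  obtain rfl : i1 = i2 := Subsingleton.elim _ _
  rfl

theorem LATD_noeth (F : MvPolynomial (Fin (n + 1)) ℤ) (p d R : ℕ) {B : Type} [CommRing B]
    [IsDomain B] [Algebra ℚ B] (y : Fin (n + 1) → B) (f : B) :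
    IsNoetherianRing (LG.chartSub (Lam F p d R y) f) := by
  classical
  have h1 : LG.chartSub (Lam F p d R y) f = Algebra.adjoin ℤ
      ((Finset.univ.image fun c : GIdx n d R =>
        algebraMap B (FractionRing B) (aeval y (gpoly F p d R c)) /
          algebraMap B (FractionRing B) f : Finset (FractionRing B)) : Set (FractionRing B)) := by
    apply le_antisymm
    · refine Algebra.adjoin_le ?_
      rintro _ ⟨z, hz, rfl⟩
      rw [SetLike.mem_coe]
      have hz' : z ∈ Submodule.span ℤ (Set.range fun c : GIdx n d R => aeval y (gpoly F p d R c)) :=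
        hz
      clear hz
      induction hz' using Submodule.span_induction with
      | mem z hz =>
        obtain ⟨c, rfl⟩ := hz
        refine Algebra.subset_adjoin ?_
        rw [Finset.mem_coe, Finset.mem_image]
        exact ⟨c, Finset.mem_univ _, rfl⟩
      | zero =>
        rw [map_zero, zero_div]
        exact Subalgebra.zero_mem _
      | add a b ha hb iha ihb =>
        rw [map_add, add_div]
        exact Subalgebra.add_mem _ iha ihb
      | smul m a ha iha =>
        have h2 : algebraMap B (FractionRing B) (m • a) / algebraMap B (FractionRing B) f =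
            (m : FractionRing B) * (algebraMap B (FractionRing B) a /
              algebraMap B (FractionRing B) f) := by
          rw [zsmul_eq_mul, map_mul, map_intCast, mul_div_assoc]
        rw [h2]
        exact Subalgebra.mul_mem _ (intCast_mem _ m) iha
    · refine Algebra.adjoin_le ?_
      intro z hz
      rw [Finset.mem_coe, Finset.mem_image] at hz
      obtain ⟨c, -, rfl⟩ := hz
      exact LG.lgcx_mem (Submodule.subset_span ⟨c, rfl⟩)
  rw [h1]
  exact isNoetherianRing_of_fg (Subalgebra.fg_adjoin_finset _)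

/-- The model of the lattice is regular away from `a`. Proof: `κ` = indices `c` with `gpoly c ≠ 0` in `B`, `f = a * gpoly c`;
`LG.isRegularRing_chartSub_mul`, `regular_of_localSub`, `isBlow_chart`, `node_chart`, `ker_deh`, `regular_of_blow`. -/
theorem good_Lam {F : MvPolynomial (Fin (n + 1)) ℤ} {d : ℕ} (hd : 2 ≤ d)
    (hF : F.IsHomogeneous d) {p : ℕ} (hp : p.Prime) (hnod : NodalAt F p) {B : Type} [CommRing B]
    [IsDomain B] [Algebra ℚ B] (y : Fin (n + 1) → B)
    (hker : ∀ h : MvPolynomial (Fin (n + 1)) ℤ, aeval y h = 0 ↔ F ∣ h)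
    {R v : ℕ} {a : ℤ} (hR : v ≤ 2 * R + 1) (ha : a ≠ 0)
    (hN : ∀ m : Fin (n + 1), (C ((p : ℤ) ^ v * a) : MvPolynomial {i // i ≠ m} ℤ) ∈
      Ideal.span {deh m F} ⊔ Ideal.span (Set.range fun i => pderiv i (deh m F))) :
    LG.Good (Lam F p d R y) a := by
  classical
  have haB : (a : B) ≠ 0 := LG.lgcx_int_ne ha
  have hchar : CharZero (FractionRing B) := by
    have : CharZero B := algebraRat.charZero B
    exact charZero_of_injective_algebraMap (IsFractionRing.injective B (FractionRing B))
  have haK : (a : FractionRing B) ≠ 0 := by exact_mod_cast ha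
  have hmem : ∀ c : GIdx n d R, aeval y (gpoly F p d R c) ∈ Lam F p d R y :=
    fun c => Submodule.subset_span ⟨c, rfl⟩
  have hsm : ∀ z : B, (a : B) * z = a • z := fun z => by rw [zsmul_eq_mul]
  refine ⟨{c : GIdx n d R // aeval y (gpoly F p d R c) ≠ 0},
    fun c => (a : B) * aeval y (gpoly F p d R c.1), ?_, ?_⟩
  · rintro ⟨c, hc⟩
    refine ⟨?_, mul_ne_zero haB hc, ?_⟩
    · change (a : B) * aeval y (gpoly F p d R c) ∈ Lam F p d R y
      rw [hsm]
      exact Submodule.smul_mem _ _ (hmem c)
    change IsRegularRing (LG.chartSub (Lam F p d R y) ((a : B) * aeval y (gpoly F p d R c)))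
    refine LG.isRegularRing_chartSub_mul (hmem c) hc (LATD_noeth F p d R y _) ha ?_
    intro Q hQp hQ
    have hm : y c.1 ≠ 0 := by
      intro h0
      apply hc
      rw [gpoly, map_mul, aeval_X, h0, zero_mul]
    have hmK : algebraMap B (FractionRing B) (y c.1) ≠ 0 := LG.lgcx_map_ne hm
    refine LATD_local _ Q ?_
    intro O hOl hA hfrac hmemQ
    have hO := isBlow_chart hd hF hp y hker c hc O hA hfrac
    have hyF : aeval y F = 0 := (hker F).2 dvd_rfl
    have haO : (a : FractionRing B)⁻¹ ∈ O := by
      by_contra hcon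
      apply hQ
      rw [hmemQ]
      right
      have h1 : ((a : LG.chartSub (Lam F p d R y) (aeval y (gpoly F p d R c))) :
          FractionRing B) = (a : FractionRing B) := by simp
      rw [h1]
      exact hcon
    have hkerK : RingHom.ker (thet y c.1) = Ideal.span {deh c.1 F} := by
      have h1 := ker_deh (m := c.1) (fun i => algebraMap B (FractionRing B) (y i)) hmK hF
        (fun h => by
          rw [LATD_map _, IsFractionRing.to_map_eq_zero_iff]
          exact hker h)
      rw [← h1]
      ext z
      rw [RingHom.mem_ker, RingHom.mem_ker]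
      exact Iff.of_eq (congrArg (· = 0) (LATD_aeval _ _ _ z))
    refine regular_of_blow hp hR hkerK hO ha haO (hN c.1) ?_
    intro hpO hdd
    refine node_chart hF hp hnod y hyF c.1 hm O ?_ hpO hdd
    intro i
    by_cases hi : i = c.1
    · have h1 : eta y c.1 i = 1 := by
        rw [hi]
        exact div_self hmK
      rw [h1]
      exact O.one_mem
    · have h1 : thet y c.1 (X ⟨i, hi⟩) = eta y c.1 i := by
        change aeval _ (X _) = _
        rw [aeval_X]
      rw [← h1]
      exact hO.poly _
  · intro z hz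
    refine ⟨1, ?_⟩
    rw [pow_one]
    have hz' : z ∈ Submodule.span ℤ (Set.range fun c : GIdx n d R => aeval y (gpoly F p d R c)) :=
      hz
    clear hz
    induction hz' using Submodule.span_induction with
    | mem z hz =>
      obtain ⟨c, rfl⟩ := hz
      by_cases hc : aeval y (gpoly F p d R c) = 0
      · change (a : B) * aeval y (gpoly F p d R c) ∈ _
        rw [hc, mul_zero]
        exact Submodule.zero_mem _
      · exact Submodule.subset_span ⟨⟨c, hc⟩, rfl⟩
    | zero =>
      rw [mul_zero]
      exact Submodule.zero_mem _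
    | add u w _ _ ihu ihw =>
      rw [mul_add]
      exact Submodule.add_mem _ ihu ihw
    | smul m u _ ihu =>
      have h2 : (a : B) * (m • u) = (m : B) * ((a : B) * u) := by
        rw [zsmul_eq_mul]
        ring
      rw [h2]
      have h3 := Submodule.smul_mem (Submodule.span (Algebra.adjoin ℤ (Lam F p d R y : Set B))
        (Set.range fun c : {c : GIdx n d R // aeval y (gpoly F p d R c) ≠ 0} =>
          (a : B) * aeval y (gpoly F p d R c.1)))
        (⟨(m : B), LG.LGGlue.int_mem m⟩ : Algebra.adjoin ℤ (Lam F p d R y : Set B)) ihu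
      exact h3

end Pool.Agent.NH
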