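import Pool.Agent.NodHyp.Deh
import Pool.Agent.HermVar.LGModel

set_option autoImplicit false

/-! # LATA: the lattice of the blow up and its charts (definitions are final) -/

namespace Pool.Agent.NH

open MvPolynomial Pool.MP_602153_ag

variable {n : ℕ}

/-- The index set of the generators `x_m ∏_j g_j`. -/
abbrev GIdx (n d R : ℕ) : Type :=
  Fin (n + 1) × (Fin R → ((Fin (d - 1) → Fin (n + 1)) ⊕ Fin (n + 1)))

/-- The possible factors `g_j`: `p^(j+1) x_(w 1) ... x_(w (d-1))` and `∂_l F`. -/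
noncomputable def gfac (F : MvPolynomial (Fin (n + 1)) ℤ) (p d j : ℕ) :
    ((Fin (d - 1) → Fin (n + 1)) ⊕ Fin (n + 1)) → MvPolynomial (Fin (n + 1)) ℤ :=
  Sum.elim (fun w => C (p : ℤ) ^ (j + 1) * ∏ i, X (w i)) (fun l => pderiv l F)

/-- The generators. -/
noncomputable def gpoly (F : MvPolynomial (Fin (n + 1)) ℤ) (p d R : ℕ) (c : GIdx n d R) :
    MvPolynomial (Fin (n + 1)) ℤ :=
  X c.1 * ∏ j : Fin R, gfac F p d j (c.2 j)

/-- The lattice. -/
noncomputable def Lam (F : MvPolynomial (Fin (n + 1)) ℤ) (p d R : ℕ) {B : Type} [CommRing B]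
    (y : Fin (n + 1) → B) : Submodule ℤ B :=
  Submodule.span ℤ (Set.range fun c : GIdx n d R => aeval y (gpoly F p d R c))

theorem gfac_isHomogeneous {F : MvPolynomial (Fin (n + 1)) ℤ} {d : ℕ} (hF : F.IsHomogeneous d)
    (p j : ℕ) (c : (Fin (d - 1) → Fin (n + 1)) ⊕ Fin (n + 1)) :
    (gfac F p d j c).IsHomogeneous (d - 1) := by
  rcases c with w | l
  · show (C (p : ℤ) ^ (j + 1) * ∏ i, X (w i)).IsHomogeneous (d - 1)
    have h1 : (C (p : ℤ) ^ (j + 1) : MvPolynomial (Fin (n + 1)) ℤ).IsHomogeneous 0 := by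
      have := (isHomogeneous_C (Fin (n + 1)) (p : ℤ)).pow (j + 1)
      rwa [zero_mul] at this
    have h2 : (∏ i, X (w i) : MvPolynomial (Fin (n + 1)) ℤ).IsHomogeneous
        (∑ _i : Fin (d - 1), 1) :=
      IsHomogeneous.prod _ _ _ fun i _ => isHomogeneous_X ℤ (w i)
    have h3 := h1.mul h2
    rwa [zero_add, Finset.sum_const, Finset.card_univ, Fintype.card_fin, smul_eq_mul,
      mul_one] at h3
  · exact hF.pderiv

theorem gpoly_isHomogeneous {F : MvPolynomial (Fin (n + 1)) ℤ} {d : ℕ} (hF : F.IsHomogeneous d)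
    (p R : ℕ) (c : GIdx n d R) : (gpoly F p d R c).IsHomogeneous (R * (d - 1) + 1) := by
  have h1 : (∏ j : Fin R, gfac F p d j (c.2 j)).IsHomogeneous (∑ _j : Fin R, (d - 1)) :=
    IsHomogeneous.prod _ _ _ fun j _ => gfac_isHomogeneous hF p j (c.2 j)
  have h2 := (isHomogeneous_X ℤ c.1).mul h1
  rw [Finset.sum_const, Finset.card_univ, Fintype.card_fin, smul_eq_mul,
    add_comm 1 (R * (d - 1))] at h2
  exact h2

theorem LATA_prod_mem {B : Type} [CommRing B] [Algebra ℚ B] (ℬ : ℕ → Submodule ℚ B)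
    [GradedAlgebra ℬ] (y : Fin (n + 1) → B) (hy : ∀ i, y i ∈ ℬ 1) (s : Fin (n + 1) →₀ ℕ) :
    (s.prod fun i k => y i ^ k) ∈ ℬ s.degree := by
  rw [Finsupp.prod_fintype _ _ fun i => pow_zero _, Finsupp.degree_eq_sum]
  have h := SetLike.prod_pow_mem_graded ℬ (fun _ : Fin (n + 1) => 1) y (F := Finset.univ)
    (fun i => s i) fun i _ => hy i
  simpa using h

theorem LATA_aeval_mem {B : Type} [CommRing B] [Algebra ℚ B] (ℬ : ℕ → Submodule ℚ B)
    [GradedAlgebra ℬ] (y : Fin (n + 1) → B) (hy : ∀ i, y i ∈ ℬ 1)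
    (P : MvPolynomial (Fin (n + 1)) ℚ) (k : ℕ) (hP : P.IsHomogeneous k) : aeval y P ∈ ℬ k := by
  rw [P.as_sum, map_sum]
  refine Submodule.sum_mem _ fun s hs => ?_
  have h1 : s.degree = k := by
    have := hP (mem_support_iff.1 hs)
    rwa [Finsupp.degree_eq_weight_one]
  rw [aeval_monomial, ← Algebra.smul_def]
  refine Submodule.smul_mem _ _ ?_
  have h2 := LATA_prod_mem ℬ y hy s
  rwa [h1] at h2

theorem LATA_aeval_int {B : Type} [CommRing B] [Algebra ℚ B] (y : Fin (n + 1) → B)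
    (P : MvPolynomial (Fin (n + 1)) ℤ) :
    aeval y P = aeval y (map (Int.castRingHom ℚ) P) := by
  rw [← algebraMap_int_eq, aeval_map_algebraMap]

theorem LATA_exists_fun (s : Fin (n + 1) →₀ ℕ) (E : ℕ) (hE : s.degree = E) :
    ∃ u : Fin E → Fin (n + 1), ∀ {B : Type} [CommRing B] (y : Fin (n + 1) → B),
      (s.prod fun i k => y i ^ k) = ∏ i, y (u i) := by
  classical
  set l := (Finsupp.toMultiset s).toList with hl
  have hlen : l.length = E := by
    rw [hl, Multiset.length_toList, Finsupp.card_toMultiset, ← hE]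
    rfl
  refine ⟨fun i => l.get (i.cast hlen.symm), ?_⟩
  intro B _ y
  have h1 : ∏ i : Fin E, y (l.get (i.cast hlen.symm)) = ∏ i : Fin l.length, y (l.get i) :=
    Fintype.prod_equiv (finCongr hlen.symm) _ _ fun i => rfl
  have h2 : ∏ i : Fin l.length, y (l.get i) = (l.map y).prod := by
    rw [← List.prod_ofFn]
    congr 1
    have h : List.map y (List.ofFn fun i => l.get i) = List.ofFn (y ∘ fun i => l.get i) :=
      List.map_ofFn
    rw [List.ofFn_get] at h
    exact h.symm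
  have h3 : (l.map y).prod = ((Finsupp.toMultiset s).map y).prod := by
    rw [← Multiset.prod_coe, ← Multiset.map_coe, hl, Multiset.coe_toList]
  rw [h1, h2, h3, Finsupp.toMultiset_map, Finsupp.prod_toMultiset, Finsupp.prod_mapDomain_index]
  · intro b; exact pow_zero _
  · intro b m₁ m₂; exact pow_add _ _ _

theorem LATA_split (d R : ℕ) (u : Fin (R * (d - 1) + 1) → Fin (n + 1)) :
    ∃ (m : Fin (n + 1)) (w : Fin R → Fin (d - 1) → Fin (n + 1)), ∀ {B : Type} [CommRing B]
      (y : Fin (n + 1) → B), ∏ i, y (u i) = y m * ∏ j, ∏ i, y (w j i) := by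
  refine ⟨u 0, fun j i => u (finProdFinEquiv (j, i)).succ, ?_⟩
  intro B _ y
  rw [Fin.prod_univ_succ]
  congr 1
  rw [← Fintype.prod_prod_type' (fun (j : Fin R) (i : Fin (d - 1)) =>
    y (u (finProdFinEquiv (j, i)).succ))]
  exact (Fintype.prod_equiv finProdFinEquiv _ _ fun x => rfl).symm

theorem LATA_homog {B : Type} [CommRing B] [Algebra ℚ B] (ℬ : ℕ → Submodule ℚ B)
    [GradedAlgebra ℬ] (y : Fin (n + 1) → B) (hy : ∀ i, y i ∈ ℬ 1)
    (hsurj : Function.Surjective (aeval y : MvPolynomial (Fin (n + 1)) ℚ →ₐ[ℚ] B)) (k : ℕ) (b : B)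
    (hb : b ∈ ℬ k) : ∃ P : MvPolynomial (Fin (n + 1)) ℚ, P.IsHomogeneous k ∧ aeval y P = b := by
  obtain ⟨P, hP⟩ := hsurj b
  refine ⟨homogeneousComponent k P, homogeneousComponent_isHomogeneous k P, ?_⟩
  have h0 : ∀ i, aeval y (homogeneousComponent i P) ∈ ℬ i := fun i =>
    LATA_aeval_mem ℬ y hy _ i (homogeneousComponent_isHomogeneous i P)
  have h1 : b = ∑ i ∈ Finset.range (P.totalDegree + 1), aeval y (homogeneousComponent i P) := by
    rw [← map_sum, sum_homogeneousComponent, hP]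
  have h2 : (DirectSum.decompose ℬ b k : B) = b := DirectSum.decompose_of_mem_same ℬ hb
  have h3 : (DirectSum.decompose ℬ b k : B) = ∑ i ∈ Finset.range (P.totalDegree + 1),
      (DirectSum.decompose ℬ (aeval y (homogeneousComponent i P)) k : B) := by
    rw [h1, DirectSum.decompose_sum, DirectSum.sum_apply, AddSubmonoidClass.coe_finsetSum]
  rw [← h2, h3]
  by_cases hk : k ∈ Finset.range (P.totalDegree + 1)
  · rw [Finset.sum_eq_single_of_mem k hk fun i _ hi => DirectSum.decompose_of_mem_ne ℬ (h0 i) hi]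
    exact (DirectSum.decompose_of_mem_same ℬ (h0 k)).symm
  · have h4 : homogeneousComponent k P = 0 := by
      apply homogeneousComponent_eq_zero
      rw [Finset.mem_range] at hk
      omega
    rw [h4, map_zero]
    refine (Finset.sum_eq_zero fun i hi => ?_).symm
    exact DirectSum.decompose_of_mem_ne ℬ (h0 i) (fun h => hk (h ▸ hi))

/-- `ℬ E` is spanned by the monomials of degree `E` in the `y_i`; they are in the rational span of `Lam`. -/
theorem isLat_Lam {F : MvPolynomial (Fin (n + 1)) ℤ} {d : ℕ} (hF : F.IsHomogeneous d) {p : ℕ}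
    (hp : p.Prime) (R : ℕ) {B : Type} [CommRing B] [Algebra ℚ B] (ℬ : ℕ → Submodule ℚ B)
    [GradedAlgebra ℬ] (y : Fin (n + 1) → B) (hy : ∀ i, y i ∈ ℬ 1)
    (hsurj : Function.Surjective (aeval y : MvPolynomial (Fin (n + 1)) ℚ →ₐ[ℚ] B)) :
    LG.IsLat (ℬ (R * (d - 1) + 1)) (Lam F p d R y) := by
  refine ⟨Submodule.fg_span (Set.finite_range _), le_antisymm ?_ ?_⟩
  · rw [Submodule.span_le]
    intro x hx
    have h1 : Lam F p d R y ≤ (ℬ (R * (d - 1) + 1)).restrictScalars ℤ := by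
      unfold Lam
      rw [Submodule.span_le]
      rintro _ ⟨c, rfl⟩
      show aeval y (gpoly F p d R c) ∈ ℬ (R * (d - 1) + 1)
      rw [LATA_aeval_int]
      exact LATA_aeval_mem ℬ y hy _ _ ((gpoly_isHomogeneous hF p R c).map _)
    exact h1 hx
  · intro b hb
    obtain ⟨P, hP, rfl⟩ := LATA_homog ℬ y hy hsurj _ b hb
    rw [P.as_sum, map_sum]
    refine Submodule.sum_mem _ fun s hs => ?_
    have h1 : s.degree = R * (d - 1) + 1 := by
      have := hP (mem_support_iff.1 hs)
      rwa [Finsupp.degree_eq_weight_one]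
    rw [aeval_monomial, ← Algebra.smul_def]
    refine Submodule.smul_mem _ _ ?_
    obtain ⟨u, hu⟩ := LATA_exists_fun s _ h1
    obtain ⟨m, w, hw⟩ := LATA_split d R u
    have h2 : (s.prod fun i k => y i ^ k) = y m * ∏ j, ∏ i, y (w j i) := (hu y).trans (hw y)
    rw [h2]
    have h3 : aeval y (gpoly F p d R (m, fun j => Sum.inl (w j))) =
        (∏ j : Fin R, (p : ℚ) ^ ((j : ℕ) + 1)) • (y m * ∏ j, ∏ i, y (w j i)) := by
      unfold gpoly gfac
      simp only [Sum.elim_inl, map_mul, map_prod, map_pow, aeval_X, aeval_C]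
      rw [Finset.prod_mul_distrib, Algebra.smul_def, map_prod]
      simp only [map_pow, map_natCast]
      ring
    have h4 : (∏ j : Fin R, (p : ℚ) ^ ((j : ℕ) + 1)) ≠ 0 :=
      Finset.prod_ne_zero_iff.2 fun j _ => pow_ne_zero _ (by exact_mod_cast hp.ne_zero)
    have h5 : y m * ∏ j, ∏ i, y (w j i) = (∏ j : Fin R, (p : ℚ) ^ ((j : ℕ) + 1))⁻¹ •
        aeval y (gpoly F p d R (m, fun j => Sum.inl (w j))) := by
      rw [h3, smul_smul, inv_mul_cancel₀ h4, one_smul]
    rw [h5]
    exact Submodule.smul_mem _ _ (Submodule.subset_span (Submodule.subset_span ⟨_, rfl⟩))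

/-- The affine coordinates `y_i / y_m` in the fraction field. -/
noncomputable def eta {B : Type} [CommRing B] [IsDomain B] (y : Fin (n + 1) → B) (m : Fin (n + 1)) :
    Fin (n + 1) → FractionRing B :=
  fun i => algebraMap B (FractionRing B) (y i) / algebraMap B (FractionRing B) (y m)

/-- The ring homomorphism `θ` of the chart. -/
noncomputable def thet {B : Type} [CommRing B] [IsDomain B] (y : Fin (n + 1) → B) (m : Fin (n + 1)) :
    MvPolynomial {i : Fin (n + 1) // i ≠ m} ℤ →+* FractionRing B :=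
  (aeval fun i : {i : Fin (n + 1) // i ≠ m} => eta y m i.1).toRingHom

end Pool.Agent.NH
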