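import Pool.Agent.NodHyp.FDefs

set_option autoImplicit false

/-! # MACA: the Macaulay minor

Chart `x_m = 1`, variables `y_i`, `i ≠ m`, number `n`; `s = n (d - 2) + 1`. Every monomial `μ` of degree `s` in the `y_i` is divisible by
some `y_i ^ (d - 1)`, `i = i(μ)` (choose one; pigeonhole). For a form `g_d = topf m u` let `M(u)` be the square matrix indexed by the
monomials of degree `s` whose column `μ` consists of the coefficients of `(μ / y_i ^ (d-1)) ∂g_d/∂y_i`, a form of degree `s`;
`ρ = det M(u) ∈ ℤ[Um]`. For the Fermat form `∑ y_i ^ d` the matrix is `d · 1`, so `ρ` takes the value `d ^ (..)`, so it is nonzero modulo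
`p` for `p ∤ d`. If `ρ (u) ≠ 0` in `k` then the columns span all forms of degree `s`, so each monomial of degree `s` is `∑ q_i ∂g_d/∂y_i` with
`q_i` homogeneous of degree `s - (d - 1)`. -/

namespace Pool.Agent.NH

open MvPolynomial

/-- the restriction of an exponent to the variables other than `x_m` -/
noncomputable def resm {n : ℕ} (m : Fin (n + 1)) (α : Fin (n + 1) →₀ ℕ) :
    {i : Fin (n + 1) // i ≠ m} →₀ ℕ :=
  Finsupp.equivFunOnFinite.symm fun i => α i.1

/-- the top form in the chart `x_m = 1` -/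
noncomputable def topf {R : Type} [CommRing R] {n d : ℕ} (m : Fin (n + 1)) (u : Um n d m → R) :
    MvPolynomial {i : Fin (n + 1) // i ≠ m} R := ∑ α, monomial (resm m α.1.1) (u α)

namespace MacAAux

variable {n d : ℕ} {m : Fin (n + 1)}

/-- the monomials of degree `s` -/
abbrev TT (n d : ℕ) (m : Fin (n + 1)) : Type :=
  {μ : {i : Fin (n + 1) // i ≠ m} →₀ ℕ //
    μ ∈ Finset.finsuppAntidiag (Finset.univ : Finset {i : Fin (n + 1) // i ≠ m})
      (n * (d - 2) + 1)}

theorem mem_iff {σ : Type} [Fintype σ] [DecidableEq σ] (μ : σ →₀ ℕ) (s : ℕ) :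
    μ ∈ Finset.finsuppAntidiag (Finset.univ : Finset σ) s ↔ μ.degree = s := by
  rw [Finset.mem_finsuppAntidiag, Finsupp.degree_eq_sum]
  simp

theorem degree_resm {α : Fin (n + 1) →₀ ℕ} (h : α m = 0) : (resm m α).degree = α.degree := by
  rw [Finsupp.degree_eq_sum, Finsupp.degree_eq_sum]
  have h1 : ∑ i : Fin (n + 1), α i = ∑ i ∈ Finset.univ.filter (fun i => i ≠ m), α i := by
    rw [Finset.sum_filter]
    refine Finset.sum_congr rfl fun i _ => ?_
    split_ifs with h2
    · rfl
    · push Not at h2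
      rw [h2, h]
  rw [h1]
  exact (Finset.sum_subtype (p := fun i => i ≠ m) _ (by simp) (fun i => α i)).symm

theorem exists_ix (hd : 2 ≤ d) (μ : TT n d m) : ∃ i, d - 1 ≤ μ.1 i := by
  by_contra hcon
  push Not at hcon
  have h1 := (mem_iff _ _).mp μ.2
  rw [Finsupp.degree_eq_sum] at h1
  have h2 : ∑ i, μ.1 i ≤ ∑ _i : {i : Fin (n + 1) // i ≠ m}, (d - 2) := by
    refine Finset.sum_le_sum fun i _ => ?_
    have := hcon i
    omega
  rw [Finset.sum_const, Finset.card_univ] at h2
  have h3 : Fintype.card {i : Fin (n + 1) // i ≠ m} = n := by simp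
  rw [h3, h1, smul_eq_mul] at h2
  omega

/-- the chosen variable -/
noncomputable def ix (hd : 2 ≤ d) (μ : TT n d m) : {i : Fin (n + 1) // i ≠ m} :=
  (exists_ix hd μ).choose

theorem ix_spec (hd : 2 ≤ d) (μ : TT n d m) : d - 1 ≤ μ.1 (ix hd μ) :=
  (exists_ix hd μ).choose_spec

/-- the multiplier -/
noncomputable def mu' (hd : 2 ≤ d) (μ : TT n d m) : {i : Fin (n + 1) // i ≠ m} →₀ ℕ :=
  μ.1 - Finsupp.single (ix hd μ) (d - 1)

theorem mu'_add (hd : 2 ≤ d) (μ : TT n d m) :
    mu' hd μ + Finsupp.single (ix hd μ) (d - 1) = μ.1 := by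
  unfold mu'
  refine tsub_add_cancel_of_le ?_
  rw [Finsupp.single_le_iff]
  exact ix_spec hd μ

theorem mu'_degree (hd : 2 ≤ d) (μ : TT n d m) :
    (mu' hd μ).degree = n * (d - 2) + 1 - (d - 1) ∧ d - 1 ≤ n * (d - 2) + 1 := by
  have h1 := (mem_iff _ _).mp μ.2
  have h2 := congrArg Finsupp.degree (mu'_add hd μ)
  rw [map_add, Finsupp.degree_single, h1] at h2
  omega

/-- the column polynomial -/
noncomputable def col {R : Type} [CommRing R] (hd : 2 ≤ d) (u : Um n d m → R) (μ : TT n d m) :
    MvPolynomial {i : Fin (n + 1) // i ≠ m} R :=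
  monomial (mu' hd μ) 1 * pderiv (ix hd μ) (topf m u)

/-- the matrix -/
noncomputable def Mac {R : Type} [CommRing R] (hd : 2 ≤ d) (u : Um n d m → R) :
    Matrix (TT n d m) (TT n d m) R :=
  Matrix.of fun ν μ => coeff ν.1 (col hd u μ)

theorem topf_map {R S : Type} [CommRing R] [CommRing S] (φ : R →+* S) (u : Um n d m → R) :
    map φ (topf m u) = topf m (fun α => φ (u α)) := by
  unfold topf
  rw [map_sum]
  exact Finset.sum_congr rfl fun α _ => map_monomial _ _ _

theorem Mac_map {R S : Type} [CommRing R] [CommRing S] (φ : R →+* S) (hd : 2 ≤ d)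
    (u : Um n d m → R) : φ.mapMatrix (Mac hd u) = Mac hd (fun α => φ (u α)) := by
  ext ν μ
  simp only [Mac, col, RingHom.mapMatrix_apply, Matrix.map_apply, Matrix.of_apply]
  rw [← coeff_map, map_mul, map_monomial, map_one, ← pderiv_map, topf_map]

theorem topf_hom {R : Type} [CommRing R] (u : Um n d m → R) : (topf m u).IsHomogeneous d := by
  unfold topf
  refine IsHomogeneous.sum _ _ _ fun α _ => ?_
  refine isHomogeneous_monomial _ ?_
  rw [degree_resm α.2]
  exact (mem_iff _ _).mp α.1.2

theorem col_hom {R : Type} [CommRing R] (hd : 2 ≤ d) (u : Um n d m → R) (μ : TT n d m) :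
    (col hd u μ).IsHomogeneous (n * (d - 2) + 1) := by
  obtain ⟨h1, h2⟩ := mu'_degree hd μ
  have h3 : (monomial (mu' hd μ) (1 : R)).IsHomogeneous (n * (d - 2) + 1 - (d - 1)) :=
    isHomogeneous_monomial _ h1
  have h4 := h3.mul ((topf_hom u).pderiv (i := ix hd μ))
  rw [Nat.sub_add_cancel h2] at h4
  exact h4

open Classical in
/-- the coefficients of the Fermat form -/
noncomputable def fer (R : Type) [CommRing R] (n d : ℕ) (m : Fin (n + 1)) : Um n d m → R :=
  fun α => if ∃ i : {i : Fin (n + 1) // i ≠ m}, α.1.1 = Finsupp.single i.1 d then 1 else 0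

theorem topf_fer (R : Type) [CommRing R] (hd : 2 ≤ d) :
    topf m (fer R n d m) = ∑ i : {i : Fin (n + 1) // i ≠ m}, X i ^ d := by
  classical
  unfold topf fer
  have hmem : ∀ i : {i : Fin (n + 1) // i ≠ m},
      (Finsupp.single i.1 d : Fin (n + 1) →₀ ℕ) ∈
        Finset.finsuppAntidiag (Finset.univ : Finset (Fin (n + 1))) d := by
    intro i
    rw [mem_iff, Finsupp.degree_single]
  have h0 : ∀ i : {i : Fin (n + 1) // i ≠ m}, (Finsupp.single i.1 d : Fin (n + 1) →₀ ℕ) m = 0 := by
    intro i
    rw [Finsupp.single_eq_of_ne]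
    exact fun h => i.2 h.symm
  let e : {i : Fin (n + 1) // i ≠ m} → Um n d m := fun i => ⟨⟨Finsupp.single i.1 d, hmem i⟩, h0 i⟩
  have he : Function.Injective e := by
    intro i j hij
    have h1 : (Finsupp.single i.1 d : Fin (n + 1) →₀ ℕ) = Finsupp.single j.1 d :=
      congrArg (fun α : Um n d m => α.1.1) hij
    exact Subtype.ext (Finsupp.single_left_injective (by omega) h1)
  have h1 : ∀ α : Um n d m, α ∉ Finset.univ.image e →
      (monomial (resm m α.1.1) (if ∃ i : {i : Fin (n + 1) // i ≠ m},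
        α.1.1 = Finsupp.single i.1 d then (1 : R) else 0)) = 0 := by
    intro α hα
    rw [if_neg, monomial_zero]
    rintro ⟨i, hi⟩
    apply hα
    rw [Finset.mem_image]
    exact ⟨i, Finset.mem_univ _, Subtype.ext (Subtype.ext hi.symm)⟩
  rw [← Finset.sum_subset (Finset.subset_univ (Finset.univ.image e)) (fun α _ h => h1 α h)]
  rw [Finset.sum_image (fun i _ j _ h => he h)]
  refine Finset.sum_congr rfl fun i _ => ?_
  rw [if_pos ⟨i, rfl⟩, X_pow_eq_monomial]
  have hres : resm m (Finsupp.single i.1 d) = Finsupp.single i d := by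
    ext j
    show (Finsupp.single i.1 d : Fin (n + 1) →₀ ℕ) j.1 = (Finsupp.single i d) j
    by_cases hij : i = j
    · subst hij; simp
    · rw [Finsupp.single_eq_of_ne (fun h => hij (Subtype.ext h.symm)),
        Finsupp.single_eq_of_ne (fun h => hij h.symm)]
  show monomial (resm m (Finsupp.single i.1 d)) 1 = _
  rw [hres]

theorem Mac_fer (R : Type) [CommRing R] (hd : 2 ≤ d) :
    Mac hd (fer R n d m) = (d : R) • (1 : Matrix (TT n d m) (TT n d m) R) := by
  classical
  ext ν μ
  have h1 : col hd (fer R n d m) μ = monomial μ.1 (d : R) := by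
    unfold col
    rw [topf_fer R hd, map_sum]
    rw [Finset.sum_eq_single (ix hd μ)]
    · rw [Derivation.leibniz_pow, pderiv_X_self]
      rw [X_pow_eq_monomial, smul_eq_mul, mul_one, nsmul_eq_mul]
      have e : ((d : ℕ) : MvPolynomial {i : Fin (n + 1) // i ≠ m} R) = C (d : R) := by simp
      rw [e, C_mul_monomial, monomial_mul, mu'_add]
      simp
    · intro j _ hj
      rw [Derivation.leibniz_pow, pderiv_X_of_ne hj]
      simp
    · intro h
      exact absurd (Finset.mem_univ _) h
  simp only [Mac, Matrix.of_apply, h1, coeff_monomial, Matrix.smul_apply, Matrix.one_apply,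
    smul_eq_mul]
  by_cases h : ν = μ
  · subst h; simp
  · rw [if_neg h, if_neg, mul_zero]
    exact fun h2 => h (Subtype.ext h2.symm)

end MacAAux

open MacAAux

theorem exists_rho (n d : ℕ) (hd : 2 ≤ d) (m : Fin (n + 1)) :
    ∃ ρ : MvPolynomial (Um n d m) ℤ,
      (∀ p : ℕ, p.Prime → ¬ p ∣ d → map (Int.castRingHom (ZMod p)) ρ ≠ 0) ∧
      ∀ (k : Type) [Field k] (u : Um n d m → k), eval₂ (Int.castRingHom k) u ρ ≠ 0 →
        ∀ μ : {i : Fin (n + 1) // i ≠ m} →₀ ℕ, μ.degree = n * (d - 2) + 1 →
          ∃ q : {i : Fin (n + 1) // i ≠ m} → MvPolynomial {i : Fin (n + 1) // i ≠ m} k,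
            (∀ i, (q i).IsHomogeneous (n * (d - 2) + 1 - (d - 1))) ∧
            monomial μ 1 = ∑ i, q i * pderiv i (topf m u) := by
  classical
  have hev : ∀ (k : Type) [CommRing k] (u : Um n d m → k),
      eval₂ (Int.castRingHom k) u (Mac (R := MvPolynomial (Um n d m) ℤ) hd (fun α => X α)).det
        = (Mac hd u).det := by
    intro k _ u
    have h1 := RingHom.map_det (eval₂Hom (Int.castRingHom k) u)
      (Mac (R := MvPolynomial (Um n d m) ℤ) hd (fun α => X α))
    rw [Mac_map] at h1
    simp only [coe_eval₂Hom, eval₂_X] at h1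
    exact h1
  refine ⟨(Mac (R := MvPolynomial (Um n d m) ℤ) hd (fun α => X α)).det, ?_, ?_⟩
  · intro p hp hpd h0
    have : Fact p.Prime := ⟨hp⟩
    have h1 := hev (ZMod p) (fer (ZMod p) n d m)
    rw [← eval_map, h0, map_zero, Mac_fer, Matrix.det_smul, Matrix.det_one, mul_one] at h1
    have h2 : (d : ZMod p) ≠ 0 := by
      intro h3
      exact hpd ((ZMod.natCast_eq_zero_iff d p).mp h3)
    exact (pow_ne_zero _ h2) h1.symm
  · intro k _ u hu μ hμ
    rw [hev k u] at hu
    set μT : TT n d m := ⟨μ, (mem_iff _ _).mpr hμ⟩ with hμT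
    -- the coefficients
    set c : TT n d m → k := Matrix.mulVec (Mac hd u)⁻¹ (Pi.single μT 1) with hc
    have hMc : Matrix.mulVec (Mac hd u) c = Pi.single μT 1 := by
      rw [hc, Matrix.mulVec_mulVec, Matrix.mul_nonsing_inv _ (isUnit_iff_ne_zero.mpr hu),
        Matrix.one_mulVec]
    refine ⟨fun i => ∑ μ' ∈ Finset.univ.filter (fun μ' : TT n d m => ix hd μ' = i),
      C (c μ') * monomial (mu' hd μ') 1, ?_, ?_⟩
    · intro i
      refine IsHomogeneous.sum _ _ _ fun μ' _ => ?_
      rw [C_mul_monomial]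
      exact isHomogeneous_monomial _ (mu'_degree hd μ').1
    · have h1 : ∑ i, (∑ μ' ∈ Finset.univ.filter (fun μ' : TT n d m => ix hd μ' = i),
          C (c μ') * monomial (mu' hd μ') 1) * pderiv i (topf m u)
          = ∑ μ', C (c μ') * col hd u μ' := by
        rw [← Finset.sum_fiberwise Finset.univ (fun μ' : TT n d m => ix hd μ')
          (fun μ' => C (c μ') * col hd u μ')]
        refine Finset.sum_congr rfl fun i _ => ?_
        rw [Finset.sum_mul]
        refine Finset.sum_congr rfl fun μ' hμ' => ?_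
        rw [Finset.mem_filter] at hμ'
        unfold col
        rw [hμ'.2, mul_assoc]
      rw [h1]
      ext ν
      rw [coeff_monomial, coeff_sum]
      simp only [coeff_C_mul]
      by_cases hν : ν.degree = n * (d - 2) + 1
      · set νT : TT n d m := ⟨ν, (mem_iff _ _).mpr hν⟩ with hνT
        have h2 := congrFun hMc νT
        simp only [Matrix.mulVec, dotProduct, Mac, Matrix.of_apply] at h2
        have h3 : ∑ μ', c μ' * coeff ν (col hd u μ') = (Pi.single μT (1 : k) : TT n d m → k) νT := by
          rw [← h2]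
          exact Finset.sum_congr rfl fun μ' _ => mul_comm _ _
        rw [h3, Pi.single_apply]
        by_cases h4 : μ = ν
        · rw [if_pos h4, if_pos (Subtype.ext h4.symm)]
        · rw [if_neg h4, if_neg]
          intro h5
          exact h4 (congrArg (fun t : TT n d m => t.1) h5).symm
      · rw [if_neg (fun h => hν (by rw [← h]; exact hμ))]
        symm
        refine Finset.sum_eq_zero fun μ' _ => ?_
        have h2 : coeff ν (col hd u μ') = 0 := by
          by_contra h3
          apply hν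
          rw [Finsupp.degree_eq_weight_one]
          exact (col_hom hd u μ') h3
        rw [h2, mul_zero]

end Pool.Agent.NH
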