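import Mathlib

set_option autoImplicit false

/-! # SZ: Schwartz-Zippel in boxes of arithmetic progressions

`Mathlib`: `MvPolynomial.schwartz_zippel_totalDegree` (variables `Fin n`; transport along `Fintype.equivFin`). -/

namespace Pool.Agent.NH

open MvPolynomial

theorem SZ_core {R : Type} [CommRing R] [IsDomain R] {V : Type} [Fintype V] {c : MvPolynomial V R}
    (hc : c ≠ 0) (L : ℕ) (f : V → Fin L → R) (hf : ∀ i, Function.Injective (f i)) :
    L * Nat.card {x : V → Fin L // eval (fun i => f i (x i)) c = 0} ≤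
      c.totalDegree * L ^ Fintype.card V := by
  classical
  rcases Nat.eq_zero_or_pos L with hL | hL
  · subst hL
    simp
  set n := Fintype.card V with hn
  let e : V ≃ Fin n := Fintype.equivFin V
  let p : MvPolynomial (Fin n) R := rename e c
  have hp : p ≠ 0 := by
    intro h0
    apply hc
    apply rename_injective e e.injective
    rw [map_zero]
    exact h0
  have hdeg : p.totalDegree ≤ c.totalDegree := totalDegree_rename_le e c
  let S : Fin n → Finset R := fun i => Finset.univ.image (f (e.symm i))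
  have hS : ∀ i, (S i).card = L := by
    intro i
    rw [Finset.card_image_of_injective _ (hf _), Finset.card_univ, Fintype.card_fin]
  have h1 := schwartz_zippel_sup_sum hp S
  have hcard : Nat.card {x : V → Fin L // eval (fun i => f i (x i)) c = 0} ≤
      ((Fintype.piFinset S).filter (fun x => eval x p = 0)).card := by
    rw [← Nat.card_eq_finsetCard]
    refine Nat.card_le_card_of_injective (fun x => ⟨fun i => f (e.symm i) (x.1 (e.symm i)), ?_⟩) ?_
    · rw [Finset.mem_filter]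
      constructor
      · rw [Fintype.mem_piFinset]
        intro i
        exact Finset.mem_image_of_mem _ (Finset.mem_univ _)
      · have h2 := x.2
        change eval _ (rename e c) = 0
        rw [eval_rename]
        refine Eq.trans ?_ h2
        congr 2
        funext i
        simp
    · intro x y hxy
      have h3 := congrArg Subtype.val hxy
      apply Subtype.ext
      funext i
      have h4 := congrFun h3 (e i)
      simp only [Equiv.symm_apply_apply] at h4
      exact hf i h4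
  have hprod : (∏ i, ((S i).card : ℚ≥0)) = (L : ℚ≥0) ^ n := by
    rw [Finset.prod_congr rfl (fun i _ => by rw [hS i])]
    simp
  have hsup : (p.support.sup fun s ↦ ∑ i, (s i / ((S i).card : ℚ≥0))) ≤
      (c.totalDegree : ℚ≥0) / L := by
    refine Finset.sup_le ?_
    intro s hs
    have h5 : ∑ i, ((s i : ℚ≥0) / ((S i).card : ℚ≥0)) = ((∑ i, s i : ℕ) : ℚ≥0) / L := by
      rw [Nat.cast_sum, Finset.sum_div]
      exact Finset.sum_congr rfl (fun i _ => by rw [hS i])
    rw [h5]
    have h6 : (∑ i, s i) ≤ c.totalDegree := by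
      refine le_trans ?_ hdeg
      have := le_totalDegree hs
      rw [Finsupp.sum_fintype] at this
      · exact this
      · intro i; rfl
    gcongr
  rw [hprod] at h1
  have h7 := h1.trans hsup
  have hLq : (0 : ℚ≥0) < L := by exact_mod_cast hL
  rw [div_le_div_iff₀ (pow_pos hLq n) hLq] at h7
  have h8 : ((Fintype.piFinset S).filter (fun x => eval x p = 0)).card * L ≤
      c.totalDegree * L ^ n := by
    exact_mod_cast h7
  calc L * Nat.card {x : V → Fin L // eval (fun i => f i (x i)) c = 0}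
      ≤ L * ((Fintype.piFinset S).filter (fun x => eval x p = 0)).card :=
        Nat.mul_le_mul_left _ hcard
    _ = ((Fintype.piFinset S).filter (fun x => eval x p = 0)).card * L := Nat.mul_comm _ _
    _ ≤ _ := h8

/-- over `ℤ` (dependent sets, `MvPolynomial.schwartz_zippel_sum_degreeOf` or substitute the affine map) -/
theorem sz_int {V : Type} [Fintype V] {c : MvPolynomial V ℤ} (hc : c ≠ 0) {P : ℕ} (hP : 1 ≤ P)
    (L : ℕ) (v₀ : V → ℤ) :
    L * Nat.card {x : V → Fin L // eval (fun i => v₀ i + P * ((x i : ℕ) : ℤ)) c = 0} ≤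
      c.totalDegree * L ^ Fintype.card V := by
  refine SZ_core hc L (fun i y => v₀ i + P * ((y : ℕ) : ℤ)) ?_
  intro i x y hxy
  have h1 : (P : ℤ) * ((x : ℕ) : ℤ) = (P : ℤ) * ((y : ℕ) : ℤ) := by
    have : v₀ i + (P : ℤ) * ((x : ℕ) : ℤ) = v₀ i + (P : ℤ) * ((y : ℕ) : ℤ) := hxy
    linarith
  have hP0 : (P : ℤ) ≠ 0 := by
    exact_mod_cast (by omega : P ≠ 0)
  have h2 := mul_left_cancel₀ hP0 h1
  apply Fin.ext
  exact_mod_cast h2

theorem SZ_cong {p : ℕ} (hp : p.Prime) {P : ℕ} (hP : ¬ p ∣ P) (a₀ : ℤ) {x y : ℕ}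
    (h : ((a₀ + P * (x : ℤ) : ℤ) : ZMod p) = ((a₀ + P * (y : ℤ) : ℤ) : ZMod p)) :
    x % p = y % p := by
  have := Fact.mk hp
  push_cast at h
  have h1 : (P : ZMod p) * (x : ZMod p) = (P : ZMod p) * (y : ZMod p) := add_left_cancel h
  have h2 : (P : ZMod p) ≠ 0 := by
    rw [Ne, ZMod.natCast_eq_zero_iff]
    exact hP
  have h3 := mul_left_cancel₀ h2 h1
  exact (ZMod.natCast_eq_natCast_iff x y p).mp h3

/-- the number of members of a progression in a residue class -/
theorem SZ_class {p : ℕ} (hp : p.Prime) {P : ℕ} (hP : ¬ p ∣ P) (L : ℕ) (a₀ : ℤ) (z : ZMod p) :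
    Nat.card {x : Fin L // ((a₀ + P * ((x : ℕ) : ℤ) : ℤ) : ZMod p) = z} ≤ (L + p - 1) / p := by
  have hpp := hp.pos
  rw [← Nat.card_fin ((L + p - 1) / p)]
  refine Nat.card_le_card_of_injective (fun x => ⟨(x.1 : ℕ) / p, ?_⟩) ?_
  · have hx := x.1.isLt
    rw [Nat.lt_iff_add_one_le, Nat.le_div_iff_mul_le hpp]
    have h1 : (x.1 : ℕ) / p * p ≤ x.1 := Nat.div_mul_le_self _ _
    rw [Nat.add_mul, Nat.one_mul]
    omega
  · intro x y hxy
    have h1 : (x.1 : ℕ) / p = (y.1 : ℕ) / p := by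
      have := congrArg Fin.val hxy
      exact this
    have h2 : (x.1 : ℕ) % p = (y.1 : ℕ) % p := SZ_cong hp hP a₀ (x.2.trans y.2.symm)
    apply Subtype.ext
    apply Fin.ext
    rw [← Nat.div_add_mod (x.1 : ℕ) p, h1, h2, Nat.div_add_mod]

/-- modulo `p ≤ L`: each residue class is hit at most `⌈L / p⌉ ≤ 2 L / p` times in each coordinate -/
theorem sz_le {V : Type} [Fintype V] {p : ℕ} (hp : p.Prime) {c : MvPolynomial V (ZMod p)}
    (hc : c ≠ 0) {P : ℕ} (hP : ¬ p ∣ P) {L : ℕ} (hpL : p ≤ L) (v₀ : V → ℤ) :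
    p * Nat.card {x : V → Fin L // eval (fun i => ((v₀ i + P * ((x i : ℕ) : ℤ) : ℤ) : ZMod p)) c = 0} ≤
      2 ^ Fintype.card V * c.totalDegree * L ^ Fintype.card V := by
  classical
  have := Fact.mk hp
  have hpp := hp.pos
  have : NeZero p := ⟨hpp.ne'⟩
  set n := Fintype.card V with hn
  -- count of zeros over the prime field
  let e : ZMod p ≃ Fin p := (ZMod.finEquiv p).symm.toEquiv
  have h1 := SZ_core hc p (fun _ => e.symm) (fun _ => e.symm.injective)
  have h2 : Nat.card {x : V → Fin p // eval (fun i => e.symm (x i)) c = 0} =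
      Nat.card {y : V → ZMod p // eval y c = 0} := by
    refine Nat.card_congr ?_
    refine Equiv.subtypeEquiv (Equiv.arrowCongr (Equiv.refl V) e.symm) ?_
    intro x
    rfl
  rw [h2] at h1
  set K := (L + p - 1) / p with hK
  have hKL : p * K ≤ 2 * L := by
    have h1 : K * p ≤ L + p - 1 := Nat.div_mul_le_self _ _
    have h2 : p * K = K * p := Nat.mul_comm _ _
    rw [h2]
    exact h1.trans (by omega)
  -- fibres
  have h3 : Nat.card {x : V → Fin L //
      eval (fun i => ((v₀ i + P * ((x i : ℕ) : ℤ) : ℤ) : ZMod p)) c = 0} ≤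
      Nat.card {y : V → ZMod p // eval y c = 0} * K ^ n := by
    let g : {x : V → Fin L //
      eval (fun i => ((v₀ i + P * ((x i : ℕ) : ℤ) : ℤ) : ZMod p)) c = 0} →
      {y : V → ZMod p // eval y c = 0} × (V → Fin K) := fun x =>
        (⟨fun i => ((v₀ i + P * ((x.1 i : ℕ) : ℤ) : ℤ) : ZMod p), x.2⟩,
          fun i => ⟨(x.1 i : ℕ) / p, by
            have hx := (x.1 i).isLt
            rw [hK, Nat.lt_iff_add_one_le, Nat.le_div_iff_mul_le hpp]
            have h1 : (x.1 i : ℕ) / p * p ≤ x.1 i := Nat.div_mul_le_self _ _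
            rw [Nat.add_mul, Nat.one_mul]
            omega⟩)
    have hg : Function.Injective g := by
      intro x y hxy
      have h4 := congrArg (fun z => z.1.1) hxy
      have h5 := congrArg (fun z => z.2) hxy
      apply Subtype.ext
      funext i
      have h6 := congrFun h4 i
      have h7 : (x.1 i : ℕ) / p = (y.1 i : ℕ) / p := congrArg Fin.val (congrFun h5 i)
      have h8 : (x.1 i : ℕ) % p = (y.1 i : ℕ) % p := SZ_cong hp hP (v₀ i) h6
      apply Fin.ext
      rw [← Nat.div_add_mod (x.1 i : ℕ) p, h7, h8, Nat.div_add_mod]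
    refine (Nat.card_le_card_of_injective g hg).trans ?_
    rw [Nat.card_prod, Nat.card_fun, Nat.card_fin, Nat.card_eq_fintype_card (α := V)]
  calc p * Nat.card {x : V → Fin L //
        eval (fun i => ((v₀ i + P * ((x i : ℕ) : ℤ) : ℤ) : ZMod p)) c = 0}
      ≤ p * (Nat.card {y : V → ZMod p // eval y c = 0} * K ^ n) := Nat.mul_le_mul_left _ h3
    _ = p * Nat.card {y : V → ZMod p // eval y c = 0} * K ^ n := by ring
    _ ≤ c.totalDegree * p ^ n * K ^ n := Nat.mul_le_mul_right _ h1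
    _ = c.totalDegree * (p * K) ^ n := by rw [Nat.mul_pow]; ring
    _ ≤ c.totalDegree * (2 * L) ^ n := Nat.mul_le_mul_left _ (Nat.pow_le_pow_left hKL n)
    _ = 2 ^ n * c.totalDegree * L ^ n := by rw [Nat.mul_pow]; ring

/-- modulo `p > L`: the values are different -/
theorem sz_gt {V : Type} [Fintype V] {p : ℕ} (hp : p.Prime) {c : MvPolynomial V (ZMod p)}
    (hc : c ≠ 0) {P : ℕ} (hP : ¬ p ∣ P) {L : ℕ} (hpL : L < p) (v₀ : V → ℤ) :
    L * Nat.card {x : V → Fin L // eval (fun i => ((v₀ i + P * ((x i : ℕ) : ℤ) : ℤ) : ZMod p)) c = 0} ≤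
      c.totalDegree * L ^ Fintype.card V := by
  have := Fact.mk hp
  refine SZ_core hc L (fun i y => ((v₀ i + P * ((y : ℕ) : ℤ) : ℤ) : ZMod p)) ?_
  intro i x y hxy
  have h1 := SZ_cong hp hP (v₀ i) hxy
  rw [Nat.mod_eq_of_lt (x.isLt.trans hpL), Nat.mod_eq_of_lt (y.isLt.trans hpL)] at h1
  exact Fin.ext h1

/-- one coordinate -/
theorem ap_count {p : ℕ} (hp : p.Prime) (S : Finset (ZMod p)) {P : ℕ} (hP : ¬ p ∣ P) (L : ℕ)
    (a₀ : ℤ) : p * Nat.card {x : Fin L // ((a₀ + P * ((x : ℕ) : ℤ) : ℤ) : ZMod p) ∈ S} ≤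
      S.card * (L + p) := by
  have hpp := hp.pos
  set K := (L + p - 1) / p with hK
  have hKL : p * K ≤ L + p := by
    have h1 : K * p ≤ L + p - 1 := Nat.div_mul_le_self _ _
    have h2 : p * K = K * p := Nat.mul_comm _ _
    rw [h2]
    exact h1.trans (by omega)
  let g : {x : Fin L // ((a₀ + P * ((x : ℕ) : ℤ) : ℤ) : ZMod p) ∈ S} → S × Fin K := fun x =>
    (⟨_, x.2⟩, ⟨(x.1 : ℕ) / p, by
      have hx := x.1.isLt
      rw [hK, Nat.lt_iff_add_one_le, Nat.le_div_iff_mul_le hpp]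
      have h1 : (x.1 : ℕ) / p * p ≤ x.1 := Nat.div_mul_le_self _ _
      rw [Nat.add_mul, Nat.one_mul]
      omega⟩)
  have hg : Function.Injective g := by
    intro x y hxy
    have h4 := congrArg (fun z => z.1.1) hxy
    have h5 := congrArg (fun z => z.2) hxy
    have h7 : (x.1 : ℕ) / p = (y.1 : ℕ) / p := congrArg Fin.val h5
    have h8 : (x.1 : ℕ) % p = (y.1 : ℕ) % p := SZ_cong hp hP a₀ h4
    apply Subtype.ext
    apply Fin.ext
    rw [← Nat.div_add_mod (x.1 : ℕ) p, h7, h8, Nat.div_add_mod]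
  have h1 := Nat.card_le_card_of_injective g hg
  rw [Nat.card_prod, Nat.card_fin, Nat.card_eq_finsetCard] at h1
  calc p * Nat.card {x : Fin L // ((a₀ + P * ((x : ℕ) : ℤ) : ℤ) : ZMod p) ∈ S}
      ≤ p * (S.card * K) := Nat.mul_le_mul_left _ h1
    _ = S.card * (p * K) := by ring
    _ ≤ S.card * (L + p) := Nat.mul_le_mul_left _ hKL

/-- a nonzero integer has few large prime factors -/
theorem few_primes {z : ℤ} (hz : z ≠ 0) {L E : ℕ} (hL : 2 ≤ L) (h : z.natAbs ≤ L ^ E) :
    Nat.card {p : ℕ // p.Prime ∧ L < p ∧ (p : ℤ) ∣ z} ≤ E := by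
  classical
  have hz0 : z.natAbs ≠ 0 := Int.natAbs_ne_zero.mpr hz
  let T : Finset ℕ := z.natAbs.primeFactors.filter (fun p => L < p)
  have hcard : Nat.card {p : ℕ // p.Prime ∧ L < p ∧ (p : ℤ) ∣ z} = T.card := by
    rw [← Nat.card_eq_finsetCard]
    refine Nat.card_congr (Equiv.subtypeEquivRight ?_)
    intro p
    rw [Finset.mem_filter, Nat.mem_primeFactors]
    constructor
    · rintro ⟨h1, h2, h3⟩
      exact ⟨⟨h1, Int.natCast_dvd.mp h3, hz0⟩, h2⟩
    · rintro ⟨⟨h1, h3, _⟩, h2⟩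
      exact ⟨h1, h2, Int.natCast_dvd.mpr h3⟩
  rw [hcard]
  by_contra hcon
  push Not at hcon
  have h1 : ∏ p ∈ T, p ≤ z.natAbs := by
    refine Nat.le_of_dvd (Nat.pos_of_ne_zero hz0) ?_
    refine dvd_trans ?_ (Nat.prod_primeFactors_dvd z.natAbs)
    exact Finset.prod_dvd_prod_of_subset _ _ _ (Finset.filter_subset _ _)
  have h2 : L ^ T.card ≤ ∏ p ∈ T, p := by
    rw [← Finset.prod_const]
    exact Finset.prod_le_prod' (fun p hp => (Finset.mem_filter.mp hp).2.le)
  have h3 : L ^ E < L ^ T.card := Nat.pow_lt_pow_right (by omega) hcon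
  omega

/-- values of polynomials -/
theorem value_bound {V : Type} [Fintype V] (c : MvPolynomial V ℤ) : ∃ A : ℕ, ∀ (T : ℕ) (v : V → ℤ),
    1 ≤ T → (∀ i, |v i| ≤ T) → (eval v c).natAbs ≤ A * T ^ c.totalDegree := by
  classical
  refine ⟨∑ s ∈ c.support, (coeff s c).natAbs, ?_⟩
  intro T v hT hv
  have h1 : |eval v c| ≤ ((∑ s ∈ c.support, (coeff s c).natAbs : ℕ) : ℤ) * (T : ℤ) ^ c.totalDegree := by
    rw [eval_eq]
    refine (Finset.abs_sum_le_sum_abs _ _).trans ?_
    rw [Nat.cast_sum, Finset.sum_mul]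
    refine Finset.sum_le_sum ?_
    intro s hs
    rw [abs_mul, Int.natCast_natAbs]
    refine mul_le_mul_of_nonneg_left ?_ (abs_nonneg _)
    rw [Finset.abs_prod]
    calc ∏ i ∈ s.support, |v i ^ s i| ≤ ∏ i ∈ s.support, (T : ℤ) ^ s i := by
          refine Finset.prod_le_prod (fun i _ => abs_nonneg _) ?_
          intro i _
          rw [abs_pow]
          exact pow_le_pow_left₀ (abs_nonneg _) (hv i) _
      _ = (T : ℤ) ^ (∑ i ∈ s.support, s i) := by rw [Finset.prod_pow_eq_pow_sum]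
      _ ≤ (T : ℤ) ^ c.totalDegree := by
          refine pow_le_pow_right₀ (by exact_mod_cast hT) ?_
          exact le_totalDegree hs
  have h2 : ((eval v c).natAbs : ℤ) ≤
      (((∑ s ∈ c.support, (coeff s c).natAbs) * T ^ c.totalDegree : ℕ) : ℤ) := by
    rw [Int.natCast_natAbs]
    refine h1.trans (le_of_eq ?_)
    push_cast
    rfl
  exact_mod_cast h2

/-- `∑_{p > M} 1 / p ^ 2 ≤ 1 / M`, for a finite set of integers. -/
theorem sum_inv_sq {M : ℕ} (hM : 1 ≤ M) (T : Finset ℕ) (hT : ∀ p ∈ T, M < p) :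
    ∑ p ∈ T, (1 : ℝ) / (p : ℝ) ^ 2 ≤ 1 / M := by
  classical
  let N := max M (T.sup id)
  have hsub : T ⊆ Finset.Ioc M N := by
    intro p hp
    rw [Finset.mem_Ioc]
    exact ⟨hT p hp, le_max_of_le_right (Finset.le_sup (f := id) hp)⟩
  calc ∑ p ∈ T, (1 : ℝ) / (p : ℝ) ^ 2 ≤ ∑ p ∈ Finset.Ioc M N, (1 : ℝ) / (p : ℝ) ^ 2 := by
        refine Finset.sum_le_sum_of_subset_of_nonneg hsub ?_
        intro i _ _
        positivity
    _ = ∑ p ∈ Finset.Ioc M N, ((p : ℝ) ^ 2)⁻¹ := by
        refine Finset.sum_congr rfl (fun p _ => by rw [one_div])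
    _ ≤ (M : ℝ)⁻¹ - (N : ℝ)⁻¹ := sum_Ioc_inv_sq_le_sub (by omega) (le_max_left _ _)
    _ ≤ 1 / M := by
        rw [one_div]
        have : (0 : ℝ) ≤ (N : ℝ)⁻¹ := by positivity
        linarith

end Pool.Agent.NH
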