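import Pool.Agent.NodHyp.SZ

set_option autoImplicit false

/-! # SIEVE: the abstract sieve, part (A) -/

namespace Pool.Agent.NH

open MvPolynomial

namespace SieveAux

theorem card_mono {α : Type} [Finite α] {A B : α → Prop} (h : ∀ x, A x → B x) :
    Nat.card {x // A x} ≤ Nat.card {x // B x} :=
  Nat.card_le_card_of_injective (Subtype.map id h) (Subtype.map_injective h Function.injective_id)

theorem card_fib {α β : Type} [Finite α] [Finite β] (A : α → Prop) (R : α → β → Prop) (k : ℕ)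
    (h : ∀ a b, R a b → A a) (hk : ∀ a, A a → Nat.card {b // R a b} ≤ k) :
    Nat.card {x : α × β // R x.1 x.2} ≤ Nat.card {a // A a} * k := by
  classical
  have e : {x : α × β // R x.1 x.2} ≃ Σ a : {a // A a}, {b // R a.1 b} :=
    { toFun := fun x => ⟨⟨x.1.1, h _ _ x.2⟩, ⟨x.1.2, x.2⟩⟩
      invFun := fun y => ⟨(y.1.1, y.2.1), y.2.2⟩
      left_inv := fun x => rfl
      right_inv := fun y => rfl }
  have : Fintype {a // A a} := Fintype.ofFinite _
  rw [Nat.card_congr e, Nat.card_sigma]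
  calc ∑ a : {a // A a}, Nat.card {b // R a.1 b} ≤ ∑ a : {a // A a}, k :=
        Finset.sum_le_sum fun a _ => hk a.1 a.2
    _ = Nat.card {a // A a} * k := by
        rw [Finset.sum_const, Nat.card_eq_fintype_card, Finset.card_univ, smul_eq_mul]

theorem card_exists_le {α ι : Type} [Finite α] (T : Finset ι) (R : ι → α → Prop) :
    Nat.card {x // ∃ p ∈ T, R p x} ≤ ∑ p ∈ T, Nat.card {x // R p x} := by
  classical
  have : Fintype α := Fintype.ofFinite _
  have h1 : ∀ Q : α → Prop, Nat.card {x // Q x} = (Finset.univ.filter Q).card := by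
    intro Q
    rw [Nat.card_eq_fintype_card, Fintype.card_subtype]
  rw [h1]
  simp_rw [h1]
  refine (Finset.card_le_card ?_).trans Finset.card_biUnion_le
  intro x hx
  simp only [Finset.mem_filter, Finset.mem_univ, true_and, Finset.mem_biUnion] at hx ⊢
  exact hx

theorem card_or {α : Type} [Finite α] (A B : α → Prop) :
    Nat.card {x // A x ∨ B x} ≤ Nat.card {x // A x} + Nat.card {x // B x} := by
  classical
  have : Fintype α := Fintype.ofFinite _
  have h1 : ∀ Q : α → Prop, Nat.card {x // Q x} = (Finset.univ.filter Q).card := by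
    intro Q
    rw [Nat.card_eq_fintype_card, Fintype.card_subtype]
  rw [h1, h1, h1]
  refine (Finset.card_le_card ?_).trans (Finset.card_union_le _ _)
  intro x hx
  simp only [Finset.mem_filter, Finset.mem_univ, true_and, Finset.mem_union] at hx ⊢
  exact hx

/-- the large prime factors form a finite set -/
theorem primes_finset {z : ℤ} (hz : z ≠ 0) {L E : ℕ} (hL : 2 ≤ L) (h : z.natAbs ≤ L ^ E) :
    ∃ T : Finset ℕ, T.card ≤ E ∧ ∀ p : ℕ, p ∈ T ↔ (p.Prime ∧ L < p ∧ (p : ℤ) ∣ z) := by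
  classical
  let T : Finset ℕ := (Finset.range (z.natAbs + 1)).filter
    (fun p => p.Prime ∧ L < p ∧ (p : ℤ) ∣ z)
  have hT : ∀ p : ℕ, p ∈ T ↔ (p.Prime ∧ L < p ∧ (p : ℤ) ∣ z) := by
    intro p
    simp only [T, Finset.mem_filter, Finset.mem_range]
    constructor
    · exact fun h => h.2
    · intro h'
      refine ⟨?_, h'⟩
      have := Int.natAbs_dvd_natAbs.2 h'.2.2
      have := Nat.le_of_dvd (Int.natAbs_pos.2 hz) this
      simp at this
      omega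
  refine ⟨T, ?_, hT⟩
  have h1 := few_primes hz hL h
  have h2 : Nat.card {p : ℕ // p.Prime ∧ L < p ∧ (p : ℤ) ∣ z} = T.card :=
    Nat.subtype_card T hT
  rw [← h2]
  exact h1

end SieveAux


/-- part (A): the primes which do not divide `ρ (u)` -/
theorem sieveA {U V : Type} [Fintype U] [Fintype V] (ρ : MvPolynomial U ℤ)
    (Δ : MvPolynomial (U ⊕ V) ℤ) (C M₁ : ℕ) (hΔ0 : Δ ≠ 0)
    (hΔ : ∀ p : ℕ, p.Prime → M₁ < p → map (Int.castRingHom (ZMod p)) Δ ≠ 0)
    (Bad : ℕ → (U → ℤ) → (V → ℤ) → ℤ → Prop)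
    (h1 : ∀ p : ℕ, p.Prime → M₁ < p → ∀ u v a, Bad p u v a → ¬ (p : ℤ) ∣ eval u ρ →
      (p : ℤ) ∣ eval (Sum.elim u v) Δ)
    (h2 : ∀ p : ℕ, p.Prime → M₁ < p → ∀ u v, ¬ (p : ℤ) ∣ eval u ρ →
      ∃ S : Finset (ZMod p), S.card ≤ C ∧ ∀ a : ℤ, Bad p u v a → (a : ZMod p) ∈ S) :
    ∃ K : ℕ, ∀ M P : ℕ, M₁ ≤ M → 1 ≤ M → 1 ≤ P → (∀ p : ℕ, p.Prime → M < p → ¬ p ∣ P) →
      ∃ L₀ : ℕ, ∀ L : ℕ, L₀ ≤ L → ∀ (u₀ : U → ℤ) (v₀ : V → ℤ) (a₀ : ℤ),
        (∀ i, |u₀ i| ≤ 2 * P * L) → (∀ i, |v₀ i| ≤ 2 * P * L) → |a₀| ≤ 2 * P * L →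
        M * Nat.card {x : (U → Fin L) × (V → Fin L) × Fin L // ∃ p : ℕ, p.Prime ∧ M < p ∧
          ¬ (p : ℤ) ∣ eval (fun i => u₀ i + P * ((x.1 i : ℕ) : ℤ)) ρ ∧
          Bad p (fun i => u₀ i + P * ((x.1 i : ℕ) : ℤ)) (fun i => v₀ i + P * ((x.2.1 i : ℕ) : ℤ))
            (a₀ + P * ((x.2.2 : ℕ) : ℤ))} ≤
          K * (L ^ (Fintype.card U + Fintype.card V + 1) +
            M * L ^ (Fintype.card U + Fintype.card V)) := by
  classical
  obtain ⟨A, hA⟩ := value_bound Δ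
  set D := Δ.totalDegree with hD
  set n := Fintype.card U + Fintype.card V with hn
  have hnn : Fintype.card (U ⊕ V) = n := by rw [Fintype.card_sum]
  refine ⟨D + 2 * C * (D + 1) + 2 ^ n * D * (2 * C), ?_⟩
  intro M P hM1 hM hP hprime
  refine ⟨max 2 (A * (3 * P) ^ D), ?_⟩
  intro L hL u₀ v₀ a₀ hu₀ hv₀ ha₀
  have hL2 : 2 ≤ L := (le_max_left _ _).trans hL
  have hLA : A * (3 * P) ^ D ≤ L := (le_max_right _ _).trans hL
  -- the combined vectors
  let w0 : U ⊕ V → ℤ := Sum.elim u₀ v₀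
  let val : ((U ⊕ V) → Fin L) → (U ⊕ V) → ℤ := fun w i => w0 i + P * ((w i : ℕ) : ℤ)
  let Dv : ((U ⊕ V) → Fin L) → ℤ := fun w => eval (val w) Δ
  let rv : ((U ⊕ V) → Fin L) → ℤ := fun w => eval (fun i => val w (Sum.inl i)) ρ
  let Bd : ℕ → ((U ⊕ V) → Fin L) → Fin L → Prop := fun p w t =>
    Bad p (fun i => val w (Sum.inl i)) (fun i => val w (Sum.inr i)) (a₀ + P * ((t : ℕ) : ℤ))
  have hval : ∀ w, Sum.elim (fun i => val w (Sum.inl i)) (fun i => val w (Sum.inr i)) = val w := by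
    intro w
    funext i
    cases i <;> rfl
  have habs : ∀ w i, |val w i| ≤ ((3 * P * L : ℕ) : ℤ) := by
    intro w i
    have h0 : |w0 i| ≤ 2 * P * L := by
      cases i with
      | inl i => exact hu₀ i
      | inr i => exact hv₀ i
    have h1 : ((w i : ℕ) : ℤ) ≤ L := by exact_mod_cast (w i).2.le
    have h2 : |(P : ℤ) * ((w i : ℕ) : ℤ)| ≤ P * L := by
      rw [abs_of_nonneg (by positivity)]
      exact mul_le_mul_of_nonneg_left h1 (by positivity)
    calc |val w i| ≤ |w0 i| + |(P : ℤ) * ((w i : ℕ) : ℤ)| := abs_add_le _ _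
      _ ≤ 2 * P * L + P * L := add_le_add h0 h2
      _ = ((3 * P * L : ℕ) : ℤ) := by push_cast; ring
  have hsize : ∀ w, (Dv w).natAbs ≤ L ^ (D + 1) := by
    intro w
    have h3 := hA (3 * P * L) (val w) (Nat.mul_pos (Nat.mul_pos (by norm_num) hP) (by omega)) (habs w)
    calc (Dv w).natAbs ≤ A * (3 * P * L) ^ D := h3
      _ = (A * (3 * P) ^ D) * L ^ D := by rw [mul_pow]; ring
      _ ≤ L * L ^ D := Nat.mul_le_mul_right _ hLA
      _ = L ^ (D + 1) := by ring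
  have hcardw : Nat.card ((U ⊕ V) → Fin L) = L ^ n := by
    rw [Nat.card_eq_fintype_card, Fintype.card_fun, Fintype.card_fin, hnn]
  -- transport to the combined vectors
  let e : (U → Fin L) × (V → Fin L) × Fin L ≃ ((U ⊕ V) → Fin L) × Fin L :=
    (Equiv.prodAssoc _ _ _).symm.trans
      ((Equiv.sumArrowEquivProdArrow U V (Fin L)).symm.prodCongr (Equiv.refl _))
  let Q : ((U ⊕ V) → Fin L) × Fin L → Prop := fun y =>
    ∃ p : ℕ, p.Prime ∧ M < p ∧ ¬ (p : ℤ) ∣ rv y.1 ∧ Bd p y.1 y.2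
  have hcard : Nat.card {x : (U → Fin L) × (V → Fin L) × Fin L // ∃ p : ℕ, p.Prime ∧ M < p ∧
          ¬ (p : ℤ) ∣ eval (fun i => u₀ i + P * ((x.1 i : ℕ) : ℤ)) ρ ∧
          Bad p (fun i => u₀ i + P * ((x.1 i : ℕ) : ℤ)) (fun i => v₀ i + P * ((x.2.1 i : ℕ) : ℤ))
            (a₀ + P * ((x.2.2 : ℕ) : ℤ))} = Nat.card {y // Q y} := by
    apply Nat.card_congr
    exact e.subtypeEquiv (fun x => Iff.rfl)
  rw [hcard]
  -- the three classes
  let Tp : Finset ℕ := (Finset.Ioc M L).filter Nat.Prime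
  let Q1 : ((U ⊕ V) → Fin L) × Fin L → Prop := fun y => Dv y.1 = 0
  let Q2 : ((U ⊕ V) → Fin L) × Fin L → Prop := fun y => Dv y.1 ≠ 0 ∧
    ∃ p : ℕ, p.Prime ∧ M < p ∧ L < p ∧ ¬ (p : ℤ) ∣ rv y.1 ∧ Bd p y.1 y.2
  let Q3 : ((U ⊕ V) → Fin L) × Fin L → Prop := fun y =>
    ∃ p ∈ Tp, ¬ (p : ℤ) ∣ rv y.1 ∧ Bd p y.1 y.2
  have hsplit : ∀ y, Q y → Q1 y ∨ (Q2 y ∨ Q3 y) := by
    rintro y ⟨p, hp, hMp, hρ, hb⟩
    by_cases h0 : Dv y.1 = 0
    · exact Or.inl h0
    right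
    by_cases hpL : L < p
    · exact Or.inl ⟨h0, p, hp, hMp, hpL, hρ, hb⟩
    · right
      refine ⟨p, ?_, hρ, hb⟩
      simp only [Tp, Finset.mem_filter, Finset.mem_Ioc]
      exact ⟨⟨hMp, by omega⟩, hp⟩
  have hB1 : Nat.card {y // Q1 y} ≤ D * L ^ n := by
    have := SieveAux.card_fib (α := (U ⊕ V) → Fin L) (β := Fin L) (fun w => Dv w = 0)
      (fun w _ => Dv w = 0) L (fun a b h => h) (fun a _ => by
        calc Nat.card {b : Fin L // Dv a = 0} ≤ Nat.card (Fin L) :=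
              Nat.card_le_card_of_injective Subtype.val Subtype.val_injective
          _ = L := by simp)
    refine this.trans ?_
    have h3 := sz_int hΔ0 hP L w0
    rw [hnn] at h3
    rw [mul_comm]
    exact h3
  have hB2 : Nat.card {y // Q2 y} ≤ 2 * C * (D + 1) * L ^ n := by
    have h3 := SieveAux.card_fib (α := (U ⊕ V) → Fin L) (β := Fin L) (fun w => Dv w ≠ 0)
      (fun w t => Dv w ≠ 0 ∧ ∃ p : ℕ, p.Prime ∧ M < p ∧ L < p ∧ ¬ (p : ℤ) ∣ rv w ∧ Bd p w t)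
      (2 * C * (D + 1)) (fun a b h => h.1) ?_
    · refine h3.trans ?_
      have h4 : Nat.card {w // Dv w ≠ 0} ≤ L ^ n := by
        rw [← hcardw]
        exact Nat.card_le_card_of_injective Subtype.val Subtype.val_injective
      rw [mul_comm]
      exact Nat.mul_le_mul_left _ h4
    · intro w hw
      obtain ⟨T, hTc, hT⟩ := SieveAux.primes_finset hw hL2 (hsize w)
      have h5 : Nat.card {t : Fin L // Dv w ≠ 0 ∧ ∃ p : ℕ, p.Prime ∧ M < p ∧ L < p ∧
          ¬ (p : ℤ) ∣ rv w ∧ Bd p w t} ≤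
          Nat.card {t : Fin L // ∃ p ∈ T, M < p ∧ ¬ (p : ℤ) ∣ rv w ∧ Bd p w t} := by
        apply SieveAux.card_mono
        rintro t ⟨-, p, hp, hMp, hLp, hr, hb⟩
        refine ⟨p, (hT p).2 ⟨hp, hLp, ?_⟩, hMp, hr, hb⟩
        have := h1 p hp (by omega) _ _ _ hb hr
        rw [hval] at this
        exact this
      refine h5.trans ((SieveAux.card_exists_le T _).trans ?_)
      have h6 : ∀ p ∈ T, Nat.card {t : Fin L // M < p ∧ ¬ (p : ℤ) ∣ rv w ∧ Bd p w t} ≤ 2 * C := by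
        intro p hpT
        obtain ⟨hp, hLp, -⟩ := (hT p).1 hpT
        by_cases hc : M < p ∧ ¬ (p : ℤ) ∣ rv w
        · obtain ⟨S, hS, hSa⟩ := h2 p hp (by omega) (fun i => val w (Sum.inl i))
            (fun i => val w (Sum.inr i)) hc.2
          have h7 : Nat.card {t : Fin L // M < p ∧ ¬ (p : ℤ) ∣ rv w ∧ Bd p w t} ≤
              Nat.card {t : Fin L // ((a₀ + P * ((t : ℕ) : ℤ) : ℤ) : ZMod p) ∈ S} := by
            apply SieveAux.card_mono
            rintro t ⟨-, -, hb⟩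
            exact hSa _ hb
          have h8 := ap_count hp S (hprime p hp hc.1) L a₀
          have h9 : p * Nat.card {t : Fin L // ((a₀ + P * ((t : ℕ) : ℤ) : ℤ) : ZMod p) ∈ S} ≤
              p * (2 * C) := by
            refine h8.trans ?_
            calc S.card * (L + p) ≤ C * (p + p) := Nat.mul_le_mul hS (by omega)
              _ = p * (2 * C) := by ring
          exact h7.trans (Nat.le_of_mul_le_mul_left h9 hp.pos)
        · have : IsEmpty {t : Fin L // M < p ∧ ¬ (p : ℤ) ∣ rv w ∧ Bd p w t} :=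
            ⟨fun t => hc ⟨t.2.1, t.2.2.1⟩⟩
          rw [Nat.card_of_isEmpty]
          exact Nat.zero_le _
      calc ∑ p ∈ T, Nat.card {t : Fin L // M < p ∧ ¬ (p : ℤ) ∣ rv w ∧ Bd p w t}
          ≤ ∑ p ∈ T, 2 * C := Finset.sum_le_sum h6
        _ = T.card * (2 * C) := by rw [Finset.sum_const, smul_eq_mul]
        _ ≤ (D + 1) * (2 * C) := Nat.mul_le_mul_right _ hTc
        _ = 2 * C * (D + 1) := by ring
  have hB3 : ∀ p ∈ Tp, (Nat.card {y : ((U ⊕ V) → Fin L) × Fin L //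
      ¬ (p : ℤ) ∣ rv y.1 ∧ Bd p y.1 y.2} : ℝ) ≤
        (2 ^ n * D * (2 * C) : ℕ) * (L : ℝ) ^ (n + 1) * (1 / (p : ℝ) ^ 2) := by
    intro p hpT
    simp only [Tp, Finset.mem_filter, Finset.mem_Ioc] at hpT
    obtain ⟨⟨hMp, hpL⟩, hp⟩ := hpT
    have hppos := hp.pos
    have h3 := SieveAux.card_fib (α := (U ⊕ V) → Fin L) (β := Fin L)
      (fun w => ¬ (p : ℤ) ∣ rv w ∧ (p : ℤ) ∣ Dv w)
      (fun w t => ¬ (p : ℤ) ∣ rv w ∧ Bd p w t) (2 * C * L / p) (fun w t h => by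
        refine ⟨h.1, ?_⟩
        have := h1 p hp (by omega) _ _ _ h.2 h.1
        rw [hval] at this
        exact this) (fun w hw => by
        obtain ⟨S, hS, hSa⟩ := h2 p hp (by omega) (fun i => val w (Sum.inl i))
          (fun i => val w (Sum.inr i)) hw.1
        have h7 : Nat.card {t : Fin L // ¬ (p : ℤ) ∣ rv w ∧ Bd p w t} ≤
            Nat.card {t : Fin L // ((a₀ + P * ((t : ℕ) : ℤ) : ℤ) : ZMod p) ∈ S} := by
          apply SieveAux.card_mono
          rintro t ⟨-, hb⟩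
          exact hSa _ hb
        have h8 := ap_count hp S (hprime p hp hMp) L a₀
        refine h7.trans ?_
        rw [Nat.le_div_iff_mul_le hppos]
        calc _ = p * Nat.card {t : Fin L // ((a₀ + P * ((t : ℕ) : ℤ) : ℤ) : ZMod p) ∈ S} := by ring
          _ ≤ S.card * (L + p) := h8
          _ ≤ C * (L + L) := Nat.mul_le_mul hS (by omega)
          _ = 2 * C * L := by ring)
    have h4 : p * Nat.card {w // ¬ (p : ℤ) ∣ rv w ∧ (p : ℤ) ∣ Dv w} ≤ 2 ^ n * D * L ^ n := by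
      have h5 := sz_le hp (hΔ p hp (by omega)) (hprime p hp hMp) hpL w0
      rw [hnn] at h5
      have h6 : Nat.card {w // ¬ (p : ℤ) ∣ rv w ∧ (p : ℤ) ∣ Dv w} ≤
          Nat.card {x : U ⊕ V → Fin L // eval (fun i => ((w0 i + P * ((x i : ℕ) : ℤ) : ℤ) : ZMod p))
            (map (Int.castRingHom (ZMod p)) Δ) = 0} := by
        apply SieveAux.card_mono
        rintro w ⟨-, hd⟩
        have h7 : ((Dv w : ℤ) : ZMod p) = 0 := (ZMod.intCast_zmod_eq_zero_iff_dvd _ _).2 hd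
        have h8 : ((Dv w : ℤ) : ZMod p) = eval (fun i => ((w0 i + P * ((w i : ℕ) : ℤ) : ℤ) : ZMod p))
            (map (Int.castRingHom (ZMod p)) Δ) := by
          rw [eval_map]
          exact (eval₂_comp_left (Int.castRingHom (ZMod p)) (RingHom.id ℤ) (val w) Δ)
        rw [← h8]
        exact h7
      calc p * Nat.card {w // ¬ (p : ℤ) ∣ rv w ∧ (p : ℤ) ∣ Dv w}
          ≤ _ := Nat.mul_le_mul_left _ h6
        _ ≤ _ := h5
        _ ≤ 2 ^ n * D * L ^ n := by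
          gcongr
          exact Finset.sup_mono (support_map_subset _ _)
    have h5 : p * (2 * C * L / p) ≤ 2 * C * L := Nat.mul_div_le _ _
    have h6 : p ^ 2 * Nat.card {y : ((U ⊕ V) → Fin L) × Fin L //
      ¬ (p : ℤ) ∣ rv y.1 ∧ Bd p y.1 y.2} ≤ 2 ^ n * D * (2 * C) * L ^ (n + 1) := by
      calc _ ≤ p ^ 2 * (Nat.card {w // ¬ (p : ℤ) ∣ rv w ∧ (p : ℤ) ∣ Dv w} * (2 * C * L / p)) :=
            Nat.mul_le_mul_left _ h3
        _ = (p * Nat.card {w // ¬ (p : ℤ) ∣ rv w ∧ (p : ℤ) ∣ Dv w}) * (p * (2 * C * L / p)) := by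
            ring
        _ ≤ (2 ^ n * D * L ^ n) * (2 * C * L) := Nat.mul_le_mul h4 h5
        _ = _ := by ring
    have h7 : (p : ℝ) ^ 2 * (Nat.card {y : ((U ⊕ V) → Fin L) × Fin L //
      ¬ (p : ℤ) ∣ rv y.1 ∧ Bd p y.1 y.2} : ℝ) ≤ (2 ^ n * D * (2 * C) : ℕ) * (L : ℝ) ^ (n + 1) := by
      exact_mod_cast h6
    have h8 : (0 : ℝ) < (p : ℝ) ^ 2 := by positivity
    rw [mul_one_div, le_div_iff₀ h8]
    linarith
  have hB3' : M * Nat.card {y // Q3 y} ≤ 2 ^ n * D * (2 * C) * L ^ (n + 1) := by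
    have h3 : (Nat.card {y // Q3 y} : ℝ) ≤
        (2 ^ n * D * (2 * C) : ℕ) * (L : ℝ) ^ (n + 1) * (1 / M) := by
      have h4 : (Nat.card {y // Q3 y} : ℝ) ≤ ∑ p ∈ Tp, (Nat.card {y : ((U ⊕ V) → Fin L) × Fin L //
          ¬ (p : ℤ) ∣ rv y.1 ∧ Bd p y.1 y.2} : ℝ) := by
        exact_mod_cast SieveAux.card_exists_le Tp
          (fun p (y : ((U ⊕ V) → Fin L) × Fin L) => ¬ (p : ℤ) ∣ rv y.1 ∧ Bd p y.1 y.2)
      refine h4.trans ((Finset.sum_le_sum hB3).trans ?_)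
      rw [← Finset.mul_sum]
      refine mul_le_mul_of_nonneg_left (sum_inv_sq hM Tp ?_) (by positivity)
      intro p hp
      simp only [Tp, Finset.mem_filter, Finset.mem_Ioc] at hp
      exact hp.1.1
    have hM' : (0 : ℝ) < M := by exact_mod_cast hM
    have h5 : (M : ℝ) * (Nat.card {y // Q3 y} : ℝ) ≤
        (2 ^ n * D * (2 * C) : ℕ) * (L : ℝ) ^ (n + 1) := by
      calc (M : ℝ) * (Nat.card {y // Q3 y} : ℝ) ≤
            M * ((2 ^ n * D * (2 * C) : ℕ) * (L : ℝ) ^ (n + 1) * (1 / M)) :=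
              mul_le_mul_of_nonneg_left h3 hM'.le
        _ = _ := by field_simp
    exact_mod_cast h5
  have hfin : Nat.card {y // Q y} ≤ Nat.card {y // Q1 y} +
      (Nat.card {y // Q2 y} + Nat.card {y // Q3 y}) :=
    (SieveAux.card_mono hsplit).trans ((SieveAux.card_or _ _).trans
      (Nat.add_le_add_left (SieveAux.card_or _ _) _))
  calc M * Nat.card {y // Q y} ≤ M * (Nat.card {y // Q1 y} +
      (Nat.card {y // Q2 y} + Nat.card {y // Q3 y})) := Nat.mul_le_mul_left _ hfin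
    _ = M * Nat.card {y // Q1 y} + M * Nat.card {y // Q2 y} + M * Nat.card {y // Q3 y} := by ring
    _ ≤ M * (D * L ^ n) + M * (2 * C * (D + 1) * L ^ n) +
        2 ^ n * D * (2 * C) * L ^ (n + 1) := by
        gcongr
    _ ≤ (D + 2 * C * (D + 1) + 2 ^ n * D * (2 * C)) * (L ^ (n + 1) + M * L ^ n) := by
        nlinarith [Nat.zero_le (D * L ^ (n + 1)), Nat.zero_le (2 * C * (D + 1) * L ^ (n + 1)),
          Nat.zero_le (2 ^ n * D * (2 * C) * (M * L ^ n))]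

end Pool.Agent.NH
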