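import Pool.Agent.NodHyp.Loc

set_option autoImplicit false

/-! # SMOOTH: the points at which some partial derivative is a unit

All `g j` are units of `O` (`θ(∂_i f) / g j ∈ O`, and `g j ∈ O` by `gen`), so the fractions `θ u / θ v` form a subring
satisfying the hypotheses of `IsBlow.min`. Apply `regular_of_pres` with `T = MvPolynomial σ ℤ`, `π = θ`,
`g = ![f]`, `e = 1`; independence: `α f ∈ P ^ 2` implies `α ∂_i f ∈ P` (apply `∂_i`), `∂_i f ∉ P`. -/

namespace Pool.Agent.NH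

open MvPolynomial

/-- The fractions `θ u / θ v` with `θ v` invertible in `O`. -/
def SMOOTH_frac {T K : Type} [CommRing T] [Field K] (θ : T →+* K) (O : Subring K) : Subring K where
  carrier := {x | ∃ u v : T, θ v ≠ 0 ∧ (θ v)⁻¹ ∈ O ∧ x * θ v = θ u}
  mul_mem' := by
    rintro x y ⟨u, v, h1, h2, h3⟩ ⟨u', v', h1', h2', h3'⟩
    refine ⟨u * u', v * v', ?_, ?_, ?_⟩
    · rw [map_mul]; exact mul_ne_zero h1 h1'
    · rw [map_mul, mul_inv]; exact O.mul_mem h2 h2'
    · rw [map_mul, map_mul, ← h3, ← h3']; ring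
  one_mem' := ⟨1, 1, by rw [map_one]; exact one_ne_zero, by
    rw [map_one, inv_one]; exact O.one_mem, by rw [one_mul]⟩
  add_mem' := by
    rintro x y ⟨u, v, h1, h2, h3⟩ ⟨u', v', h1', h2', h3'⟩
    refine ⟨u * v' + u' * v, v * v', ?_, ?_, ?_⟩
    · rw [map_mul]; exact mul_ne_zero h1 h1'
    · rw [map_mul, mul_inv]; exact O.mul_mem h2 h2'
    · rw [map_mul, map_add, map_mul, map_mul, ← h3, ← h3']; ring
  zero_mem' := ⟨0, 1, by rw [map_one]; exact one_ne_zero, by
    rw [map_one, inv_one]; exact O.one_mem, by rw [zero_mul, map_zero]⟩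
  neg_mem' := by
    rintro x ⟨u, v, h1, h2, h3⟩
    exact ⟨-u, v, h1, h2, by rw [map_neg, ← h3]; ring⟩

theorem SMOOTH_pderiv_sq {σ : Type} (P : Ideal (MvPolynomial σ ℤ)) (i : σ)
    (x : MvPolynomial σ ℤ) (hx : x ∈ P ^ 2) : pderiv i x ∈ P := by
  rw [sq] at hx
  refine Submodule.mul_induction_on hx (fun u hu v hv => ?_) (fun u v hu hv => ?_)
  · rw [Derivation.leibniz, smul_eq_mul, smul_eq_mul]
    exact P.add_mem (P.mul_mem_right _ hu) (P.mul_mem_right _ hv)
  · rw [map_add]; exact P.add_mem hu hv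

theorem regular_smooth {σ K : Type} [Fintype σ] [DecidableEq σ] [Field K] [CharZero K]
    {f : MvPolynomial σ ℤ} {p : ℕ} (hp : p.Prime) {R : ℕ} {θ : MvPolynomial σ ℤ →+* K}
    (hker : RingHom.ker θ = Ideal.span {f}) {g : Fin R → K} {O : Subring K} [IsLocalRing O]
    (hO : IsBlow f p θ g O)
    (h : ∃ i, θ (pderiv i f) ≠ 0 ∧ (θ (pderiv i f))⁻¹ ∈ O) : IsRegularLocalRing O := by
  obtain ⟨i, hi0, hi⟩ := h
  have hf : θ f = 0 := by
    have : f ∈ RingHom.ker θ := by rw [hker]; exact Ideal.mem_span_singleton_self f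
    exact this
  -- the `g j` are units
  have hginv : ∀ j, (g j)⁻¹ ∈ O := by
    intro j
    have h1 := O.mul_mem (hO.right j i) hi
    have e : θ (pderiv i f) / g j * (θ (pderiv i f))⁻¹ = (g j)⁻¹ := by
      field_simp
    rwa [e] at h1
  have hgθ : ∀ j, ∃ G, θ G = g j := by
    intro j
    obtain ⟨c, e, h1⟩ := hO.gen j
    exact ⟨_, h1.symm⟩
  have hfrac : O ≤ SMOOTH_frac θ O := by
    refine hO.min _ ?_ ?_ ?_ ?_
    · intro u
      exact ⟨u, 1, by rw [map_one]; exact one_ne_zero, by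
        rw [map_one, inv_one]; exact O.one_mem, by rw [map_one, mul_one]⟩
    · intro j
      obtain ⟨G, hG⟩ := hgθ j
      refine ⟨(p : MvPolynomial σ ℤ) ^ ((j : ℕ) + 1), G, by rw [hG]; exact hO.ne j, by
        rw [hG]; exact hginv j, ?_⟩
      rw [hG, map_pow, map_natCast, div_mul_cancel₀ _ (hO.ne j)]
    · intro j l
      obtain ⟨G, hG⟩ := hgθ j
      refine ⟨pderiv l f, G, by rw [hG]; exact hO.ne j, by rw [hG]; exact hginv j, ?_⟩
      rw [hG, div_mul_cancel₀ _ (hO.ne j)]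
    · rintro x ⟨u, v, h1, h2, h3⟩ hx
      by_cases hx0 : x = 0
      · rw [hx0, inv_zero]; exact Subring.zero_mem _
      · refine ⟨v, u, ?_, ?_, ?_⟩
        · rw [← h3]; exact mul_ne_zero hx0 h1
        · rw [← h3, mul_inv]; exact O.mul_mem hx h2
        · rw [← h3, ← mul_assoc, inv_mul_cancel₀ hx0, one_mul]
  refine regular_of_pres (T := MvPolynomial σ ℤ) (ι := Unit) O θ hO.poly
    (fun x hx => ?_) (fun _ => f) (fun _ => hf) 1 (by rw [map_one]; exact one_ne_zero)
    (fun t ht => ⟨0, ?_⟩) ?_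
  · obtain ⟨u, v, h1, h2, h3⟩ := hfrac hx
    exact ⟨u, v, h1, h2, h3⟩
  · rw [pow_zero, one_mul, Set.range_const, ← hker]
    exact ht
  · intro P hP hPmem a ha j
    have hsum : ∑ k : Unit, a k * f = a () * f := by simp
    rw [hsum] at ha
    have h1 := SMOOTH_pderiv_sq P i _ ha
    rw [Derivation.leibniz, smul_eq_mul, smul_eq_mul] at h1
    have hfP : f ∈ P := (hPmem f).2 (Or.inl hf)
    have h2 : f * pderiv i (a ()) ∈ P := P.mul_mem_right _ hfP
    have h3 : a () * pderiv i f ∈ P := (P.add_mem_iff_left h2).1 h1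
    have h4 : pderiv i f ∉ P := fun hc => by
      rcases (hPmem _).1 hc with h5 | h5
      · exact hi0 h5
      · exact h5 hi
    exact (hP.mem_or_mem h3).resolve_right h4

end Pool.Agent.NH
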