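import Mathlib

set_option autoImplicit false

/-!
# Nodal hypersurfaces: the notions of the main theorem
-/

open AlgebraicGeometry CategoryTheory CategoryTheory.Limits

namespace Pool.Agent.NH

open MvPolynomial

/-- The hypersurface `F = 0` in the projective space over `ℚ` is smooth: `F` and its partial
derivatives have no common zero except the origin over fields of characteristic zero. -/
def SmoothQ {n : ℕ} (F : MvPolynomial (Fin (n + 1)) ℤ) : Prop :=
  ∀ (L : Type) [Field L] [CharZero L] (x : Fin (n + 1) → L), aeval x F = 0 →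
    (∀ i, aeval x (pderiv i F) = 0) → x = 0

/-- All singular points of `F = 0` modulo `p` are ordinary double points: at each point `x` with
`x_m ≠ 0`, over any field of characteristic `p`, at which `F` and its partial derivatives vanish,
the Hessian matrix with respect to the variables other than `x_m` is invertible. -/
def NodalAt {n : ℕ} (F : MvPolynomial (Fin (n + 1)) ℤ) (p : ℕ) : Prop :=
  ∀ (L : Type) [Field L] [CharP L p] (x : Fin (n + 1) → L) (m : Fin (n + 1)), x m ≠ 0 →
    aeval x F = 0 → (∀ i, aeval x (pderiv i F) = 0) →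
    (Matrix.of fun a b : {i : Fin (n + 1) // i ≠ m} =>
      aeval x (pderiv a.1 (pderiv b.1 F))).det ≠ 0

/-- The integral forms of degree `d` in `n + 1` variables with coefficients of absolute value at
most `H`. -/
def Box (n d H : ℕ) : Set (MvPolynomial (Fin (n + 1)) ℤ) :=
  {F | F.IsHomogeneous d ∧ ∀ α, |coeff α F| ≤ (H : ℤ)}

/-- The scheme `X` is the generic fibre of an integral, locally Noetherian, regular scheme,
projective and flat over `ℤ`. -/
def HasModelZ (X : Scheme) : Prop :=
  ∃ (Y : Scheme),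
    IsIntegral Y ∧
    IsLocallyNoetherian Y ∧
    (∀ (U : Y.affineOpens) (p : PrimeSpectrum (Y.presheaf.obj (Opposite.op U.1))),
      ringKrullDim (Localization.AtPrime p.asIdeal) =
        (((Module.finrank (IsLocalRing.ResidueField (Localization.AtPrime p.asIdeal))
          (IsLocalRing.CotangentSpace (Localization.AtPrime p.asIdeal)) : ℕ) : ℕ∞) :
            WithBot ℕ∞)) ∧
    (∃ (A : Type) (_ : CommRing A) (𝒜 : ℕ → Submodule ℤ A) (_ : GradedAlgebra 𝒜),
      (∀ a ∈ 𝒜 0, ∃ n : ℤ, (n : A) = a) ∧
      (∃ s : Finset A, (∀ a ∈ s, a ∈ 𝒜 1) ∧ Algebra.adjoin ℤ (s : Set A) = ⊤) ∧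
      Nonempty (Y ≅ Proj 𝒜)) ∧
    Flat (specZIsTerminal.from Y) ∧
    Nonempty (pullback (specZIsTerminal.from Y)
        (specZIsTerminal.from (Spec (CommRingCat.of ℚ))) ≅ X)

/-- The hypersurface `F = 0` over `ℚ`, that is, `Proj` of any graded ring `B` presented as
`ℚ[x_0, ..., x_n] / (F)`, is the generic fibre of an integral, locally Noetherian, regular scheme,
projective and flat over `ℤ`. -/
def HasRegularModel {n : ℕ} (F : MvPolynomial (Fin (n + 1)) ℤ) : Prop :=
  ∀ (B : Type) [CommRing B] [Algebra ℚ B] (ℬ : ℕ → Submodule ℚ B) [GradedAlgebra ℬ]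
    (y : Fin (n + 1) → B) (_hy : ∀ i, y i ∈ ℬ 1)
    (_hsurj : Function.Surjective (aeval y : MvPolynomial (Fin (n + 1)) ℚ →ₐ[ℚ] B))
    (_hker : RingHom.ker (aeval y : MvPolynomial (Fin (n + 1)) ℚ →ₐ[ℚ] B) =
      Ideal.span {map (algebraMap ℤ ℚ) F})
    (X : Scheme) (_hX : Nonempty (X ≅ Proj ℬ)), HasModelZ X

end Pool.Agent.NH
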